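import Pool.Agent.Helper43.Split.Div

/-!
# Sum-decomposable patterns with two large parts, and the increasing pattern of size three
-/

namespace Helper43.Split

variable {U V W : Type}

/-- The value of a point of `1 ⊕ σ`. -/
def wb {S : Type} (f : S → ℤ) : Option S → WithBot ℤ
  | none => ⊥
  | some s => ((f s : ℤ) : WithBot ℤ)

theorem sb_addSW_x {S : Type} [Fintype S] (σ : Cfg S) (a b : Option S) :
    (addSW σ).x a < (addSW σ).x b ↔
      (∃ t, b = some t ∧ (a = none ∨ ∃ s, a = some s ∧ σ.x s < σ.x t)) := by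
  have key : (addSW σ).x a < (addSW σ).x b ↔ wb σ.x a < wb σ.x b := by
    have h : (wb σ.x : Option S → WithBot ℤ) = (fun o => Option.map σ.x o) := by
      funext o
      cases o <;> rfl
    rw [h]
    exact rk_lt (α := WithBot ℤ) _
  rw [key]
  cases a with
  | none =>
    cases b with
    | none => simp [wb]
    | some t => simp [wb]
  | some s =>
    cases b with
    | none => simp [wb]
    | some t => simp [wb]

theorem sb_addSW_y {S : Type} [Fintype S] (σ : Cfg S) (a b : Option S) :
    (addSW σ).y a < (addSW σ).y b ↔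
      (∃ t, b = some t ∧ (a = none ∨ ∃ s, a = some s ∧ σ.y s < σ.y t)) := by
  have key : (addSW σ).y a < (addSW σ).y b ↔ wb σ.y a < wb σ.y b := by
    have h : (wb σ.y : Option S → WithBot ℤ) = (fun o => Option.map σ.y o) := by
      funext o
      cases o <;> rfl
    rw [h]
    exact rk_lt (α := WithBot ℤ) _
  rw [key]
  cases a with
  | none =>
    cases b with
    | none => simp [wb]
    | some t => simp [wb]
  | some s =>
    cases b with
    | none => simp [wb]
    | some t => simp [wb]

theorem sb_emb_addSW {S : Type} [Fintype S] (σ : Cfg S) (ρ : Cfg W) (f : Option S → W) :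
    Emb (addSW σ) ρ f ↔ Emb σ ρ (fun s => f (some s)) ∧ ∀ s, SW ρ (f none) (f (some s)) := by
  unfold Emb SW
  simp only [sb_addSW_x, sb_addSW_y]
  constructor
  · intro h
    refine ⟨⟨fun i j hij => h.1 _ _ ⟨j, rfl, Or.inr ⟨i, rfl, hij⟩⟩,
      fun i j hij => h.2 _ _ ⟨j, rfl, Or.inr ⟨i, rfl, hij⟩⟩⟩,
      fun s => ⟨h.1 _ _ ⟨s, rfl, Or.inl rfl⟩, h.2 _ _ ⟨s, rfl, Or.inl rfl⟩⟩⟩
  · rintro ⟨⟨h1, h2⟩, h3⟩
    constructor
    · rintro a b ⟨t, rfl, rfl | ⟨s, rfl, hst⟩⟩
      · exact (h3 t).1
      · exact h1 s t hst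
    · rintro a b ⟨t, rfl, rfl | ⟨s, rfl, hst⟩⟩
      · exact (h3 t).2
      · exact h2 s t hst

theorem sb_emb_addNE {S : Type} [Fintype S] (σ : Cfg S) (ρ : Cfg W) (f : Option S → W) :
    Emb (addNE σ) ρ f ↔ Emb σ ρ (fun s => f (some s)) ∧ ∀ s, SW ρ (f (some s)) (f none) := by
  unfold addNE
  rw [← emb_neg, Cfg.neg_neg, sb_emb_addSW, emb_neg]
  unfold SW
  simp only [Cfg.neg_x, Cfg.neg_y, neg_lt_neg_iff]

/-- A split into two classes. -/
theorem msplit_two (π : Cfg V) {A B : Type} [Fintype A] [Fintype B] (α : Cfg A) (β : Cfg B)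
    (hα : Avoids α π) (hβ : Avoids β π)
    (h : ∀ (W : Type) [Fintype W] (ρ : Cfg W), Avoids ρ π →
      ∃ R : Set W, (¬ ∃ f, Emb α ρ f ∧ ∀ a, f a ∈ R) ∧ ¬ ∃ f, Emb β ρ f ∧ ∀ b, f b ∉ R) :
    MSplit π := by
  classical
  refine ⟨Bool, inferInstance, inferInstance, fun b => cond b A B,
    fun b => (match b with | true => (inferInstance : Fintype A) | false => (inferInstance : Fintype B)),
    fun b => (match b with | true => α | false => β), ?_, ?_⟩
  · intro b
    cases b
    · exact hβ
    · exact hα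
  · intro W _ ρ hρ
    obtain ⟨R, h1, h2⟩ := h W ρ hρ
    refine ⟨fun w => decide (w ∈ R), fun b => ?_⟩
    cases b
    · rintro ⟨f, hf, hf2⟩
      exact h2 ⟨f, hf, fun t => by simpa using hf2 t⟩
    · rintro ⟨f, hf, hf2⟩
      exact h1 ⟨f, hf, fun t => by simpa using hf2 t⟩

theorem avoids_of_card [Fintype V] [Fintype W] (ρ : Cfg W) (π : Cfg V)
    (h : Fintype.card W < Fintype.card V) : Avoids ρ π := by
  intro f hf
  have := Fintype.card_le_of_injective f hf.injective
  omega

theorem split_sum_big [Fintype V] (π : Cfg V) (P Q : Finset V) (hPQ : ∀ v, v ∈ Q ↔ v ∉ P)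
    (h : ∀ i ∈ P, ∀ j ∈ Q, SW π i j) (hP : 2 ≤ P.card) (hQ : 2 ≤ Q.card) : MSplit π := by
  classical
  have hcard : Fintype.card V = P.card + Q.card := by
    have : Q = Pᶜ := by ext v; simp [hPQ]
    rw [this]
    exact (Finset.card_add_card_compl P).symm
  refine msplit_two π (addSW (π.restrict Q)) (addNE (π.restrict P)) ?_ ?_ ?_
  · apply avoids_of_card
    simp only [Fintype.card_option, Fintype.card_coe]
    omega
  · apply avoids_of_card
    simp only [Fintype.card_option, Fintype.card_coe]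
    omega
  · intro W _ ρ hρ
    refine ⟨{x | ∃ g : P → W, Emb (π.restrict P) ρ g ∧ ∀ p, SW ρ (g p) x}, ?_, ?_⟩
    · rintro ⟨f, hf, hf2⟩
      rw [sb_emb_addSW] at hf
      obtain ⟨hf0, hf1⟩ := hf
      obtain ⟨g, hg, hg2⟩ := hf2 none
      have hmemQ : ∀ v, v ∉ P → v ∈ Q := fun v hv => (hPQ v).2 hv
      refine hρ (fun v => if hv : v ∈ P then g ⟨v, hv⟩ else f (some ⟨v, hmemQ v hv⟩)) ?_
      have hgf : ∀ p q, SW ρ (g p) (f (some q)) := fun p q => by
        have h1 := hg2 p
        have h2 := hf1 q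
        exact ⟨h1.1.trans h2.1, h1.2.trans h2.2⟩
      constructor
      · intro i j hij
        by_cases hi : i ∈ P <;> by_cases hj : j ∈ P
        · simp only [hi, hj, dif_pos]
          exact hg.1 ⟨i, hi⟩ ⟨j, hj⟩ hij
        · simp only [hi, hj, dif_pos, not_false_eq_true, dif_neg]
          exact (hgf _ _).1
        · have := (h j hj i (hmemQ i hi)).1
          omega
        · simp only [hi, hj, not_false_eq_true, dif_neg]
          exact hf0.1 ⟨i, hmemQ i hi⟩ ⟨j, hmemQ j hj⟩ hij
      · intro i j hij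
        by_cases hi : i ∈ P <;> by_cases hj : j ∈ P
        · simp only [hi, hj, dif_pos]
          exact hg.2 ⟨i, hi⟩ ⟨j, hj⟩ hij
        · simp only [hi, hj, dif_pos, not_false_eq_true, dif_neg]
          exact (hgf _ _).2
        · have := (h j hj i (hmemQ i hi)).2
          omega
        · simp only [hi, hj, not_false_eq_true, dif_neg]
          exact hf0.2 ⟨i, hmemQ i hi⟩ ⟨j, hmemQ j hj⟩ hij
    · rintro ⟨f, hf, hf2⟩
      rw [sb_emb_addNE] at hf
      exact hf2 none ⟨_, hf.1, hf.2⟩

theorem split_123 (π : Cfg V) (a b c : V) (hV : ∀ v, v = a ∨ v = b ∨ v = c) (hab : SW π a b)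
    (hbc : SW π b c) : MSplit π := by
  classical
  have hac : SW π a c := ⟨hab.1.trans hbc.1, hab.2.trans hbc.2⟩
  let τ : Cfg Bool := ⟨fun t => if t then 1 else 0, fun t => if t then 1 else 0,
    fun s t h => by cases s <;> cases t <;> simp_all, fun s t h => by cases s <;> cases t <;> simp_all⟩
  have hτ : ∀ (W : Type) (ρ : Cfg W) (f : Bool → W), Emb τ ρ f → SW ρ (f false) (f true) :=
    fun W ρ f hf => ⟨hf.1 false true (by simp [τ]), hf.2 false true (by simp [τ])⟩
  have hav : Avoids τ π := by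
    intro f hf
    have h1 := hf.injective.ne (show a ≠ b from fun h => by rw [h] at hab; exact lt_irrefl _ hab.1)
    have h2 := hf.injective.ne (show a ≠ c from fun h => by rw [h] at hac; exact lt_irrefl _ hac.1)
    have h3 := hf.injective.ne (show b ≠ c from fun h => by rw [h] at hbc; exact lt_irrefl _ hbc.1)
    revert h1 h2 h3
    generalize f a = fa
    generalize f b = fb
    generalize f c = fc
    revert fa fb fc
    decide
  refine msplit_two π τ τ hav hav ?_
  intro W _ ρ hρ
  refine ⟨{x | ∃ w, SW ρ w x}, ?_, ?_⟩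
  · rintro ⟨f, hf, hf2⟩
    have h1 := hτ W ρ f hf
    obtain ⟨w, hw⟩ := hf2 false
    have hba : b ≠ a := fun h => by rw [h] at hab; exact lt_irrefl _ hab.1
    have hca : c ≠ a := fun h => by rw [h] at hac; exact lt_irrefl _ hac.1
    have hcb : c ≠ b := fun h => by rw [h] at hbc; exact lt_irrefl _ hbc.1
    refine hρ (fun v => if v = a then w else if v = b then f false else f true) ?_
    unfold SW at *
    constructor
    · intro i j hij
      rcases hV i with rfl | rfl | rfl <;> rcases hV j with rfl | rfl | rfl <;>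
        simp only [if_true, if_false, hba, hca, hcb] <;> omega
    · intro i j hij
      rcases hV i with rfl | rfl | rfl <;> rcases hV j with rfl | rfl | rfl <;>
        simp only [if_true, if_false, hba, hca, hcb] <;> omega
  · rintro ⟨f, hf, hf2⟩
    exact hf2 true ⟨_, hτ W ρ f hf⟩

end Helper43.Split
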