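import Pool.Agent.Helper43.Split.ML
import Pool.Agent.Helper43.Split.SB

/-!
# Patterns `1 ⊕ β` with `β` sum-indecomposable of size at least three
-/

namespace Helper43.Split

variable {U V W : Type}

/-- Patterns that embed into each other have the same splits. -/
theorem MSplit.congr {π : Cfg V} {π' : Cfg U} (h : MSplit π) {f : V → U} {g : U → V}
    (hf : Emb π π' f) (hg : Emb π' π g) : MSplit π' := by
  obtain ⟨ι, h1, h2, T, h3, τ, h4, h5⟩ := h
  refine ⟨ι, h1, h2, T, h3, τ, fun i k hk => h4 i _ (hk.comp hf), ?_⟩
  intro W _ ρ hρ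
  exact h5 W ρ fun k hk => hρ _ (hk.comp hg)

/-- Two additional points: `none` is to the left of everything and just above `b`, and `some none`
is below everything and just to the right of `l`. -/
def addTwo {R : Type} (B : Cfg R) (o b l : R) (ho : ∀ r, B.x o ≤ B.x r)
    (_hb : ∀ r, B.y b ≤ B.y r) : Cfg (Option (Option R)) where
  x
    | none => 2 * B.x o - 1
    | some none => 2 * B.x l + 1
    | some (some r) => 2 * B.x r
  y
    | none => 2 * B.y b + 1
    | some none => 2 * B.y b - 1
    | some (some r) => 2 * B.y r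
  hx := by
    intro p q h
    rcases p with _ | _ | p <;> rcases q with _ | _ | q <;> simp only at h
    · rfl
    · have := ho l; omega
    · omega
    · have := ho l; omega
    · rfl
    · omega
    · omega
    · omega
    · rw [B.hx (show B.x p = B.x q by omega)]
  hy := by
    intro p q h
    rcases p with _ | _ | p <;> rcases q with _ | _ | q <;> simp only at h
    · rfl
    · omega
    · omega
    · omega
    · rfl
    · omega
    · omega
    · omega
    · rw [B.hy (show B.y p = B.y q by omega)]

theorem app2_hub {S R : Type} [Fintype S] [Fintype R] [Nontrivial S] (β : Cfg S) (lam b : S)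
    (hlam : ∀ s, β.x lam ≤ β.x s) (hb : ∀ s, β.y b ≤ β.y s) (B : Cfg R) (o b' l' v' : R)
    (ho1 : ∀ r, r ≠ o → B.x o < B.x r) (ho2 : ∀ r, r ≠ o → B.y r < B.y o)
    (hb' : ∀ r, r ≠ b' → B.y b' < B.y r) (hob : o ≠ b')
    (hv1 : B.x l' < B.x v') (hv2 : B.x v' < B.x b')
    (emb : ∃ f, Emb β B f) (a1 : ∀ g : S → R, Emb β B g → ∃ s, g s = b')
    (a2 : ∀ g : S → R, Emb β B g → ∃ s, B.x (g s) ≤ B.x l')
    (a3 : Avoids B (addSW β)) : MSplit (addSW β) := by
  have ho : ∀ r, B.x o ≤ B.x r := fun r => by
    by_cases h : r = o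
    · rw [h]
    · exact (ho1 r h).le
  have hbb : ∀ r, B.y b' ≤ B.y r := fun r => by
    by_cases h : r = b'
    · rw [h]
    · exact (hb' r h).le
  set τ := addTwo B o b' l' ho hbb with hτdef
  -- the four kinds of comparisons
  have s1 : ∀ r, r ≠ b' → SW τ none (some (some r)) := fun r hr => by
    have h1 := ho r
    have h2 := hb' r hr
    exact ⟨show 2 * B.x o - 1 < 2 * B.x r by omega, show 2 * B.y b' + 1 < 2 * B.y r by omega⟩
  have s2 : ∀ r, B.x l' < B.x r → SW τ (some none) (some (some r)) := fun r hr => by
    have h2 := hbb r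
    exact ⟨show 2 * B.x l' + 1 < 2 * B.x r by omega, show 2 * B.y b' - 1 < 2 * B.y r by omega⟩
  have sB : ∀ r r', SW τ (some (some r)) (some (some r')) ↔ SW B r r' := fun r r' => by
    unfold SW
    show (2 * B.x r < 2 * B.x r' ∧ 2 * B.y r < 2 * B.y r') ↔ _
    omega
  have noinit : ∀ p q, SW τ p q → ∃ r, q = some (some r) := by
    intro p q hpq
    have h1 := ho l'
    rcases q with _ | _ | q
    · rcases p with _ | _ | p
      · exact absurd hpq.1 (lt_irrefl _)
      · have : (2 * B.x l' + 1 : ℤ) < 2 * B.x o - 1 := hpq.1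
        omega
      · have : (2 * B.x p : ℤ) < 2 * B.x o - 1 := hpq.1
        have := ho p
        omega
    · rcases p with _ | _ | p
      · have : (2 * B.y b' + 1 : ℤ) < 2 * B.y b' - 1 := hpq.2
        omega
      · exact absurd hpq.1 (lt_irrefl _)
      · have : (2 * B.y p : ℤ) < 2 * B.y b' - 1 := hpq.2
        have := hbb p
        omega
    · exact ⟨q, rfl⟩
  have hav : Avoids τ (addSW β) := by
    intro φ hφ
    rw [sb_emb_addSW] at hφ
    obtain ⟨h1, h2⟩ := hφ
    choose g hg using fun s => noinit _ _ (h2 s)
    have hgE : Emb β B g := by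
      constructor
      · intro i j hij
        have : τ.x (φ (some i)) < τ.x (φ (some j)) := h1.1 i j hij
        rw [hg, hg] at this
        have h3 : (2 * B.x (g i) : ℤ) < 2 * B.x (g j) := this
        omega
      · intro i j hij
        have : τ.y (φ (some i)) < τ.y (φ (some j)) := h1.2 i j hij
        rw [hg, hg] at this
        have h3 : (2 * B.y (g i) : ℤ) < 2 * B.y (g j) := this
        omega
    rcases hn : φ none with _ | _ | r
    · obtain ⟨s, hs⟩ := a1 g hgE
      have := (h2 s).2
      rw [hn, hg, hs] at this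
      have h3 : (2 * B.y b' + 1 : ℤ) < 2 * B.y b' := this
      omega
    · obtain ⟨s, hs⟩ := a2 g hgE
      have := (h2 s).1
      rw [hn, hg] at this
      have h3 : (2 * B.x l' + 1 : ℤ) < 2 * B.x (g s) := this
      omega
    · refine a3 (fun o => o.elim r g) ?_
      rw [sb_emb_addSW]
      refine ⟨hgE, fun s => ?_⟩
      have := h2 s
      rw [hn, hg, sB] at this
      exact this
  refine master (addSW β) (fun _ : Bool => β) (fun a => if a then b else lam) fun a => ?_
  refine ⟨Option (Option R), inferInstance, τ, hav, ?_⟩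
  intro W _ ρ hρ θ hθ
  refine ⟨Set.range fun r => θ (some (some r)), ?_, ?_, ?_⟩
  · rintro _ ⟨r, rfl⟩
    exact ⟨_, rfl⟩
  · obtain ⟨f, hf⟩ := emb
    refine ⟨fun s => θ (some (some (f s))), ⟨fun i j hij => ?_, fun i j hij => ?_⟩,
      fun s => ⟨f s, rfl⟩⟩
    · have := hf.1 i j hij
      exact hθ.1 _ _ (show 2 * B.x (f i) < 2 * B.x (f j) by omega)
    · have := hf.2 i j hij
      exact hθ.2 _ _ (show 2 * B.y (f i) < 2 * B.y (f j) by omega)
  · rintro Z ⟨⟨_, ⟨x, rfl⟩, hxZ⟩, ⟨_, ⟨g, rfl⟩, hgZ⟩, hHom, hRich⟩
    have hSW : ∀ p q, SW τ p q → SW ρ (θ p) (θ q) := fun p q h => ⟨hθ.1 _ _ h.1, hθ.2 _ _ h.2⟩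
    have key : ∀ (s : Option (Option R)) (x g : R), θ (some (some x)) ∈ Z →
        θ (some (some g)) ∉ Z → SW τ s (some (some x)) → SW τ s (some (some g)) →
        (B.x g < B.x x ∨ B.y g < B.y x) → False := by
      intro s x g hx hg hsx hsg hnot
      have hsx' := hSW _ _ hsx
      have hsg' := hSW _ _ hsg
      have hH := hHom _ ⟨g, rfl⟩ hg
      have hcase : (∀ z ∈ Z, ρ.x (θ (some (some g))) < ρ.x z) ∨
          (∀ z ∈ Z, ρ.y (θ (some (some g))) < ρ.y z) := by
        rcases hnot with h | h
        · left
          rcases hH.1 with h1 | h1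
          · exact h1
          · have h2 : ρ.x (θ (some (some x))) < ρ.x (θ (some (some g))) := h1 _ hx
            have h3 := hθ.1 (some (some g)) (some (some x)) (show 2 * B.x g < 2 * B.x x by omega)
            omega
        · right
          rcases hH.2 with h1 | h1
          · exact h1
          · have h2 : ρ.y (θ (some (some x))) < ρ.y (θ (some (some g))) := h1 _ hx
            have h3 := hθ.2 (some (some g)) (some (some x)) (show 2 * B.y g < 2 * B.y x by omega)
            omega
      rcases hcase with hl | hl
      · obtain ⟨f, hf, hfb, hfZ⟩ := hRich _ ⟨x, rfl⟩ hx true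
        simp only [if_true] at hfb
        refine hρ (fun o => o.elim (θ s) f) ?_
        rw [sb_emb_addSW]
        refine ⟨hf, fun t => ⟨?_, ?_⟩⟩
        · have h4 := hl _ (hfZ t)
          have h5 := hsg'.1
          simp only [Option.elim]
          omega
        · have h5 := hsx'.2
          rw [← hfb] at h5
          simp only [Option.elim]
          by_cases htb : t = b
          · rw [htb]; exact h5
          · have h6 := hf.2 b t (lt_of_le_of_ne (hb t) fun h => htb (β.hy h).symm)
            omega
      · obtain ⟨f, hf, hfb, hfZ⟩ := hRich _ ⟨x, rfl⟩ hx false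
        simp only [Bool.false_eq_true, if_false] at hfb
        refine hρ (fun o => o.elim (θ s) f) ?_
        rw [sb_emb_addSW]
        refine ⟨hf, fun t => ⟨?_, ?_⟩⟩
        · have h5 := hsx'.1
          rw [← hfb] at h5
          simp only [Option.elim]
          by_cases htb : t = lam
          · rw [htb]; exact h5
          · have h6 := hf.1 lam t (lt_of_le_of_ne (hlam t) fun h => htb (β.hx h).symm)
            omega
        · have h4 := hl _ (hfZ t)
          have h5 := hsg'.2
          simp only [Option.elim]
          omega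
    -- all points are on the side of the hub
    have hhub : ∀ z, z ≠ b' → (θ (some (some z)) ∈ Z ↔ θ (some (some o)) ∈ Z) := by
      intro z hz
      by_cases hzo : z = o
      · rw [hzo]
      · constructor
        · intro h1
          by_contra h2
          exact key none z o h1 h2 (s1 z hz) (s1 o hob) (Or.inl (ho1 z hzo))
        · intro h1
          by_contra h2
          exact key none o z h1 h2 (s1 o hob) (s1 z hz) (Or.inr (ho2 z hzo))
    have hvb : v' ≠ b' := fun h => by rw [h] at hv2; omega
    have hb2 : θ (some (some b')) ∈ Z ↔ θ (some (some v')) ∈ Z := by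
      have h3 := hb' v' hvb
      constructor
      · intro h1
        by_contra h2
        exact key (some none) b' v' h1 h2 (s2 b' (by omega)) (s2 v' hv1) (Or.inl hv2)
      · intro h1
        by_contra h2
        exact key (some none) v' b' h1 h2 (s2 v' hv1) (s2 b' (by omega)) (Or.inr h3)
    have hall : ∀ z, θ (some (some z)) ∈ Z ↔ θ (some (some o)) ∈ Z := by
      intro z
      by_cases hz : z = b'
      · rw [hz, hb2]
        exact hhub v' hvb
      · exact hhub z hz
    exact hgZ ((hall g).2 ((hall x).1 hxZ))

/-- The configuration with an additional point above and to the left of everything. -/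
def addNW {S : Type} (β : Cfg S) (lam t : S) (hlam : ∀ s, β.x lam ≤ β.x s)
    (ht : ∀ s, β.y s ≤ β.y t) : Cfg (Option S) where
  x
    | none => β.x lam - 1
    | some s => β.x s
  y
    | none => β.y t + 1
    | some s => β.y s
  hx := by
    intro p q h
    rcases p with _ | p <;> rcases q with _ | q <;> simp only at h
    · rfl
    · have := hlam q; omega
    · have := hlam p; omega
    · rw [β.hx h]
  hy := by
    intro p q h
    rcases p with _ | p <;> rcases q with _ | q <;> simp only at h
    · rfl
    · have := ht q; omega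
    · have := ht p; omega
    · rw [β.hy h]

theorem app2_A {S : Type} [Fintype S] (β : Cfg S) (lam b v : S)
    (hlam : ∀ s, β.x lam ≤ β.x s) (hb : ∀ s, β.y b ≤ β.y s) (hv : v ≠ lam)
    (hvb : β.x v < β.x b) : MSplit (addSW β) := by
  classical
  have hlv : β.x lam < β.x v := lt_of_le_of_ne (hlam v) fun h => hv (β.hx h).symm
  have hlb : lam ≠ b := fun h => by rw [h] at hlv; omega
  have : Nontrivial S := ⟨⟨lam, b, hlb⟩⟩
  have hlam' : ∀ s, s ≠ lam → β.x lam < β.x s := fun s hs =>
    lt_of_le_of_ne (hlam s) fun h => hs (β.hx h).symm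
  have hb' : ∀ s, s ≠ b → β.y b < β.y s := fun s hs =>
    lt_of_le_of_ne (hb s) fun h => hs (β.hy h).symm
  obtain ⟨t, ht⟩ : ∃ t, ∀ s, β.y s ≤ β.y t := by
    obtain ⟨t, -, ht⟩ := Finset.exists_max_image Finset.univ β.y ⟨lam, Finset.mem_univ _⟩
    exact ⟨t, fun s => ht s (Finset.mem_univ _)⟩
  by_cases htop : lam = t
  · subst htop
    have hsurj : ∀ g : S → S, Emb β β g → Function.Surjective g := fun g hg =>
      Finite.injective_iff_surjective.1 hg.injective
    refine app2_hub β lam b hlam hb β lam b lam v hlam' ?_ hb' hlb hlv hvb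
      ⟨_, Emb.refl β⟩ (fun g hg => hsurj g hg b) (fun g hg => ?_) ?_
    · intro r hr
      exact lt_of_le_of_ne (ht r) fun h => hr (β.hy h)
    · obtain ⟨s, hs⟩ := hsurj g hg lam
      exact ⟨s, by rw [hs]⟩
    · apply avoids_of_card
      rw [Fintype.card_option]
      omega
  · have hin : ∀ g : S → Option S, Emb β (addNW β lam t hlam ht) g →
        ∀ s0, g s0 = none → False := by
      intro g hg s0 hs0
      apply htop
      have h1 : s0 = lam := by
        by_contra hne
        have := hg.1 lam s0 (hlam' s0 hne)
        rw [hs0] at this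
        rcases hgl : g lam with _ | r
        · rw [hgl] at this; exact absurd this (lt_irrefl _)
        · rw [hgl] at this
          have h3 : β.x r < β.x lam - 1 := this
          have := hlam r
          omega
      have h2 : s0 = t := by
        by_contra hne
        have := hg.2 s0 t (lt_of_le_of_ne (ht s0) fun h => hne (β.hy h))
        rw [hs0] at this
        rcases hgl : g t with _ | r
        · rw [hgl] at this; exact absurd this (lt_irrefl _)
        · rw [hgl] at this
          have h3 : β.y t + 1 < β.y r := this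
          have := ht r
          omega
      rw [← h1, h2]
    have hsome : ∀ g : S → Option S, Emb β (addNW β lam t hlam ht) g →
        ∃ k : S → S, Function.Surjective k ∧ ∀ s, g s = some (k s) := by
      intro g hg
      have : ∀ s, ∃ r, g s = some r := fun s => by
        rcases hgs : g s with _ | r
        · exact (hin g hg s hgs).elim
        · exact ⟨r, rfl⟩
      choose k hk using this
      refine ⟨k, Finite.injective_iff_surjective.1 fun i j hij => hg.injective ?_, hk⟩
      rw [hk, hk, hij]
    refine app2_hub β lam b hlam hb (addNW β lam t hlam ht) none (some b) (some lam) (some v)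
      ?_ ?_ ?_ (by simp) hlv hvb ⟨some, ⟨fun i j h => h, fun i j h => h⟩⟩ ?_ ?_ ?_
    · intro r hr
      rcases r with _ | r
      · exact absurd rfl hr
      · have := hlam r
        exact show β.x lam - 1 < β.x r by omega
    · intro r hr
      rcases r with _ | r
      · exact absurd rfl hr
      · have := ht r
        exact show β.y r < β.y t + 1 by omega
    · intro r hr
      rcases r with _ | r
      · have := ht b
        exact show β.y b < β.y t + 1 by omega
      · exact hb' r fun h => hr (by rw [h])
    · intro g hg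
      obtain ⟨k, hk1, hk2⟩ := hsome g hg
      obtain ⟨s, hs⟩ := hk1 b
      exact ⟨s, by rw [hk2, hs]⟩
    · intro g hg
      obtain ⟨k, hk1, hk2⟩ := hsome g hg
      obtain ⟨s, hs⟩ := hk1 lam
      exact ⟨s, by rw [hk2, hs]⟩
    · intro φ hφ
      rw [sb_emb_addSW] at hφ
      obtain ⟨k, hk1, hk2⟩ := hsome _ hφ.1
      obtain ⟨s, hs⟩ := hk1 lam
      have h5 := (hφ.2 s).1
      rw [hk2 s, hs] at h5
      rcases hn : φ none with _ | r
      · rw [hn] at h5
        have h6 := (hφ.2 s).2
        rw [hk2 s, hs, hn] at h6
        have h7 : β.y t + 1 < β.y lam := h6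
        have := ht lam
        omega
      · rw [hn] at h5
        have h7 : β.x r < β.x lam := h5
        have := hlam r
        omega

theorem app2_core {S : Type} [Fintype S] (β : Cfg S) (hc : 3 ≤ Fintype.card S)
    (hind : SumIndec β Finset.univ) : MSplit (addSW β) := by
  classical
  have : Nonempty S := Fintype.card_pos_iff.1 (by omega)
  obtain ⟨lam, hlam⟩ : ∃ t, ∀ s, β.x t ≤ β.x s := by
    obtain ⟨t, -, ht⟩ := Finset.exists_min_image Finset.univ β.x Finset.univ_nonempty
    exact ⟨t, fun s => ht s (Finset.mem_univ _)⟩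
  obtain ⟨b, hb⟩ : ∃ t, ∀ s, β.y t ≤ β.y s := by
    obtain ⟨t, -, ht⟩ := Finset.exists_min_image Finset.univ β.y Finset.univ_nonempty
    exact ⟨t, fun s => ht s (Finset.mem_univ _)⟩
  have hlam' : ∀ s, s ≠ lam → β.x lam < β.x s := fun s hs =>
    lt_of_le_of_ne (hlam s) fun h => hs (β.hx h).symm
  have hb' : ∀ s, s ≠ b → β.y b < β.y s := fun s hs =>
    lt_of_le_of_ne (hb s) fun h => hs (β.hy h).symm
  by_cases h1 : ∃ v, v ≠ lam ∧ β.x v < β.x b
  · obtain ⟨v, hv, hvb⟩ := h1
    exact app2_A β lam b v hlam hb hv hvb
  by_cases h2 : ∃ v, v ≠ b ∧ β.y v < β.y lam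
  · obtain ⟨v, hv, hvb⟩ := h2
    have h3 := (app2_A β.swap b lam v hb hlam hv hvb).swap
    have hE : Emb (addSW β.swap).swap (addSW β) (fun o => o) := by
      rw [← emb_swap, Cfg.swap_swap, sb_emb_addSW]
      constructor
      · have := ((sb_emb_addSW β (addSW β) (fun o => o)).1 (Emb.refl _)).1
        exact this.swap
      · intro s
        have := ((sb_emb_addSW β (addSW β) (fun o => o)).1 (Emb.refl _)).2 s
        exact ⟨this.2, this.1⟩
    have hE' : Emb (addSW β) (addSW β.swap).swap (fun o => o) := by
      rw [sb_emb_addSW]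
      constructor
      · have := ((sb_emb_addSW β.swap (addSW β.swap) (fun o => o)).1 (Emb.refl _)).1
        exact this.swap
      · intro s
        have := ((sb_emb_addSW β.swap (addSW β.swap) (fun o => o)).1 (Emb.refl _)).2 s
        exact ⟨this.2, this.1⟩
    exact h3.congr hE hE'
  · exfalso
    push Not at h1 h2
    -- the leftmost point and the bottom point
    obtain ⟨c, hc1, hc2⟩ : ∃ c, c ≠ lam ∧ c ≠ b := by
      by_contra hcon
      push Not at hcon
      have : (Finset.univ : Finset S) ⊆ {lam, b} := by
        intro v _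
        by_cases hv : v = lam
        · simp [hv]
        · simp [hcon v hv]
      have h3 := Finset.card_le_card this
      have h4 := Finset.card_le_two (a := lam) (b := b)
      rw [Finset.card_univ] at h3
      omega
    refine hind {v | v = lam ∨ v = b} ⟨lam, Finset.mem_univ _, Or.inl rfl⟩
      ⟨c, Finset.mem_univ _, fun h => h.elim hc1 hc2⟩ ?_
    intro i _ hi j _ hj
    have hjl : j ≠ lam := fun h => hj (Or.inl h)
    have hjb : j ≠ b := fun h => hj (Or.inr h)
    have h3 := hlam' j hjl
    have h4 := hb' j hjb
    have h5 : β.x b < β.x j := lt_of_le_of_ne (h1 j hjl) fun h => hjb (β.hx h).symm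
    have h6 : β.y lam < β.y j := lt_of_le_of_ne (h2 j hjb) fun h => hjl (β.hy h).symm
    rcases hi with rfl | rfl
    · exact ⟨h3, h6⟩
    · exact ⟨h5, h4⟩

/-- Module A2: `π = 1 ⊕ β` with `β` sum-indecomposable of size at least `3`. -/
theorem app2 [Fintype V] (π : Cfg V) (z : V) (hz : ∀ v, v ≠ z → SW π z v)
    (I : Finset V) (hI : ∀ v, v ∈ I ↔ v ≠ z) (h3 : 3 ≤ I.card) (hind : SumIndec π I) :
    MSplit π := by
  classical
  have h1 := app2_core (π.restrict I) (by simpa using h3) ?_
  · refine h1.congr (f := fun o => o.elim z (fun s => s.1))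
      (g := fun v => if h : v = z then none else some ⟨v, (hI v).2 h⟩) ?_ ?_
    · rw [sb_emb_addSW]
      exact ⟨⟨fun i j h => h, fun i j h => h⟩, fun s => hz s.1 ((hI _).1 s.2)⟩
    · constructor
      · intro i j hij
        rw [sb_addSW_x]
        by_cases hj : j = z
        · subst hj
          by_cases hi : i = j
          · subst hi; omega
          · have := (hz i hi).1
            omega
        · refine ⟨⟨j, (hI j).2 hj⟩, by simp [hj], ?_⟩
          by_cases hi : i = z
          · left; simp [hi]
          · right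
            exact ⟨⟨i, (hI i).2 hi⟩, by simp [hi], hij⟩
      · intro i j hij
        rw [sb_addSW_y]
        by_cases hj : j = z
        · subst hj
          by_cases hi : i = j
          · subst hi; omega
          · have := (hz i hi).2
            omega
        · refine ⟨⟨j, (hI j).2 hj⟩, by simp [hj], ?_⟩
          by_cases hi : i = z
          · left; simp [hi]
          · right
            exact ⟨⟨i, (hI i).2 hi⟩, by simp [hi], hij⟩
  · intro P hP1 hP2 hP3
    obtain ⟨i, -, hi⟩ := hP1
    obtain ⟨j, -, hj⟩ := hP2
    refine hind {v | ∃ h : v ∈ I, (⟨v, h⟩ : I) ∈ P} ⟨i.1, i.2, i.2, hi⟩ ⟨j.1, j.2, ?_⟩ ?_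
    · rintro ⟨h, h'⟩
      exact hj h'
    · rintro a ha ⟨h, h'⟩ c hc hc'
      exact hP3 ⟨a, ha⟩ (Finset.mem_univ _) h' ⟨c, hc⟩ (Finset.mem_univ _) fun h'' => hc' ⟨hc, h''⟩

end Helper43.Split
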