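import Pool.Agent.Helper43.Split.Div
import Mathlib.Computability.Primrec.List

/-!
# MP_739fc0_co, module SPLIT-CO: a computable test for simplicity on one-line words

(written by helper26 for the blueprint of helper43)
-/

namespace Helper43.Split

/-- the bounded-quantifier test for non-simplicity on words -/
def NSw (w : List ℕ) : Prop :=
  ∃ i < w.length, ∃ j < w.length, i < j ∧ ¬ (i = 0 ∧ j + 1 = w.length) ∧
    ∃ lo < w.length + 1, ∀ k < j + 1, i ≤ k → (lo ≤ w.getD k 0 ∧ w.getD k 0 ≤ lo + (j - i))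

theorem word_length (π : PermN) : (word π).length = π.1 := by simp [word]

theorem word_getD (π : PermN) (k : Fin π.1) : (word π).getD k 0 = (π.2 k : ℕ) + 1 := by
  simp [word, List.getD]

theorem ordConnected_eq_Icc {n : ℕ} {S : Set (Fin n)} (hS : S.OrdConnected) (hne : S.Nonempty) :
    ∃ i j : Fin n, i ≤ j ∧ S = Set.Icc i j := by
  have hfin : S.Finite := Set.toFinite S
  obtain ⟨i, hi, hi'⟩ := Set.exists_min_image S id hfin hne
  obtain ⟨j, hj, hj'⟩ := Set.exists_max_image S id hfin hne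
  refine ⟨i, j, hi' j hj, Set.Subset.antisymm (fun k hk => ⟨hi' k hk, hj' k hk⟩) (hS.out hi hj)⟩

theorem ncard_Icc_fin {n : ℕ} (i j : Fin n) (h : i ≤ j) :
    (Set.Icc i j).ncard = (j : ℕ) - i + 1 := by
  have h' : (i : ℕ) ≤ j := h
  rw [Set.ncard_eq_toFinset_card', Set.toFinset_Icc, Fin.card_Icc]
  omega

theorem not_simple_iff_NSw (π : PermN) : ¬ Simple π ↔ NSw (word π) := by
  constructor
  · intro h
    unfold Simple at h
    push Not at h
    obtain ⟨S, ⟨hS1, hS2⟩, h0, h1, hn⟩ := h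
    have hne : S.Nonempty := by
      rw [Set.nonempty_iff_ne_empty]
      rintro rfl
      exact h0 (Set.ncard_empty _)
    obtain ⟨i, j, hij, rfl⟩ := ordConnected_eq_Icc hS1 hne
    obtain ⟨a, b, hab, hS3⟩ := ordConnected_eq_Icc hS2 (hne.image _)
    have hc := ncard_Icc_fin i j hij
    have hc2 : (π.2 '' Set.Icc i j).ncard = (Set.Icc i j).ncard :=
      Set.ncard_image_of_injective _ π.2.injective
    rw [hS3, ncard_Icc_fin a b hab, hc] at hc2
    rw [hc] at h1 hn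
    have hij' : (i : ℕ) ≤ j := hij
    have hab' : (a : ℕ) ≤ b := hab
    have hi := i.2
    have hj := j.2
    have ha := a.2
    refine ⟨i, by rw [word_length]; exact i.2, j, by rw [word_length]; exact j.2, by omega, ?_,
      a + 1, by rw [word_length]; omega, ?_⟩
    · rw [word_length]
      rintro ⟨h3, h4⟩
      omega
    · intro k hk hik
      have hkn : k < π.1 := by omega
      have h5 : π.2 ⟨k, hkn⟩ ∈ Set.Icc a b := by
        rw [← hS3]
        exact ⟨⟨k, hkn⟩, ⟨hik, by change k ≤ (j : ℕ); omega⟩, rfl⟩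
      have h6 := word_getD π ⟨k, hkn⟩
      change (word π).getD k 0 = _ at h6
      rw [h6]
      have h7 : (a : ℕ) ≤ (π.2 ⟨k, hkn⟩ : ℕ) := h5.1
      have h8 : (π.2 ⟨k, hkn⟩ : ℕ) ≤ (b : ℕ) := h5.2
      omega
  · rintro ⟨i, hi, j, hj, hij, hn, lo, hlo, hk⟩ hs
    rw [word_length] at hi hj hn hlo
    have hIcc : (⟨i, hi⟩ : Fin π.1) ≤ ⟨j, hj⟩ := by change i ≤ j; omega
    have hc := ncard_Icc_fin _ _ hIcc
    let T : Set (Fin π.1) := {v | lo ≤ (v : ℕ) + 1 ∧ (v : ℕ) + 1 ≤ lo + (j - i)}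
    have hTo : T.OrdConnected := by
      refine ⟨fun u hu v hv w hw => ?_⟩
      have h1 : (u : ℕ) ≤ w := hw.1
      have h2 : (w : ℕ) ≤ v := hw.2
      have h3 : lo ≤ (u : ℕ) + 1 := hu.1
      have h4 : (v : ℕ) + 1 ≤ lo + (j - i) := hv.2
      exact ⟨by omega, by omega⟩
    have hsub : π.2 '' Set.Icc ⟨i, hi⟩ ⟨j, hj⟩ ⊆ T := by
      rintro _ ⟨k, ⟨hk1, hk2⟩, rfl⟩
      have hk1' : i ≤ (k : ℕ) := hk1
      have hk2' : (k : ℕ) ≤ j := hk2
      have := hk k (by omega) hk1'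
      rw [word_getD] at this
      exact this
    have hTcard : T.ncard ≤ j - i + 1 := by
      have h1 : T.ncard = ((fun v : Fin π.1 => (v : ℕ) + 1) '' T).ncard := by
        rw [Set.ncard_image_of_injective]
        intro u v h
        have : (u : ℕ) + 1 = (v : ℕ) + 1 := h
        exact Fin.ext (by omega)
      have h2 : ((fun v : Fin π.1 => (v : ℕ) + 1) '' T) ⊆ Set.Icc lo (lo + (j - i)) := by
        rintro _ ⟨v, hv, rfl⟩
        exact hv
      have h3 := Set.ncard_le_ncard h2 (Set.finite_Icc _ _)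
      have h4 : (Set.Icc lo (lo + (j - i))).ncard = j - i + 1 := by
        rw [Set.ncard_eq_toFinset_card', Set.toFinset_Icc, Nat.card_Icc]
        omega
      omega
    have himg : (π.2 '' Set.Icc (⟨i, hi⟩ : Fin π.1) ⟨j, hj⟩).ncard = j - i + 1 := by
      rw [Set.ncard_image_of_injective _ π.2.injective, hc]
    have heq : π.2 '' Set.Icc ⟨i, hi⟩ ⟨j, hj⟩ = T :=
      Set.eq_of_subset_of_ncard_le hsub (by rw [himg]; exact hTcard) (Set.toFinite T)
    have := hs (Set.Icc ⟨i, hi⟩ ⟨j, hj⟩) ⟨Set.ordConnected_Icc, by rw [heq]; exact hTo⟩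
    rw [hc] at this
    change j - i + 1 = 0 ∨ j - i + 1 = 1 ∨ j - i + 1 = π.1 at this
    rcases this with h | h | h
    · omega
    · omega
    · apply hn
      omega

theorem primrecRel_exists_lt {β : Type} [Primcodable β] {R : ℕ → β → Prop} (hf : PrimrecRel R) :
    PrimrecRel fun n y ↦ ∃ x < n, R x y :=
  (hf.exists_mem_list.comp (Primrec.list_range.comp Primrec.fst) Primrec.snd).of_eq (by simp)

theorem primrecRel_forall_lt {β : Type} [Primcodable β] {R : ℕ → β → Prop} (hf : PrimrecRel R) :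
    PrimrecRel fun n y ↦ ∀ x < n, R x y :=
  (hf.forall_mem_list.comp (Primrec.list_range.comp Primrec.fst) Primrec.snd).of_eq (by simp)

theorem primrec_NSw : PrimrecPred NSw := by
  -- innermost predicate, `y = (w, i, j, lo)`
  have hR1 : PrimrecRel (fun (k : ℕ) (y : List ℕ × ℕ × ℕ × ℕ) =>
      ¬ (y.2.1 ≤ k) ∨ (y.2.2.2 ≤ y.1.getD k 0 ∧ y.1.getD k 0 ≤ y.2.2.2 + (y.2.2.1 - y.2.1))) := by
    have e1 : Primrec (fun p : ℕ × (List ℕ × ℕ × ℕ × ℕ) => p.2.1) := Primrec.fst.comp Primrec.snd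
    have e2 : Primrec (fun p : ℕ × (List ℕ × ℕ × ℕ × ℕ) => p.2.2.1) :=
      Primrec.fst.comp (Primrec.snd.comp Primrec.snd)
    have e3 : Primrec (fun p : ℕ × (List ℕ × ℕ × ℕ × ℕ) => p.2.2.2.1) :=
      Primrec.fst.comp (Primrec.snd.comp (Primrec.snd.comp Primrec.snd))
    have e4 : Primrec (fun p : ℕ × (List ℕ × ℕ × ℕ × ℕ) => p.2.2.2.2) :=
      Primrec.snd.comp (Primrec.snd.comp (Primrec.snd.comp Primrec.snd))
    have e5 : Primrec (fun p : ℕ × (List ℕ × ℕ × ℕ × ℕ) => p.2.1.getD p.1 0) :=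
      (Primrec.list_getD 0).comp e1 Primrec.fst
    exact ((Primrec.nat_le.comp e2 Primrec.fst).not).or
      ((Primrec.nat_le.comp e4 e5).and
        (Primrec.nat_le.comp e5 (Primrec.nat_add.comp e4 (Primrec.nat_sub.comp e3 e2))))
  have hR2 : PrimrecRel (fun (lo : ℕ) (y : List ℕ × ℕ × ℕ) =>
      ∀ k < y.2.2 + 1, ¬ (y.2.1 ≤ k) ∨
        (lo ≤ y.1.getD k 0 ∧ y.1.getD k 0 ≤ lo + (y.2.2 - y.2.1))) := by
    have e1 : Primrec (fun p : ℕ × (List ℕ × ℕ × ℕ) => p.2.2.2 + 1) :=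
      Primrec.succ.comp (Primrec.snd.comp (Primrec.snd.comp Primrec.snd))
    have e2 : Primrec (fun p : ℕ × (List ℕ × ℕ × ℕ) =>
        ((p.2.1, p.2.2.1, p.2.2.2, p.1) : List ℕ × ℕ × ℕ × ℕ)) :=
      Primrec.pair (Primrec.fst.comp Primrec.snd)
        (Primrec.pair (Primrec.fst.comp (Primrec.snd.comp Primrec.snd))
          (Primrec.pair (Primrec.snd.comp (Primrec.snd.comp Primrec.snd)) Primrec.fst))
    have h := primrecRel_forall_lt hR1
    exact PrimrecRel.comp h e1 e2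
  have hR3 : PrimrecRel (fun (j : ℕ) (y : List ℕ × ℕ) => y.2 < j ∧
      ¬ (y.2 = 0 ∧ j + 1 = y.1.length) ∧ ∃ lo < y.1.length + 1,
      ∀ k < j + 1, ¬ (y.2 ≤ k) ∨ (lo ≤ y.1.getD k 0 ∧ y.1.getD k 0 ≤ lo + (j - y.2))) := by
    have e1 : Primrec (fun p : ℕ × (List ℕ × ℕ) => p.2.2) := Primrec.snd.comp Primrec.snd
    have e2 : Primrec (fun p : ℕ × (List ℕ × ℕ) => p.2.1) := Primrec.fst.comp Primrec.snd
    have e3 : Primrec (fun p : ℕ × (List ℕ × ℕ) => p.2.1.length) := Primrec.list_length.comp e2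
    have e4 : Primrec (fun p : ℕ × (List ℕ × ℕ) =>
        ((p.2.1, p.2.2, p.1) : List ℕ × ℕ × ℕ)) := Primrec.pair e2 (Primrec.pair e1 Primrec.fst)
    refine (Primrec.nat_lt.comp e1 Primrec.fst).and (PrimrecPred.and ?_ ?_)
    · exact ((Primrec.eq.comp e1 (Primrec.const 0)).and
        (Primrec.eq.comp (Primrec.succ.comp Primrec.fst) e3)).not
    · have h := primrecRel_exists_lt hR2
      exact PrimrecRel.comp h (Primrec.succ.comp e3) e4
  have hR4 : PrimrecRel (fun (i : ℕ) (w : List ℕ) => ∃ j < w.length, i < j ∧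
      ¬ (i = 0 ∧ j + 1 = w.length) ∧ ∃ lo < w.length + 1,
      ∀ k < j + 1, ¬ (i ≤ k) ∨ (lo ≤ w.getD k 0 ∧ w.getD k 0 ≤ lo + (j - i))) := by
    have h := primrecRel_exists_lt hR3
    exact PrimrecRel.comp h (Primrec.list_length.comp Primrec.snd)
      (Primrec.pair Primrec.snd Primrec.fst)
  have hR5 := PrimrecRel.comp (primrecRel_exists_lt hR4) Primrec.list_length Primrec.id
  refine hR5.of_eq fun w => ?_
  simp only [NSw, id, imp_iff_not_or]

theorem computable_simple : ∃ f : List ℕ → Bool, Computable f ∧ ∀ π : PermN,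
    (f (word π) = true ↔ ¬ Simple π ∧ word π ∉ [[1, 3, 2], [2, 1, 3], [2, 3, 1], [3, 1, 2]]) := by
  have h1 : PrimrecPred (fun w : List ℕ => NSw w ∧ ¬ (w = [1, 3, 2]) ∧ ¬ (w = [2, 1, 3]) ∧
      ¬ (w = [2, 3, 1]) ∧ ¬ (w = [3, 1, 2])) :=
    primrec_NSw.and (((Primrec.eq.comp Primrec.id (Primrec.const _)).not).and
      (((Primrec.eq.comp Primrec.id (Primrec.const _)).not).and
        (((Primrec.eq.comp Primrec.id (Primrec.const _)).not).and
          ((Primrec.eq.comp Primrec.id (Primrec.const _)).not))))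
  classical
  refine ⟨fun w => decide (NSw w ∧ ¬ (w = [1, 3, 2]) ∧ ¬ (w = [2, 1, 3]) ∧
      ¬ (w = [2, 3, 1]) ∧ ¬ (w = [3, 1, 2])), h1.decide.to_comp, fun π => ?_⟩
  rw [decide_eq_true_iff, not_simple_iff_NSw]
  simp only [List.mem_cons, List.not_mem_nil, or_false, not_or]

end Helper43.Split
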