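import Pool.Agent.Helper43.Split.FR

/-! # Module CR: the cross arrangement -/

namespace Helper43.Split

variable {U V W : Type}

namespace CR

/-- coordinates of `π` (doubled) with one more value just below `m` -/
def crZ (x : V → ℤ) (m : ℤ) : Option V → ℤ
  | none => 2 * m - 1
  | some v => 2 * x v

theorem crZ_inj {x : V → ℤ} (hx : Function.Injective x) (m : ℤ) : Function.Injective (crZ x m) := by
  intro a b h
  cases a with
  | none =>
    cases b with
    | none => rfl
    | some w => simp only [crZ] at h; omega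
  | some v =>
    cases b with
    | none => simp only [crZ] at h; omega
    | some w =>
      simp only [crZ] at h
      rw [hx (show x v = x w by omega)]

/-- the point set: `false` is `Y₁` (all of `Z` but `t`), `true` is `Y₂` (all of `Z` but `I \ t`) -/
abbrev CrT (I : Finset V) (t : V) : Type :=
  {w : Bool × Option V // (w.1 = false → w.2 ≠ some t) ∧ (w.1 = true → ∀ v ∈ I, w.2 = some v → v = t)}

noncomputable instance crFintype [Fintype V] (I : Finset V) (t : V) : Fintype (CrT I t) :=
  Fintype.ofFinite _

noncomputable def crBx (zx : Option V → ℤ) (t : V) (w : Bool × Option V) : ℤ :=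
  if w.1 = true then 1 else if zx w.2 < zx (some t) then 0 else 2

noncomputable def crBy (zy : Option V → ℤ) (t : V) (w : Bool × Option V) : ℤ :=
  if w.1 = true then (if zy w.2 < zy (some t) then 0 else 2) else 1

theorem crX_inj {zx : Option V → ℤ} (h : Function.Injective zx) (t : V) :
    Function.Injective (fun w : Bool × Option V => toLex (crBx zx t w, zx w.2)) := by
  rintro ⟨b, o⟩ ⟨b', o'⟩ hw
  simp only [EmbeddingLike.apply_eq_iff_eq, Prod.mk.injEq] at hw
  have h1 : o = o' := h hw.2
  subst h1
  have h2 := hw.1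
  cases b <;> cases b' <;> simp only [crBx, if_true, Bool.false_eq_true, if_false] at h2 ⊢ <;>
    split_ifs at h2 <;> omega

theorem crY_inj {zy : Option V → ℤ} (h : Function.Injective zy) (t : V) :
    Function.Injective (fun w : Bool × Option V => toLex (crBy zy t w, zy w.2)) := by
  rintro ⟨b, o⟩ ⟨b', o'⟩ hw
  simp only [EmbeddingLike.apply_eq_iff_eq, Prod.mk.injEq] at hw
  have h1 : o = o' := h hw.2
  subst h1
  have h2 := hw.1
  cases b <;> cases b' <;> simp only [crBy, if_true, Bool.false_eq_true, if_false] at h2 ⊢ <;>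
    split_ifs at h2 <;> omega

/-- the arrangement -/
noncomputable def crCfg [Fintype V] (I : Finset V) (t : V) (zx zy : Option V → ℤ)
    (hzx : Function.Injective zx) (hzy : Function.Injective zy) : Cfg (CrT I t) :=
  Cfg.of (fun w : CrT I t => toLex (crBx zx t w.1, zx w.1.2))
    (fun w : CrT I t => toLex (crBy zy t w.1, zy w.1.2))
    ((crX_inj hzx t).comp Subtype.val_injective) ((crY_inj hzy t).comp Subtype.val_injective)

theorem crCfg_x [Fintype V] (I : Finset V) (t : V) (zx zy : Option V → ℤ)
    (hzx : Function.Injective zx) (hzy : Function.Injective zy) (w w' : CrT I t) :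
    (crCfg I t zx zy hzx hzy).x w < (crCfg I t zx zy hzx hzy).x w' ↔
      crBx zx t w.1 < crBx zx t w'.1 ∨ (crBx zx t w.1 = crBx zx t w'.1 ∧ zx w.1.2 < zx w'.1.2) := by
  rw [crCfg, Cfg.of_x_lt, Prod.Lex.toLex_lt_toLex]

theorem crCfg_y [Fintype V] (I : Finset V) (t : V) (zx zy : Option V → ℤ)
    (hzx : Function.Injective zx) (hzy : Function.Injective zy) (w w' : CrT I t) :
    (crCfg I t zx zy hzx hzy).y w < (crCfg I t zx zy hzx hzy).y w' ↔
      crBy zy t w.1 < crBy zy t w'.1 ∨ (crBy zy t w.1 = crBy zy t w'.1 ∧ zy w.1.2 < zy w'.1.2) := by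
  rw [crCfg, Cfg.of_y_lt, Prod.Lex.toLex_lt_toLex]

theorem int_x_lt {π : Cfg V} {I : Finset V} (hI : IsInt π I) {f i j : V} (hf : f ∉ I) (hi : i ∈ I)
    (hj : j ∈ I) (h : π.x f < π.x i) : π.x f < π.x j := by
  rcases (hI f hf).1 with h1 | h1
  · exact h1 j hj
  · have := h1 i hi; omega

theorem int_x_gt {π : Cfg V} {I : Finset V} (hI : IsInt π I) {f i j : V} (hf : f ∉ I) (hi : i ∈ I)
    (hj : j ∈ I) (h : π.x i < π.x f) : π.x j < π.x f := by
  rcases (hI f hf).1 with h1 | h1
  · have := h1 i hi; omega
  · exact h1 j hj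

theorem int_y_lt {π : Cfg V} {I : Finset V} (hI : IsInt π I) {f i j : V} (hf : f ∉ I) (hi : i ∈ I)
    (hj : j ∈ I) (h : π.y f < π.y i) : π.y f < π.y j := by
  rcases (hI f hf).2 with h1 | h1
  · exact h1 j hj
  · have := h1 i hi; omega

theorem int_y_gt {π : Cfg V} {I : Finset V} (hI : IsInt π I) {f i j : V} (hf : f ∉ I) (hi : i ∈ I)
    (hj : j ∈ I) (h : π.y i < π.y f) : π.y j < π.y f := by
  rcases (hI f hf).2 with h1 | h1
  · have := h1 i hi; omega
  · exact h1 j hj

/-- counting: an injective map cannot send `A` into fewer points -/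
theorem no_inj_smaller {A W : Type} (F : Finset A) (a : A) (ha : a ∈ F) (g : A → W)
    (hg : Function.Injective g) (e : A → W) (he : ∀ v ∈ F, ∃ v' ∈ F, v' ≠ a ∧ g v = e v') : False := by
  classical
  choose! r hr1 hr2 hr3 using he
  have h1 : (F.image r).card = F.card := by
    apply Finset.card_image_of_injOn
    intro v hv w hw hvw
    apply hg
    rw [hr3 v hv, hr3 w hw, hvw]
  have h2 : F.image r ⊆ F.erase a := by
    intro v' hv'
    obtain ⟨v, hv, rfl⟩ := Finset.mem_image.mp hv'
    exact Finset.mem_erase.mpr ⟨hr2 v hv, hr1 v hv⟩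
  have h3 := Finset.card_le_card h2
  rw [h1, Finset.card_erase_of_mem ha] at h3
  have h4 : 0 < F.card := Finset.card_pos.mpr ⟨a, ha⟩
  omega

section core
variable [Fintype V] {π : Cfg V} {I : Finset V} {t : V} {zx zy : Option V → ℤ}
  {hzx : Function.Injective zx} {hzy : Function.Injective zy}

/-- Step 3: the copy of `I` is not contained in `Y₁` -/
theorem cr_step1 (hI : IsInt π I) (h2 : 2 ≤ I.card) (hind : SumIndec π I) (ht : t ∈ I)
    (X1 : ∀ v w, zx (some v) < zx (some w) ↔ π.x v < π.x w)
    (X2 : ∀ i ∈ I, zx none < zx (some i))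
    (X3 : ∀ f, f ∉ I → ∀ i ∈ I, π.x f < π.x i → zx (some f) < zx none)
    (Y2 : ∀ i ∈ I, zy none < zy (some i))
    (φ : V → CrT I t) (hφ : Emb π (crCfg I t zx zy hzx hzy) φ) (hall : ∀ i ∈ I, (φ i).1.1 = false) :
    False := by
  classical
  -- no point of `I` goes to `F₁`
  have hF : ∀ i ∈ I, ∀ f, f ∉ I → (φ i).1.2 ≠ some f := by
    intro i hi f hf he
    have hi1 := hall i hi
    rcases (hI f hf).1 with hl | hr
    · -- `f` left of `I`
      refine no_inj_smaller (Finset.univ.filter (fun v => v ∉ I ∧ ∀ j ∈ I, π.x v < π.x j)) f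
        (by simp only [Finset.mem_filter, Finset.mem_univ, true_and]; exact ⟨hf, hl⟩)
        (fun v => (φ v).1) (Subtype.val_injective.comp hφ.injective) (fun v => (false, some v)) ?_
      intro v hv
      simp only [Finset.mem_filter, Finset.mem_univ, true_and] at hv
      have h1 := hφ.1 v i (hv.2 i hi)
      rw [crCfg_x] at h1
      rcases hw : (φ v).1 with ⟨b, o⟩
      rw [hw] at h1
      simp only [crBx, hi1, he, Bool.false_eq_true, if_false] at h1
      have hft : zx (some f) < zx (some t) := (X1 f t).mpr (hl t ht)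
      rw [if_pos hft] at h1
      cases b with
      | true => simp only [if_true] at h1; omega
      | false =>
        simp only [Bool.false_eq_true, if_false] at h1
        have h3 : zx o < zx (some f) := by split_ifs at h1 <;> omega
        cases o with
        | none =>
          have := X3 f hf t ht (hl t ht)
          omega
        | some v' =>
          have h4 := (X1 v' f).mp h3
          have h5 : v' ∉ I := fun h => by
            have := hl v' h
            omega
          refine ⟨v', ?_, ?_, rfl⟩
          · simp only [Finset.mem_filter, Finset.mem_univ, true_and]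
            refine ⟨h5, fun j hj => ?_⟩
            have := hl j hj
            omega
          · rintro rfl
            omega
    · refine no_inj_smaller (Finset.univ.filter (fun v => v ∉ I ∧ ∀ j ∈ I, π.x j < π.x v)) f
        (by simp only [Finset.mem_filter, Finset.mem_univ, true_and]; exact ⟨hf, hr⟩)
        (fun v => (φ v).1) (Subtype.val_injective.comp hφ.injective) (fun v => (false, some v)) ?_
      intro v hv
      simp only [Finset.mem_filter, Finset.mem_univ, true_and] at hv
      have h1 := hφ.1 i v (hv.2 i hi)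
      rw [crCfg_x] at h1
      rcases hw : (φ v).1 with ⟨b, o⟩
      rw [hw] at h1
      simp only [crBx, hi1, he, Bool.false_eq_true, if_false] at h1
      have hft : ¬ zx (some f) < zx (some t) := by
        rw [X1]
        have := hr t ht
        omega
      rw [if_neg hft] at h1
      cases b with
      | true => simp only [if_true] at h1; omega
      | false =>
        simp only [Bool.false_eq_true, if_false] at h1
        have h3 : zx (some f) < zx o := by split_ifs at h1 <;> omega
        cases o with
        | none =>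
          have h4 := X2 t ht
          have h5 := (X1 t f).mpr (hr t ht)
          omega
        | some v' =>
          have h4 := (X1 f v').mp h3
          have h5 : v' ∉ I := fun h => by
            have := hr v' h
            omega
          refine ⟨v', ?_, ?_, rfl⟩
          · simp only [Finset.mem_filter, Finset.mem_univ, true_and]
            refine ⟨h5, fun j hj => ?_⟩
            have := hr j hj
            omega
          · rintro rfl
            omega
  -- so the copy of `I` is `L₁`, and the preimage of `p` makes `I` decomposable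
  have hex : ∃ i ∈ I, (φ i).1.2 = none := by
    by_contra hcon
    push Not at hcon
    refine no_inj_smaller I t ht (fun v => (φ v).1) (Subtype.val_injective.comp hφ.injective)
      (fun v => (false, some v)) ?_
    intro i hi
    rcases ho : (φ i).1.2 with _ | v'
    · exact absurd ho (hcon i hi)
    · have h1 : v' ∈ I := by
        by_contra h
        exact hF i hi v' h ho
      refine ⟨v', h1, ?_, Prod.ext (hall i hi) ho⟩
      rintro rfl
      exact (φ i).2.1 (hall i hi) ho
  obtain ⟨i0, hi0, hp⟩ := hex
  obtain ⟨j0, hj0, hj0'⟩ : ∃ j ∈ I, j ≠ i0 := by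
    by_contra hcon
    push Not at hcon
    have : I ⊆ {i0} := fun j hj => by rw [Finset.mem_singleton]; exact hcon j hj
    have := Finset.card_le_card this
    rw [Finset.card_singleton] at this
    omega
  apply hind {i0} ⟨i0, hi0, rfl⟩ ⟨j0, hj0, hj0'⟩
  intro i _ hi' j hj hj'
  rw [Set.mem_singleton_iff] at hi'
  subst hi'
  have hne : (φ j).1.2 ≠ none := by
    intro h
    apply hj'
    rw [Set.mem_singleton_iff]
    apply hφ.injective
    apply Subtype.val_injective
    exact Prod.ext ((hall j hj).trans (hall i hi0).symm) (h.trans hp.symm)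
  rcases ho : (φ j).1.2 with _ | v'
  · exact absurd ho hne
  have hv' : v' ∈ I := by
    by_contra h
    exact hF j hj v' h ho
  constructor
  · rw [hφ.x_lt, crCfg_x]
    simp only [crBx, hall i hi0, hall j hj, hp, ho, Bool.false_eq_true, if_false]
    have h3 := X2 t ht
    have h4 := X2 v' hv'
    rw [if_pos h3]
    split_ifs with h5
    · right; exact ⟨rfl, h4⟩
    · left; norm_num
  · rw [hφ.y_lt, crCfg_y]
    simp only [crBy, hall i hi0, hall j hj, hp, ho, Bool.false_eq_true, if_false]
    right
    exact ⟨trivial, Y2 v' hv'⟩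

/-- Step 4: the copy of `I` is not contained in `Y₂` -/
theorem cr_step2 (hI : IsInt π I) (h2 : 2 ≤ I.card) (hind : SumIndec π I) (ht : t ∈ I)
    (X2 : ∀ i ∈ I, zx none < zx (some i))
    (Y1 : ∀ v w, zy (some v) < zy (some w) ↔ π.y v < π.y w)
    (Y2 : ∀ i ∈ I, zy none < zy (some i))
    (Y3 : ∀ f, f ∉ I → ∀ i ∈ I, π.y f < π.y i → zy (some f) < zy none)
    (φ : V → CrT I t) (hφ : Emb π (crCfg I t zx zy hzx hzy) φ) (hall : ∀ i ∈ I, (φ i).1.1 = true) :
    False := by
  classical
  have hF : ∀ i ∈ I, ∀ f, f ∉ I → (φ i).1.2 ≠ some f := by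
    intro i hi f hf he
    have hi1 := hall i hi
    rcases (hI f hf).2 with hl | hr
    · refine no_inj_smaller (Finset.univ.filter (fun v => v ∉ I ∧ ∀ j ∈ I, π.y v < π.y j)) f
        (by simp only [Finset.mem_filter, Finset.mem_univ, true_and]; exact ⟨hf, hl⟩)
        (fun v => (φ v).1) (Subtype.val_injective.comp hφ.injective) (fun v => (true, some v)) ?_
      intro v hv
      simp only [Finset.mem_filter, Finset.mem_univ, true_and] at hv
      have h1 := hφ.2 v i (hv.2 i hi)
      rw [crCfg_y] at h1
      rcases hw : (φ v).1 with ⟨b, o⟩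
      rw [hw] at h1
      simp only [crBy, hi1, he, if_true] at h1
      have hft : zy (some f) < zy (some t) := (Y1 f t).mpr (hl t ht)
      rw [if_pos hft] at h1
      cases b with
      | false => simp only [Bool.false_eq_true, if_false] at h1; omega
      | true =>
        simp only [if_true] at h1
        have h3 : zy o < zy (some f) := by split_ifs at h1 <;> omega
        cases o with
        | none =>
          have := Y3 f hf t ht (hl t ht)
          omega
        | some v' =>
          have h4 := (Y1 v' f).mp h3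
          have h5 : v' ∉ I := fun h => by
            have := hl v' h
            omega
          refine ⟨v', ?_, ?_, rfl⟩
          · simp only [Finset.mem_filter, Finset.mem_univ, true_and]
            refine ⟨h5, fun j hj => ?_⟩
            have := hl j hj
            omega
          · rintro rfl
            omega
    · refine no_inj_smaller (Finset.univ.filter (fun v => v ∉ I ∧ ∀ j ∈ I, π.y j < π.y v)) f
        (by simp only [Finset.mem_filter, Finset.mem_univ, true_and]; exact ⟨hf, hr⟩)
        (fun v => (φ v).1) (Subtype.val_injective.comp hφ.injective) (fun v => (true, some v)) ?_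
      intro v hv
      simp only [Finset.mem_filter, Finset.mem_univ, true_and] at hv
      have h1 := hφ.2 i v (hv.2 i hi)
      rw [crCfg_y] at h1
      rcases hw : (φ v).1 with ⟨b, o⟩
      rw [hw] at h1
      simp only [crBy, hi1, he, if_true] at h1
      have hft : ¬ zy (some f) < zy (some t) := by
        rw [Y1]
        have := hr t ht
        omega
      rw [if_neg hft] at h1
      cases b with
      | false => simp only [Bool.false_eq_true, if_false] at h1; omega
      | true =>
        simp only [if_true] at h1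
        have h3 : zy (some f) < zy o := by split_ifs at h1 <;> omega
        cases o with
        | none =>
          have h4 := Y2 t ht
          have h5 := (Y1 t f).mpr (hr t ht)
          omega
        | some v' =>
          have h4 := (Y1 f v').mp h3
          have h5 : v' ∉ I := fun h => by
            have := hr v' h
            omega
          refine ⟨v', ?_, ?_, rfl⟩
          · simp only [Finset.mem_filter, Finset.mem_univ, true_and]
            refine ⟨h5, fun j hj => ?_⟩
            have := hr j hj
            omega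
          · rintro rfl
            omega
  have hpt : ∀ i ∈ I, (φ i).1.2 = none ∨ (φ i).1.2 = some t := by
    intro i hi
    rcases ho : (φ i).1.2 with _ | v'
    · left; rfl
    · right
      have h1 : v' ∈ I := by
        by_contra h
        exact hF i hi v' h ho
      rw [(φ i).2.2 (hall i hi) v' h1 ho]
  obtain ⟨i, hi, j, hj, hij⟩ := Finset.one_lt_card.mp (show 1 < I.card by omega)
  have hinj : ∀ a ∈ I, ∀ b ∈ I, (φ a).1.2 = (φ b).1.2 → a = b := by
    intro a ha b hb h
    apply hφ.injective
    apply Subtype.val_injective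
    exact Prod.ext ((hall a ha).trans (hall b hb).symm) h
  apply hind {v | (φ v).1.2 = none}
  · rcases hpt i hi with h | h
    · exact ⟨i, hi, h⟩
    · rcases hpt j hj with h' | h'
      · exact ⟨j, hj, h'⟩
      · exact absurd (hinj i hi j hj (h.trans h'.symm)) hij
  · rcases hpt i hi with h | h
    · rcases hpt j hj with h' | h'
      · exact absurd (hinj i hi j hj (h.trans h'.symm)) hij
      · exact ⟨j, hj, by rw [Set.mem_ofPred_eq, h']; simp⟩
    · exact ⟨i, hi, by rw [Set.mem_ofPred_eq, h]; simp⟩
  · intro a ha ha' b hb hb'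
    rw [Set.mem_ofPred_eq] at ha' hb'
    have hb2 := (hpt b hb).resolve_left hb'
    constructor
    · rw [hφ.x_lt, crCfg_x]
      simp only [crBx, hall a ha, hall b hb, ha', hb2, if_true]
      right
      exact ⟨trivial, X2 t ht⟩
    · rw [hφ.y_lt, crCfg_y]
      simp only [crBy, hall a ha, hall b hb, ha', hb2, if_true]
      left
      rw [if_pos (Y2 t ht), if_neg (lt_irrefl _)]
      norm_num

/-- `T` avoids `π` -/
theorem cr_avoids (hI : IsInt π I) (h2 : 2 ≤ I.card) (hind : SumIndec π I) (ht : t ∈ I)
    (hNE : ∃ f, f ∉ I ∧ ∀ i ∈ I, SW π i f) (hSW : ∃ f, f ∉ I ∧ ∀ i ∈ I, SW π f i)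
    (X1 : ∀ v w, zx (some v) < zx (some w) ↔ π.x v < π.x w)
    (X2 : ∀ i ∈ I, zx none < zx (some i))
    (X3 : ∀ f, f ∉ I → ∀ i ∈ I, π.x f < π.x i → zx (some f) < zx none)
    (Y1 : ∀ v w, zy (some v) < zy (some w) ↔ π.y v < π.y w)
    (Y2 : ∀ i ∈ I, zy none < zy (some i))
    (Y3 : ∀ f, f ∉ I → ∀ i ∈ I, π.y f < π.y i → zy (some f) < zy none) :
    Avoids (crCfg I t zx zy hzx hzy) π := by
  classical
  intro φ hφ
  have hA : ∃ i ∈ I, (φ i).1.1 = true := by
    by_contra hcon
    push Not at hcon
    exact cr_step1 hI h2 hind ht X1 X2 X3 Y2 φ hφ (fun i hi => by simpa using hcon i hi)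
  have hB : ∃ i ∈ I, (φ i).1.1 = false := by
    by_contra hcon
    push Not at hcon
    exact cr_step2 hI h2 hind ht X2 Y1 Y2 Y3 φ hφ (fun i hi => by simpa using hcon i hi)
  obtain ⟨fN, hfN, hN⟩ := hNE
  obtain ⟨fS, hfS, hS⟩ := hSW
  have hbx : ∀ w : CrT I t, (w.1.1 = true ∧ crBx zx t w.1 = 1) ∨
      (w.1.1 = false ∧ (crBx zx t w.1 = 0 ∨ crBx zx t w.1 = 2)) := by
    rintro ⟨⟨b, o⟩, hw⟩
    cases b
    · right
      simp only [crBx, Bool.false_eq_true, if_false, true_and]
      split_ifs <;> simp
    · left
      simp [crBx]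
  have hby : ∀ w : CrT I t, (w.1.1 = false ∧ crBy zy t w.1 = 1) ∨
      (w.1.1 = true ∧ (crBy zy t w.1 = 0 ∨ crBy zy t w.1 = 2)) := by
    rintro ⟨⟨b, o⟩, hw⟩
    cases b
    · left
      simp [crBy]
    · right
      simp only [crBy, if_true, true_and]
      split_ifs <;> simp
  -- (a) and (b)
  have ha : ∀ i ∈ I, ∀ j ∈ I, crBx zx t (φ i).1 = 0 → crBy zy t (φ j).1 = 0 → False := by
    intro i hi j hj h3 h4
    have h5 := hφ.1 _ _ (hS i hi).1
    have h6 := hφ.2 _ _ (hS j hj).2
    rw [crCfg_x] at h5
    rw [crCfg_y] at h6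
    rcases hbx (φ fS) with ⟨h7, h8⟩ | ⟨h7, h8⟩ <;> rcases hby (φ fS) with ⟨h9, h10⟩ | ⟨h9, h10⟩
    · omega
    · omega
    · omega
    · rw [h7] at h9; exact Bool.noConfusion h9
  have hb : ∀ i ∈ I, ∀ j ∈ I, crBx zx t (φ i).1 = 2 → crBy zy t (φ j).1 = 2 → False := by
    intro i hi j hj h3 h4
    have h5 := hφ.1 _ _ (hN i hi).1
    have h6 := hφ.2 _ _ (hN j hj).2
    rw [crCfg_x] at h5
    rw [crCfg_y] at h6
    rcases hbx (φ fN) with ⟨h7, h8⟩ | ⟨h7, h8⟩ <;> rcases hby (φ fN) with ⟨h9, h10⟩ | ⟨h9, h10⟩
    · omega
    · omega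
    · omega
    · rw [h7] at h9; exact Bool.noConfusion h9
  obtain ⟨i1, hi1, hi1'⟩ := hA
  obtain ⟨i2, hi2, hi2'⟩ := hB
  have h7 : crBy zy t (φ i1).1 = 0 ∨ crBy zy t (φ i1).1 = 2 := by
    rcases hby (φ i1) with ⟨h, -⟩ | ⟨-, h⟩
    · rw [hi1'] at h; exact Bool.noConfusion h
    · exact h
  have h8 : crBx zx t (φ i2).1 = 0 ∨ crBx zx t (φ i2).1 = 2 := by
    rcases hbx (φ i2) with ⟨h, -⟩ | ⟨-, h⟩
    · rw [hi2'] at h; exact Bool.noConfusion h
    · exact h
  rcases h8 with h8 | h8 <;> rcases h7 with h7 | h7
  · exact ha i2 hi2 i1 hi1 h8 h7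
  · -- left part of `Y₁`, upper part of `Y₂`
    apply hind {v | (φ v).1.1 = false} ⟨i2, hi2, hi2'⟩ ⟨i1, hi1, by
      rw [Set.mem_ofPred_eq, hi1']; simp⟩
    intro a haI ha' b hbI hb'
    rw [Set.mem_ofPred_eq] at ha' hb'
    have h9 : crBx zx t (φ a).1 = 0 := by
      rcases hbx (φ a) with ⟨h, -⟩ | ⟨-, h | h⟩
      · rw [ha'] at h; exact Bool.noConfusion h
      · exact h
      · exact absurd (hb a haI i1 hi1 h h7) (fun h => h)
    have h10 : crBy zy t (φ b).1 = 2 := by
      rcases hby (φ b) with ⟨h, -⟩ | ⟨-, h | h⟩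
      · exact absurd h hb'
      · exact absurd (ha i2 hi2 b hbI h8 h) (fun h => h)
      · exact h
    have h11 : crBy zy t (φ a).1 = 1 := by
      rcases hby (φ a) with ⟨-, h⟩ | ⟨h, -⟩
      · exact h
      · rw [ha'] at h; exact Bool.noConfusion h
    have h12 : crBx zx t (φ b).1 = 1 := by
      rcases hbx (φ b) with ⟨-, h⟩ | ⟨h, -⟩
      · exact h
      · exact absurd h hb'
    rw [hφ.x_lt, crCfg_x, hφ.y_lt, crCfg_y]
    omega
  · apply hind {v | (φ v).1.1 = true} ⟨i1, hi1, hi1'⟩ ⟨i2, hi2, by
      rw [Set.mem_ofPred_eq, hi2']; simp⟩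
    intro a haI ha' b hbI hb'
    rw [Set.mem_ofPred_eq] at ha' hb'
    have hb'' : (φ b).1.1 = false := by simpa using hb'
    have h9 : crBy zy t (φ a).1 = 0 := by
      rcases hby (φ a) with ⟨h, -⟩ | ⟨-, h | h⟩
      · rw [ha'] at h; exact Bool.noConfusion h
      · exact h
      · exact absurd (hb i2 hi2 a haI h8 h) (fun h => h)
    have h10 : crBx zx t (φ b).1 = 2 := by
      rcases hbx (φ b) with ⟨h, -⟩ | ⟨-, h | h⟩
      · rw [hb''] at h; exact Bool.noConfusion h
      · exact absurd (ha b hbI i1 hi1 h h7) (fun h => h)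
      · exact h
    have h11 : crBx zx t (φ a).1 = 1 := by
      rcases hbx (φ a) with ⟨-, h⟩ | ⟨h, -⟩
      · exact h
      · rw [ha'] at h; exact Bool.noConfusion h
    have h12 : crBy zy t (φ b).1 = 1 := by
      rcases hby (φ b) with ⟨-, h⟩ | ⟨h, -⟩
      · exact h
      · rw [hb''] at h; exact Bool.noConfusion h
    rw [hφ.x_lt, crCfg_x, hφ.y_lt, crCfg_y]
    omega
  · exact hb i2 hi2 i1 hi1 h8 h7

end core

theorem addSW_x_some {S : Type} [Fintype S] (σ : Cfg S) (i j : S) :
    (addSW σ).x (some i) < (addSW σ).x (some j) ↔ σ.x i < σ.x j := by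
  unfold addSW
  rw [Cfg.of_x_lt]
  exact WithBot.coe_lt_coe

theorem addSW_y_some {S : Type} [Fintype S] (σ : Cfg S) (i j : S) :
    (addSW σ).y (some i) < (addSW σ).y (some j) ↔ σ.y i < σ.y j := by
  unfold addSW
  rw [Cfg.of_y_lt]
  exact WithBot.coe_lt_coe

theorem addSW_x_none {S : Type} [Fintype S] (σ : Cfg S) (o : Option S) :
    ¬ (addSW σ).x o < (addSW σ).x none := by
  unfold addSW
  rw [Cfg.of_x_lt]
  exact not_lt_bot

theorem addSW_y_none {S : Type} [Fintype S] (σ : Cfg S) (o : Option S) :
    ¬ (addSW σ).y o < (addSW σ).y none := by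
  unfold addSW
  rw [Cfg.of_y_lt]
  exact not_lt_bot

end CR

open CR in
/-- Module CR. -/
theorem cross_SW [Fintype V] (π : Cfg V) (I : Finset V) (hI : IsInt π I) (h2 : 2 ≤ I.card)
    (hind : SumIndec π I) (hNE : ∃ f, f ∉ I ∧ ∀ i ∈ I, SW π i f)
    (hSW : ∃ f, f ∉ I ∧ ∀ i ∈ I, SW π f i) :
    GoodLabel π (pats π I) (fun _ => none) false := by
  classical
  have hne : I.Nonempty := Finset.card_pos.mp (by omega)
  obtain ⟨t, ht, htop⟩ := Finset.exists_max_image I π.y hne
  obtain ⟨a0, ha0, hmin⟩ := Finset.exists_min_image I π.x hne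
  obtain ⟨b0, hb0, hmin'⟩ := Finset.exists_min_image I π.y hne
  set zx := crZ π.x (π.x a0) with hzxd
  set zy := crZ π.y (π.y b0) with hzyd
  have hzx : Function.Injective zx := crZ_inj π.hx _
  have hzy : Function.Injective zy := crZ_inj π.hy _
  have X1 : ∀ v w, zx (some v) < zx (some w) ↔ π.x v < π.x w := by
    intro v w
    simp only [hzxd, crZ]
    omega
  have X2 : ∀ i ∈ I, zx none < zx (some i) := by
    intro i hi
    have := hmin i hi
    simp only [hzxd, crZ]
    omega
  have X3 : ∀ f, f ∉ I → ∀ i ∈ I, π.x f < π.x i → zx (some f) < zx none := by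
    intro f hf i hi h
    have := int_x_lt hI hf hi ha0 h
    simp only [hzxd, crZ]
    omega
  have Y1 : ∀ v w, zy (some v) < zy (some w) ↔ π.y v < π.y w := by
    intro v w
    simp only [hzyd, crZ]
    omega
  have Y2 : ∀ i ∈ I, zy none < zy (some i) := by
    intro i hi
    have := hmin' i hi
    simp only [hzyd, crZ]
    omega
  have Y3 : ∀ f, f ∉ I → ∀ i ∈ I, π.y f < π.y i → zy (some f) < zy none := by
    intro f hf i hi h
    have := int_y_lt hI hf hi hb0 h
    simp only [hzyd, crZ]
    omega
  have ZX : ∀ o : Option V, (o = none ∨ ∃ j ∈ I, o = some j) → ∀ f, f ∉ I → ∀ i ∈ I,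
      (π.x f < π.x i → zx (some f) < zx o) ∧ (π.x i < π.x f → zx o < zx (some f)) := by
    rintro o (rfl | ⟨j, hj, rfl⟩) f hf i hi
    · refine ⟨X3 f hf i hi, fun h => ?_⟩
      have h1 := X2 i hi
      have h3 := (X1 i f).mpr h
      omega
    · exact ⟨fun h => (X1 f j).mpr (int_x_lt hI hf hi hj h),
        fun h => (X1 j f).mpr (int_x_gt hI hf hi hj h)⟩
  have ZY : ∀ o : Option V, (o = none ∨ ∃ j ∈ I, o = some j) → ∀ f, f ∉ I → ∀ i ∈ I,
      (π.y f < π.y i → zy (some f) < zy o) ∧ (π.y i < π.y f → zy o < zy (some f)) := by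
    rintro o (rfl | ⟨j, hj, rfl⟩) f hf i hi
    · refine ⟨Y3 f hf i hi, fun h => ?_⟩
      have h1 := Y2 i hi
      have h3 := (Y1 i f).mpr h
      omega
    · exact ⟨fun h => (Y1 f j).mpr (int_y_lt hI hf hi hj h),
        fun h => (Y1 j f).mpr (int_y_gt hI hf hi hj h)⟩
  set τ := crCfg I t zx zy hzx hzy with hτd
  have hxτ : ∀ w w' : CrT I t, τ.x w < τ.x w' ↔
      crBx zx t w.1 < crBx zx t w'.1 ∨ (crBx zx t w.1 = crBx zx t w'.1 ∧ zx w.1.2 < zx w'.1.2) :=
    fun w w' => crCfg_x I t zx zy hzx hzy w w'
  have hyτ : ∀ w w' : CrT I t, τ.y w < τ.y w' ↔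
      crBy zy t w.1 < crBy zy t w'.1 ∨ (crBy zy t w.1 = crBy zy t w'.1 ∧ zy w.1.2 < zy w'.1.2) :=
    fun w w' => crCfg_y I t zx zy hzx hzy w w'
  have hτ : Avoids τ π := cr_avoids hI h2 hind ht hNE hSW X1 X2 X3 Y1 Y2 Y3
  -- the special points
  let p1 : CrT I t := ⟨(false, none), fun _ h => by simp at h, fun h => by simp at h⟩
  let p2 : CrT I t := ⟨(true, none), fun h => by simp at h, fun _ v _ h => by simp at h⟩
  let t2 : CrT I t := ⟨(true, some t), fun h => by simp at h,
    fun _ v _ h => (Option.some.inj h).symm⟩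
  let L1 : Set (CrT I t) := {w | w.1.1 = false ∧ (w.1.2 = none ∨ ∃ i ∈ I, w.1.2 = some i)}
  let L2 : Set (CrT I t) := {w | w.1.1 = true ∧ (w.1.2 = none ∨ w.1.2 = some t)}
  have hp1 : p1 ∈ L1 := ⟨rfl, Or.inl rfl⟩
  have hp2 : p2 ∈ L2 := ⟨rfl, Or.inl rfl⟩
  have ht2 : t2 ∈ L2 := ⟨rfl, Or.inr rfl⟩
  -- a point of `I` to the right of `t`
  obtain ⟨r, hr, hrt⟩ : ∃ r ∈ I, π.x t < π.x r := by
    by_contra hcon
    push Not at hcon
    obtain ⟨j, hj, hjt⟩ : ∃ j ∈ I, j ≠ t := by
      by_contra hcon'
      push Not at hcon'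
      have : I ⊆ {t} := fun j hj => by rw [Finset.mem_singleton]; exact hcon' j hj
      have := Finset.card_le_card this
      rw [Finset.card_singleton] at this
      omega
    apply hind {v | v ≠ t} ⟨j, hj, hjt⟩ ⟨t, ht, by simp⟩
    intro i hi hi' j' hj' hj''
    have : j' = t := by simpa using hj''
    subst this
    have h3 := hcon i hi
    have h4 := htop i hi
    have h5 : π.x i ≠ π.x j' := fun h => hi' (π.hx h)
    have h6 : π.y i ≠ π.y j' := fun h => hi' (π.hy h)
    omega
  have hrt' : r ≠ t := by rintro rfl; omega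
  let r1 : CrT I t := ⟨(false, some r), fun _ h => hrt' (Option.some.inj h), fun h => by simp at h⟩
  have hr1 : r1 ∈ L1 := ⟨rfl, Or.inr ⟨r, hr, rfl⟩⟩
  have hF1 : Framed π I τ L1 := by
    refine ⟨fun v => if h : v ∉ I then ⟨(false, some v), fun _ h' => h (Option.some.inj h' ▸ ht),
      fun h => by simp at h⟩ else p1, ?_, ?_⟩
    · intro v hv w hw
      beta_reduce
      rw [dif_pos hv, dif_pos hw]
      refine ⟨fun h => ?_, fun h => ?_⟩
      · rw [hxτ]
        simp only [crBx, Bool.false_eq_true, if_false, X1]
        split_ifs <;> omega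
      · rw [hyτ]
        simp only [crBy, Bool.false_eq_true, if_false, Y1]
        right
        exact ⟨trivial, h⟩
    · rintro ⟨⟨b, o⟩, hg⟩ ⟨hb, ho⟩ f hf i hi
      simp only at hb ho
      subst hb
      beta_reduce
      rw [dif_pos hf]
      have h3 := ZX o ho f hf i hi
      have h4 := ZY o ho f hf i hi
      refine ⟨fun h => ?_, fun h => ?_, fun h => ?_, fun h => ?_⟩
      · rw [hxτ]
        simp only [crBx, Bool.false_eq_true, if_false]
        have h5 := (X1 f t).mpr (int_x_lt hI hf hi ht h)
        have h6 := h3.1 h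
        rw [if_pos h5]
        split_ifs <;> omega
      · rw [hxτ]
        simp only [crBx, Bool.false_eq_true, if_false]
        have h5 := (X1 t f).mpr (int_x_gt hI hf hi ht h)
        have h6 := h3.2 h
        rw [if_neg (show ¬ zx (some f) < zx (some t) by omega)]
        split_ifs <;> omega
      · rw [hyτ]
        simp only [crBy, Bool.false_eq_true, if_false]
        right
        exact ⟨trivial, h4.1 h⟩
      · rw [hyτ]
        simp only [crBy, Bool.false_eq_true, if_false]
        right
        exact ⟨trivial, h4.2 h⟩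
  have hF2 : Framed π I τ L2 := by
    refine ⟨fun v => if h : v ∉ I then ⟨(true, some v), fun h => by simp at h,
      fun _ w hw h' => absurd (Option.some.inj h' ▸ hw) h⟩ else p2, ?_, ?_⟩
    · intro v hv w hw
      beta_reduce
      rw [dif_pos hv, dif_pos hw]
      refine ⟨fun h => ?_, fun h => ?_⟩
      · rw [hxτ]
        simp only [crBx, if_true, X1]
        right
        exact ⟨trivial, h⟩
      · rw [hyτ]
        simp only [crBy, if_true, Y1]
        split_ifs <;> omega
    · rintro ⟨⟨b, o⟩, hg⟩ ⟨hb, ho⟩ f hf i hi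
      simp only at hb ho
      subst hb
      beta_reduce
      rw [dif_pos hf]
      have ho' : o = none ∨ ∃ j ∈ I, o = some j := by
        rcases ho with h | h
        · exact Or.inl h
        · exact Or.inr ⟨t, ht, h⟩
      have h3 := ZX o ho' f hf i hi
      have h4 := ZY o ho' f hf i hi
      refine ⟨fun h => ?_, fun h => ?_, fun h => ?_, fun h => ?_⟩
      · rw [hxτ]
        simp only [crBx, if_true]
        right
        exact ⟨trivial, h3.1 h⟩
      · rw [hxτ]
        simp only [crBx, if_true]
        right
        exact ⟨trivial, h3.2 h⟩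
      · rw [hyτ]
        simp only [crBy, if_true]
        have h5 := (Y1 f t).mpr (int_y_lt hI hf hi ht h)
        have h6 := h4.1 h
        rw [if_pos h5]
        split_ifs <;> omega
      · rw [hyτ]
        simp only [crBy, if_true]
        have h5 := (Y1 t f).mpr (int_y_gt hI hf hi ht h)
        have h6 := h4.2 h
        rw [if_neg (show ¬ zy (some f) < zy (some t) by omega)]
        split_ifs <;> omega
  have hub1 : HasHub τ L1 := by
    refine ⟨p1, hp1, ?_⟩
    rintro ⟨⟨b, o⟩, hg⟩ ⟨hb, ho⟩ hne'
    simp only at hb ho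
    subst hb
    left
    rcases ho with rfl | ⟨j, hj, rfl⟩
    · exact absurd rfl hne'
    · constructor
      · rw [hxτ]
        simp only [crBx, Bool.false_eq_true, if_false, p1]
        have h3 := X2 t ht
        have h4 := X2 j hj
        rw [if_pos h3]
        split_ifs <;> omega
      · rw [hyτ]
        simp only [crBy, Bool.false_eq_true, if_false, p1]
        right
        exact ⟨trivial, Y2 j hj⟩
  have hub2 : HasHub τ L2 := by
    refine ⟨p2, hp2, ?_⟩
    rintro ⟨⟨b, o⟩, hg⟩ ⟨hb, ho⟩ hne'
    simp only at hb ho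
    subst hb
    left
    rcases ho with rfl | rfl
    · exact absurd rfl hne'
    · constructor
      · rw [hxτ]
        simp only [crBx, if_true, p2]
        right
        exact ⟨trivial, X2 t ht⟩
      · rw [hyτ]
        simp only [crBy, if_true, p2]
        left
        rw [if_pos (Y2 t ht), if_neg (lt_irrefl _)]
        norm_num
  have sep1 : ∃ g ∈ L2, ¬ Hom τ g L1 := by
    refine ⟨t2, ht2, fun h => ?_⟩
    have h3 : τ.x p1 < τ.x t2 := by
      rw [hxτ]
      simp only [crBx, Bool.false_eq_true, if_false, if_true, p1, t2]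
      left
      rw [if_pos (X2 t ht)]
      norm_num
    have h4 : τ.x t2 < τ.x r1 := by
      rw [hxτ]
      simp only [crBx, Bool.false_eq_true, if_false, if_true, r1, t2]
      left
      rw [if_neg]
      · norm_num
      · rw [X1]; omega
    rcases h.1 with h5 | h5
    · have := h5 p1 hp1
      omega
    · have := h5 r1 hr1
      omega
  have sep2 : ∃ g ∈ L1, ¬ Hom τ g L2 := by
    refine ⟨p1, hp1, fun h => ?_⟩
    have h3 : τ.y p2 < τ.y p1 := by
      rw [hyτ]
      simp only [crBy, Bool.false_eq_true, if_false, if_true, p1, p2]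
      left
      rw [if_pos (Y2 t ht)]
      norm_num
    have h4 : τ.y p1 < τ.y t2 := by
      rw [hyτ]
      simp only [crBy, Bool.false_eq_true, if_false, if_true, p1, t2]
      left
      rw [if_neg (lt_irrefl _)]
      norm_num
    rcases h.2 with h5 | h5
    · have := h5 p2 hp2
      omega
    · have := h5 t2 ht2
      omega
  refine goodLabel_of_frames π I hne false τ hτ L1 L2 hF1 hF2 hub1 hub2 sep1 sep2 ?_
  refine ⟨fun o => match o with
    | none => p1
    | some i => if h : i.1 = t then t2 else ⟨(false, some i.1), fun _ h' => h (Option.some.inj h'),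
        fun h => by simp at h⟩, ⟨?_, ?_⟩, ?_⟩
  · intro o o' h
    simp only [pats, Bool.false_eq_true, if_false] at h
    cases o' with
    | none => exact absurd h (addSW_x_none _ _)
    | some j =>
      cases o with
      | none =>
        by_cases hj : j.1 = t
        · simp only [hj, dif_pos]
          rw [hxτ]
          simp only [crBx, Bool.false_eq_true, if_false, if_true, p1, t2]
          left
          rw [if_pos (X2 t ht)]
          norm_num
        · simp only [hj, dif_neg, not_false_eq_true]
          rw [hxτ]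
          simp only [crBx, Bool.false_eq_true, if_false, p1]
          have h3 := X2 t ht
          have h4 := X2 j.1 j.2
          rw [if_pos h3]
          split_ifs <;> omega
      | some i =>
        rw [addSW_x_some] at h
        have h' : π.x i.1 < π.x j.1 := h
        by_cases hi : i.1 = t
        · by_cases hj : j.1 = t
          · rw [hi, hj] at h'; omega
          · simp only [hi, hj, dif_pos, dif_neg, not_false_eq_true]
            rw [hxτ]
            simp only [crBx, Bool.false_eq_true, if_false, if_true, t2]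
            left
            rw [if_neg]
            · norm_num
            · rw [X1, ← hi]; omega
        · by_cases hj : j.1 = t
          · simp only [hi, hj, dif_pos, dif_neg, not_false_eq_true]
            rw [hxτ]
            simp only [crBx, Bool.false_eq_true, if_false, if_true, t2]
            left
            rw [if_pos]
            · norm_num
            · rw [X1, ← hj]; exact h'
          · simp only [hi, hj, dif_neg, not_false_eq_true]
            rw [hxτ]
            simp only [crBx, Bool.false_eq_true, if_false, X1]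
            split_ifs <;> omega
  · intro o o' h
    simp only [pats, Bool.false_eq_true, if_false] at h
    cases o' with
    | none => exact absurd h (addSW_y_none _ _)
    | some j =>
      cases o with
      | none =>
        by_cases hj : j.1 = t
        · simp only [hj, dif_pos]
          rw [hyτ]
          simp only [crBy, Bool.false_eq_true, if_false, if_true, p1, t2]
          left
          rw [if_neg (lt_irrefl _)]
          norm_num
        · simp only [hj, dif_neg, not_false_eq_true]
          rw [hyτ]
          simp only [crBy, Bool.false_eq_true, if_false, p1]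
          right
          exact ⟨trivial, Y2 j.1 j.2⟩
      | some i =>
        rw [addSW_y_some] at h
        have h' : π.y i.1 < π.y j.1 := h
        by_cases hi : i.1 = t
        · have h3 := htop j.1 j.2
          rw [hi] at h'
          omega
        · by_cases hj : j.1 = t
          · simp only [hi, hj, dif_pos, dif_neg, not_false_eq_true]
            rw [hyτ]
            simp only [crBy, Bool.false_eq_true, if_false, if_true, t2]
            left
            rw [if_neg (lt_irrefl _)]
            norm_num
          · simp only [hi, hj, dif_neg, not_false_eq_true]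
            rw [hyτ]
            simp only [crBy, Bool.false_eq_true, if_false, Y1]
            right
            exact ⟨trivial, h'⟩
  · intro o
    cases o with
    | none => exact Or.inl hp1
    | some i =>
      by_cases hi : i.1 = t
      · simp only [hi, dif_pos]
        exact Or.inr ht2
      · simp only [hi, dif_neg, not_false_eq_true]
        exact Or.inl ⟨rfl, Or.inr ⟨i.1, i.2, rfl⟩⟩

end Helper43.Split
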