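import Pool.Agent.Helper43.Split.Basic

/-!
# From configurations to permutations
-/

namespace Helper43.Split

theorem exists_sort {V : Type} [Fintype V] (X : V → ℤ) (hX : Function.Injective X) :
    ∃ e : Fin (Fintype.card V) ≃ V, ∀ i j, i < j ↔ X (e i) < X (e j) := by
  let _ : LinearOrder V := LinearOrder.lift' X hX
  let e := monoEquivOfFin V (k := Fintype.card V) rfl
  refine ⟨e.toEquiv, fun i j => ?_⟩
  have := e.lt_iff_lt (x := i) (y := j)
  exact this.symm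

/-- Standardization of a configuration. -/
theorem exists_std {V : Type} [Fintype V] (A : Cfg V) :
    ∃ (ρ : PermN) (e : Fin ρ.1 ≃ V), Emb (toCfg ρ) A e ∧ Emb A (toCfg ρ) e.symm := by
  obtain ⟨eX, hX⟩ := exists_sort A.x A.hx
  obtain ⟨eY, hY⟩ := exists_sort A.y A.hy
  refine ⟨⟨Fintype.card V, eX.trans eY.symm⟩, eX, ⟨?_, ?_⟩, ⟨?_, ?_⟩⟩
  · intro i j h
    rw [← hX]
    simp only [toCfg] at h
    exact Fin.lt_def.2 (by exact_mod_cast h)
  · intro i j h
    simp only [toCfg, Equiv.trans_apply] at h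
    have : eY.symm (eX i) < eY.symm (eX j) := Fin.lt_def.2 (by exact_mod_cast h)
    rw [hY] at this
    simpa using this
  · intro i j h
    simp only [toCfg]
    have : eX.symm i < eX.symm j := by rw [hX]; simpa using h
    exact_mod_cast (Fin.lt_def.1 this)
  · intro i j h
    simp only [toCfg, Equiv.trans_apply, Equiv.apply_symm_apply]
    have : eY.symm i < eY.symm j := by rw [hY]; simpa using h
    exact_mod_cast (Fin.lt_def.1 this)

theorem emb_toCfg_iff {σ ρ : PermN} {f : Fin σ.1 → Fin ρ.1} :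
    Emb (toCfg σ) (toCfg ρ) f ↔
      StrictMono f ∧ ∀ i j, σ.2 i < σ.2 j ↔ ρ.2 (f i) < ρ.2 (f j) := by
  constructor
  · intro h
    refine ⟨fun i j hij => ?_, fun i j => ?_⟩
    · have := h.1 i j (by simpa [toCfg] using hij)
      simpa [toCfg] using this
    · have := h.y_lt i j
      simpa [toCfg] using this
  · intro h
    refine ⟨fun i j hij => ?_, fun i j hij => ?_⟩
    · have := @h.1 i j (by simpa [toCfg] using hij)
      simpa [toCfg] using this
    · have := (h.2 i j).1 (by simpa [toCfg] using hij)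
      simpa [toCfg] using this

theorem contains_iff {ρ σ : PermN} : Contains ρ σ ↔ ∃ f, Emb (toCfg σ) (toCfg ρ) f := by
  unfold Contains
  exact exists_congr fun f => emb_toCfg_iff.symm

theorem mem_av_iff {ρ π : PermN} : ρ ∈ Av {π} ↔ Avoids (toCfg ρ) (toCfg π) := by
  unfold Av Avoids
  simp only [Set.mem_singleton_iff, forall_eq, Set.mem_ofPred_eq, contains_iff, not_exists]

theorem exists_patternOn (ρ : PermN) (S : Set (Fin ρ.1)) :
    ∃ α, PatternOn ρ S α := by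
  classical
  obtain ⟨α, e, h1, h2⟩ := exists_std ((toCfg ρ).pull (fun s : S => s.1) Subtype.val_injective)
  have h3 := ((toCfg ρ).pull_emb (fun s : S => s.1) Subtype.val_injective).comp h1
  rw [emb_toCfg_iff] at h3
  refine ⟨α, _, h3.1, ?_, h3.2⟩
  ext x
  constructor
  · rintro ⟨i, rfl⟩
    exact (e i).2
  · intro hx
    exact ⟨e.symm ⟨x, hx⟩, by simp⟩

/-- A copy of `σ` in the entries at positions `S`. -/
def CopyIn (ρ σ : PermN) (S : Set (Fin ρ.1)) : Prop :=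
  ∃ f, Emb (toCfg σ) (toCfg ρ) f ∧ ∀ i, f i ∈ S

theorem patternOn_copy {ρ σ α : PermN} {S : Set (Fin ρ.1)} (h : PatternOn ρ S α) :
    Contains α σ ↔ CopyIn ρ σ S := by
  obtain ⟨f, h1, h2, h3⟩ := h
  have hf : Emb (toCfg α) (toCfg ρ) f := emb_toCfg_iff.2 ⟨h1, h3⟩
  constructor
  · intro h
    obtain ⟨g, hg⟩ := contains_iff.1 h
    exact ⟨_, hf.comp hg, fun i => h2 ▸ ⟨g i, rfl⟩⟩
  · rintro ⟨g, hg, hgS⟩
    rw [contains_iff]
    have : ∀ i, ∃ k, f k = g i := fun i => by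
      have := hgS i
      rw [← h2] at this
      exact this
    choose k hk using this
    refine ⟨k, ⟨fun i j hij => ?_, fun i j hij => ?_⟩⟩
    · rw [hf.x_lt, hk, hk]
      exact hg.1 _ _ hij
    · rw [hf.y_lt, hk, hk]
      exact hg.2 _ _ hij

theorem mem_merge_iff {ρ σ τ : PermN} : ρ ∈ Merge (Av {σ}) (Av {τ}) ↔
    ∃ S : Set (Fin ρ.1), ¬ CopyIn ρ σ S ∧ ¬ CopyIn ρ τ Sᶜ := by
  constructor
  · rintro ⟨S, ⟨α, hα, h1⟩, ⟨β, hβ, h2⟩⟩
    refine ⟨S, ?_, ?_⟩
    · rw [← patternOn_copy h1]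
      exact hα σ rfl
    · rw [← patternOn_copy h2]
      exact hβ τ rfl
  · rintro ⟨S, h1, h2⟩
    obtain ⟨α, hα⟩ := exists_patternOn ρ S
    obtain ⟨β, hβ⟩ := exists_patternOn ρ Sᶜ
    refine ⟨S, ⟨α, ?_, hα⟩, ⟨β, ?_, hβ⟩⟩
    · intro σ' hσ'
      rw [Set.mem_singleton_iff] at hσ'
      subst hσ'
      rw [patternOn_copy hα]
      exact h1
    · intro σ' hσ'
      rw [Set.mem_singleton_iff] at hσ'
      subst hσ'
      rw [patternOn_copy hβ]
      exact h2

theorem unsplit_multi {π : PermN} (h : Unsplittable (Av {π})) {ι : Type} (τ : ι → PermN)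
    (hτ : ∀ i, τ i ∈ Av {π}) (s : Finset ι) (hs : s.Nonempty) :
    ∃ ρ ∈ Av {π}, ∀ col : Fin ρ.1 → ι, (∀ v, col v ∈ s) →
      ∃ i ∈ s, ∃ f, Emb (toCfg (τ i)) (toCfg ρ) f ∧ ∀ t, col (f t) = i := by
  classical
  induction hs using Finset.Nonempty.cons_induction with
  | singleton a =>
    refine ⟨τ a, hτ a, fun col hc => ⟨a, by simp, fun i => i, Emb.refl _, fun t => ?_⟩⟩
    simpa using hc t
  | cons a s ha hs ih =>
    obtain ⟨ρ', hρ', h1⟩ := ih
    obtain ⟨ρ, hρ, h2⟩ := h (τ a) (hτ a) ρ' hρ'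
    refine ⟨ρ, hρ, fun col hc => ?_⟩
    rw [mem_merge_iff] at h2
    push Not at h2
    by_cases hcopy : CopyIn ρ (τ a) {v | col v = a}
    · obtain ⟨f, hf, hf2⟩ := hcopy
      exact ⟨a, by simp, f, hf, hf2⟩
    · obtain ⟨g, hg, hg2⟩ := h2 _ hcopy
      obtain ⟨i, hi, f, hf, hf2⟩ := h1 (fun v => col (g v)) (fun v => by
        have h3 := hc (g v)
        have h4 := hg2 v
        rw [Finset.mem_cons] at h3
        exact h3.resolve_left h4)
      exact ⟨i, by simp [hi], _, hg.comp hf, hf2⟩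

theorem msplit_splittable (π : PermN) (h : MSplit (toCfg π)) : Splittable (Av {π}) := by
  intro hU
  obtain ⟨ι, _, _, T, _, τ, h1, h2⟩ := h
  choose p e he1 he2 using fun i => exists_std (τ i)
  obtain ⟨ρ, hρ, h3⟩ := unsplit_multi hU p
    (fun i => mem_av_iff.2 ((h1 i).of_emb (he1 i))) Finset.univ Finset.univ_nonempty
  obtain ⟨col, hc⟩ := h2 _ (toCfg ρ) (mem_av_iff.1 hρ)
  obtain ⟨i, -, f, hf, hf2⟩ := h3 col (fun _ => Finset.mem_univ _)
  exact hc i ⟨_, hf.comp (he2 i), fun t => hf2 _⟩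

theorem cunsplit_unsplittable (π : PermN) (h : CUnsplit (toCfg π)) :
    Unsplittable (Av {π}) := by
  intro σ hσ τ hτ
  obtain ⟨W, _, ρ, h1, h2⟩ := h _ _ (toCfg σ) (toCfg τ) (mem_av_iff.1 hσ) (mem_av_iff.1 hτ)
  obtain ⟨p, e, he1, he2⟩ := exists_std ρ
  refine ⟨p, mem_av_iff.2 (h1.of_emb he1), fun hm => ?_⟩
  rw [mem_merge_iff] at hm
  obtain ⟨S, hS1, hS2⟩ := hm
  rcases h2 {w | e.symm w ∈ S} with ⟨f, hf, hf2⟩ | ⟨f, hf, hf2⟩
  · exact hS1 ⟨_, he2.comp hf, hf2⟩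
  · exact hS2 ⟨_, he2.comp hf, hf2⟩

end Helper43.Split
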