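import Pool.Agent.Helper43.Split.T1
import Pool.Agent.Helper43.Split.BR

/-!
# The master lemma
-/

namespace Helper43.Split

variable {U V W : Type}

/-- A configuration with a `K × K` grid contains every configuration with `K` points. -/
theorem not_grid_of_avoids [Fintype V] [Fintype W] {π : Cfg V} {ρ : Cfg W} (h : Avoids ρ π) :
    ¬ CfgGrid (Fintype.card V) ρ := by
  rintro ⟨v, h1, h2⟩
  obtain ⟨eX, hX⟩ := exists_sort π.x π.hx
  obtain ⟨eY, hY⟩ := exists_sort π.y π.hy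
  refine h (fun w => v (eX.symm w) (eY.symm w)) ⟨fun i j hij => ?_, fun i j hij => ?_⟩
  · exact h1 _ _ _ _ (by rw [hX]; simpa using hij)
  · exact h2 _ _ _ _ (by rw [hY]; simpa using hij)

theorem master [Fintype V] (π : Cfg V) {A S : Type} [Fintype A] [Nonempty A] [Fintype S]
    [Nontrivial S] (σ : A → Cfg S) (u : A → S) (h : ∀ a, GoodLabel π σ u a) : MSplit π := by
  obtain ⟨N, hN⟩ := T1 (Fintype.card V) σ u
  choose T hT τ h1 h2 using h
  refine ⟨A × Fin (N + 1), inferInstance, inferInstance, fun p => T p.1, fun p => hT p.1,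
    fun p => τ p.1, fun p => h1 p.1, ?_⟩
  intro W _ ρ hρ
  obtain ⟨lab, col, hc⟩ := hN W ρ (not_grid_of_avoids hρ)
  refine ⟨fun w => (lab w, col w), ?_⟩
  rintro ⟨a, k⟩ ⟨θ, hθ, hθ2⟩
  obtain ⟨G, hG1, hG2, hG3⟩ := h2 a W ρ hρ θ hθ
  obtain ⟨Z, hZ⟩ := hc a k G (fun g hg => by
    obtain ⟨t, rfl⟩ := hG1 hg
    have := hθ2 t
    simp only [Prod.mk.injEq] at this
    exact this) hG2
  exact hG3 Z hZ

end Helper43.Split
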