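import Pool.Agent.Helper43.Split.Div

/-!
# Module FR: frames and hubs give good labels
-/

namespace Helper43.Split

variable {U V W : Type}

namespace FR

theorem addSW_x {S : Type} [Fintype S] (σ : Cfg S) (i j : S) :
    (addSW σ).x (some i) < (addSW σ).x (some j) ↔ σ.x i < σ.x j := by
  unfold addSW
  rw [Cfg.of_x_lt]
  exact WithBot.coe_lt_coe

theorem addSW_y {S : Type} [Fintype S] (σ : Cfg S) (i j : S) :
    (addSW σ).y (some i) < (addSW σ).y (some j) ↔ σ.y i < σ.y j := by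
  unfold addSW
  rw [Cfg.of_y_lt]
  exact WithBot.coe_lt_coe

theorem addSW_x_none {S : Type} [Fintype S] (σ : Cfg S) (i : S) :
    (addSW σ).x none < (addSW σ).x (some i) := by
  unfold addSW
  rw [Cfg.of_x_lt]
  exact WithBot.bot_lt_coe _

theorem addSW_y_none {S : Type} [Fintype S] (σ : Cfg S) (i : S) :
    (addSW σ).y none < (addSW σ).y (some i) := by
  unfold addSW
  rw [Cfg.of_y_lt]
  exact WithBot.bot_lt_coe _

theorem addNE_x {S : Type} [Fintype S] (σ : Cfg S) (i j : S) :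
    (addNE σ).x (some i) < (addNE σ).x (some j) ↔ σ.x i < σ.x j := by
  have := addSW_x σ.neg j i
  simp only [addNE, Cfg.neg_x, neg_lt_neg_iff] at *
  exact this

theorem addNE_y {S : Type} [Fintype S] (σ : Cfg S) (i j : S) :
    (addNE σ).y (some i) < (addNE σ).y (some j) ↔ σ.y i < σ.y j := by
  have := addSW_y σ.neg j i
  simp only [addNE, Cfg.neg_y, neg_lt_neg_iff] at *
  exact this

theorem addNE_x_none {S : Type} [Fintype S] (σ : Cfg S) (i : S) :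
    (addNE σ).x (some i) < (addNE σ).x none := by
  have := addSW_x_none σ.neg i
  simp only [addNE, Cfg.neg_x, neg_lt_neg_iff] at *
  exact this

theorem addNE_y_none {S : Type} [Fintype S] (σ : Cfg S) (i : S) :
    (addNE σ).y (some i) < (addNE σ).y none := by
  have := addSW_y_none σ.neg i
  simp only [addNE, Cfg.neg_y, neg_lt_neg_iff] at *
  exact this

/-- A copy of `I` placed inside the frame gives a copy of `π`. -/
theorem fill (π : Cfg V) (I : Finset V) {ρ : Cfg W} (hρ : Avoids ρ π) (ψ : V → W)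
    (hψ : ∀ v, v ∉ I → ∀ w, w ∉ I → (π.x v < π.x w → ρ.x (ψ v) < ρ.x (ψ w)) ∧
      (π.y v < π.y w → ρ.y (ψ v) < ρ.y (ψ w)))
    (e : I → W) (he : ∀ i j : I, (π.x i < π.x j → ρ.x (e i) < ρ.x (e j)) ∧
      (π.y i < π.y j → ρ.y (e i) < ρ.y (e j)))
    (hfr : ∀ f, f ∉ I → ∀ i : I,
      (π.x f < π.x i → ρ.x (ψ f) < ρ.x (e i)) ∧ (π.x i < π.x f → ρ.x (e i) < ρ.x (ψ f)) ∧
      (π.y f < π.y i → ρ.y (ψ f) < ρ.y (e i)) ∧ (π.y i < π.y f → ρ.y (e i) < ρ.y (ψ f))) :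
    False := by
  classical
  refine hρ (fun v => if h : v ∈ I then e ⟨v, h⟩ else ψ v) ⟨fun i j hij => ?_, fun i j hij => ?_⟩
  · by_cases hi : i ∈ I <;> by_cases hj : j ∈ I
    · simp only [hi, hj, dif_pos]
      exact (he ⟨i, hi⟩ ⟨j, hj⟩).1 hij
    · simp only [hi, hj, dif_pos, dif_neg, not_false_eq_true]
      exact (hfr j hj ⟨i, hi⟩).2.1 hij
    · simp only [hi, hj, dif_pos, dif_neg, not_false_eq_true]
      exact (hfr i hi ⟨j, hj⟩).1 hij
    · simp only [hi, hj, dif_neg, not_false_eq_true]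
      exact (hψ i hi j hj).1 hij
  · by_cases hi : i ∈ I <;> by_cases hj : j ∈ I
    · simp only [hi, hj, dif_pos]
      exact (he ⟨i, hi⟩ ⟨j, hj⟩).2 hij
    · simp only [hi, hj, dif_pos, dif_neg, not_false_eq_true]
      exact (hfr j hj ⟨i, hi⟩).2.2.2 hij
    · simp only [hi, hj, dif_pos, dif_neg, not_false_eq_true]
      exact (hfr i hi ⟨j, hj⟩).2.2.1 hij
    · simp only [hi, hj, dif_neg, not_false_eq_true]
      exact (hψ i hi j hj).2 hij

/-- A comparable pair of points of a framed set is not cut. -/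
theorem no_pair [Fintype V] (π : Cfg V) (I : Finset V) {T : Type}
    (τ : Cfg T) (L : Set T) (h1 : Framed π I τ L) {ρ : Cfg W} (hρ : Avoids ρ π) {θ : T → W}
    (hθ : Emb τ ρ θ) {G Z : Set W} (hcut : IsCut ρ (pats π I) (fun _ => none) G Z)
    (hG : ∀ t ∈ L, θ t ∈ G) {x g : T} (hx : x ∈ L) (hg : g ∈ L) (hxZ : θ x ∈ Z) (hgZ : θ g ∉ Z)
    (hc : SW τ x g ∨ SW τ g x) : False := by
  obtain ⟨-, -, hhom, hrich⟩ := hcut
  obtain ⟨ψ, hψ, hfr⟩ := h1
  have hgh := hhom (θ g) (hG g hg) hgZ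
  rcases hc with hc | hc
  · have hcx := hθ.1 _ _ hc.1
    have hcy := hθ.2 _ _ hc.2
    have gx : ∀ z ∈ Z, ρ.x z < ρ.x (θ g) := by
      rcases hgh.1 with h | h
      · have := h _ hxZ; omega
      · exact h
    have gy : ∀ z ∈ Z, ρ.y z < ρ.y (θ g) := by
      rcases hgh.2 with h | h
      · have := h _ hxZ; omega
      · exact h
    obtain ⟨f, hf, hfx, hfZ⟩ := hrich (θ x) (hG x hx) hxZ false
    simp only [pats, Bool.false_eq_true, if_false] at hf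
    refine fill π I hρ (fun v => θ (ψ v))
      (fun v hv w hw => ⟨fun h => hθ.1 _ _ ((hψ v hv w hw).1 h),
        fun h => hθ.2 _ _ ((hψ v hv w hw).2 h)⟩)
      (fun i => f (some i)) (fun i j => ⟨fun h => hf.1 _ _ ((addSW_x _ i j).2 h),
        fun h => hf.2 _ _ ((addSW_y _ i j).2 h)⟩) ?_
    intro v hv i
    have e1 := hf.1 _ _ (addSW_x_none (π.restrict I) i)
    have e2 := hf.2 _ _ (addSW_y_none (π.restrict I) i)
    rw [hfx] at e1 e2
    have e3 := gx _ (hfZ (some i))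
    have e4 := gy _ (hfZ (some i))
    have fx := hfr x hx v hv i i.2
    have fg := hfr g hg v hv i i.2
    refine ⟨fun h => ?_, fun h => ?_, fun h => ?_, fun h => ?_⟩
    · exact (hθ.1 _ _ (fx.1 h)).trans e1
    · exact e3.trans (hθ.1 _ _ (fg.2.1 h))
    · exact (hθ.2 _ _ (fx.2.2.1 h)).trans e2
    · exact e4.trans (hθ.2 _ _ (fg.2.2.2 h))
  · have hcx := hθ.1 _ _ hc.1
    have hcy := hθ.2 _ _ hc.2
    have gx : ∀ z ∈ Z, ρ.x (θ g) < ρ.x z := by
      rcases hgh.1 with h | h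
      · exact h
      · have := h _ hxZ; omega
    have gy : ∀ z ∈ Z, ρ.y (θ g) < ρ.y z := by
      rcases hgh.2 with h | h
      · exact h
      · have := h _ hxZ; omega
    obtain ⟨f, hf, hfx, hfZ⟩ := hrich (θ x) (hG x hx) hxZ true
    simp only [pats, if_true] at hf
    refine fill π I hρ (fun v => θ (ψ v))
      (fun v hv w hw => ⟨fun h => hθ.1 _ _ ((hψ v hv w hw).1 h),
        fun h => hθ.2 _ _ ((hψ v hv w hw).2 h)⟩)
      (fun i => f (some i)) (fun i j => ⟨fun h => hf.1 _ _ ((addNE_x _ i j).2 h),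
        fun h => hf.2 _ _ ((addNE_y _ i j).2 h)⟩) ?_
    intro v hv i
    have e1 := hf.1 _ _ (addNE_x_none (π.restrict I) i)
    have e2 := hf.2 _ _ (addNE_y_none (π.restrict I) i)
    rw [hfx] at e1 e2
    have e3 := gx _ (hfZ (some i))
    have e4 := gy _ (hfZ (some i))
    have fx := hfr x hx v hv i i.2
    have fg := hfr g hg v hv i i.2
    refine ⟨fun h => ?_, fun h => ?_, fun h => ?_, fun h => ?_⟩
    · exact (hθ.1 _ _ (fg.1 h)).trans e3
    · exact e1.trans (hθ.1 _ _ (fx.2.1 h))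
    · exact (hθ.2 _ _ (fg.2.2.1 h)).trans e4
    · exact e2.trans (hθ.2 _ _ (fx.2.2.2 h))

/-- A framed set with a hub lies inside `Z` or is disjoint from it. -/
theorem all_or_none [Fintype V] (π : Cfg V) (I : Finset V) {T : Type}
    (τ : Cfg T) (L : Set T) (h1 : Framed π I τ L) (hub : HasHub τ L) {ρ : Cfg W}
    (hρ : Avoids ρ π) {θ : T → W}
    (hθ : Emb τ ρ θ) {G Z : Set W} (hcut : IsCut ρ (pats π I) (fun _ => none) G Z)
    (hG : ∀ t ∈ L, θ t ∈ G) : (∀ t ∈ L, θ t ∈ Z) ∨ (∀ t ∈ L, θ t ∉ Z) := by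
  obtain ⟨h, hh, hcmp⟩ := hub
  by_cases hZ : θ h ∈ Z
  · left
    intro t ht
    by_contra htZ
    have hne : t ≠ h := fun e => htZ (e ▸ hZ)
    exact no_pair π I τ L h1 hρ hθ hcut hG hh ht hZ htZ (hcmp t ht hne)
  · right
    intro t ht htZ
    have hne : t ≠ h := fun e => hZ (e ▸ htZ)
    exact no_pair π I τ L h1 hρ hθ hcut hG ht hh htZ hZ (hcmp t ht hne).symm

theorem hom_pull {T : Type} {τ : Cfg T} {ρ : Cfg W} {θ : T → W} (hθ : Emb τ ρ θ) {g : T}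
    {L : Set T} {Z : Set W} (hL : ∀ t ∈ L, θ t ∈ Z) (h : Hom ρ (θ g) Z) : Hom τ g L :=
  ⟨h.1.imp (fun h z hz => (hθ.x_lt _ _).2 (h _ (hL z hz)))
      (fun h z hz => (hθ.x_lt _ _).2 (h _ (hL z hz))),
    h.2.imp (fun h z hz => (hθ.y_lt _ _).2 (h _ (hL z hz)))
      (fun h z hz => (hθ.y_lt _ _).2 (h _ (hL z hz)))⟩

end FR

/-- Module FR. -/
theorem goodLabel_of_frames [Fintype V] (π : Cfg V) (I : Finset V) (hI : I.Nonempty) (a : Bool)
    {T : Type} [Fintype T]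
    (τ : Cfg T) (hτ : Avoids τ π) (L₁ L₂ : Set T) (h1 : Framed π I τ L₁) (h2 : Framed π I τ L₂)
    (hub1 : HasHub τ L₁) (hub2 : HasHub τ L₂) (sep1 : ∃ g ∈ L₂, ¬ Hom τ g L₁)
    (sep2 : ∃ g ∈ L₁, ¬ Hom τ g L₂)
    (hcopy : ∃ f, Emb (pats π I a) τ f ∧ ∀ s, f s ∈ L₁ ∪ L₂) :
    GoodLabel π (pats π I) (fun _ => none) a := by
  refine ⟨T, inferInstance, τ, hτ, ?_⟩
  intro W _ ρ hρ θ hθ
  obtain ⟨f, hf, hfL⟩ := hcopy
  refine ⟨θ '' (L₁ ∪ L₂), Set.image_subset_range _ _, ⟨fun s => θ (f s), hθ.comp hf,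
    fun s => ⟨f s, hfL s, rfl⟩⟩, ?_⟩
  intro Z hcut
  have hG1 : ∀ t ∈ L₁, θ t ∈ θ '' (L₁ ∪ L₂) := fun t ht => ⟨t, Or.inl ht, rfl⟩
  have hG2 : ∀ t ∈ L₂, θ t ∈ θ '' (L₁ ∪ L₂) := fun t ht => ⟨t, Or.inr ht, rfl⟩
  have c1 := FR.all_or_none π I τ L₁ h1 hub1 hρ hθ hcut hG1
  have c2 := FR.all_or_none π I τ L₂ h2 hub2 hρ hθ hcut hG2
  obtain ⟨⟨x, hx, hxZ⟩, ⟨g, hg, hgZ⟩, hhom, -⟩ := hcut
  obtain ⟨tx, htx, rfl⟩ := hx
  obtain ⟨tg, htg, rfl⟩ := hg
  rcases c1 with c1 | c1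
  · rcases c2 with c2 | c2
    · rcases htg with h | h
      · exact hgZ (c1 _ h)
      · exact hgZ (c2 _ h)
    · obtain ⟨g', hg', hn⟩ := sep1
      exact hn (FR.hom_pull hθ c1 (hhom _ (hG2 _ hg') (c2 _ hg')))
  · rcases c2 with c2 | c2
    · obtain ⟨g', hg', hn⟩ := sep2
      exact hn (FR.hom_pull hθ c2 (hhom _ (hG1 _ hg') (c1 _ hg')))
    · rcases htx with h | h
      · exact c1 _ h hxZ
      · exact c2 _ h hxZ

end Helper43.Split
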