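import Pool.Agent.Helper43.Split.SA
import Pool.Agent.Helper43.Split.FR

/-!
# Module SN: the staggered arrangement, pattern `I ⊕ 1`
-/

namespace Helper43.Split

variable {U V W : Type}

namespace SN

open scoped Classical in
/-- Blocks of the arrangement (`false`: first copy, `true`: second copy; `none`: the corner). -/
noncomputable def blk (π : Cfg V) (I : Finset V) (b : V) : Bool × Option V → ℕ
  | (false, none) => 5
  | (true, none) => 4
  | (false, some v) => if v ∈ I then 3 else if π.x v < π.x b then 2 else 6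
  | (true, some v) => if v ∈ I then (if π.x v < π.x b then 1 else 4) else
      if π.x v < π.x b then 0 else 7

/-- A coordinate in `π` with the corner point. -/
def zc (z : V → ℤ) (m : ℤ) : Option V → ℤ
  | some v => 2 * z v
  | none => 2 * m + 1

theorem zc_inj {z : V → ℤ} (hz : Function.Injective z) (m : ℤ) :
    Function.Injective (zc z m) := by
  rintro (_ | v) (_ | w) h
  · rfl
  · simp only [zc] at h; omega
  · simp only [zc] at h; omega
  · simp only [zc] at h
    rw [hz (by omega : z v = z w)]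

/-- The points of the arrangement. -/
def Pt (I : Finset V) (b : V) : Type :=
  {p : Bool × Option V // (p.1 = false → ∀ v, p.2 = some v → v ∈ I → v = b) ∧
    p ≠ (true, some b)}

noncomputable instance [Fintype V] (I : Finset V) (b : V) : Fintype (Pt I b) := by
  classical
  unfold Pt
  infer_instance

theorem blk_f_in {π : Cfg V} {I : Finset V} {b v : V} (h : v ∈ I) :
    blk π I b (false, some v) = 3 := by simp only [blk, if_pos h]

theorem blk_f_l {π : Cfg V} {I : Finset V} {b v : V} (h : v ∉ I) (h' : π.x v < π.x b) :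
    blk π I b (false, some v) = 2 := by simp only [blk, if_neg h, if_pos h']

theorem blk_f_r {π : Cfg V} {I : Finset V} {b v : V} (h : v ∉ I) (h' : ¬ π.x v < π.x b) :
    blk π I b (false, some v) = 6 := by simp only [blk, if_neg h, if_neg h']

theorem blk_t_il {π : Cfg V} {I : Finset V} {b v : V} (h : v ∈ I) (h' : π.x v < π.x b) :
    blk π I b (true, some v) = 1 := by simp only [blk, if_pos h, if_pos h']

theorem blk_t_ir {π : Cfg V} {I : Finset V} {b v : V} (h : v ∈ I) (h' : ¬ π.x v < π.x b) :
    blk π I b (true, some v) = 4 := by simp only [blk, if_pos h, if_neg h']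

theorem blk_t_l {π : Cfg V} {I : Finset V} {b v : V} (h : v ∉ I) (h' : π.x v < π.x b) :
    blk π I b (true, some v) = 0 := by simp only [blk, if_neg h, if_pos h']

theorem blk_t_r {π : Cfg V} {I : Finset V} {b v : V} (h : v ∉ I) (h' : ¬ π.x v < π.x b) :
    blk π I b (true, some v) = 7 := by simp only [blk, if_neg h, if_neg h']

theorem blk_cases (π : Cfg V) (I : Finset V) (b : V) (p : Bool × Option V) :
    (p = (false, none) ∧ blk π I b p = 5) ∨ (p = (true, none) ∧ blk π I b p = 4) ∨
    (∃ v, p = (false, some v) ∧ v ∈ I ∧ blk π I b p = 3) ∨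
    (∃ v, p = (false, some v) ∧ v ∉ I ∧ π.x v < π.x b ∧ blk π I b p = 2) ∨
    (∃ v, p = (false, some v) ∧ v ∉ I ∧ ¬ π.x v < π.x b ∧ blk π I b p = 6) ∨
    (∃ v, p = (true, some v) ∧ v ∈ I ∧ π.x v < π.x b ∧ blk π I b p = 1) ∨
    (∃ v, p = (true, some v) ∧ v ∈ I ∧ ¬ π.x v < π.x b ∧ blk π I b p = 4) ∨
    (∃ v, p = (true, some v) ∧ v ∉ I ∧ π.x v < π.x b ∧ blk π I b p = 0) ∨
    (∃ v, p = (true, some v) ∧ v ∉ I ∧ ¬ π.x v < π.x b ∧ blk π I b p = 7) := by
  rcases p with ⟨_ | _, _ | v⟩
  · exact Or.inl ⟨rfl, rfl⟩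
  · by_cases h : v ∈ I
    · exact Or.inr (Or.inr (Or.inl ⟨v, rfl, h, blk_f_in h⟩))
    · by_cases h' : π.x v < π.x b
      · exact Or.inr (Or.inr (Or.inr (Or.inl ⟨v, rfl, h, h', blk_f_l h h'⟩)))
      · exact Or.inr (Or.inr (Or.inr (Or.inr (Or.inl ⟨v, rfl, h, h', blk_f_r h h'⟩))))
  · exact Or.inr (Or.inl ⟨rfl, rfl⟩)
  · by_cases h : v ∈ I
    · by_cases h' : π.x v < π.x b
      · exact Or.inr (Or.inr (Or.inr (Or.inr (Or.inr (Or.inl ⟨v, rfl, h, h', blk_t_il h h'⟩)))))
      · exact Or.inr (Or.inr (Or.inr (Or.inr (Or.inr (Or.inr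
          (Or.inl ⟨v, rfl, h, h', blk_t_ir h h'⟩))))))
    · by_cases h' : π.x v < π.x b
      · exact Or.inr (Or.inr (Or.inr (Or.inr (Or.inr (Or.inr (Or.inr
          (Or.inl ⟨v, rfl, h, h', blk_t_l h h'⟩)))))))
      · exact Or.inr (Or.inr (Or.inr (Or.inr (Or.inr (Or.inr (Or.inr
          (Or.inr ⟨v, rfl, h, h', blk_t_r h h'⟩)))))))

theorem blk_fst (π : Cfg V) (I : Finset V) (b : V) (p : Bool × Option V) :
    p.1 = false ↔ (blk π I b p = 2 ∨ blk π I b p = 3 ∨ blk π I b p = 5 ∨ blk π I b p = 6) := by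
  rcases blk_cases π I b p with ⟨h, k⟩ | ⟨h, k⟩ | ⟨v, h, -, k⟩ | ⟨v, h, -, -, k⟩ |
    ⟨v, h, -, -, k⟩ | ⟨v, h, -, -, k⟩ | ⟨v, h, -, -, k⟩ | ⟨v, h, -, -, k⟩ | ⟨v, h, -, -, k⟩ <;>
  rw [k, h] <;> simp

theorem blk_fst' (π : Cfg V) (I : Finset V) (b : V) (p : Bool × Option V) :
    p.1 = true ↔ (blk π I b p = 0 ∨ blk π I b p = 1 ∨ blk π I b p = 4 ∨ blk π I b p = 7) := by
  rcases blk_cases π I b p with ⟨h, k⟩ | ⟨h, k⟩ | ⟨v, h, -, k⟩ | ⟨v, h, -, -, k⟩ |
    ⟨v, h, -, -, k⟩ | ⟨v, h, -, -, k⟩ | ⟨v, h, -, -, k⟩ | ⟨v, h, -, -, k⟩ | ⟨v, h, -, -, k⟩ <;>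
  rw [k, h] <;> simp

theorem blk_le (π : Cfg V) (I : Finset V) (b : V) (p : Bool × Option V) : blk π I b p ≤ 7 := by
  rcases blk_cases π I b p with ⟨h, k⟩ | ⟨h, k⟩ | ⟨v, h, -, k⟩ | ⟨v, h, -, -, k⟩ |
    ⟨v, h, -, -, k⟩ | ⟨v, h, -, -, k⟩ | ⟨v, h, -, -, k⟩ | ⟨v, h, -, -, k⟩ | ⟨v, h, -, -, k⟩ <;>
  omega

theorem fst_eq_of_blk_eq (π : Cfg V) (I : Finset V) (b : V) {p p' : Bool × Option V}
    (h : blk π I b p = blk π I b p') : p.1 = p'.1 := by
  cases h1 : p'.1 with
  | false => rw [blk_fst π I b] at h1 ⊢; rwa [h]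
  | true => rw [blk_fst' π I b] at h1 ⊢; rwa [h]

/-- The arrangement. -/
noncomputable def arr [Fintype V] (π : Cfg V) (I : Finset V) (b : V) (mx my : ℤ) :
    Cfg (Pt I b) :=
  Cfg.of (α := ℕ ×ₗ ℤ) (β := Bool ×ₗ ℤ) (fun t => toLex (blk π I b t.1, zc π.x mx t.1.2))
    (fun t => toLex (t.1.1, zc π.y my t.1.2))
    (by
      intro t t' h
      have h' := Prod.mk.inj (toLex_inj.1 h)
      exact Subtype.ext (Prod.ext (fst_eq_of_blk_eq π I b h'.1) (zc_inj π.hx mx h'.2)))
    (by
      intro t t' h
      have h' := Prod.mk.inj (toLex_inj.1 h)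
      exact Subtype.ext (Prod.ext h'.1 (zc_inj π.hy my h'.2)))

theorem arr_x [Fintype V] (π : Cfg V) (I : Finset V) (b : V) (mx my : ℤ) (t t' : Pt I b) :
    (arr π I b mx my).x t < (arr π I b mx my).x t' ↔ blk π I b t.1 < blk π I b t'.1 ∨
      (blk π I b t.1 = blk π I b t'.1 ∧ zc π.x mx t.1.2 < zc π.x mx t'.1.2) := by
  unfold arr
  rw [Cfg.of_x_lt, Prod.Lex.toLex_lt_toLex]

theorem arr_y [Fintype V] (π : Cfg V) (I : Finset V) (b : V) (mx my : ℤ) (t t' : Pt I b) :
    (arr π I b mx my).y t < (arr π I b mx my).y t' ↔ t.1.1 < t'.1.1 ∨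
      (t.1.1 = t'.1.1 ∧ zc π.y my t.1.2 < zc π.y my t'.1.2) := by
  unfold arr
  rw [Cfg.of_y_lt, Prod.Lex.toLex_lt_toLex]

/-- No injection from a finite set into a proper subset. -/
theorem inj_absurd {T : Type} {J S : Finset V} (hS : S ⊂ J) (g : V → T) (hg : Set.InjOn g J)
    (pr : T → V) (hpr : ∀ i ∈ J, pr (g i) ∈ S)
    (hinj : ∀ i ∈ J, ∀ j ∈ J, pr (g i) = pr (g j) → g i = g j) : False := by
  have h1 : J.card ≤ S.card := Finset.card_le_card_of_injOn (fun i => pr (g i)) hpr
    (fun i hi j hj h => hg hi hj (hinj i hi j hj h))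
  have h2 := Finset.card_lt_card hS
  omega

/-- The underlying point of `π`, the corner being sent to `b`. -/
def pr {I : Finset V} {b : V} (t : Pt I b) : V := t.1.2.getD b

theorem embOn_x {π : Cfg V} {I : Finset V} {τ : Cfg W} {g : V → W} (hg : EmbOn I π τ g)
    {i j : V} (hi : i ∈ I) (hj : j ∈ I) (h : τ.x (g i) < τ.x (g j)) : π.x i < π.x j := by
  rcases lt_trichotomy (π.x i) (π.x j) with h1 | h1 | h1
  · exact h1
  · rw [π.hx h1] at h; omega
  · have := (hg j hj i hi).1 h1; omega

theorem embOn_y {π : Cfg V} {I : Finset V} {τ : Cfg W} {g : V → W} (hg : EmbOn I π τ g)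
    {i j : V} (hi : i ∈ I) (hj : j ∈ I) (h : τ.y (g i) < τ.y (g j)) : π.y i < π.y j := by
  rcases lt_trichotomy (π.y i) (π.y j) with h1 | h1 | h1
  · exact h1
  · rw [π.hy h1] at h; omega
  · have := (hg j hj i hi).2 h1; omega

theorem embOn_inj {π : Cfg V} {I : Finset V} {τ : Cfg W} {g : V → W} (hg : EmbOn I π τ g) :
    Set.InjOn g I := by
  intro i hi j hj h
  rcases lt_trichotomy (π.x i) (π.x j) with h1 | h1 | h1
  · have := (hg i hi j hj).1 h1; rw [h] at this; omega
  · exact π.hx h1
  · have := (hg j hj i hi).1 h1; rw [h] at this; omega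

end SN

open SN in
/-- Module SN. -/
theorem stag_NE [Fintype V] (π : Cfg V) (I : Finset V) (hI : IsInt π I) (h2 : 2 ≤ I.card)
    (hind : SumIndec π I) (hskew : SkewIndec π Finset.univ)
    (hNE : ∀ f, f ∉ I → ∀ i ∈ I, ¬ SW π i f) (hU : ∃ f, f ∉ I ∧ ∀ i ∈ I, π.y i < π.y f) :
    GoodLabel π (pats π I) (fun _ => none) true := by
  classical
  have hIne : I.Nonempty := Finset.card_pos.1 (by omega)
  obtain ⟨b, hb, hbot⟩ := Finset.exists_min_image I π.y hIne
  obtain ⟨mi, hmi, hmx⟩ := Finset.exists_max_image I π.x hIne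
  obtain ⟨mj, hmj, hmy⟩ := Finset.exists_max_image I π.y hIne
  -- positions of outer points
  have hxL : ∀ f, f ∉ I → π.x f < π.x b → ∀ i ∈ I, π.x f < π.x i := by
    intro f hf h
    rcases (hI f hf).1 with h' | h'
    · exact h'
    · have := h' b hb; omega
  have hxR : ∀ f, f ∉ I → ¬ π.x f < π.x b → ∀ i ∈ I, π.x i < π.x f := by
    intro f hf h
    rcases (hI f hf).1 with h' | h'
    · exact absurd (h' b hb) h
    · exact h'
  have hyL : ∀ f, f ∉ I → ∀ i ∈ I, π.y f < π.y i → ∀ j ∈ I, π.y f < π.y j := by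
    intro f hf i hi h
    rcases (hI f hf).2 with h' | h'
    · exact h'
    · have := h' i hi; omega
  have hyR : ∀ f, f ∉ I → ∀ i ∈ I, π.y i < π.y f → ∀ j ∈ I, π.y j < π.y f := by
    intro f hf i hi h
    rcases (hI f hf).2 with h' | h'
    · have := h' i hi; omega
    · exact h'
  -- some point of `I` is to the left of `b`
  have hleft : ∃ l ∈ I, π.x l < π.x b := by
    by_contra hcon
    push Not at hcon
    obtain ⟨c, hc, hcb⟩ := Finset.exists_mem_ne (by omega : 1 < I.card) b
    refine hind {b} ⟨b, hb, rfl⟩ ⟨c, hc, hcb⟩ ?_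
    rintro i - rfl j hj hji
    refine ⟨lt_of_le_of_ne (hcon j hj) fun e => hji (π.hx e.symm),
      lt_of_le_of_ne (hbot j hj) fun e => hji (π.hy e.symm)⟩
  obtain ⟨l, hl, hlb⟩ := hleft
  have hlb' : l ≠ b := fun e => by rw [e] at hlb; omega
  set τ := arr π I b (π.x mi) (π.y mj) with hτdef
  have hτx := arr_x π I b (π.x mi) (π.y mj)
  have hτy := arr_y π I b (π.x mi) (π.y mj)
  -- the points of the arrangement
  let q1 : Pt I b := ⟨(false, none), by simp⟩
  let q2 : Pt I b := ⟨(true, none), by simp⟩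
  let b1 : Pt I b := ⟨(false, some b), by simp⟩
  have hp1 : ∀ f, f ∉ I → ((false, some f) : Bool × Option V).1 = false →
      ∀ v, ((false, some f) : Bool × Option V).2 = some v → v ∈ I → v = b := by
    intro f hf _ v hv hvI
    simp only [Option.some.injEq] at hv
    exact absurd (hv ▸ hvI) hf
  let f1 : V → Pt I b := fun f =>
    if h : f ∈ I then q1 else ⟨(false, some f), hp1 f h, by simp⟩
  let f2 : V → Pt I b := fun f =>
    if h : f = b then q2 else ⟨(true, some f), by simp, by simpa using h⟩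
  have hf1 : ∀ f, f ∉ I → (f1 f).1 = (false, some f) := fun f hf => by
    simp only [f1, hf, dif_neg, not_false_eq_true]
  have hf2 : ∀ f, f ≠ b → (f2 f).1 = (true, some f) := fun f hf => by
    simp only [f2, hf, dif_neg, not_false_eq_true]
  -- classification of the points of the blocks
  have hB0 : ∀ t : Pt I b, blk π I b t.1 = 0 → ∃ v, t.1 = (true, some v) ∧ v ∉ I ∧
      π.x v < π.x b := by
    intro t h
    rcases blk_cases π I b t.1 with ⟨e, k⟩ | ⟨e, k⟩ | ⟨v, e, c1, k⟩ | ⟨v, e, c1, c2, k⟩ |
      ⟨v, e, c1, c2, k⟩ | ⟨v, e, c1, c2, k⟩ | ⟨v, e, c1, c2, k⟩ | ⟨v, e, c1, c2, k⟩ |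
      ⟨v, e, c1, c2, k⟩
    · omega
    · omega
    · omega
    · omega
    · omega
    · omega
    · omega
    · exact ⟨v, e, c1, c2⟩
    · omega
  have hB7 : ∀ t : Pt I b, blk π I b t.1 = 7 → ∃ v, t.1 = (true, some v) ∧ v ∉ I ∧
      ¬ π.x v < π.x b := by
    intro t h
    rcases blk_cases π I b t.1 with ⟨e, k⟩ | ⟨e, k⟩ | ⟨v, e, c1, k⟩ | ⟨v, e, c1, c2, k⟩ |
      ⟨v, e, c1, c2, k⟩ | ⟨v, e, c1, c2, k⟩ | ⟨v, e, c1, c2, k⟩ | ⟨v, e, c1, c2, k⟩ |
      ⟨v, e, c1, c2, k⟩
    · omega
    · omega
    · omega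
    · omega
    · omega
    · omega
    · omega
    · omega
    · exact ⟨v, e, c1, c2⟩
  have hB2 : ∀ t : Pt I b, blk π I b t.1 = 2 → ∃ v, t.1 = (false, some v) ∧ v ∉ I ∧
      π.x v < π.x b := by
    intro t h
    rcases blk_cases π I b t.1 with ⟨e, k⟩ | ⟨e, k⟩ | ⟨v, e, c1, k⟩ | ⟨v, e, c1, c2, k⟩ |
      ⟨v, e, c1, c2, k⟩ | ⟨v, e, c1, c2, k⟩ | ⟨v, e, c1, c2, k⟩ | ⟨v, e, c1, c2, k⟩ |
      ⟨v, e, c1, c2, k⟩
    · omega
    · omega
    · omega
    · exact ⟨v, e, c1, c2⟩
    · omega
    · omega
    · omega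
    · omega
    · omega
  have hB6 : ∀ t : Pt I b, blk π I b t.1 = 6 → ∃ v, t.1 = (false, some v) ∧ v ∉ I ∧
      ¬ π.x v < π.x b := by
    intro t h
    rcases blk_cases π I b t.1 with ⟨e, k⟩ | ⟨e, k⟩ | ⟨v, e, c1, k⟩ | ⟨v, e, c1, c2, k⟩ |
      ⟨v, e, c1, c2, k⟩ | ⟨v, e, c1, c2, k⟩ | ⟨v, e, c1, c2, k⟩ | ⟨v, e, c1, c2, k⟩ |
      ⟨v, e, c1, c2, k⟩
    · omega
    · omega
    · omega
    · omega
    · exact ⟨v, e, c1, c2⟩
    · omega
    · omega
    · omega
    · omega
  have hB3 : ∀ t : Pt I b, blk π I b t.1 = 3 → t = b1 := by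
    intro t h
    rcases blk_cases π I b t.1 with ⟨e, k⟩ | ⟨e, k⟩ | ⟨v, e, c1, k⟩ | ⟨v, e, c1, c2, k⟩ |
      ⟨v, e, c1, c2, k⟩ | ⟨v, e, c1, c2, k⟩ | ⟨v, e, c1, c2, k⟩ | ⟨v, e, c1, c2, k⟩ |
      ⟨v, e, c1, c2, k⟩
    · omega
    · omega
    · exact Subtype.ext (by rw [e, t.2.1 (by rw [e]) v (by rw [e]) c1])
    · omega
    · omega
    · omega
    · omega
    · omega
    · omega
  have hB5 : ∀ t : Pt I b, blk π I b t.1 = 5 → t = q1 := by
    intro t h
    rcases blk_cases π I b t.1 with ⟨e, k⟩ | ⟨e, k⟩ | ⟨v, e, c1, k⟩ | ⟨v, e, c1, c2, k⟩ |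
      ⟨v, e, c1, c2, k⟩ | ⟨v, e, c1, c2, k⟩ | ⟨v, e, c1, c2, k⟩ | ⟨v, e, c1, c2, k⟩ |
      ⟨v, e, c1, c2, k⟩
    · exact Subtype.ext e
    · omega
    · omega
    · omega
    · omega
    · omega
    · omega
    · omega
    · omega
  have hB1 : ∀ t : Pt I b, blk π I b t.1 = 1 → ∃ v, t.1 = (true, some v) ∧ v ∈ I ∧
      π.x v < π.x b := by
    intro t h
    rcases blk_cases π I b t.1 with ⟨e, k⟩ | ⟨e, k⟩ | ⟨v, e, c1, k⟩ | ⟨v, e, c1, c2, k⟩ |
      ⟨v, e, c1, c2, k⟩ | ⟨v, e, c1, c2, k⟩ | ⟨v, e, c1, c2, k⟩ | ⟨v, e, c1, c2, k⟩ |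
      ⟨v, e, c1, c2, k⟩
    · omega
    · omega
    · omega
    · omega
    · omega
    · exact ⟨v, e, c1, c2⟩
    · omega
    · omega
    · omega
  have hB4 : ∀ t : Pt I b, blk π I b t.1 = 4 → t = q2 ∨ ∃ v, t.1 = (true, some v) ∧ v ∈ I ∧
      π.x b < π.x v := by
    intro t h
    rcases blk_cases π I b t.1 with ⟨e, k⟩ | ⟨e, k⟩ | ⟨v, e, c1, k⟩ | ⟨v, e, c1, c2, k⟩ |
      ⟨v, e, c1, c2, k⟩ | ⟨v, e, c1, c2, k⟩ | ⟨v, e, c1, c2, k⟩ | ⟨v, e, c1, c2, k⟩ |
      ⟨v, e, c1, c2, k⟩
    · omega
    · exact Or.inl (Subtype.ext e)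
    · omega
    · omega
    · omega
    · omega
    · refine Or.inr ⟨v, e, c1, lt_of_le_of_ne (not_lt.1 c2) fun e' => ?_⟩
      have := π.hx e'
      subst this
      exact t.2.2 e
    · omega
    · omega
  have bq1 : blk π I b q1.1 = 5 := rfl
  have bq2 : blk π I b q2.1 = 4 := rfl
  have bb1 : blk π I b b1.1 = 3 := blk_f_in hb
  -- avoidance
  have hav : Avoids τ π := by
    have hAset : ∀ (v : V), v ∉ I → π.x v < π.x b →
        (Finset.univ.filter fun f => f ∉ I ∧ ∀ i ∈ I, π.x f < π.x i).erase v ⊂
        Finset.univ.filter fun f => f ∉ I ∧ ∀ i ∈ I, π.x f < π.x i := fun v hv h =>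
      Finset.erase_ssubset (by simpa using ⟨hv, hxL v hv h⟩)
    have hBset : ∀ (v : V), v ∉ I → ¬ π.x v < π.x b →
        (Finset.univ.filter fun f => f ∉ I ∧ ∀ i ∈ I, π.x i < π.x f).erase v ⊂
        Finset.univ.filter fun f => f ∉ I ∧ ∀ i ∈ I, π.x i < π.x f := fun v hv h =>
      Finset.erase_ssubset (by simpa using ⟨hv, hxR v hv h⟩)
    refine stag_avoid π I hI hIne hskew hNE hU τ (fun t => blk π I b t.1) (fun t => blk_le π I b _)
      (fun t t' h => (hτx t t').2 (Or.inl h)) (fun t t' h h' => (hτy t t').2 (Or.inl ?_))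
      ?_ ?_ ?_ ?_ ?_ ?_ ?_
    · rw [(blk_fst π I b t.1).2 h, (blk_fst' π I b t'.1).2 h']
      exact Bool.false_lt_true
    · -- block 0
      intro w hw g hg hcon
      obtain ⟨a, ha, haI, hab⟩ := hB0 w hw
      have key : ∀ f, f ∉ I → (∀ i ∈ I, π.x f < π.x i) → ∃ v, (g f).1 = (true, some v) ∧ v ∉ I ∧
          π.x v < π.x b ∧ v ≠ a := by
        intro f hf hfx
        have h := (hτx _ _).1 (hcon f hf hfx)
        simp only [hw] at h
        obtain ⟨v, hv, hvI, hvb⟩ := hB0 (g f) (by omega)
        refine ⟨v, hv, hvI, hvb, fun e => ?_⟩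
        have h4 := (h.resolve_left (by omega)).2
        rw [hv, ha, e] at h4
        exact lt_irrefl _ h4
      refine inj_absurd (hAset a haI hab) g ?_ pr ?_ ?_
      · simpa using hg
      · intro f hf
        simp only [Finset.mem_filter, Finset.mem_univ, true_and] at hf
        obtain ⟨v, hv, hvI, hvb, hne⟩ := key f hf.1 hf.2
        simp only [pr, hv, Option.getD_some, Finset.mem_erase, Finset.mem_filter,
          Finset.mem_univ, true_and]
        exact ⟨hne, hvI, hxL v hvI hvb⟩
      · intro f hf f' hf' he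
        simp only [Finset.mem_filter, Finset.mem_univ, true_and] at hf hf'
        obtain ⟨v, hv, -⟩ := key f hf.1 hf.2
        obtain ⟨v', hv', -⟩ := key f' hf'.1 hf'.2
        simp only [pr, hv, hv', Option.getD_some] at he
        exact Subtype.ext (by rw [hv, hv', he])
    · -- block 7
      intro w hw g hg hcon
      obtain ⟨a, ha, haI, hab⟩ := hB7 w hw
      have key : ∀ f, f ∉ I → (∀ i ∈ I, π.x i < π.x f) → ∃ v, (g f).1 = (true, some v) ∧ v ∉ I ∧
          ¬ π.x v < π.x b ∧ v ≠ a := by
        intro f hf hfx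
        have h := (hτx _ _).1 (hcon f hf hfx)
        have hle := blk_le π I b (g f).1
        simp only [hw] at h
        obtain ⟨v, hv, hvI, hvb⟩ := hB7 (g f) (by omega)
        refine ⟨v, hv, hvI, hvb, fun e => ?_⟩
        have h4 := (h.resolve_left (by omega)).2
        rw [hv, ha, e] at h4
        exact lt_irrefl _ h4
      refine inj_absurd (hBset a haI hab) g ?_ pr ?_ ?_
      · simpa using hg
      · intro f hf
        simp only [Finset.mem_filter, Finset.mem_univ, true_and] at hf
        obtain ⟨v, hv, hvI, hvb, hne⟩ := key f hf.1 hf.2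
        simp only [pr, hv, Option.getD_some, Finset.mem_erase, Finset.mem_filter,
          Finset.mem_univ, true_and]
        exact ⟨hne, hvI, hxR v hvI hvb⟩
      · intro f hf f' hf' he
        simp only [Finset.mem_filter, Finset.mem_univ, true_and] at hf hf'
        obtain ⟨v, hv, -⟩ := key f hf.1 hf.2
        obtain ⟨v', hv', -⟩ := key f' hf'.1 hf'.2
        simp only [pr, hv, hv', Option.getD_some] at he
        exact Subtype.ext (by rw [hv, hv', he])
    · -- block 2
      intro w hw g hg hcon
      obtain ⟨a, ha, haI, hab⟩ := hB2 w hw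
      have key : ∀ f, f ∉ I → (∀ i ∈ I, π.x f < π.x i) → ∃ v, (g f).1 = (false, some v) ∧ v ∉ I ∧
          π.x v < π.x b ∧ v ≠ a := by
        intro f hf hfx
        have h := (hτx _ _).1 (hcon f hf hfx).1
        have h' := (hcon f hf hfx).2
        simp only [hw] at h h'
        obtain ⟨v, hv, hvI, hvb⟩ := hB2 (g f) (by omega)
        refine ⟨v, hv, hvI, hvb, fun e => ?_⟩
        have h4 := (h.resolve_left (by omega)).2
        rw [hv, ha, e] at h4
        exact lt_irrefl _ h4
      refine inj_absurd (hAset a haI hab) g ?_ pr ?_ ?_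
      · simpa using hg
      · intro f hf
        simp only [Finset.mem_filter, Finset.mem_univ, true_and] at hf
        obtain ⟨v, hv, hvI, hvb, hne⟩ := key f hf.1 hf.2
        simp only [pr, hv, Option.getD_some, Finset.mem_erase, Finset.mem_filter,
          Finset.mem_univ, true_and]
        exact ⟨hne, hvI, hxL v hvI hvb⟩
      · intro f hf f' hf' he
        simp only [Finset.mem_filter, Finset.mem_univ, true_and] at hf hf'
        obtain ⟨v, hv, -⟩ := key f hf.1 hf.2
        obtain ⟨v', hv', -⟩ := key f' hf'.1 hf'.2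
        simp only [pr, hv, hv', Option.getD_some] at he
        exact Subtype.ext (by rw [hv, hv', he])
    · -- block 6
      intro w hw g hg hcon
      obtain ⟨a, ha, haI, hab⟩ := hB6 w hw
      have key : ∀ f, f ∉ I → (∀ i ∈ I, π.x i < π.x f) → ∃ v, (g f).1 = (false, some v) ∧ v ∉ I ∧
          ¬ π.x v < π.x b ∧ v ≠ a := by
        intro f hf hfx
        have h := (hτx _ _).1 (hcon f hf hfx).1
        have h' := (hcon f hf hfx).2
        simp only [hw] at h h'
        obtain ⟨v, hv, hvI, hvb⟩ := hB6 (g f) (by omega)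
        refine ⟨v, hv, hvI, hvb, fun e => ?_⟩
        have h4 := (h.resolve_left (by omega)).2
        rw [hv, ha, e] at h4
        exact lt_irrefl _ h4
      refine inj_absurd (hBset a haI hab) g ?_ pr ?_ ?_
      · simpa using hg
      · intro f hf
        simp only [Finset.mem_filter, Finset.mem_univ, true_and] at hf
        obtain ⟨v, hv, hvI, hvb, hne⟩ := key f hf.1 hf.2
        simp only [pr, hv, Option.getD_some, Finset.mem_erase, Finset.mem_filter,
          Finset.mem_univ, true_and]
        exact ⟨hne, hvI, hxR v hvI hvb⟩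
      · intro f hf f' hf' he
        simp only [Finset.mem_filter, Finset.mem_univ, true_and] at hf hf'
        obtain ⟨v, hv, -⟩ := key f hf.1 hf.2
        obtain ⟨v', hv', -⟩ := key f' hf'.1 hf'.2
        simp only [pr, hv, hv', Option.getD_some] at he
        exact Subtype.ext (by rw [hv, hv', he])
    · -- `L₁`
      intro g hg hcon
      have hinj := embOn_inj hg
      have e1 : ∃ i ∈ I, g i = b1 := by
        by_contra hc
        push Not at hc
        have hall : ∀ i ∈ I, g i = q1 := fun i hi =>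
          (hcon i hi).elim (fun h => absurd (hB3 _ h) (hc i hi)) (fun h => hB5 _ h)
        exact hlb' (hinj hl hb (by rw [hall l hl, hall b hb]))
      have e2 : ∃ i ∈ I, g i ≠ b1 := by
        by_contra hc
        push Not at hc
        exact hlb' (hinj hl hb (by rw [hc l hl, hc b hb]))
      refine hind {v | g v = b1} e1 e2 ?_
      intro i hi hib j hj hjb
      have hjq : g j = q1 := (hcon j hj).elim (fun h => absurd (hB3 _ h) hjb) (fun h => hB5 _ h)
      have hib' : g i = b1 := hib
      refine ⟨embOn_x hg hi hj ?_, embOn_y hg hi hj ?_⟩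
      · rw [hib', hjq, hτdef, hτx, bb1, bq1]; omega
      · rw [hib', hjq, hτdef, hτy]
        right
        refine ⟨rfl, ?_⟩
        show 2 * π.y b < 2 * π.y mj + 1
        have := hbot mj hmj
        omega
    · -- `L₂`
      intro g hg hcon
      have hinj := embOn_inj hg
      have hcl : ∀ i ∈ I, g i = q2 ∨ ∃ v, (g i).1 = (true, some v) ∧ v ∈ I ∧ v ≠ b := by
        intro i hi
        rcases hcon i hi with h | h
        · obtain ⟨v, hv, hvI, hvb⟩ := hB1 _ h
          exact Or.inr ⟨v, hv, hvI, fun e => by rw [e] at hvb; omega⟩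
        · rcases hB4 _ h with h | ⟨v, hv, hvI, hvb⟩
          · exact Or.inl h
          · exact Or.inr ⟨v, hv, hvI, fun e => by rw [e] at hvb; omega⟩
      have e1 : ∃ i ∈ I, g i = q2 := by
        by_contra hc
        push Not at hc
        have key : ∀ i ∈ I, ∃ v, (g i).1 = (true, some v) ∧ v ∈ I ∧ v ≠ b := fun i hi =>
          (hcl i hi).resolve_left (hc i hi)
        refine inj_absurd (Finset.erase_ssubset hb) g hinj pr ?_ ?_
        · intro i hi
          obtain ⟨v, hv, hvI, hvb⟩ := key i hi
          simp only [pr, hv, Option.getD_some, Finset.mem_erase]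
          exact ⟨hvb, hvI⟩
        · intro f hf f' hf' he
          obtain ⟨v, hv, -⟩ := key f hf
          obtain ⟨v', hv', -⟩ := key f' hf'
          simp only [pr, hv, hv', Option.getD_some] at he
          exact Subtype.ext (by rw [hv, hv', he])
      have e2 : ∃ i ∈ I, g i ≠ q2 := by
        by_contra hc
        push Not at hc
        exact hlb' (hinj hl hb (by rw [hc l hl, hc b hb]))
      obtain ⟨i0, hi0, hi0'⟩ := e1
      refine hind {v | g v ≠ q2} e2 ⟨i0, hi0, by simpa using hi0'⟩ ?_
      intro i hi hib j hj hjb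
      have hjq : g j = q2 := by simpa using hjb
      obtain ⟨v, hv, hvI, hvb⟩ := (hcl i hi).resolve_left hib
      refine ⟨embOn_x hg hi hj ?_, embOn_y hg hi hj ?_⟩
      · rw [hjq, hτdef, hτx, bq2]
        rcases hcon i hi with h | h
        · simp only [h]; omega
        · right
          refine ⟨h, ?_⟩
          rw [hv]
          show 2 * π.x v < 2 * π.x mi + 1
          have := hmx v hvI
          omega
      · rw [hjq, hτdef, hτy, hv]
        right
        refine ⟨rfl, ?_⟩
        show 2 * π.y v < 2 * π.y mj + 1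
        have := hmy v hvI
        omega
    · -- block 4 is single, or no copy in blocks 4, 5
      by_cases hr : ∃ r ∈ I, π.x b < π.x r
      · right
        intro g hg hcon
        have hinj := embOn_inj hg
        obtain ⟨r, hr, hrb⟩ := hr
        have e1 : ∃ i ∈ I, g i = q1 := by
          by_contra hc
          push Not at hc
          have key : ∀ i ∈ I, g i = q2 ∨ ∃ v, (g i).1 = (true, some v) ∧ v ∈ I ∧
              π.x b < π.x v := by
            intro i hi
            rcases hcon i hi with h | h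
            · exact hB4 _ h
            · exact absurd (hB5 _ h) (hc i hi)
          have hss : (I.filter fun v => π.x b ≤ π.x v) ⊂ I := by
            rw [Finset.ssubset_iff_of_subset (Finset.filter_subset _ _)]
            exact ⟨l, hl, by simp only [Finset.mem_filter, not_and, not_le]; exact fun _ => hlb⟩
          refine inj_absurd hss g hinj pr ?_ ?_
          · intro i hi
            rcases key i hi with h | ⟨v, hv, hvI, hvb⟩
            · simp only [pr, h, q2, Option.getD_none, Finset.mem_filter]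
              exact ⟨hb, le_rfl⟩
            · simp only [pr, hv, Option.getD_some, Finset.mem_filter]
              exact ⟨hvI, hvb.le⟩
          · intro f hf f' hf' he
            rcases key f hf with h | ⟨v, hv, hvI, hvb⟩ <;>
              rcases key f' hf' with h' | ⟨v', hv', hvI', hvb'⟩
            · rw [h, h']
            · simp only [pr, h, hv', q2, Option.getD_none, Option.getD_some] at he
              rw [he] at hvb'; omega
            · simp only [pr, hv, h', q2, Option.getD_none, Option.getD_some] at he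
              rw [← he] at hvb; omega
            · simp only [pr, hv, hv', Option.getD_some] at he
              exact Subtype.ext (by rw [hv, hv', he])
        obtain ⟨j, hj, hjq⟩ := e1
        -- `j` is the last and the lowest point of `I`
        have hlast : ∀ i ∈ I, i ≠ j → π.x i < π.x j ∧ π.y j < π.y i := by
          intro i hi hij
          have hne : g i ≠ q1 := fun e => hij (hinj hi hj (by rw [e, hjq]))
          have h4 : blk π I b (g i).1 = 4 :=
            (hcon i hi).resolve_right fun h => hne (hB5 _ h)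
          refine ⟨embOn_x hg hi hj ?_, embOn_y hg hj hi ?_⟩
          · rw [hjq, hτdef, hτx, bq1, h4]; omega
          · rw [hjq, hτdef, hτy, (blk_fst' π I b (g i).1).2 (by omega)]
            left
            exact Bool.false_lt_true
        by_cases hjb : b = j
        · subst hjb
          have := (hlast r hr (fun e => by rw [e] at hrb; omega)).1
          omega
        · have := (hlast b hb hjb).2
          have := hbot j hj
          omega
      · left
        push Not at hr
        intro w w' h h'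
        rcases hB4 _ h with h | ⟨v, hv, hvI, hvb⟩
        · rcases hB4 _ h' with h' | ⟨v, hv, hvI, hvb⟩
          · rw [h, h']
          · have := hr v hvI; omega
        · have := hr v hvI; omega
  -- the frames
  let L1 : Set (Pt I b) := {t | t = b1 ∨ t = q1}
  let L2 : Set (Pt I b) := {t | t = q2 ∨ ∃ v, t.1 = (true, some v) ∧ v ∈ I}
  refine goodLabel_of_frames π I hIne true τ hav L1 L2 ?_ ?_ ?_ ?_ ?_ ?_ ?_
  · -- frame of `L1`
    refine ⟨f1, ?_, ?_⟩
    · intro v hv w hw
      refine ⟨fun h => ?_, fun h => ?_⟩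
      · rw [hτdef, hτx, hf1 v hv, hf1 w hw]
        by_cases c1 : π.x v < π.x b <;> by_cases c2 : π.x w < π.x b
        · rw [blk_f_l hv c1, blk_f_l hw c2]
          right
          refine ⟨rfl, ?_⟩
          show 2 * π.x v < 2 * π.x w
          omega
        · rw [blk_f_l hv c1, blk_f_r hw c2]
          left; omega
        · omega
        · rw [blk_f_r hv c1, blk_f_r hw c2]
          right
          refine ⟨rfl, ?_⟩
          show 2 * π.x v < 2 * π.x w
          omega
      · rw [hτdef, hτy, hf1 v hv, hf1 w hw]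
        right
        refine ⟨rfl, ?_⟩
        show 2 * π.y v < 2 * π.y w
        omega
    · intro g hg f hf i hi
      have hgb : blk π I b g.1 = 3 ∨ blk π I b g.1 = 5 := by
        rcases hg with rfl | rfl
        · exact Or.inl bb1
        · exact Or.inr bq1
      have hg1 : g.1.1 = false := by
        rcases hg with rfl | rfl <;> rfl
      refine ⟨fun h => ?_, fun h => ?_, fun h => ?_, fun h => ?_⟩
      · have hfb : π.x f < π.x b := by
          by_contra hc
          have := hxR f hf hc i hi
          omega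
        rw [hτdef, hτx, hf1 f hf, blk_f_l hf hfb]
        omega
      · have hfb : ¬ π.x f < π.x b := by
          intro hc
          have := hxL f hf hc i hi
          omega
        rw [hτdef, hτx, hf1 f hf, blk_f_r hf hfb]
        omega
      · rw [hτdef, hτy, hf1 f hf, hg1]
        right
        refine ⟨rfl, ?_⟩
        rcases hg with rfl | rfl
        · show 2 * π.y f < 2 * π.y b
          have := hyL f hf i hi h b hb
          omega
        · show 2 * π.y f < 2 * π.y mj + 1
          have := hyL f hf i hi h mj hmj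
          omega
      · rw [hτdef, hτy, hf1 f hf, hg1]
        right
        refine ⟨rfl, ?_⟩
        rcases hg with rfl | rfl
        · show 2 * π.y b < 2 * π.y f
          have := hyR f hf i hi h b hb
          omega
        · show 2 * π.y mj + 1 < 2 * π.y f
          have := hyR f hf i hi h mj hmj
          omega
  · -- frame of `L2`
    refine ⟨f2, ?_, ?_⟩
    · intro v hv w hw
      have hvb : v ≠ b := fun e => hv (e ▸ hb)
      have hwb : w ≠ b := fun e => hw (e ▸ hb)
      refine ⟨fun h => ?_, fun h => ?_⟩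
      · rw [hτdef, hτx, hf2 v hvb, hf2 w hwb]
        by_cases c1 : π.x v < π.x b <;> by_cases c2 : π.x w < π.x b
        · rw [blk_t_l hv c1, blk_t_l hw c2]
          right
          refine ⟨rfl, ?_⟩
          show 2 * π.x v < 2 * π.x w
          omega
        · rw [blk_t_l hv c1, blk_t_r hw c2]
          left; omega
        · omega
        · rw [blk_t_r hv c1, blk_t_r hw c2]
          right
          refine ⟨rfl, ?_⟩
          show 2 * π.x v < 2 * π.x w
          omega
      · rw [hτdef, hτy, hf2 v hvb, hf2 w hwb]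
        right
        refine ⟨rfl, ?_⟩
        show 2 * π.y v < 2 * π.y w
        omega
    · intro g hg f hf i hi
      have hfb' : f ≠ b := fun e => hf (e ▸ hb)
      have hgb : blk π I b g.1 = 1 ∨ blk π I b g.1 = 4 := by
        rcases hg with rfl | ⟨v, hv, hvI⟩
        · exact Or.inr bq2
        · rw [hv]
          by_cases c : π.x v < π.x b
          · exact Or.inl (blk_t_il hvI c)
          · exact Or.inr (blk_t_ir hvI c)
      have hg1 : g.1.1 = true := by
        rcases hg with rfl | ⟨v, hv, hvI⟩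
        · rfl
        · rw [hv]
      refine ⟨fun h => ?_, fun h => ?_, fun h => ?_, fun h => ?_⟩
      · have hfb : π.x f < π.x b := by
          by_contra hc
          have := hxR f hf hc i hi
          omega
        rw [hτdef, hτx, hf2 f hfb', blk_t_l hf hfb]
        omega
      · have hfb : ¬ π.x f < π.x b := by
          intro hc
          have := hxL f hf hc i hi
          omega
        rw [hτdef, hτx, hf2 f hfb', blk_t_r hf hfb]
        omega
      · rw [hτdef, hτy, hf2 f hfb', hg1]
        right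
        refine ⟨rfl, ?_⟩
        rcases hg with rfl | ⟨v, hv, hvI⟩
        · show 2 * π.y f < 2 * π.y mj + 1
          have := hyL f hf i hi h mj hmj
          omega
        · rw [hv]
          show 2 * π.y f < 2 * π.y v
          have := hyL f hf i hi h v hvI
          omega
      · rw [hτdef, hτy, hf2 f hfb', hg1]
        right
        refine ⟨rfl, ?_⟩
        rcases hg with rfl | ⟨v, hv, hvI⟩
        · show 2 * π.y mj + 1 < 2 * π.y f
          have := hyR f hf i hi h mj hmj
          omega
        · rw [hv]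
          show 2 * π.y v < 2 * π.y f
          have := hyR f hf i hi h v hvI
          omega
  · -- hub of `L1`
    refine ⟨q1, Or.inr rfl, ?_⟩
    rintro g (rfl | rfl) hg
    · right
      refine ⟨?_, ?_⟩
      · rw [hτdef, hτx, bb1, bq1]; omega
      · rw [hτdef, hτy]
        right
        refine ⟨rfl, ?_⟩
        show 2 * π.y b < 2 * π.y mj + 1
        have := hbot mj hmj
        omega
    · exact absurd rfl hg
  · -- hub of `L2`
    refine ⟨q2, Or.inl rfl, ?_⟩
    rintro g (rfl | ⟨v, hv, hvI⟩) hg
    · exact absurd rfl hg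
    · right
      refine ⟨?_, ?_⟩
      · rw [hτdef, hτx, bq2, hv]
        by_cases hvb : π.x v < π.x b
        · rw [blk_t_il hvI hvb]; omega
        · rw [blk_t_ir hvI hvb]
          right
          refine ⟨rfl, ?_⟩
          show 2 * π.x v < 2 * π.x mi + 1
          have := hmx v hvI
          omega
      · rw [hτdef, hτy, hv]
        right
        refine ⟨rfl, ?_⟩
        show 2 * π.y v < 2 * π.y mj + 1
        have := hmy v hvI
        omega
  · -- sep1
    refine ⟨q2, Or.inl rfl, ?_⟩
    rintro ⟨h | h, -⟩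
    · have h := h b1 (Or.inl rfl)
      rw [hτdef, hτx, bb1, bq2] at h
      omega
    · have h := h q1 (Or.inr rfl)
      rw [hτdef, hτx, bq1, bq2] at h
      omega
  · -- sep2
    have hll : (f2 l).1 = (true, some l) := hf2 l hlb'
    refine ⟨b1, Or.inl rfl, ?_⟩
    rintro ⟨h | h, -⟩
    · have h := h (f2 l) (Or.inr ⟨l, hll, hl⟩)
      rw [hτdef, hτx, bb1, hll, blk_t_il hl hlb] at h
      omega
    · have h := h q2 (Or.inl rfl)
      rw [hτdef, hτx, bb1, bq2] at h
      omega
  · -- the copy of `I ⊕ 1`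
    let e : Option I → Pt I b := fun o =>
      match o with
      | none => q2
      | some i => if (i : V) = b then b1 else f2 i
    have he_none : e none = q2 := rfl
    have he_b : ∀ i : I, (i : V) = b → e (some i) = b1 := fun i hi => by simp only [e, hi, if_true]
    have he_i : ∀ i : I, (i : V) ≠ b → (e (some i)).1 = (true, some (i : V)) := fun i hi => by
      simp only [e, hi, if_false]; exact hf2 i hi
    refine ⟨e, ⟨?_, ?_⟩, ?_⟩
    · rintro (_ | i) (_ | j) hij
      · exact absurd hij (lt_irrefl _)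
      · have := FR.addNE_x_none (π.restrict I) j
        simp only [pats, if_true] at hij
        omega
      · by_cases hi : (i : V) = b
        · rw [he_none, he_b i hi, hτdef, hτx, bb1, bq2]; omega
        · rw [he_none, hτdef, hτx, bq2, he_i i hi]
          by_cases hvb : π.x i < π.x b
          · rw [blk_t_il i.2 hvb]; omega
          · rw [blk_t_ir i.2 hvb]
            right
            refine ⟨rfl, ?_⟩
            show 2 * π.x i < 2 * π.x mi + 1
            have := hmx i i.2
            omega
      · simp only [pats, if_true] at hij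
        have hij' : π.x i < π.x j := (FR.addNE_x (π.restrict I) i j).1 hij
        by_cases hi : (i : V) = b <;> by_cases hj : (j : V) = b
        · rw [hi, hj] at hij'; omega
        · rw [hi] at hij'
          rw [he_b i hi, hτdef, hτx, bb1, he_i j hj, blk_t_ir j.2 (by omega)]
          omega
        · rw [hj] at hij'
          rw [he_b j hj, hτdef, hτx, bb1, he_i i hi, blk_t_il i.2 hij']
          omega
        · rw [hτdef, hτx, he_i i hi, he_i j hj]
          by_cases c1 : π.x i < π.x b <;> by_cases c2 : π.x j < π.x b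
          · rw [blk_t_il i.2 c1, blk_t_il j.2 c2]
            right
            refine ⟨rfl, ?_⟩
            show 2 * π.x i < 2 * π.x j
            omega
          · rw [blk_t_il i.2 c1, blk_t_ir j.2 c2]
            left; omega
          · omega
          · rw [blk_t_ir i.2 c1, blk_t_ir j.2 c2]
            right
            refine ⟨rfl, ?_⟩
            show 2 * π.x i < 2 * π.x j
            omega
    · rintro (_ | i) (_ | j) hij
      · exact absurd hij (lt_irrefl _)
      · have := FR.addNE_y_none (π.restrict I) j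
        simp only [pats, if_true] at hij
        omega
      · by_cases hi : (i : V) = b
        · rw [he_none, he_b i hi, hτdef, hτy]
          left
          exact Bool.false_lt_true
        · rw [he_none, hτdef, hτy, he_i i hi]
          right
          refine ⟨rfl, ?_⟩
          show 2 * π.y i < 2 * π.y mj + 1
          have := hmy i i.2
          omega
      · simp only [pats, if_true] at hij
        have hij' : π.y i < π.y j := (FR.addNE_y (π.restrict I) i j).1 hij
        by_cases hi : (i : V) = b <;> by_cases hj : (j : V) = b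
        · rw [hi, hj] at hij'; omega
        · rw [he_b i hi, hτdef, hτy, he_i j hj]
          left
          exact Bool.false_lt_true
        · rw [hj] at hij'
          have := hbot i i.2
          omega
        · rw [hτdef, hτy, he_i i hi, he_i j hj]
          right
          refine ⟨rfl, ?_⟩
          show 2 * π.y i < 2 * π.y j
          omega
    · rintro (_ | i)
      · exact Or.inr (Or.inl rfl)
      · by_cases hi : (i : V) = b
        · exact Or.inl (Or.inl (he_b i hi))
        · exact Or.inr (Or.inr ⟨i, he_i i hi, i.2⟩)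

end Helper43.Split
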