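import Pool.Agent.Helper43.Split.Div

/-!
# The class of permutations avoiding 132 is unsplittable
-/

namespace Helper43.Split

variable {U V W : Type}

/-- No three points form the pattern 132. -/
def Av132 (ρ : Cfg W) : Prop :=
  ∀ p q r : W, ρ.x p < ρ.x q → ρ.x q < ρ.x r → ρ.y p < ρ.y r → ρ.y r < ρ.y q → False

theorem avoids_iff_av132 (π : Cfg V) (a b c : V) (hV : ∀ v, v = a ∨ v = b ∨ v = c)
    (hab : SW π a b) (hac : SW π a c) (hx : π.x b < π.x c) (hy : π.y c < π.y b) (ρ : Cfg W) :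
    Avoids ρ π ↔ Av132 ρ := by
  classical
  obtain ⟨hab1, hab2⟩ := hab
  obtain ⟨hac1, hac2⟩ := hac
  constructor
  · intro h p q r h1 h2 h3 h4
    have hba : b ≠ a := by rintro rfl; omega
    have hca : c ≠ a := by rintro rfl; omega
    have hcb : c ≠ b := by rintro rfl; omega
    let f : V → W := fun v => if v = a then p else if v = b then q else r
    have fa : f a = p := by simp [f]
    have fb : f b = q := by simp [f, hba]
    have fc : f c = r := by simp [f, hca, hcb]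
    apply h f
    constructor
    · intro i j hij
      rcases hV i with rfl | rfl | rfl <;> rcases hV j with rfl | rfl | rfl <;>
        simp only [fa, fb, fc] <;> omega
    · intro i j hij
      rcases hV i with rfl | rfl | rfl <;> rcases hV j with rfl | rfl | rfl <;>
        simp only [fa, fb, fc] <;> omega
  · intro h f hf
    exact h (f a) (f b) (f c) (hf.1 _ _ hab1) (hf.1 _ _ hx) (hf.2 _ _ hac2) (hf.2 _ _ hy)

theorem Av132.pull {ρ : Cfg W} (h : Av132 ρ) (f : U → W) (hf : Function.Injective f) :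
    Av132 (ρ.pull f hf) := fun p q r h1 h2 h3 h4 => h (f p) (f q) (f r) h1 h2 h3 h4

section Constructions

variable {W₁ W₂ : Type}

/-- Horizontal keys of the skew sum. -/
def skewX (ρ₁ : Cfg W₁) (ρ₂ : Cfg W₂) : W₁ ⊕ W₂ → ℤ ×ₗ ℤ :=
  Sum.elim (fun w => toLex (0, ρ₁.x w)) (fun w => toLex (1, ρ₂.x w))

/-- Vertical keys of the skew sum. -/
def skewY (ρ₁ : Cfg W₁) (ρ₂ : Cfg W₂) : W₁ ⊕ W₂ → ℤ ×ₗ ℤ :=
  Sum.elim (fun w => toLex (1, ρ₁.y w)) (fun w => toLex (0, ρ₂.y w))

theorem skewX_inj (ρ₁ : Cfg W₁) (ρ₂ : Cfg W₂) : Function.Injective (skewX ρ₁ ρ₂) := by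
  rintro (v | v) (w | w) h <;> simp only [skewX, Sum.elim_inl, Sum.elim_inr] at h
  · have := congrArg ofLex h
    simp only [ofLex_toLex, Prod.mk.injEq, true_and] at this
    rw [ρ₁.hx this]
  · have := congrArg ofLex h
    simp at this
  · have := congrArg ofLex h
    simp at this
  · have := congrArg ofLex h
    simp only [ofLex_toLex, Prod.mk.injEq, true_and] at this
    rw [ρ₂.hx this]

theorem skewY_inj (ρ₁ : Cfg W₁) (ρ₂ : Cfg W₂) : Function.Injective (skewY ρ₁ ρ₂) := by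
  rintro (v | v) (w | w) h <;> simp only [skewY, Sum.elim_inl, Sum.elim_inr] at h
  · have := congrArg ofLex h
    simp only [ofLex_toLex, Prod.mk.injEq, true_and] at this
    rw [ρ₁.hy this]
  · have := congrArg ofLex h
    simp at this
  · have := congrArg ofLex h
    simp at this
  · have := congrArg ofLex h
    simp only [ofLex_toLex, Prod.mk.injEq, true_and] at this
    rw [ρ₂.hy this]

/-- The skew sum: `ρ₁` to the left of and above `ρ₂`. -/
noncomputable def skew [Fintype W₁] [Fintype W₂] (ρ₁ : Cfg W₁) (ρ₂ : Cfg W₂) : Cfg (W₁ ⊕ W₂) :=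
  Cfg.of (skewX ρ₁ ρ₂) (skewY ρ₁ ρ₂) (skewX_inj ρ₁ ρ₂) (skewY_inj ρ₁ ρ₂)

variable [Fintype W₁] [Fintype W₂] (ρ₁ : Cfg W₁) (ρ₂ : Cfg W₂)

@[simp] theorem skew_x_ll (v w : W₁) :
    (skew ρ₁ ρ₂).x (Sum.inl v) < (skew ρ₁ ρ₂).x (Sum.inl w) ↔ ρ₁.x v < ρ₁.x w := by
  simp [skew, skewX, Prod.Lex.toLex_lt_toLex]

@[simp] theorem skew_x_rr (v w : W₂) :
    (skew ρ₁ ρ₂).x (Sum.inr v) < (skew ρ₁ ρ₂).x (Sum.inr w) ↔ ρ₂.x v < ρ₂.x w := by
  simp [skew, skewX, Prod.Lex.toLex_lt_toLex]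

theorem skew_x_lr (v : W₁) (w : W₂) :
    (skew ρ₁ ρ₂).x (Sum.inl v) < (skew ρ₁ ρ₂).x (Sum.inr w) := by
  simp [skew, skewX, Prod.Lex.toLex_lt_toLex]

@[simp] theorem skew_y_ll (v w : W₁) :
    (skew ρ₁ ρ₂).y (Sum.inl v) < (skew ρ₁ ρ₂).y (Sum.inl w) ↔ ρ₁.y v < ρ₁.y w := by
  simp [skew, skewY, Prod.Lex.toLex_lt_toLex]

@[simp] theorem skew_y_rr (v w : W₂) :
    (skew ρ₁ ρ₂).y (Sum.inr v) < (skew ρ₁ ρ₂).y (Sum.inr w) ↔ ρ₂.y v < ρ₂.y w := by
  simp [skew, skewY, Prod.Lex.toLex_lt_toLex]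

theorem skew_y_rl (v : W₂) (w : W₁) :
    (skew ρ₁ ρ₂).y (Sum.inr v) < (skew ρ₁ ρ₂).y (Sum.inl w) := by
  simp [skew, skewY, Prod.Lex.toLex_lt_toLex]

theorem Av132.skew {ρ₁ : Cfg W₁} {ρ₂ : Cfg W₂} (h₁ : Av132 ρ₁) (h₂ : Av132 ρ₂) :
    Av132 (skew ρ₁ ρ₂) := by
  rintro (p | p) (q | q) (r | r) h1 h2 h3 h4
  · exact h₁ p q r (by simpa using h1) (by simpa using h2) (by simpa using h3) (by simpa using h4)
  · exact absurd h3 (not_lt.2 (skew_y_rl ρ₁ ρ₂ r p).le)
  · exact absurd h2 (not_lt.2 (skew_x_lr ρ₁ ρ₂ r q).le)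
  · exact absurd h3 (not_lt.2 (skew_y_rl ρ₁ ρ₂ r p).le)
  · exact absurd h1 (not_lt.2 (skew_x_lr ρ₁ ρ₂ q p).le)
  · exact absurd h1 (not_lt.2 (skew_x_lr ρ₁ ρ₂ q p).le)
  · exact absurd h2 (not_lt.2 (skew_x_lr ρ₁ ρ₂ r q).le)
  · exact h₂ p q r (by simpa using h1) (by simpa using h2) (by simpa using h3) (by simpa using h4)

theorem emb_skew_inl : Emb ρ₁ (skew ρ₁ ρ₂) Sum.inl :=
  ⟨fun i j h => by simpa using h, fun i j h => by simpa using h⟩

theorem emb_skew_inr : Emb ρ₂ (skew ρ₁ ρ₂) Sum.inr :=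
  ⟨fun i j h => by simpa using h, fun i j h => by simpa using h⟩

/-- Horizontal keys of the configuration with a new top right point. -/
def topX (ρ : Cfg W) : Option W → ℤ ×ₗ ℤ
  | none => toLex (1, 0)
  | some w => toLex (0, ρ.x w)

/-- Vertical keys of the configuration with a new top right point. -/
def topY (ρ : Cfg W) : Option W → ℤ ×ₗ ℤ
  | none => toLex (1, 0)
  | some w => toLex (0, ρ.y w)

theorem topX_inj (ρ : Cfg W) : Function.Injective (topX ρ) := by
  rintro (_ | v) (_ | w) h <;> simp only [topX] at h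
  · rfl
  · have := congrArg ofLex h
    simp at this
  · have := congrArg ofLex h
    simp at this
  · have := congrArg ofLex h
    simp only [ofLex_toLex, Prod.mk.injEq, true_and] at this
    rw [ρ.hx this]

theorem topY_inj (ρ : Cfg W) : Function.Injective (topY ρ) := by
  rintro (_ | v) (_ | w) h <;> simp only [topY] at h
  · rfl
  · have := congrArg ofLex h
    simp at this
  · have := congrArg ofLex h
    simp at this
  · have := congrArg ofLex h
    simp only [ofLex_toLex, Prod.mk.injEq, true_and] at this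
    rw [ρ.hy this]

/-- A new point to the right of and above all points. -/
noncomputable def addTop [Fintype W] (ρ : Cfg W) : Cfg (Option W) :=
  Cfg.of (topX ρ) (topY ρ) (topX_inj ρ) (topY_inj ρ)

@[simp] theorem addTop_x_some [Fintype W] (ρ : Cfg W) (v w : W) :
    (addTop ρ).x (some v) < (addTop ρ).x (some w) ↔ ρ.x v < ρ.x w := by
  simp [addTop, topX, Prod.Lex.toLex_lt_toLex]

@[simp] theorem addTop_y_some [Fintype W] (ρ : Cfg W) (v w : W) :
    (addTop ρ).y (some v) < (addTop ρ).y (some w) ↔ ρ.y v < ρ.y w := by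
  simp [addTop, topY, Prod.Lex.toLex_lt_toLex]

theorem addTop_x_none [Fintype W] (ρ : Cfg W) (v : W) :
    (addTop ρ).x (some v) < (addTop ρ).x none := by
  simp [addTop, topX, Prod.Lex.toLex_lt_toLex]

theorem addTop_y_none [Fintype W] (ρ : Cfg W) (v : W) :
    (addTop ρ).y (some v) < (addTop ρ).y none := by
  simp [addTop, topY, Prod.Lex.toLex_lt_toLex]

theorem addTop_x_none_lt [Fintype W] (ρ : Cfg W) (v : Option W) :
    ¬ (addTop ρ).x none < (addTop ρ).x v := by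
  rcases v with _ | v
  · exact lt_irrefl _
  · exact not_lt.2 (addTop_x_none ρ v).le

theorem addTop_y_none_lt [Fintype W] (ρ : Cfg W) (v : Option W) :
    ¬ (addTop ρ).y none < (addTop ρ).y v := by
  rcases v with _ | v
  · exact lt_irrefl _
  · exact not_lt.2 (addTop_y_none ρ v).le

theorem emb_addTop_some [Fintype W] (ρ : Cfg W) : Emb ρ (addTop ρ) some :=
  ⟨fun i j h => by simpa using h, fun i j h => by simpa using h⟩

theorem Av132.addTop [Fintype W] {ρ : Cfg W} (h : Av132 ρ) : Av132 (addTop ρ) := by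
  rintro p q r h1 h2 h3 h4
  rcases p with _ | p
  · exact addTop_x_none_lt ρ q h1
  rcases q with _ | q
  · exact addTop_x_none_lt ρ r h2
  rcases r with _ | r
  · exact addTop_y_none_lt ρ _ h4
  exact h p q r (by simpa using h1) (by simpa using h2) (by simpa using h3) (by simpa using h4)

end Constructions

/-- Some configuration avoiding 132 has, in every colouring, a red `α` or a blue `β`. -/
def Arrow {A B : Type} (α : Cfg A) (β : Cfg B) : Prop :=
  ∃ (W : Type) (_ : Fintype W) (ρ : Cfg W), Av132 ρ ∧ ∀ R : Set W,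
      (∃ f, Emb α ρ f ∧ ∀ a, f a ∈ R) ∨ (∃ f, Emb β ρ f ∧ ∀ b, f b ∉ R)

theorem Arrow.symm {A B : Type} {α : Cfg A} {β : Cfg B} (h : Arrow α β) : Arrow β α := by
  obtain ⟨W, hW, ρ, h1, h2⟩ := h
  refine ⟨W, hW, ρ, h1, fun R => ?_⟩
  rcases h2 Rᶜ with ⟨f, hf, hf2⟩ | ⟨f, hf, hf2⟩
  · exact Or.inr ⟨f, hf, hf2⟩
  · exact Or.inl ⟨f, hf, fun b => not_not.1 (hf2 b)⟩

theorem Arrow.of_isEmpty {A B : Type} [Fintype A] [IsEmpty A] (α : Cfg A) (β : Cfg B) :
    Arrow α β :=
  ⟨A, inferInstance, α, fun p => isEmptyElim p, fun _ =>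
    Or.inl ⟨fun i => i, Emb.refl α, fun a => isEmptyElim a⟩⟩

/-- The skew step. -/
theorem Arrow.skew {A B : Type} (α : Cfg A) (β : Cfg B)
    (hα : Av132 α) (m : A) (hm : ∀ v, α.y v ≤ α.y m)
    (h1 : Arrow (α.pull (Subtype.val : {v // α.x v ≤ α.x m} → A) Subtype.val_injective) β)
    (h2 : Arrow (α.pull (Subtype.val : {v // ¬ α.x v ≤ α.x m} → A) Subtype.val_injective) β) :
    Arrow α β := by
  classical
  obtain ⟨W₁, hW₁, ρ₁, a1, b1⟩ := h1
  obtain ⟨W₂, hW₂, ρ₂, a2, b2⟩ := h2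
  refine ⟨W₁ ⊕ W₂, inferInstance, Split.skew ρ₁ ρ₂, a1.skew a2, fun R => ?_⟩
  rcases b1 (Sum.inl ⁻¹' R) with ⟨f₁, hf₁, gf₁⟩ | ⟨f, hf, gf⟩
  swap
  · exact Or.inr ⟨fun i => Sum.inl (f i), (emb_skew_inl ρ₁ ρ₂).comp hf, gf⟩
  rcases b2 (Sum.inr ⁻¹' R) with ⟨f₂, hf₂, gf₂⟩ | ⟨f, hf, gf⟩
  swap
  · exact Or.inr ⟨fun i => Sum.inr (f i), (emb_skew_inr ρ₁ ρ₂).comp hf, gf⟩
  left
  let f : A → W₁ ⊕ W₂ := fun v => if h : α.x v ≤ α.x m then Sum.inl (f₁ ⟨v, h⟩) else
    Sum.inr (f₂ ⟨v, h⟩)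
  have fl : ∀ v (h : α.x v ≤ α.x m), f v = Sum.inl (f₁ ⟨v, h⟩) := fun v h => by simp [f, h]
  have fr : ∀ v (h : ¬ α.x v ≤ α.x m), f v = Sum.inr (f₂ ⟨v, h⟩) := fun v h => by
    simp only [f, dif_neg h]
  refine ⟨f, ⟨fun i j hij => ?_, fun i j hij => ?_⟩, fun v => ?_⟩
  · by_cases hi : α.x i ≤ α.x m <;> by_cases hj : α.x j ≤ α.x m
    · rw [fl i hi, fl j hj, skew_x_ll]
      exact hf₁.1 ⟨i, hi⟩ ⟨j, hj⟩ hij
    · rw [fl i hi, fr j hj]
      exact skew_x_lr _ _ _ _
    · omega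
    · rw [fr i hi, fr j hj, skew_x_rr]
      exact hf₂.1 ⟨i, hi⟩ ⟨j, hj⟩ hij
  · by_cases hi : α.x i ≤ α.x m <;> by_cases hj : α.x j ≤ α.x m
    · rw [fl i hi, fl j hj, skew_y_ll]
      exact hf₁.2 ⟨i, hi⟩ ⟨j, hj⟩ hij
    · exfalso
      have hjm : α.y j < α.y m := by
        rcases lt_or_eq_of_le (hm j) with h | h
        · exact h
        · exfalso; apply hj; rw [α.hy h]
      have him : α.x i < α.x m := by
        rcases lt_or_eq_of_le hi with h | h
        · exact h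
        · exfalso; rw [α.hx h] at hij; omega
      exact hα i m j him (by omega) hij hjm
    · rw [fr i hi, fl j hj]
      exact skew_y_rl _ _ _ _
    · rw [fr i hi, fr j hj, skew_y_rr]
      exact hf₂.2 ⟨i, hi⟩ ⟨j, hj⟩ hij
  · by_cases hv : α.x v ≤ α.x m
    · rw [fl v hv]; exact gf₁ _
    · rw [fr v hv]; exact gf₂ _

/-- A copy of `α` from a copy of `α` without its top right point. -/
theorem exists_emb_addTop {A : Type} [Fintype W] (α : Cfg A) (ρ : Cfg W)
    (m : A) (hmx : ∀ v, α.x v ≤ α.x m) (hmy : ∀ v, α.y v ≤ α.y m)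
    (f : {v // v ≠ m} → W)
    (hf : Emb (α.pull (Subtype.val : {v // v ≠ m} → A) Subtype.val_injective) ρ f) :
    ∃ g : A → Option W, Emb α (addTop ρ) g ∧
      ∀ v, g v = none ∨ ∃ w, g v = some (f w) := by
  classical
  let g : A → Option W := fun v => if h : v = m then none else some (f ⟨v, h⟩)
  have gm : g m = none := by simp [g]
  have gv : ∀ v (h : v ≠ m), g v = some (f ⟨v, h⟩) := fun v h => by simp [g, h]
  refine ⟨g, ⟨fun i j hij => ?_, fun i j hij => ?_⟩, fun v => ?_⟩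
  · by_cases hi : i = m
    · subst hi
      have := hmx j
      omega
    · by_cases hj : j = m
      · subst hj
        rw [gm, gv i hi]
        exact addTop_x_none _ _
      · rw [gv i hi, gv j hj, addTop_x_some]
        exact hf.1 ⟨i, hi⟩ ⟨j, hj⟩ hij
  · by_cases hi : i = m
    · subst hi
      have := hmy j
      omega
    · by_cases hj : j = m
      · subst hj
        rw [gm, gv i hi]
        exact addTop_y_none _ _
      · rw [gv i hi, gv j hj, addTop_y_some]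
        exact hf.2 ⟨i, hi⟩ ⟨j, hj⟩ hij
  · by_cases h : v = m
    · left; rw [h, gm]
    · right; exact ⟨_, gv v h⟩

/-- The top step. -/
theorem Arrow.top {A B : Type} (α : Cfg A) (β : Cfg B)
    (m : A) (hmx : ∀ v, α.x v ≤ α.x m) (hmy : ∀ v, α.y v ≤ α.y m)
    (n : B) (hnx : ∀ v, β.x v ≤ β.x n) (hny : ∀ v, β.y v ≤ β.y n)
    (h1 : Arrow (α.pull (Subtype.val : {v // v ≠ m} → A) Subtype.val_injective) β)
    (h2 : Arrow α (β.pull (Subtype.val : {v // v ≠ n} → B) Subtype.val_injective)) :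
    Arrow α β := by
  classical
  obtain ⟨W₁, hW₁, ρ₁, a1, b1⟩ := h1
  obtain ⟨W₂, hW₂, ρ₂, a2, b2⟩ := h2
  refine ⟨Option (W₁ ⊕ W₂), inferInstance, addTop (Split.skew ρ₁ ρ₂), (a1.skew a2).addTop,
    fun R => ?_⟩
  by_cases hR : none ∈ R
  · rcases b1 {w | some (Sum.inl w) ∈ R} with ⟨f, hf, gf⟩ | ⟨f, hf, gf⟩
    · left
      obtain ⟨g, hg, gg⟩ := exists_emb_addTop α (Split.skew ρ₁ ρ₂) m hmx hmy
        (fun v => Sum.inl (f v)) ((emb_skew_inl ρ₁ ρ₂).comp hf)
      refine ⟨g, hg, fun v => ?_⟩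
      rcases gg v with h | ⟨w, h⟩
      · rw [h]; exact hR
      · rw [h]; exact gf w
    · right
      exact ⟨fun i => some (Sum.inl (f i)),
        (emb_addTop_some _).comp ((emb_skew_inl ρ₁ ρ₂).comp hf), gf⟩
  · rcases b2 {w | some (Sum.inr w) ∈ R} with ⟨f, hf, gf⟩ | ⟨f, hf, gf⟩
    · left
      exact ⟨fun i => some (Sum.inr (f i)),
        (emb_addTop_some _).comp ((emb_skew_inr ρ₁ ρ₂).comp hf), gf⟩
    · right
      obtain ⟨g, hg, gg⟩ := exists_emb_addTop β (Split.skew ρ₁ ρ₂) n hnx hny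
        (fun v => Sum.inr (f v)) ((emb_skew_inr ρ₁ ρ₂).comp hf)
      refine ⟨g, hg, fun v => ?_⟩
      rcases gg v with h | ⟨w, h⟩
      · rw [h]; exact hR
      · rw [h]; exact gf w

theorem card_subtype_lt {A : Type} [Fintype A] (p : A → Prop) [Fintype {v // p v}] (m : A)
    (h : ¬ p m) : Fintype.card {v // p v} < Fintype.card A :=
  Fintype.card_lt_of_injective_of_notMem (Subtype.val : {v // p v} → A) Subtype.val_injective
    (b := m) (by rintro ⟨⟨v, hv⟩, rfl⟩; exact h hv)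

theorem arrow_all (n : ℕ) : ∀ (A B : Type) [Fintype A] [Fintype B] (α : Cfg A) (β : Cfg B),
    Av132 α → Av132 β → Fintype.card A + Fintype.card B ≤ n → Arrow α β := by
  classical
  induction n with
  | zero =>
    intro A B _ _ α β _ _ h
    have : IsEmpty A := Fintype.card_eq_zero_iff.1 (by omega)
    exact Arrow.of_isEmpty α β
  | succ n ih =>
    intro A B _ _ α β hα hβ hn
    rcases isEmpty_or_nonempty A with hA | hA
    · exact Arrow.of_isEmpty α β
    rcases isEmpty_or_nonempty B with hB | hB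
    · exact (Arrow.of_isEmpty β α).symm
    obtain ⟨m, hm⟩ := Finite.exists_max α.y
    obtain ⟨k, hk⟩ := Finite.exists_max β.y
    by_cases hmx : ∀ v, α.x v ≤ α.x m
    · by_cases hkx : ∀ v, β.x v ≤ β.x k
      · refine Arrow.top α β m hmx hm k hkx hk ?_ ?_
        · refine ih _ _ _ _ (hα.pull _ _) hβ ?_
          have := card_subtype_lt (fun v => v ≠ m) m (by simp)
          omega
        · refine ih _ _ _ _ hα (hβ.pull _ _) ?_
          have := card_subtype_lt (fun v => v ≠ k) k (by simp)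
          omega
      · push Not at hkx
        obtain ⟨r, hr⟩ := hkx
        apply Arrow.symm
        refine Arrow.skew β α hβ k hk ?_ ?_
        · refine ih _ _ _ _ (hβ.pull _ _) hα ?_
          have := card_subtype_lt (fun v => β.x v ≤ β.x k) r (by omega)
          omega
        · refine ih _ _ _ _ (hβ.pull _ _) hα ?_
          have := card_subtype_lt (fun v => ¬ β.x v ≤ β.x k) k (by omega)
          omega
    · push Not at hmx
      obtain ⟨r, hr⟩ := hmx
      refine Arrow.skew α β hα m hm ?_ ?_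
      · refine ih _ _ _ _ (hα.pull _ _) hβ ?_
        have := card_subtype_lt (fun v => α.x v ≤ α.x m) r (by omega)
        omega
      · refine ih _ _ _ _ (hα.pull _ _) hβ ?_
        have := card_subtype_lt (fun v => ¬ α.x v ≤ α.x m) m (by omega)
        omega

/-- Module U132. -/
theorem cunsplit_132 (π : Cfg V) (a b c : V) (hV : ∀ v, v = a ∨ v = b ∨ v = c) (hab : SW π a b)
    (hac : SW π a c) (hx : π.x b < π.x c) (hy : π.y c < π.y b) : CUnsplit π := by
  intro A B _ _ α β hα hβ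
  rw [avoids_iff_av132 π a b c hV hab hac hx hy] at hα hβ
  obtain ⟨W, hW, ρ, h1, h2⟩ := arrow_all _ A B α β hα hβ le_rfl
  exact ⟨W, hW, ρ, (avoids_iff_av132 π a b c hV hab hac hx hy ρ).2 h1, h2⟩

end Helper43.Split
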