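import Pool.Agent.Helper43.Split.Div

/-!
# Simple patterns: inflations show unsplittability
-/

namespace Helper43.Split

variable {U V W : Type}

/-- The inflation of `α` by `β`: every point of `α` is replaced by a copy of `β`. -/
noncomputable def inflate {A B : Type} [Fintype A] [Fintype B] (α : Cfg A) (β : Cfg B) :
    Cfg (A × B) :=
  Cfg.of (fun w => toLex (α.x w.1, β.x w.2)) (fun w => toLex (α.y w.1, β.y w.2))
    (by
      intro w w' h
      have h1 : (α.x w.1, β.x w.2) = (α.x w'.1, β.x w'.2) := toLex.injective h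
      exact Prod.ext (α.hx (congrArg Prod.fst h1)) (β.hx (congrArg Prod.snd h1)))
    (by
      intro w w' h
      have h1 : (α.y w.1, β.y w.2) = (α.y w'.1, β.y w'.2) := toLex.injective h
      exact Prod.ext (α.hy (congrArg Prod.fst h1)) (β.hy (congrArg Prod.snd h1)))

theorem inflate_x {A B : Type} [Fintype A] [Fintype B] (α : Cfg A) (β : Cfg B) (w w' : A × B) :
    (inflate α β).x w < (inflate α β).x w' ↔
      α.x w.1 < α.x w'.1 ∨ (w.1 = w'.1 ∧ β.x w.2 < β.x w'.2) := by
  unfold inflate
  rw [Cfg.of_x_lt, Prod.Lex.toLex_lt_toLex]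
  constructor
  · rintro (h | ⟨h, h'⟩)
    · exact Or.inl h
    · exact Or.inr ⟨α.hx h, h'⟩
  · rintro (h | ⟨h, h'⟩)
    · exact Or.inl h
    · exact Or.inr ⟨by rw [h], h'⟩

theorem inflate_y {A B : Type} [Fintype A] [Fintype B] (α : Cfg A) (β : Cfg B) (w w' : A × B) :
    (inflate α β).y w < (inflate α β).y w' ↔
      α.y w.1 < α.y w'.1 ∨ (w.1 = w'.1 ∧ β.y w.2 < β.y w'.2) := by
  unfold inflate
  rw [Cfg.of_y_lt, Prod.Lex.toLex_lt_toLex]
  constructor
  · rintro (h | ⟨h, h'⟩)
    · exact Or.inl h
    · exact Or.inr ⟨α.hy h, h'⟩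
  · rintro (h | ⟨h, h'⟩)
    · exact Or.inl h
    · exact Or.inr ⟨by rw [h], h'⟩

theorem inflate_avoids [Fintype V] {π : Cfg V}
    (h : ∀ I : Finset V, IsInt π I → I.card ≤ 1 ∨ I = Finset.univ)
    {A B : Type} [Fintype A] [Fintype B] {α : Cfg A} {β : Cfg B}
    (hα : Avoids α π) (hβ : Avoids β π) : Avoids (inflate α β) π := by
  classical
  intro φ hφ
  have hx : ∀ i j, π.x i < π.x j →
      α.x (φ i).1 < α.x (φ j).1 ∨ ((φ i).1 = (φ j).1 ∧ β.x (φ i).2 < β.x (φ j).2) :=
    fun i j hij => (inflate_x α β _ _).1 (hφ.1 i j hij)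
  have hy : ∀ i j, π.y i < π.y j →
      α.y (φ i).1 < α.y (φ j).1 ∨ ((φ i).1 = (φ j).1 ∧ β.y (φ i).2 < β.y (φ j).2) :=
    fun i j hij => (inflate_y α β _ _).1 (hφ.2 i j hij)
  by_cases hinj : Function.Injective (fun v => (φ v).1)
  · refine hα (fun v => (φ v).1) ⟨fun i j hij => ?_, fun i j hij => ?_⟩
    · rcases hx i j hij with h1 | ⟨h1, -⟩
      · exact h1
      · have := hinj h1; subst this; omega
    · rcases hy i j hij with h1 | ⟨h1, -⟩
      · exact h1
      · have := hinj h1; subst this; omega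
  · have hne : ∃ i j, (φ i).1 = (φ j).1 ∧ i ≠ j := by
      unfold Function.Injective at hinj
      push Not at hinj
      exact hinj
    obtain ⟨i, j, hij, hne⟩ := hne
    set I : Finset V := Finset.univ.filter fun v => (φ v).1 = (φ i).1 with hI
    have hmem : ∀ v, v ∈ I ↔ (φ v).1 = (φ i).1 := fun v => by simp [hI]
    have hint : IsInt π I := by
      intro f hf
      rw [hmem] at hf
      constructor
      · rcases lt_trichotomy (α.x (φ f).1) (α.x (φ i).1) with h1 | h1 | h1
        · left
          intro z hz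
          have hz' : (φ z).1 = (φ i).1 := (hmem z).1 hz
          rw [hφ.x_lt, inflate_x]
          exact Or.inl (by rw [hz']; exact h1)
        · exact absurd (α.hx h1) hf
        · right
          intro z hz
          have hz' : (φ z).1 = (φ i).1 := (hmem z).1 hz
          rw [hφ.x_lt, inflate_x]
          exact Or.inl (by rw [hz']; exact h1)
      · rcases lt_trichotomy (α.y (φ f).1) (α.y (φ i).1) with h1 | h1 | h1
        · left
          intro z hz
          have hz' : (φ z).1 = (φ i).1 := (hmem z).1 hz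
          rw [hφ.y_lt, inflate_y]
          exact Or.inl (by rw [hz']; exact h1)
        · exact absurd (α.hy h1) hf
        · right
          intro z hz
          have hz' : (φ z).1 = (φ i).1 := (hmem z).1 hz
          rw [hφ.y_lt, inflate_y]
          exact Or.inl (by rw [hz']; exact h1)
    have hcard : 1 < I.card :=
      Finset.one_lt_card.2 ⟨i, (hmem i).2 rfl, j, (hmem j).2 hij.symm, hne⟩
    rcases h I hint with h1 | h1
    · omega
    · have hall : ∀ v, (φ v).1 = (φ i).1 := fun v => (hmem v).1 (by rw [h1]; exact Finset.mem_univ v)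
      refine hβ (fun v => (φ v).2) ⟨fun a b hab => ?_, fun a b hab => ?_⟩
      · rcases hx a b hab with h2 | ⟨-, h2⟩
        · rw [hall a, hall b] at h2; omega
        · exact h2
      · rcases hy a b hab with h2 | ⟨-, h2⟩
        · rw [hall a, hall b] at h2; omega
        · exact h2

/-- Module US: simple permutations. -/
theorem cunsplit_of_simple [Fintype V] (π : Cfg V)
    (h : ∀ I : Finset V, IsInt π I → I.card ≤ 1 ∨ I = Finset.univ) : CUnsplit π := by
  classical
  intro A B _ _ α β hα hβ
  refine ⟨A × B, inferInstance, inflate α β, inflate_avoids h hα hβ, fun R => ?_⟩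
  by_cases hR : ∀ a, ∃ b, (a, b) ∈ R
  · left
    choose b hb using hR
    refine ⟨fun a => (a, b a), ⟨fun i j hij => ?_, fun i j hij => ?_⟩, fun a => hb a⟩
    · exact (inflate_x α β _ _).2 (Or.inl hij)
    · exact (inflate_y α β _ _).2 (Or.inl hij)
  · right
    push Not at hR
    obtain ⟨a, ha⟩ := hR
    refine ⟨fun b => (a, b), ⟨fun i j hij => ?_, fun i j hij => ?_⟩, fun b => ha b⟩
    · exact (inflate_x α β _ _).2 (Or.inr ⟨rfl, hij⟩)
    · exact (inflate_y α β _ _).2 (Or.inr ⟨rfl, hij⟩)

end Helper43.Split
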