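import Pool.Agent.Helper43.Split.SS
import Pool.Agent.Helper43.Split.CR
import Pool.Agent.Helper43.Split.SN
import Pool.Agent.Helper43.Split.SB
import Pool.Agent.Helper43.Split.US
import Pool.Agent.Helper43.Split.U132
import Pool.Agent.Helper43.Split.CO
import Pool.Agent.Helper43.Split.A2
import Pool.Agent.Helper43.Split.ML

/-!
# Assembly: splittable principal classes
-/

namespace Helper43.Split

variable {U V W : Type}

theorem hom_neg {ρ : Cfg W} {g : W} {Z : Set W} : Hom ρ.neg g Z ↔ Hom ρ g Z := by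
  unfold Hom
  simp only [Cfg.neg_x, Cfg.neg_y, neg_lt_neg_iff]
  tauto

theorem hom_negx {ρ : Cfg W} {g : W} {Z : Set W} : Hom ρ.negx g Z ↔ Hom ρ g Z := by
  unfold Hom
  simp only [Cfg.negx_x, Cfg.negx_y, neg_lt_neg_iff]
  tauto

theorem hom_swap {ρ : Cfg W} {g : W} {Z : Set W} : Hom ρ.swap g Z ↔ Hom ρ g Z := by
  unfold Hom
  simp only [Cfg.swap_x, Cfg.swap_y]
  tauto

theorem isInt_neg {π : Cfg V} {I : Finset V} : IsInt π.neg I ↔ IsInt π I := by
  unfold IsInt
  simp only [hom_neg]

theorem isInt_negx {π : Cfg V} {I : Finset V} : IsInt π.negx I ↔ IsInt π I := by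
  unfold IsInt
  simp only [hom_negx]

theorem isInt_swap {π : Cfg V} {I : Finset V} : IsInt π.swap I ↔ IsInt π I := by
  unfold IsInt
  simp only [hom_swap]

theorem SumIndec.neg {π : Cfg V} {I : Finset V} (h : SumIndec π I) : SumIndec π.neg I := by
  intro P h1 h2 h3
  refine h Pᶜ (by simpa using h2) (by simpa using h1) fun i hi hiP j hj hjP => ?_
  have := h3 j hj (by simpa using hjP) i hi hiP
  simp only [Cfg.neg_x, Cfg.neg_y] at this
  omega

theorem SkewIndec.neg {π : Cfg V} {I : Finset V} (h : SkewIndec π I) : SkewIndec π.neg I := by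
  intro P h1 h2 h3
  refine h Pᶜ (by simpa using h2) (by simpa using h1) fun i hi hiP j hj hjP => ?_
  have := h3 j hj (by simpa using hjP) i hi hiP
  simp only [Cfg.neg_x, Cfg.neg_y] at this
  omega

theorem SumIndec.swap {π : Cfg V} {I : Finset V} (h : SumIndec π I) : SumIndec π.swap I := by
  intro P h1 h2 h3
  refine h P h1 h2 fun i hi hiP j hj hjP => ?_
  have := h3 i hi hiP j hj hjP
  simp only [Cfg.swap_x, Cfg.swap_y] at this
  omega

theorem SkewIndec.swap {π : Cfg V} {I : Finset V} (h : SkewIndec π I) : SkewIndec π.swap I := by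
  intro P h1 h2 h3
  refine h Pᶜ (by simpa using h2) (by simpa using h1) fun i hi hiP j hj hjP => ?_
  have := h3 j hj (by simpa using hjP) i hi hiP
  simp only [Cfg.swap_x, Cfg.swap_y] at this
  omega

theorem SumIndec.negx {π : Cfg V} {I : Finset V} (h : SumIndec π I) : SkewIndec π.negx I := by
  intro P h1 h2 h3
  refine h Pᶜ (by simpa using h2) (by simpa using h1) fun i hi hiP j hj hjP => ?_
  have := h3 j hj (by simpa using hjP) i hi hiP
  simp only [Cfg.negx_x, Cfg.negx_y] at this
  omega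

theorem SkewIndec.negx {π : Cfg V} {I : Finset V} (h : SkewIndec π I) : SumIndec π.negx I := by
  intro P h1 h2 h3
  refine h Pᶜ (by simpa using h2) (by simpa using h1) fun i hi hiP j hj hjP => ?_
  have := h3 j hj (by simpa using hjP) i hi hiP
  simp only [Cfg.negx_x, Cfg.negx_y] at this
  omega

theorem sw_neg {ρ : Cfg W} {a b : W} : SW ρ.neg a b ↔ SW ρ b a := by
  unfold SW
  simp only [Cfg.neg_x, Cfg.neg_y, neg_lt_neg_iff]

theorem sw_swap {ρ : Cfg W} {a b : W} : SW ρ.swap a b ↔ SW ρ a b := by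
  unfold SW
  simp only [Cfg.swap_x, Cfg.swap_y]
  tauto

theorem restrict_neg (π : Cfg V) (I : Finset V) : π.neg.restrict I = (π.restrict I).neg := rfl

theorem pats_neg (π : Cfg V) (I : Finset V) (b : Bool) :
    pats π.neg I b = (pats π I (!b)).neg := by
  unfold pats
  cases b
  · simp [addNE, restrict_neg]
  · simp [addNE, restrict_neg]

theorem isCut_neg {ρ : Cfg W} {π : Cfg V} {I : Finset V} {G Z : Set W} :
    IsCut ρ.neg (pats π.neg I) (fun _ => none) G Z ↔ IsCut ρ (pats π I) (fun _ => none) G Z := by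
  unfold IsCut
  simp only [hom_neg, pats_neg, emb_neg]
  refine and_congr_right fun _ => and_congr_right fun _ => and_congr_right fun _ => ?_
  refine forall_congr' fun x => forall_congr' fun _ => forall_congr' fun _ => ?_
  constructor
  · intro h a
    have := h (!a)
    simpa using this
  · intro h a
    exact h (!a)

theorem goodLabel_neg [Fintype V] (π : Cfg V) (I : Finset V)
    (h : GoodLabel π.neg (pats π.neg I) (fun _ => none) false) :
    GoodLabel π (pats π I) (fun _ => none) true := by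
  obtain ⟨T, hT, τ, h1, h2⟩ := h
  refine ⟨T, hT, τ.neg, by rw [← avoids_neg, Cfg.neg_neg]; exact h1, ?_⟩
  intro W _ ρ hρ θ hθ
  obtain ⟨G, hG1, ⟨f, hf, hf2⟩, hG3⟩ := h2 W ρ.neg (avoids_neg.2 hρ) θ (emb_neg'.2 hθ)
  refine ⟨G, hG1, ⟨f, ?_, hf2⟩, fun Z hZ => hG3 Z (isCut_neg.2 hZ)⟩
  rw [pats_neg, emb_neg] at hf
  exact hf

/-- Two labels. -/
theorem msplit_of_labels [Fintype V] (π : Cfg V) (I : Finset V) (hI : I.Nonempty)
    (h0 : GoodLabel π (pats π I) (fun _ => none) false)
    (h1 : GoodLabel π (pats π I) (fun _ => none) true) : MSplit π := by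
  obtain ⟨i, hi⟩ := hI
  have : Nontrivial (Option I) := ⟨⟨none, some ⟨i, hi⟩, by simp⟩⟩
  refine master π (pats π I) (fun _ => none) fun a => ?_
  cases a
  · exact h0
  · exact h1

theorem cross [Fintype V] (π : Cfg V) (I : Finset V) (hI : IsInt π I) (h2 : 2 ≤ I.card)
    (hind : SumIndec π I) (hNE : ∃ f, f ∉ I ∧ ∀ i ∈ I, SW π i f)
    (hSW : ∃ f, f ∉ I ∧ ∀ i ∈ I, SW π f i) : MSplit π := by
  refine msplit_of_labels π I (Finset.card_pos.1 (by omega)) (cross_SW π I hI h2 hind hNE hSW)
    (goodLabel_neg π I (cross_SW π.neg I (isInt_neg.2 hI) h2 hind.neg ?_ ?_))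
  · obtain ⟨f, hf, hf2⟩ := hSW
    exact ⟨f, hf, fun i hi => sw_neg.2 (hf2 i hi)⟩
  · obtain ⟨f, hf, hf2⟩ := hNE
    exact ⟨f, hf, fun i hi => sw_neg.2 (hf2 i hi)⟩

theorem stag [Fintype V] (π : Cfg V) (I : Finset V) (hI : IsInt π I) (h2 : 2 ≤ I.card)
    (hind : SumIndec π I) (hskew : SkewIndec π Finset.univ)
    (hNE : ∀ f, f ∉ I → ∀ i ∈ I, ¬ SW π i f) (hU : ∃ f, f ∉ I ∧ ∀ i ∈ I, π.y i < π.y f) :
    MSplit π :=
  msplit_of_labels π I (Finset.card_pos.1 (by omega)) (stag_SW π I hI h2 hind hskew hNE hU)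
    (stag_NE π I hI h2 hind hskew hNE hU)

/-- No element NE of the interval. -/
theorem msplit_noNE [Fintype V] (π : Cfg V) (I : Finset V) (hI : IsInt π I) (h2 : 2 ≤ I.card)
    (hne : I ≠ Finset.univ)
    (hind : SumIndec π I) (hsum : SumIndec π Finset.univ) (hskew : SkewIndec π Finset.univ)
    (hNE : ∀ f, f ∉ I → ∀ i ∈ I, ¬ SW π i f) : MSplit π := by
  by_cases hU : ∃ f, f ∉ I ∧ ∀ i ∈ I, π.y i < π.y f
  · exact stag π I hI h2 hind hskew hNE hU
  by_cases hB : ∃ f, f ∉ I ∧ ∀ i ∈ I, π.x i < π.x f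
  · have := stag π.swap I (isInt_swap.2 hI) h2 hind.swap hskew.swap
      (fun f hf i hi => by rw [sw_swap]; exact hNE f hf i hi) hB
    simpa using this.swap
  exfalso
  obtain ⟨i0, hi0⟩ : I.Nonempty := Finset.card_pos.1 (by omega)
  refine hsum {v | v ∉ I} ?_ ⟨i0, by simp, by simpa using hi0⟩ ?_
  · by_contra hcon
    push Not at hcon
    refine hne (Finset.eq_univ_iff_forall.2 fun v => ?_)
    have := hcon v (Finset.mem_univ _)
    simpa using this
  · intro f _ hf i _ hi
    have hf' : f ∉ I := hf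
    have hi' : i ∈ I := by simpa using hi
    push Not at hU hB
    obtain ⟨i1, hi1, h3⟩ := hU f hf'
    obtain ⟨i2, hi2, h4⟩ := hB f hf'
    have h5 := hI f hf'
    constructor
    · rcases h5.1 with h6 | h6
      · exact h6 i hi'
      · have := h6 i2 hi2
        omega
    · rcases h5.2 with h6 | h6
      · exact h6 i hi'
      · have := h6 i1 hi1
        omega

/-- The doubly indecomposable case, with a sum-indecomposable interval. -/
theorem msplit_indec' [Fintype V] (π : Cfg V) (I : Finset V) (hI : IsInt π I) (h2 : 2 ≤ I.card)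
    (hne : I ≠ Finset.univ)
    (hind : SumIndec π I) (hsum : SumIndec π Finset.univ) (hskew : SkewIndec π Finset.univ) :
    MSplit π := by
  by_cases hNE : ∃ f, f ∉ I ∧ ∀ i ∈ I, SW π i f
  · by_cases hSW : ∃ f, f ∉ I ∧ ∀ i ∈ I, SW π f i
    · exact cross π I hI h2 hind hNE hSW
    · have := msplit_noNE π.neg I (isInt_neg.2 hI) h2 hne hind.neg hsum.neg hskew.neg ?_
      · simpa using this.neg
      · intro f hf i hi hs
        rw [sw_neg] at hs
        refine hSW ⟨f, hf, fun j hj => ?_⟩
        have h5 := hI f hf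
        unfold SW at *
        constructor
        · rcases h5.1 with h6 | h6
          · exact h6 j hj
          · have := h6 i hi
            omega
        · rcases h5.2 with h6 | h6
          · exact h6 j hj
          · have := h6 i hi
            omega
  · refine msplit_noNE π I hI h2 hne hind hsum hskew ?_
    intro f hf i hi hs
    refine hNE ⟨f, hf, fun j hj => ?_⟩
    have h5 := hI f hf
    unfold SW at *
    constructor
    · rcases h5.1 with h6 | h6
      · have := h6 i hi
        omega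
      · exact h6 j hj
    · rcases h5.2 with h6 | h6
      · have := h6 i hi
        omega
      · exact h6 j hj

/-- A set cannot be both sum- and skew-decomposable. -/
theorem indec_dichotomy (π : Cfg V) (I : Finset V) : SumIndec π I ∨ SkewIndec π I := by
  by_contra hcon
  unfold SumIndec SkewIndec at hcon
  push Not at hcon
  obtain ⟨⟨P, ⟨p0, hp0, hp0'⟩, ⟨q0, hq0, hq0'⟩, hP⟩, ⟨R, ⟨r0, hr0, hr0'⟩, ⟨s0, hs0, hs0'⟩, hR⟩⟩ :=
    hcon
  -- points of `P` and points off `P` are on the same side of `R`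
  have key : ∀ p ∈ I, p ∈ P → ∀ q ∈ I, q ∉ P → (p ∈ R ↔ q ∈ R) := by
    intro p hp hpP q hq hqP
    have h1 := hP p hp hpP q hq hqP
    constructor
    · intro hpR
      by_contra hqR
      have := hR p hp hpR q hq hqR
      omega
    · intro hqR
      by_contra hpR
      have := hR q hq hqR p hp hpR
      omega
  have all : ∀ v ∈ I, (v ∈ R ↔ q0 ∈ R) := by
    intro v hv
    by_cases hvP : v ∈ P
    · exact key v hv hvP q0 hq0 hq0'
    · rw [← key p0 hp0 hp0' v hv hvP]
      exact key p0 hp0 hp0' q0 hq0 hq0'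
  exact hs0' ((all s0 hs0).2 ((all r0 hr0).1 hr0'))

/-- The doubly indecomposable case. -/
theorem msplit_indec [Fintype V] (π : Cfg V) (I : Finset V) (hI : IsInt π I) (h2 : 2 ≤ I.card)
    (hne : I ≠ Finset.univ) (hsum : SumIndec π Finset.univ) (hskew : SkewIndec π Finset.univ) :
    MSplit π := by
  rcases indec_dichotomy π I with h | h
  · exact msplit_indec' π I hI h2 hne h hsum hskew
  · have := msplit_indec' π.negx I (isInt_negx.2 hI) h2 hne h.negx hskew.negx hsum.negx
    simpa using this.negx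

end Helper43.Split
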