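import Pool.Agent.Helper43.Split.AS

/-!
# Assembly: sum-decomposable patterns and the classification
-/

namespace Helper43.Split

variable {U V W : Type}

/-- The points are increasing. -/
def Incr (π : Cfg V) : Prop := ∀ v w, π.x v < π.x w → π.y v < π.y w

/-- The points are decreasing. -/
def Decr (π : Cfg V) : Prop := ∀ v w, π.x v < π.x w → π.y w < π.y v

/-- No cut into two parts of size at least two. -/
def NoBig (π : Cfg V) : Prop := ∀ P Q : Finset V, (∀ v, v ∈ Q ↔ v ∉ P) →
  (∀ i ∈ P, ∀ j ∈ Q, SW π i j) → ¬ (2 ≤ P.card ∧ 2 ≤ Q.card)

theorem msplit_first [Fintype V] (π : Cfg V) (z : V) (hz : ∀ v, v ≠ z → SW π z v)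
    (hbig : NoBig π) (hc : 3 ≤ Fintype.card V) (h4 : Fintype.card V = 3 → Incr π ∨ Decr π) :
    MSplit π := by
  classical
  set I : Finset V := Finset.univ.filter fun v => v ≠ z with hIdef
  have hI : ∀ v, v ∈ I ↔ v ≠ z := by simp [hIdef]
  have hIcard : I.card + 1 = Fintype.card V := by
    have h1 : I = Finset.univ.erase z := by ext v; simp [hI]
    rw [h1, Finset.card_erase_of_mem (Finset.mem_univ _), Finset.card_univ]
    omega
  by_cases hind : SumIndec π I
  · by_cases h3 : Fintype.card V = 3
    · exfalso
      obtain ⟨a, ha, b, hb, hab⟩ := Finset.one_lt_card.1 (show 1 < I.card by omega)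
      rcases h4 h3 with h | h
      · rcases lt_trichotomy (π.x a) (π.x b) with hlt | heq | hlt
        · refine hind {v | π.x v ≤ π.x a} ⟨a, ha, le_refl (π.x a)⟩ ⟨b, hb, not_le.2 hlt⟩ ?_
          intro i _ hi j _ hj
          have h5 : π.x i ≤ π.x a := hi
          have h6 : π.x a < π.x j := not_le.1 hj
          exact ⟨by omega, h _ _ (by omega)⟩
        · exact hab (π.hx heq)
        · refine hind {v | π.x v ≤ π.x b} ⟨b, hb, le_refl (π.x b)⟩ ⟨a, ha, not_le.2 hlt⟩ ?_
          intro i _ hi j _ hj
          have h5 : π.x i ≤ π.x b := hi
          have h6 : π.x b < π.x j := not_le.1 hj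
          exact ⟨by omega, h _ _ (by omega)⟩
      · have h5 := hz a ((hI a).1 ha)
        have h6 := h _ _ h5.1
        have h7 := h5.2
        omega
    · exact app2 π z hz I hI (by omega) hind
  · unfold SumIndec at hind
    push Not at hind
    obtain ⟨P', ⟨i, hi, hiP⟩, ⟨j, hj, hjP⟩, hP'⟩ := hind
    have hiz : i ≠ z := (hI i).1 hi
    have hjz : j ≠ z := (hI j).1 hj
    -- the induced cut of `π`
    have hcut1 := hbig (Finset.univ.filter fun v => v = z ∨ v ∈ P')
      (Finset.univ.filter fun v => ¬ (v = z ∨ v ∈ P')) (by simp) (by
        intro a ha b hb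
        simp only [Finset.mem_filter, Finset.mem_univ, true_and, not_or] at ha hb
        rcases ha with rfl | ha
        · exact hz b hb.1
        · by_cases haz : a = z
          · subst haz
            exact hz b hb.1
          · exact hP' a ((hI a).2 haz) ha b ((hI b).2 hb.1) hb.2)
    have hPcard : 2 ≤ (Finset.univ.filter fun v => v = z ∨ v ∈ P').card := by
      have : ({z, i} : Finset V) ⊆ Finset.univ.filter fun v => v = z ∨ v ∈ P' := by
        intro v hv
        simp only [Finset.mem_insert, Finset.mem_singleton] at hv
        rcases hv with rfl | rfl <;> simp [hiP]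
      have h5 := Finset.card_le_card this
      rw [Finset.card_pair hiz.symm] at h5
      exact h5
    have hQ : ∀ v, v ≠ j → (v = z ∨ v ∈ P') := by
      intro v hvj
      by_contra hv
      refine hcut1 ⟨hPcard, ?_⟩
      have : ({j, v} : Finset V) ⊆ Finset.univ.filter fun v => ¬ (v = z ∨ v ∈ P') := by
        intro w hw
        simp only [Finset.mem_insert, Finset.mem_singleton] at hw
        rcases hw with rfl | rfl
        · simp [hjz, hjP]
        · simpa using hv
      have h5 := Finset.card_le_card this
      rw [Finset.card_pair (fun h => hvj h.symm)] at h5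
      exact h5
    have hj2 : ∀ v, v ≠ j → SW π v j := by
      intro v hvj
      rcases hQ v hvj with rfl | hv
      · exact hz j hjz
      · by_cases hvz : v = z
        · subst hvz
          exact hz j hjz
        · exact hP' v ((hI v).2 hvz) hv j hj hjP
    have hij : i ≠ j := fun h => hjP (h ▸ hiP)
    by_cases h3 : Fintype.card V = 3
    · refine split_123 π z i j ?_ (hz i hiz) (hj2 i hij)
      intro v
      by_contra hv
      push Not at hv
      have : ({z, i, j, v} : Finset V).card ≤ Fintype.card V := Finset.card_le_univ _
      have h5 : ({z, i, j, v} : Finset V).card = 4 := by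
        rw [Finset.card_insert_of_notMem, Finset.card_insert_of_notMem,
          Finset.card_pair (fun h => hv.2.2 h.symm)]
        · simp [hij, Ne.symm hv.2.1]
        · simp [hiz.symm, hjz.symm, Ne.symm hv.1]
      omega
    · set J : Finset V := Finset.univ.filter fun v => v ≠ z ∧ v ≠ j with hJdef
      have hJ : ∀ v, v ∈ J ↔ v ≠ z ∧ v ≠ j := by simp [hJdef]
      have hJcard : 2 ≤ J.card := by
        have h1 : J = I.erase j := by ext v; simp [hI, hJ, and_comm]
        rw [h1, Finset.card_erase_of_mem hj]
        omega
      refine cross π J ?_ hJcard ?_ ⟨j, by simp [hJ], fun v hv => hj2 v ((hJ v).1 hv).2⟩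
        ⟨z, by simp [hJ], fun v hv => hz v ((hJ v).1 hv).1⟩
      · intro f hf
        rw [hJ] at hf
        by_cases hfz : f = z
        · subst hfz
          exact ⟨Or.inl fun v hv => (hz v ((hJ v).1 hv).1).1,
            Or.inl fun v hv => (hz v ((hJ v).1 hv).1).2⟩
        · have hfj : f = j := by
            by_contra h
            exact hf ⟨hfz, h⟩
          subst hfj
          exact ⟨Or.inr fun v hv => (hj2 v ((hJ v).1 hv).2).1,
            Or.inr fun v hv => (hj2 v ((hJ v).1 hv).2).2⟩
      · intro R hR1 hR2 hR3
        obtain ⟨a, ha, haR⟩ := hR1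
        obtain ⟨b, hb, hbR⟩ := hR2
        have ha' := (hJ a).1 ha
        have hb' := (hJ b).1 hb
        refine hbig (Finset.univ.filter fun v => v = z ∨ (v ∈ R ∧ v ≠ j))
          (Finset.univ.filter fun v => ¬ (v = z ∨ (v ∈ R ∧ v ≠ j))) (by simp) ?_ ⟨?_, ?_⟩
        · intro c hc d hd
          simp only [Finset.mem_filter, Finset.mem_univ, true_and, not_or, not_and_or,
            not_not] at hc hd
          by_cases hcz : c = z
          · subst hcz
            exact hz d hd.1
          · have hc' := hc.resolve_left hcz
            by_cases hdj : d = j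
            · subst hdj
              exact hj2 c hc'.2
            · exact hR3 c ((hJ c).2 ⟨hcz, hc'.2⟩) hc'.1 d ((hJ d).2 ⟨hd.1, hdj⟩)
                (hd.2.resolve_right hdj)
        · have : ({z, a} : Finset V) ⊆ Finset.univ.filter fun v => v = z ∨ (v ∈ R ∧ v ≠ j) := by
            intro v hv
            simp only [Finset.mem_insert, Finset.mem_singleton] at hv
            rcases hv with rfl | rfl <;> simp [haR, ha'.2]
          have h5 := Finset.card_le_card this
          rw [Finset.card_pair ha'.1.symm] at h5
          exact h5
        · have : ({b, j} : Finset V) ⊆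
              Finset.univ.filter fun v => ¬ (v = z ∨ (v ∈ R ∧ v ≠ j)) := by
            intro v hv
            simp only [Finset.mem_insert, Finset.mem_singleton] at hv
            rcases hv with rfl | rfl
            · simp [hbR, hb'.1]
            · simp [hjz]
          have h5 := Finset.card_le_card this
          rw [Finset.card_pair hb'.2] at h5
          exact h5

theorem msplit_sumdec [Fintype V] (π : Cfg V) (h : ¬ SumIndec π Finset.univ)
    (hc : 3 ≤ Fintype.card V) (h4 : Fintype.card V = 3 → Incr π ∨ Decr π) : MSplit π := by
  classical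
  by_cases hbig : NoBig π
  · unfold SumIndec at h
    push Not at h
    obtain ⟨P, ⟨i, -, hiP⟩, ⟨j, -, hjP⟩, hP⟩ := h
    have hcut : ∀ a ∈ P, ∀ b ∉ P, SW π a b := fun a ha b hb =>
      hP a (Finset.mem_univ _) ha b (Finset.mem_univ _) hb
    have h5 := hbig (Finset.univ.filter fun v => v ∈ P) (Finset.univ.filter fun v => v ∉ P)
      (by simp) (by
        intro a ha b hb
        exact hcut a (by simpa using ha) b (by simpa using hb))
    by_cases h6 : ∀ v, v ≠ i → v ∉ P
    · exact msplit_first π i (fun v hv => hcut i hiP v (h6 v hv)) hbig hc h4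
    · push Not at h6
      obtain ⟨i', hi', hi'P⟩ := h6
      have h7 : ∀ v, v ≠ j → v ∈ P := by
        intro v hv
        by_contra hvP
        refine h5 ⟨?_, ?_⟩
        · have : ({i, i'} : Finset V) ⊆ Finset.univ.filter fun v => v ∈ P := by
            intro w hw
            simp only [Finset.mem_insert, Finset.mem_singleton] at hw
            rcases hw with rfl | rfl <;> simpa
          have h8 := Finset.card_le_card this
          rw [Finset.card_pair (fun h => hi' h.symm)] at h8
          exact h8
        · have : ({j, v} : Finset V) ⊆ Finset.univ.filter fun v => v ∉ P := by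
            intro w hw
            simp only [Finset.mem_insert, Finset.mem_singleton] at hw
            rcases hw with rfl | rfl <;> simpa
          have h8 := Finset.card_le_card this
          rw [Finset.card_pair (fun h => hv h.symm)] at h8
          exact h8
      have := msplit_first π.neg j (fun v hv => sw_neg.2 (hcut v (h7 v hv) j hjP)) ?_ hc ?_
      · simpa using this.neg
      · intro Q R hQR hQR2 h8
        refine hbig R Q (fun v => by rw [hQR]; simp) (fun a ha b hb => ?_) ⟨h8.2, h8.1⟩
        exact sw_neg.1 (hQR2 b hb a ha)
      · intro h3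
        rcases h4 h3 with h8 | h8
        · left
          intro v w hvw
          have := h8 w v (by simp only [Cfg.neg_x] at hvw; omega)
          simp only [Cfg.neg_y]
          omega
        · right
          intro v w hvw
          have := h8 w v (by simp only [Cfg.neg_x] at hvw; omega)
          simp only [Cfg.neg_y]
          omega
  · unfold NoBig at hbig
    push Not at hbig
    obtain ⟨P, Q, h1, h2, h3, h5⟩ := hbig
    exact split_sum_big π P Q h1 h2 h3 h5

theorem msplit_main [Fintype V] (π : Cfg V) (I : Finset V) (hI : IsInt π I) (h2 : 2 ≤ I.card)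
    (hne : I ≠ Finset.univ) (h4 : Fintype.card V = 3 → Incr π ∨ Decr π) : MSplit π := by
  have hc : 3 ≤ Fintype.card V := by
    have h5 := Finset.card_lt_card (Finset.ssubset_univ_iff.2 hne)
    rw [Finset.card_univ] at h5
    omega
  by_cases hsum : SumIndec π Finset.univ
  · by_cases hskew : SkewIndec π Finset.univ
    · exact msplit_indec π I hI h2 hne hsum hskew
    · have := msplit_sumdec π.negx (fun h => hskew (by simpa using h.negx)) hc ?_
      · simpa using this.negx
      · intro h3
        rcases h4 h3 with h8 | h8
        · right
          intro v w hvw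
          have := h8 w v (by simp only [Cfg.negx_x] at hvw; omega)
          simp only [Cfg.negx_y]
          omega
        · left
          intro v w hvw
          have := h8 w v (by simp only [Cfg.negx_x] at hvw; omega)
          simp only [Cfg.negx_y]
          omega
  · exact msplit_sumdec π hsum hc h4

end Helper43.Split
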