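import Pool.Agent.Helper43.Split.AS2

/-!
# The classification for permutations
-/

namespace Helper43.Split

theorem isInterval_iff (π : PermN) (I : Finset (Fin π.1)) :
    IsInterval π (I : Set (Fin π.1)) ↔ IsInt (toCfg π) I := by
  constructor
  · rintro ⟨h1, h2⟩ f hf
    refine ⟨?_, ?_⟩
    · by_contra hcon
      push Not at hcon
      obtain ⟨⟨a, ha, ha2⟩, ⟨b, hb, hb2⟩⟩ := hcon
      refine hf (h1.out ha hb ⟨?_, ?_⟩)
      · simpa [toCfg] using ha2
      · simpa [toCfg] using hb2
    · by_contra hcon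
      push Not at hcon
      obtain ⟨⟨a, ha, ha2⟩, ⟨b, hb, hb2⟩⟩ := hcon
      have h3 : π.2 f ∈ π.2 '' (I : Set (Fin π.1)) := by
        refine h2.out ⟨a, ha, rfl⟩ ⟨b, hb, rfl⟩ ⟨?_, ?_⟩
        · simpa [toCfg] using ha2
        · simpa [toCfg] using hb2
      obtain ⟨g, hg, hg2⟩ := h3
      rw [π.2.injective hg2] at hg
      exact hf hg
  · intro h
    refine ⟨⟨?_⟩, ⟨?_⟩⟩
    · rintro a ha b hb f ⟨hf1, hf2⟩
      by_contra hf
      rcases (h f hf).1 with h1 | h1
      · have := h1 a ha
        simp only [toCfg, Nat.cast_lt, Fin.val_fin_lt] at this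
        exact absurd (lt_of_lt_of_le this hf1) (lt_irrefl _)
      · have := h1 b hb
        simp only [toCfg, Nat.cast_lt, Fin.val_fin_lt] at this
        exact absurd (lt_of_lt_of_le this hf2) (lt_irrefl _)
    · rintro _ ⟨a, ha, rfl⟩ _ ⟨b, hb, rfl⟩ v ⟨hf1, hf2⟩
      obtain ⟨f, rfl⟩ := π.2.surjective v
      by_contra hf
      have hf' : f ∉ I := fun h' => hf ⟨f, h', rfl⟩
      rcases (h f hf').2 with h1 | h1
      · have := h1 a ha
        simp only [toCfg, Nat.cast_lt, Fin.val_fin_lt] at this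
        exact absurd (lt_of_lt_of_le this hf1) (lt_irrefl _)
      · have := h1 b hb
        simp only [toCfg, Nat.cast_lt, Fin.val_fin_lt] at this
        exact absurd (lt_of_lt_of_le this hf2) (lt_irrefl _)

theorem unsplittable_of_simple (π : PermN) (h : Simple π) : Unsplittable (Av {π}) := by
  refine cunsplit_unsplittable π (cunsplit_of_simple (toCfg π) fun I hI => ?_)
  have h1 := h I ((isInterval_iff π I).2 hI)
  rw [Set.ncard_coe_finset] at h1
  rcases h1 with h1 | h1 | h1
  · left; omega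
  · left; omega
  · right
    rw [← Finset.card_eq_iff_eq_univ, h1, Fintype.card_fin]

theorem word_eq_three {π : PermN} {a b c : ℕ} (h : word π = [a, b, c]) :
    ∃ p : Equiv.Perm (Fin 3), π = ⟨3, p⟩ ∧ (p 0 : ℕ) + 1 = a ∧ (p 1 : ℕ) + 1 = b ∧
      (p 2 : ℕ) + 1 = c := by
  obtain ⟨n, p⟩ := π
  have hn : n = 3 := by
    have := congrArg List.length h
    simpa [word] using this
  subst hn
  refine ⟨p, rfl, ?_⟩
  simp only [word, List.ofFn_succ, List.ofFn_zero, Fin.isValue, List.cons.injEq] at h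
  exact ⟨h.1, h.2.1, h.2.2.1⟩

theorem unsplittable_of_small (π : PermN)
    (h : word π ∈ [[1, 3, 2], [2, 1, 3], [2, 3, 1], [3, 1, 2]]) : Unsplittable (Av {π}) := by
  refine cunsplit_unsplittable π ?_
  have h3 : ∀ v : Fin 3, v = 0 ∨ v = 1 ∨ v = 2 := by decide
  simp only [List.mem_cons, List.not_mem_nil, or_false] at h
  rcases h with h | h | h | h
  · obtain ⟨p, rfl, h0, h1, h2⟩ := word_eq_three h
    refine cunsplit_132 _ 0 1 2 h3 ?_ ?_ ?_ ?_ <;> simp [SW, toCfg] <;> omega
  · obtain ⟨p, rfl, h0, h1, h2⟩ := word_eq_three h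
    have : CUnsplit (toCfg ⟨3, p⟩).neg := by
      refine cunsplit_132 _ 2 1 0 (fun v => by rcases h3 v with h | h | h <;> simp [h]) ?_ ?_ ?_ ?_ <;>
        simp [SW, toCfg] <;> omega
    simpa using this.neg
  · obtain ⟨p, rfl, h0, h1, h2⟩ := word_eq_three h
    have : CUnsplit (toCfg ⟨3, p⟩).negx := by
      refine cunsplit_132 _ 2 1 0 (fun v => by rcases h3 v with h | h | h <;> simp [h]) ?_ ?_ ?_ ?_ <;>
        simp [SW, toCfg] <;> omega
    simpa using this.negx
  · obtain ⟨p, rfl, h0, h1, h2⟩ := word_eq_three h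
    have : CUnsplit (toCfg ⟨3, p⟩).neg.negx := by
      refine cunsplit_132 _ 0 1 2 h3 ?_ ?_ ?_ ?_ <;> simp [SW, toCfg] <;> omega
    simpa using this.negx.neg

theorem perm3_cases : ∀ p : Equiv.Perm (Fin 3),
    (List.ofFn fun i => ((p i : Fin 3) : ℕ) + 1) ∈ [[1, 3, 2], [2, 1, 3], [2, 3, 1], [3, 1, 2]] ∨
    (∀ v w, v < w → p v < p w) ∨ (∀ v w, v < w → p w < p v) := by decide

theorem splittable_of_not_simple (π : PermN) (h : ¬ Simple π)
    (h4 : word π ∉ [[1, 3, 2], [2, 1, 3], [2, 3, 1], [3, 1, 2]]) : Splittable (Av {π}) := by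
  classical
  unfold Simple at h
  push Not at h
  obtain ⟨S, hS, hS0, hS1, hSn⟩ := h
  refine msplit_splittable π (msplit_main (toCfg π) S.toFinset ?_ ?_ ?_ ?_)
  · rw [← isInterval_iff, Set.coe_toFinset]
    exact hS
  · rw [← Set.ncard_eq_toFinset_card']
    omega
  · intro h5
    apply hSn
    rw [Set.ncard_eq_toFinset_card', h5]
    simp
  · intro h3
    rw [Fintype.card_fin] at h3
    obtain ⟨n, p⟩ := π
    simp only at h3
    subst h3
    rcases perm3_cases p with h | h | h
    · exact absurd h h4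
    · left
      intro v w hvw
      have := h v w (by simpa [toCfg] using hvw)
      simpa [toCfg] using this
    · right
      intro v w hvw
      have := h v w (by simpa [toCfg] using hvw)
      simpa [toCfg] using this

/-- The classification. -/
theorem splittable_iff (π : PermN) : Splittable (Av {π}) ↔
    ¬ Simple π ∧ word π ∉ [[1, 3, 2], [2, 1, 3], [2, 3, 1], [3, 1, 2]] := by
  constructor
  · intro h
    exact ⟨fun hs => h (unsplittable_of_simple π hs), fun hw => h (unsplittable_of_small π hw)⟩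
  · rintro ⟨h1, h2⟩
    exact splittable_of_not_simple π h1 h2

end Helper43.Split
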