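import Pool.Agent.Helper43.Split.Defs

/-!
# Basic notions on configurations
-/

namespace Helper43.Split

variable {U V W : Type}

theorem Emb.x_lt {A : Cfg V} {B : Cfg W} {f : V → W} (h : Emb A B f) (i j : V) :
    A.x i < A.x j ↔ B.x (f i) < B.x (f j) := by
  refine ⟨h.1 i j, fun h1 => ?_⟩
  rcases lt_trichotomy (A.x i) (A.x j) with h2 | h2 | h2
  · exact h2
  · rw [A.hx h2] at h1; omega
  · have := h.1 _ _ h2; omega

theorem Emb.y_lt {A : Cfg V} {B : Cfg W} {f : V → W} (h : Emb A B f) (i j : V) :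
    A.y i < A.y j ↔ B.y (f i) < B.y (f j) := by
  refine ⟨h.2 i j, fun h1 => ?_⟩
  rcases lt_trichotomy (A.y i) (A.y j) with h2 | h2 | h2
  · exact h2
  · rw [A.hy h2] at h1; omega
  · have := h.2 _ _ h2; omega

theorem Emb.injective {A : Cfg V} {B : Cfg W} {f : V → W} (h : Emb A B f) :
    Function.Injective f := by
  intro i j hij
  by_contra hne
  rcases lt_trichotomy (A.x i) (A.x j) with h2 | h2 | h2
  · have := h.1 _ _ h2; rw [hij] at this; omega
  · exact hne (A.hx h2)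
  · have := h.1 _ _ h2; rw [hij] at this; omega

theorem Emb.comp {A : Cfg U} {B : Cfg V} {C : Cfg W} {f : V → W} {g : U → V}
    (hf : Emb B C f) (hg : Emb A B g) : Emb A C (fun i => f (g i)) :=
  ⟨fun i j h => hf.1 _ _ (hg.1 i j h), fun i j h => hf.2 _ _ (hg.2 i j h)⟩

theorem Emb.refl (A : Cfg V) : Emb A A (fun i => i) := ⟨fun _ _ h => h, fun _ _ h => h⟩

theorem Avoids.of_emb {A : Cfg U} {B : Cfg V} {C : Cfg W} (h : Avoids C A) {f : V → W}
    (hf : Emb B C f) : Avoids B A := fun _ hg => h _ (hf.comp hg)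

/-- The configuration induced along an injective map. -/
def Cfg.pull (A : Cfg V) (f : U → V) (hf : Function.Injective f) : Cfg U where
  x u := A.x (f u)
  y u := A.y (f u)
  hx := A.hx.comp hf
  hy := A.hy.comp hf

theorem Cfg.pull_emb (A : Cfg V) (f : U → V) (hf : Function.Injective f) :
    Emb (A.pull f hf) A f := ⟨fun _ _ h => h, fun _ _ h => h⟩

/-- The configuration formed by the points of a finite set. -/
def Cfg.restrict (A : Cfg V) (I : Finset V) : Cfg I := A.pull Subtype.val Subtype.val_injective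

/-- `f` is a copy in `B` of the part of `A` in `I`. -/
def EmbOn (I : Finset V) (A : Cfg V) (B : Cfg W) (f : V → W) : Prop :=
  ∀ i ∈ I, ∀ j ∈ I, (A.x i < A.x j → B.x (f i) < B.x (f j)) ∧
    (A.y i < A.y j → B.y (f i) < B.y (f j))

/-- Both orders reversed (rotation by 180 degrees). -/
def Cfg.neg (A : Cfg V) : Cfg V where
  x v := -A.x v
  y v := -A.y v
  hx := fun i j h => A.hx (by simpa using h)
  hy := fun i j h => A.hy (by simpa using h)

/-- Horizontal order reversed. -/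
def Cfg.negx (A : Cfg V) : Cfg V where
  x v := -A.x v
  y v := A.y v
  hx := fun i j h => A.hx (by simpa using h)
  hy := A.hy

/-- The two orders exchanged. -/
def Cfg.swap (A : Cfg V) : Cfg V where
  x v := A.y v
  y v := A.x v
  hx := A.hy
  hy := A.hx

@[simp] theorem Cfg.neg_x (A : Cfg V) (v : V) : A.neg.x v = -A.x v := rfl
@[simp] theorem Cfg.neg_y (A : Cfg V) (v : V) : A.neg.y v = -A.y v := rfl
@[simp] theorem Cfg.negx_x (A : Cfg V) (v : V) : A.negx.x v = -A.x v := rfl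
@[simp] theorem Cfg.negx_y (A : Cfg V) (v : V) : A.negx.y v = A.y v := rfl
@[simp] theorem Cfg.swap_x (A : Cfg V) (v : V) : A.swap.x v = A.y v := rfl
@[simp] theorem Cfg.swap_y (A : Cfg V) (v : V) : A.swap.y v = A.x v := rfl
@[simp] theorem Cfg.neg_neg (A : Cfg V) : A.neg.neg = A := by
  cases A; simp [Cfg.neg]
@[simp] theorem Cfg.negx_negx (A : Cfg V) : A.negx.negx = A := by
  cases A; simp [Cfg.negx]
@[simp] theorem Cfg.swap_swap (A : Cfg V) : A.swap.swap = A := rfl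

theorem Emb.neg {A : Cfg V} {B : Cfg W} {f : V → W} (h : Emb A B f) : Emb A.neg B.neg f :=
  ⟨fun i j hij => by have := h.1 j i; simp only [Cfg.neg_x] at *; omega,
   fun i j hij => by have := h.2 j i; simp only [Cfg.neg_y] at *; omega⟩

theorem Emb.negx {A : Cfg V} {B : Cfg W} {f : V → W} (h : Emb A B f) : Emb A.negx B.negx f :=
  ⟨fun i j hij => by have := h.1 j i; simp only [Cfg.negx_x] at *; omega,
   fun i j hij => h.2 i j hij⟩

theorem Emb.swap {A : Cfg V} {B : Cfg W} {f : V → W} (h : Emb A B f) : Emb A.swap B.swap f :=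
  ⟨fun i j hij => h.2 i j hij, fun i j hij => h.1 i j hij⟩

theorem emb_neg {A : Cfg V} {B : Cfg W} {f : V → W} : Emb A.neg B.neg f ↔ Emb A B f :=
  ⟨fun h => by simpa using h.neg, Emb.neg⟩

theorem emb_negx {A : Cfg V} {B : Cfg W} {f : V → W} : Emb A.negx B.negx f ↔ Emb A B f :=
  ⟨fun h => by simpa using h.negx, Emb.negx⟩

theorem emb_swap {A : Cfg V} {B : Cfg W} {f : V → W} : Emb A.swap B.swap f ↔ Emb A B f :=
  ⟨fun h => by simpa using h.swap, Emb.swap⟩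

theorem emb_neg' {A : Cfg V} {B : Cfg W} {f : V → W} : Emb A B.neg f ↔ Emb A.neg B f := by
  rw [← emb_neg, Cfg.neg_neg]

theorem emb_negx' {A : Cfg V} {B : Cfg W} {f : V → W} : Emb A B.negx f ↔ Emb A.negx B f := by
  rw [← emb_negx, Cfg.negx_negx]

theorem emb_swap' {A : Cfg V} {B : Cfg W} {f : V → W} : Emb A B.swap f ↔ Emb A.swap B f := by
  rw [← emb_swap, Cfg.swap_swap]

/-- `g` lies to one side of all of `Z` in each of the two orders. -/
def Hom (ρ : Cfg W) (g : W) (Z : Set W) : Prop :=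
  ((∀ z ∈ Z, ρ.x g < ρ.x z) ∨ (∀ z ∈ Z, ρ.x z < ρ.x g)) ∧
  ((∀ z ∈ Z, ρ.y g < ρ.y z) ∨ (∀ z ∈ Z, ρ.y z < ρ.y g))

/-- `I` is an interval of `π`. -/
def IsInt (π : Cfg V) (I : Finset V) : Prop := ∀ f, f ∉ I → Hom π f I

/-- The points of `I` do not form a sum-decomposable pattern. -/
def SumIndec (π : Cfg V) (I : Finset V) : Prop :=
  ∀ P : Set V, (∃ i ∈ I, i ∈ P) → (∃ i ∈ I, i ∉ P) →
    ¬ ∀ i ∈ I, i ∈ P → ∀ j ∈ I, j ∉ P → π.x i < π.x j ∧ π.y i < π.y j

/-- The points of `I` do not form a skew-decomposable pattern. -/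
def SkewIndec (π : Cfg V) (I : Finset V) : Prop :=
  ∀ P : Set V, (∃ i ∈ I, i ∈ P) → (∃ i ∈ I, i ∉ P) →
    ¬ ∀ i ∈ I, i ∈ P → ∀ j ∈ I, j ∉ P → π.x i < π.x j ∧ π.y j < π.y i

/-- A split into finitely many colours: there are finitely many configurations `τ i` avoiding `π`
such that every `ρ` avoiding `π` has a colouring without a copy of `τ i` in colour `i`. -/
def MSplit (π : Cfg V) : Prop :=
  ∃ (ι : Type) (_ : Fintype ι) (_ : Nonempty ι) (T : ι → Type) (_ : ∀ i, Fintype (T i))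
    (τ : ∀ i, Cfg (T i)), (∀ i, Avoids (τ i) π) ∧
    ∀ (W : Type) [Fintype W] (ρ : Cfg W), Avoids ρ π →
      ∃ col : W → ι, ∀ i, ¬ ∃ f : T i → W, Emb (τ i) ρ f ∧ ∀ t, col (f t) = i

/-- Unsplittability of the class of configurations avoiding `π`. -/
def CUnsplit (π : Cfg V) : Prop :=
  ∀ (A B : Type) [Fintype A] [Fintype B] (α : Cfg A) (β : Cfg B), Avoids α π → Avoids β π →
    ∃ (W : Type) (_ : Fintype W) (ρ : Cfg W), Avoids ρ π ∧ ∀ R : Set W,
      (∃ f, Emb α ρ f ∧ ∀ a, f a ∈ R) ∨ (∃ f, Emb β ρ f ∧ ∀ b, f b ∉ R)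

theorem avoids_neg {A : Cfg V} {B : Cfg W} : Avoids B.neg A.neg ↔ Avoids B A :=
  forall_congr' fun _ => not_congr emb_neg

theorem avoids_negx {A : Cfg V} {B : Cfg W} : Avoids B.negx A.negx ↔ Avoids B A :=
  forall_congr' fun _ => not_congr emb_negx

theorem avoids_swap {A : Cfg V} {B : Cfg W} : Avoids B.swap A.swap ↔ Avoids B A :=
  forall_congr' fun _ => not_congr emb_swap

theorem MSplit.neg {π : Cfg V} (h : MSplit π) : MSplit π.neg := by
  obtain ⟨ι, h1, h2, T, h3, τ, h4, h5⟩ := h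
  refine ⟨ι, h1, h2, T, h3, fun i => (τ i).neg, fun i => avoids_neg.2 (h4 i), ?_⟩
  intro W _ ρ hρ
  obtain ⟨col, hc⟩ := h5 W ρ.neg (by rw [← avoids_neg, Cfg.neg_neg]; exact hρ)
  refine ⟨col, fun i hi => hc i ?_⟩
  obtain ⟨f, hf, hf2⟩ := hi
  exact ⟨f, emb_neg'.2 hf, hf2⟩

theorem MSplit.negx {π : Cfg V} (h : MSplit π) : MSplit π.negx := by
  obtain ⟨ι, h1, h2, T, h3, τ, h4, h5⟩ := h
  refine ⟨ι, h1, h2, T, h3, fun i => (τ i).negx, fun i => avoids_negx.2 (h4 i), ?_⟩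
  intro W _ ρ hρ
  obtain ⟨col, hc⟩ := h5 W ρ.negx (by rw [← avoids_negx, Cfg.negx_negx]; exact hρ)
  refine ⟨col, fun i hi => hc i ?_⟩
  obtain ⟨f, hf, hf2⟩ := hi
  exact ⟨f, emb_negx'.2 hf, hf2⟩

theorem MSplit.swap {π : Cfg V} (h : MSplit π) : MSplit π.swap := by
  obtain ⟨ι, h1, h2, T, h3, τ, h4, h5⟩ := h
  refine ⟨ι, h1, h2, T, h3, fun i => (τ i).swap, fun i => avoids_swap.2 (h4 i), ?_⟩
  intro W _ ρ hρ
  obtain ⟨col, hc⟩ := h5 W ρ.swap (by rw [← avoids_swap, Cfg.swap_swap]; exact hρ)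
  refine ⟨col, fun i hi => hc i ?_⟩
  obtain ⟨f, hf, hf2⟩ := hi
  exact ⟨f, emb_swap'.2 hf, hf2⟩

theorem CUnsplit.neg {π : Cfg V} (h : CUnsplit π) : CUnsplit π.neg := by
  intro A B _ _ α β hα hβ
  obtain ⟨W, hW, ρ, h1, h2⟩ := h A B α.neg β.neg (by rw [← avoids_neg, Cfg.neg_neg]; exact hα)
    (by rw [← avoids_neg, Cfg.neg_neg]; exact hβ)
  refine ⟨W, hW, ρ.neg, avoids_neg.2 h1, fun R => ?_⟩
  rcases h2 R with ⟨f, hf, hf2⟩ | ⟨f, hf, hf2⟩
  · exact Or.inl ⟨f, emb_neg'.2 hf, hf2⟩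
  · exact Or.inr ⟨f, emb_neg'.2 hf, hf2⟩

theorem CUnsplit.negx {π : Cfg V} (h : CUnsplit π) : CUnsplit π.negx := by
  intro A B _ _ α β hα hβ
  obtain ⟨W, hW, ρ, h1, h2⟩ := h A B α.negx β.negx (by rw [← avoids_negx, Cfg.negx_negx]; exact hα)
    (by rw [← avoids_negx, Cfg.negx_negx]; exact hβ)
  refine ⟨W, hW, ρ.negx, avoids_negx.2 h1, fun R => ?_⟩
  rcases h2 R with ⟨f, hf, hf2⟩ | ⟨f, hf, hf2⟩
  · exact Or.inl ⟨f, emb_negx'.2 hf, hf2⟩
  · exact Or.inr ⟨f, emb_negx'.2 hf, hf2⟩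

end Helper43.Split
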