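import Pool.Agent.Helper43.Split.MT

/-!
# Existence of division sequences
-/

namespace Helper43.Split

variable {W : Type} [Fintype W]

/-- number of rows met by the column strip `a` -/
noncomputable def dsCnt (c r : W → ℕ) (a : ℕ) : ℕ :=
  ((Finset.univ.filter fun w => c w = a).image r).card

/-- A division: maps to strips, monotone, with light strips. -/
structure DsSt (ρ : Cfg W) (d p q : ℕ) (c r : W → ℕ) : Prop where
  c_mono : ∀ v w, ρ.x v < ρ.x w → c v ≤ c w
  r_mono : ∀ v w, ρ.y v < ρ.y w → r v ≤ r w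
  c_lt : ∀ v, c v < p
  r_lt : ∀ v, r v < q
  pq : p ≤ q + 1
  qp : q ≤ p + 1
  col : ∀ a, dsCnt c r a ≤ d
  row : ∀ a, dsCnt r c a ≤ d

/-- A division sequence without the condition at the end. -/
structure DsCh (ρ : Cfg W) (d : ℕ) (c r : ℕ → W → ℕ) : Prop where
  c_mono : ∀ t v w, ρ.x v < ρ.x w → c t v ≤ c t w
  r_mono : ∀ t v w, ρ.y v < ρ.y w → r t v ≤ r t w
  c_zero : ∀ v w, c 0 v = c 0 w
  r_zero : ∀ v w, r 0 v = r 0 w
  c_ref : ∀ t v w, c (t + 1) v = c (t + 1) w → c t v = c t w
  r_ref : ∀ t v w, r (t + 1) v = r (t + 1) w → r t v = r t w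
  split2 : ∀ t u v w, c t u = c t v → r t u = r t v → c t v = c t w → r t v = r t w →
    (c (t + 1) u = c (t + 1) v ∧ r (t + 1) u = r (t + 1) v) ∨
    (c (t + 1) v = c (t + 1) w ∧ r (t + 1) v = r (t + 1) w) ∨
    (c (t + 1) u = c (t + 1) w ∧ r (t + 1) u = r (t + 1) w)
  col : ∀ t a, dsCnt (c t) (r t) a ≤ d
  row : ∀ t a, dsCnt (r t) (c t) a ≤ d

theorem DsSt.swap {ρ : Cfg W} {d p q : ℕ} {c r : W → ℕ} (h : DsSt ρ d p q c r) :
    DsSt ρ.swap d q p r c :=
  ⟨h.r_mono, h.c_mono, h.r_lt, h.c_lt, h.qp, h.pq, h.row, h.col⟩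

theorem DsCh.swap {ρ : Cfg W} {d : ℕ} {c r : ℕ → W → ℕ} (h : DsCh ρ.swap d r c) :
    DsCh ρ d c r := by
  refine ⟨h.r_mono, h.c_mono, h.r_zero, h.c_zero, h.r_ref, h.c_ref, ?_, h.row, h.col⟩
  intro t u v w h1 h2 h3 h4
  rcases h.split2 t u v w h2 h1 h4 h3 with h5 | h5 | h5
  · exact Or.inl h5.symm
  · exact Or.inr (Or.inl h5.symm)
  · exact Or.inr (Or.inr h5.symm)

theorem ds_cells_card {p : ℕ} (c r : W → ℕ) (hc : ∀ v, c v < p) :
    ∑ a ∈ Finset.range p, dsCnt c r a = (Finset.univ.image fun w => (c w, r w)).card := by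
  rw [Finset.card_eq_sum_card_fiberwise (f := Prod.fst) (t := Finset.range p)]
  · apply Finset.sum_congr rfl
    intro a _
    unfold dsCnt
    have : ((Finset.univ.image fun w => (c w, r w)).filter (fun z => z.1 = a)).image Prod.snd =
        (Finset.univ.filter fun w => c w = a).image r := by
      ext b
      simp only [Finset.mem_image, Finset.mem_filter, Finset.mem_univ, true_and]
      constructor
      · rintro ⟨z, ⟨⟨w, rfl⟩, h1⟩, h2⟩
        exact ⟨w, h1, h2⟩
      · rintro ⟨w, h1, h2⟩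
        exact ⟨(c w, r w), ⟨⟨w, rfl⟩, h1⟩, h2⟩
    rw [← this]
    apply Finset.card_image_of_injOn
    intro z hz z' hz' hzz
    simp only [Finset.coe_filter, Set.mem_ofPred_eq] at hz hz'
    exact Prod.ext (hz.2.trans hz'.2.symm) hzz
  · intro z hz
    rw [Finset.mem_coe, Finset.mem_image] at hz
    obtain ⟨w, _, rfl⟩ := hz
    exact Finset.mem_coe.mpr (Finset.mem_range.mpr (hc w))

theorem ds_lt {ρ : Cfg W} {c : W → ℕ} (h : ∀ v w, ρ.x v < ρ.x w → c v ≤ c w) {v w : W}
    (hvw : c v < c w) : ρ.x v < ρ.x w := by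
  rcases lt_trichotomy (ρ.x v) (ρ.x w) with h1 | h1 | h1
  · exact h1
  · rw [ρ.hx h1] at hvw; omega
  · have := h _ _ h1; omega

theorem ds_lt' {ρ : Cfg W} {r : W → ℕ} (h : ∀ v w, ρ.y v < ρ.y w → r v ≤ r w) {v w : W}
    (hvw : r v < r w) : ρ.y v < ρ.y w := by
  rcases lt_trichotomy (ρ.y v) (ρ.y w) with h1 | h1 | h1
  · exact h1
  · rw [ρ.hy h1] at hvw; omega
  · have := h _ _ h1; omega

theorem ds_nogrid {K : ℕ} {ρ : Cfg W} (hg : ¬ CfgGrid K ρ) {d p q : ℕ} {c r : W → ℕ}
    (h : DsSt ρ d p q c r) : ¬ HasGrid K (Finset.univ.image fun w => (c w, r w)) := by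
  rintro ⟨P, h1, h2, h3⟩
  apply hg
  have key : ∀ i j, ∃ w, (c w, r w) = P i j := by
    intro i j
    have := h1 i j
    rw [Finset.mem_image] at this
    obtain ⟨w, _, hw⟩ := this
    exact ⟨w, hw⟩
  choose v hv using key
  refine ⟨v, ?_, ?_⟩
  · intro i i' j j' hii
    apply ds_lt h.c_mono
    have := h2 i i' j j' hii
    rwa [← hv, ← hv] at this
  · intro i i' j j' hjj
    apply ds_lt' h.r_mono
    have := h3 i i' j j' hjj
    rwa [← hv, ← hv] at this

theorem ds_sum_pairs (f : ℕ → ℕ) (m : ℕ) :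
    ∑ a ∈ Finset.range (2 * m), f a = ∑ i ∈ Finset.range m, (f (2 * i) + f (2 * i + 1)) := by
  induction m with
  | zero => simp
  | succ m ih =>
    rw [Finset.sum_range_succ, ← ih, show 2 * (m + 1) = 2 * m + 1 + 1 by ring,
      Finset.sum_range_succ, Finset.sum_range_succ]
    ring

/-- A light pair of neighbouring column strips. -/
theorem ds_light {K C : ℕ} (hC : ∀ (n : ℕ) (M : Finset (ℕ × ℕ)), (∀ p ∈ M, p.1 < n ∧ p.2 < n) →
    ¬ HasGrid K M → M.card ≤ C * n) {ρ : Cfg W} (hg : ¬ CfgGrid K ρ) {d p q : ℕ} {c r : W → ℕ}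
    (h : DsSt ρ d p q c r) (hqp : q ≤ p) (hp : 2 ≤ p) :
    ∃ j, j + 1 < p ∧ dsCnt c r j + dsCnt c r (j + 1) ≤ 3 * C := by
  by_contra hcon
  push Not at hcon
  have h1 : (Finset.univ.image fun w => (c w, r w)).card ≤ C * p := by
    apply hC p _ _ (ds_nogrid hg h)
    intro z hz
    rw [Finset.mem_image] at hz
    obtain ⟨w, _, rfl⟩ := hz
    exact ⟨h.c_lt w, (h.r_lt w).trans_le hqp⟩
  rw [← ds_cells_card c r h.c_lt] at h1
  have h2 : ∑ a ∈ Finset.range (2 * (p / 2)), dsCnt c r a ≤
      ∑ a ∈ Finset.range p, dsCnt c r a := by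
    apply Finset.sum_le_sum_of_subset
    intro x hx
    rw [Finset.mem_range] at hx ⊢
    omega
  rw [ds_sum_pairs] at h2
  have h3 : ∑ i ∈ Finset.range (p / 2), (3 * C + 1) ≤
      ∑ i ∈ Finset.range (p / 2), (dsCnt c r (2 * i) + dsCnt c r (2 * i + 1)) := by
    apply Finset.sum_le_sum
    intro i hi
    rw [Finset.mem_range] at hi
    exact hcon (2 * i) (by omega)
  rw [Finset.sum_const, Finset.card_range, smul_eq_mul] at h3
  have h4 : p ≤ 3 * (p / 2) := by omega
  have h5 : C * p ≤ C * (3 * (p / 2)) := Nat.mul_le_mul_left _ h4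
  have h6 : p / 2 * (3 * C + 1) = C * (3 * (p / 2)) + p / 2 := by ring
  omega

/-- The map merging the strips `j` and `j+1`. -/
def dsM (j a : ℕ) : ℕ := if a ≤ j then a else a - 1

theorem dsM_mono (j : ℕ) {a b : ℕ} (h : a ≤ b) : dsM j a ≤ dsM j b := by
  unfold dsM; split_ifs <;> omega

theorem dsM_eq (j : ℕ) {a b : ℕ} (h : dsM j a = dsM j b) :
    a = b ∨ (a = j ∧ b = j + 1) ∨ (a = j + 1 ∧ b = j) := by
  unfold dsM at h; split_ifs at h <;> omega

theorem ds_merge {ρ : Cfg W} {d p q C : ℕ} {c r : W → ℕ}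
    (h : DsSt ρ d p q c r) (hqp : q ≤ p) (hd : 3 * C ≤ d) {j : ℕ} (hj : j + 1 < p)
    (hl : dsCnt c r j + dsCnt c r (j + 1) ≤ 3 * C) :
    DsSt ρ d (p - 1) q (fun v => dsM j (c v)) r := by
  classical
  refine ⟨fun v w hvw => dsM_mono j (h.c_mono v w hvw), h.r_mono, ?_, h.r_lt, ?_, ?_, ?_, ?_⟩
  · intro v
    have := h.c_lt v
    simp only [dsM]; split_ifs <;> omega
  · have := h.pq; omega
  · have := h.pq; omega
  · intro a
    by_cases ha : a = j
    · subst ha
      refine le_trans ?_ (hl.trans hd)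
      unfold dsCnt
      refine le_trans (Finset.card_le_card ?_) (Finset.card_union_le _ _)
      rw [← Finset.image_union]
      apply Finset.image_subset_image
      intro w hw
      simp only [Finset.mem_union, Finset.mem_filter, Finset.mem_univ, true_and] at hw ⊢
      unfold dsM at hw
      split_ifs at hw <;> omega
    · -- another strip
      set b := if a < j then a else a + 1 with hb
      have hsub : dsCnt (fun v => dsM j (c v)) r a ≤ dsCnt c r b := by
        unfold dsCnt
        apply Finset.card_le_card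
        apply Finset.image_subset_image
        intro w hw
        simp only [Finset.mem_filter, Finset.mem_univ, true_and] at hw ⊢
        unfold dsM at hw
        rw [hb]
        split_ifs at hw ⊢ <;> omega
      exact hsub.trans (h.col b)
  · intro a
    refine le_trans ?_ (h.row a)
    unfold dsCnt
    have : (Finset.univ.filter fun w => r w = a).image (fun v => dsM j (c v)) =
        ((Finset.univ.filter fun w => r w = a).image c).image (dsM j) := by
      rw [Finset.image_image]; rfl
    rw [this]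
    exact Finset.card_image_le

/-- Extending a chain by a finer division. -/
theorem ds_extend {ρ : Cfg W} {d p q : ℕ} {c0 r0 : W → ℕ} (h : DsSt ρ d p q c0 r0) {j : ℕ}
    {T : ℕ} {c r : ℕ → W → ℕ} (hc : DsCh ρ d c r) (hcT : c T = fun v => dsM j (c0 v))
    (hrT : r T = r0) :
    ∃ T' c' r', DsCh ρ d c' r' ∧ c' T' = c0 ∧ r' T' = r0 := by
  refine ⟨T + 1, fun t => if t ≤ T then c t else c0, fun t => if t ≤ T then r t else r0,
    ?_, ?_, ?_⟩
  · refine ⟨?_, ?_, ?_, ?_, ?_, ?_, ?_, ?_, ?_⟩
    · intro t v w hvw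
      by_cases ht : t ≤ T
      · simp only [if_pos ht]; exact hc.c_mono t v w hvw
      · simp only [if_neg ht]; exact h.c_mono v w hvw
    · intro t v w hvw
      by_cases ht : t ≤ T
      · simp only [if_pos ht]; exact hc.r_mono t v w hvw
      · simp only [if_neg ht]; exact h.r_mono v w hvw
    · intro v w
      simp only [Nat.zero_le, if_true]
      exact hc.c_zero v w
    · intro v w
      simp only [Nat.zero_le, if_true]
      exact hc.r_zero v w
    · intro t v w hvw
      by_cases ht : t + 1 ≤ T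
      · have ht' : t ≤ T := by omega
        simp only [if_pos ht, if_pos ht'] at hvw ⊢
        exact hc.c_ref t v w hvw
      · simp only [if_neg ht] at hvw
        by_cases ht' : t ≤ T
        · have : t = T := by omega
          subst this
          simp only [le_refl, if_true, hcT]
          rw [hvw]
        · simp only [if_neg ht']; exact hvw
    · intro t v w hvw
      by_cases ht : t + 1 ≤ T
      · have ht' : t ≤ T := by omega
        simp only [if_pos ht, if_pos ht'] at hvw ⊢
        exact hc.r_ref t v w hvw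
      · simp only [if_neg ht] at hvw
        by_cases ht' : t ≤ T
        · have : t = T := by omega
          subst this
          simp only [le_refl, if_true, hrT]
          rw [hvw]
        · simp only [if_neg ht']; exact hvw
    · intro t u v w h1 h2 h3 h4
      by_cases ht : t + 1 ≤ T
      · have ht' : t ≤ T := by omega
        simp only [if_pos ht, if_pos ht'] at h1 h2 h3 h4 ⊢
        exact hc.split2 t u v w h1 h2 h3 h4
      · by_cases ht' : t ≤ T
        · have : t = T := by omega
          subst this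
          simp only [le_refl, if_true, hcT, hrT] at h1 h2 h3 h4
          simp only [if_neg ht]
          have e1 := dsM_eq j h1
          have e2 := dsM_eq j h3
          rcases e1 with e1 | e1 | e1
          · exact Or.inl ⟨e1, h2⟩
          · rcases e2 with e2 | e2 | e2
            · exact Or.inr (Or.inl ⟨e2, h4⟩)
            · omega
            · exact Or.inr (Or.inr ⟨by omega, h2.trans h4⟩)
          · rcases e2 with e2 | e2 | e2
            · exact Or.inr (Or.inl ⟨e2, h4⟩)
            · exact Or.inr (Or.inr ⟨by omega, h2.trans h4⟩)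
            · omega
        · simp only [if_neg ht'] at h1 h2
          simp only [if_neg ht]
          exact Or.inl ⟨h1, h2⟩
    · intro t a
      by_cases ht : t ≤ T
      · simp only [if_pos ht]; exact hc.col t a
      · simp only [if_neg ht]; exact h.col a
    · intro t a
      by_cases ht : t ≤ T
      · simp only [if_pos ht]; exact hc.row t a
      · simp only [if_neg ht]; exact h.row a
  · simp
  · simp

theorem ds_main {K C d : ℕ} (hC : ∀ (n : ℕ) (M : Finset (ℕ × ℕ)), (∀ p ∈ M, p.1 < n ∧ p.2 < n) →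
    ¬ HasGrid K M → M.card ≤ C * n) (hd : 3 * C ≤ d) : ∀ (N : ℕ) (ρ : Cfg W), ¬ CfgGrid K ρ →
    ∀ (p q : ℕ) (c0 r0 : W → ℕ), p + q = N → DsSt ρ d p q c0 r0 →
    ∃ T c r, DsCh ρ d c r ∧ c T = c0 ∧ r T = r0 := by
  intro N
  induction N with
  | zero =>
    intro ρ _ p q c0 r0 hN h
    refine ⟨0, fun _ => c0, fun _ => r0, ⟨?_, ?_, ?_, ?_, ?_, ?_, ?_, ?_, ?_⟩, rfl, rfl⟩
    · exact fun _ => h.c_mono
    · exact fun _ => h.r_mono
    · intro v _; have := h.c_lt v; omega
    · intro v _; have := h.r_lt v; omega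
    · intro _ v w hh; exact hh
    · intro _ v w hh; exact hh
    · intro _ u v w h1 h2 _ _; exact Or.inl ⟨h1, h2⟩
    · exact fun _ => h.col
    · exact fun _ => h.row
  | succ N ih =>
    intro ρ hg p q c0 r0 hN h
    by_cases hbase : p ≤ 1 ∧ q ≤ 1
    · refine ⟨0, fun _ => c0, fun _ => r0, ⟨?_, ?_, ?_, ?_, ?_, ?_, ?_, ?_, ?_⟩, rfl, rfl⟩
      · exact fun _ => h.c_mono
      · exact fun _ => h.r_mono
      · intro v w; have := h.c_lt v; have := h.c_lt w; omega
      · intro v w; have := h.r_lt v; have := h.r_lt w; omega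
      · intro _ v w hh; exact hh
      · intro _ v w hh; exact hh
      · intro _ u v w h1 h2 _ _; exact Or.inl ⟨h1, h2⟩
      · exact fun _ => h.col
      · exact fun _ => h.row
    · rcases le_total q p with hqp | hpq
      · have hp : 2 ≤ p := by omega
        obtain ⟨j, hj, hl⟩ := ds_light hC hg h hqp hp
        have hm := ds_merge h hqp hd hj hl
        obtain ⟨T, c, r, hch, hcT, hrT⟩ := ih ρ hg (p - 1) q _ r0 (by omega) hm
        exact ds_extend h hch hcT hrT
      · have hq : 2 ≤ q := by omega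
        have h' := h.swap
        have hg' : ¬ CfgGrid K ρ.swap := by
          rintro ⟨v, h1, h2⟩
          exact hg ⟨fun i j => v j i, fun i i' j j' hii => h2 _ _ _ _ hii,
            fun i i' j j' hjj => h1 _ _ _ _ hjj⟩
        obtain ⟨j, hj, hl⟩ := ds_light hC hg' h' hpq hq
        have hm := ds_merge h' hpq hd hj hl
        obtain ⟨T, c, r, hch, hcT, hrT⟩ := ih ρ.swap hg' (q - 1) p _ c0 (by omega) hm
        obtain ⟨T', c', r', hch', hcT', hrT'⟩ := ds_extend h' hch hcT hrT
        exact ⟨T', r', c', hch'.swap, hrT', hcT'⟩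

theorem ds_pair_card (c r : W → ℕ) (a : ℕ) :
    ((Finset.univ.filter fun w => c w = a).image fun w => (c w, r w)).card = dsCnt c r a := by
  unfold dsCnt
  have : (Finset.univ.filter fun w => c w = a).image r =
      ((Finset.univ.filter fun w => c w = a).image fun w => (c w, r w)).image Prod.snd := by
    rw [Finset.image_image]; rfl
  rw [this]
  symm
  apply Finset.card_image_of_injOn
  intro z hz z' hz' hzz
  rw [Finset.mem_coe, Finset.mem_image] at hz hz'
  obtain ⟨w, hw, rfl⟩ := hz
  obtain ⟨w', hw', rfl⟩ := hz'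
  rw [Finset.mem_filter] at hw hw'
  exact Prod.ext (hw.2.trans hw'.2.symm) hzz

theorem ds_pair_card' (c r : W → ℕ) (a : ℕ) :
    ((Finset.univ.filter fun w => r w = a).image fun w => (c w, r w)).card = dsCnt r c a := by
  unfold dsCnt
  have : (Finset.univ.filter fun w => r w = a).image c =
      ((Finset.univ.filter fun w => r w = a).image fun w => (c w, r w)).image Prod.fst := by
    rw [Finset.image_image]; rfl
  rw [this]
  symm
  apply Finset.card_image_of_injOn
  intro z hz z' hz' hzz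
  rw [Finset.mem_coe, Finset.mem_image] at hz hz'
  obtain ⟨w, hw, rfl⟩ := hz
  obtain ⟨w', hw', rfl⟩ := hz'
  rw [Finset.mem_filter] at hw hw'
  exact Prod.ext hzz (hw.2.trans hw'.2.symm)

/-- rank as a natural number -/
noncomputable def dsRk (X : W → ℤ) (v : W) : ℕ := (Finset.univ.filter fun w => X w < X v).card

theorem dsRk_lt {X : W → ℤ} {v w : W} (h : X v < X w) : dsRk X v < dsRk X w := by
  unfold dsRk
  apply Finset.card_lt_card
  rw [Finset.ssubset_iff_of_subset]
  · exact ⟨v, by simpa using h, by simp⟩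
  · intro u hu
    simp only [Finset.mem_filter, Finset.mem_univ, true_and] at hu ⊢
    exact hu.trans h

theorem dsRk_lt_card (X : W → ℤ) (v : W) : dsRk X v < Fintype.card W := by
  unfold dsRk
  rw [← Finset.card_univ]
  apply Finset.card_lt_card
  rw [Finset.ssubset_iff_of_subset (Finset.subset_univ _)]
  exact ⟨v, Finset.mem_univ _, by simp⟩

theorem dsRk_inj {X : W → ℤ} (hX : Function.Injective X) {v w : W} (h : dsRk X v = dsRk X w) :
    v = w := by
  rcases lt_trichotomy (X v) (X w) with h1 | h1 | h1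
  · have := dsRk_lt h1; omega
  · exact hX h1
  · have := dsRk_lt h1; omega

theorem dsCnt_le_one {c r : W → ℕ} (hc : ∀ v w, c v = c w → v = w) (a : ℕ) : dsCnt c r a ≤ 1 := by
  unfold dsCnt
  rw [Finset.card_le_one]
  intro x hx y hy
  simp only [Finset.mem_image, Finset.mem_filter, Finset.mem_univ, true_and] at hx hy
  obtain ⟨v, hv, rfl⟩ := hx
  obtain ⟨w, hw, rfl⟩ := hy
  rw [hc v w (hv.trans hw.symm)]

omit [Fintype W] in
/-- Module DS. -/
theorem exists_divSeq (K : ℕ) : ∃ d : ℕ, ∀ (W : Type) [Fintype W] (ρ : Cfg W), ¬ CfgGrid K ρ →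
    Nonempty (DivSeq ρ d) := by
  obtain ⟨C, hC⟩ := mt K
  refine ⟨3 * C + 1, ?_⟩
  intro W _ ρ hg
  have hst : DsSt ρ (3 * C + 1) (Fintype.card W) (Fintype.card W) (dsRk ρ.x) (dsRk ρ.y) := by
    refine ⟨?_, ?_, dsRk_lt_card _, dsRk_lt_card _, by omega, by omega, ?_, ?_⟩
    · intro v w h; exact (dsRk_lt h).le
    · intro v w h; exact (dsRk_lt h).le
    · intro a
      have := dsCnt_le_one (c := dsRk ρ.x) (r := dsRk ρ.y) (fun v w h => dsRk_inj ρ.hx h) a
      omega
    · intro a
      have := dsCnt_le_one (c := dsRk ρ.y) (r := dsRk ρ.x) (fun v w h => dsRk_inj ρ.hy h) a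
      omega
  obtain ⟨T, c, r, h, hcT, hrT⟩ := ds_main hC (by omega) _ ρ hg _ _ _ _ rfl hst
  refine ⟨⟨T, c, r, h.c_mono, h.r_mono, h.c_zero, h.r_zero, ?_, h.c_ref, h.r_ref, ?_, ?_, ?_⟩⟩
  · intro v w h1 _
    rw [hcT] at h1
    exact dsRk_inj ρ.hx h1
  · intro t u v w h1 h2
    simp only [Prod.mk.injEq] at h1 h2 ⊢
    exact h.split2 t u v w h1.1 h1.2 h2.1 h2.2
  · intro t v
    rw [ds_pair_card]
    exact h.col t _
  · intro t v
    rw [ds_pair_card']
    exact h.row t _

end Helper43.Split
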