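import Mathlib

/-!
# Splittability of principal permutation classes: definitions

The public definitions (permutations, containment, classes, merges, splittability, simplicity,
one-line words), and the internal notion of a configuration.
-/

namespace Helper43.Split

/-- A permutation, with its size. -/
abbrev PermN : Type := Σ n : ℕ, Equiv.Perm (Fin n)

/-- `ρ` contains `σ`: some subsequence of `ρ` is order-isomorphic to `σ`. -/
def Contains (ρ σ : PermN) : Prop :=
  ∃ f : Fin σ.1 → Fin ρ.1, StrictMono f ∧ ∀ i j, σ.2 i < σ.2 j ↔ ρ.2 (f i) < ρ.2 (f j)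

/-- The class of all permutations avoiding every element of `F`. -/
def Av (F : Set PermN) : Set PermN := {ρ | ∀ σ ∈ F, ¬ Contains ρ σ}

/-- The entries of `ρ` at the positions in `S` form the pattern `σ`. -/
def PatternOn (ρ : PermN) (S : Set (Fin ρ.1)) (σ : PermN) : Prop :=
  ∃ f : Fin σ.1 → Fin ρ.1, StrictMono f ∧ Set.range f = S ∧
    ∀ i j, σ.2 i < σ.2 j ↔ ρ.2 (f i) < ρ.2 (f j)

/-- The merge of two sets of permutations: the entries can be coloured red (positions in `S`) and
blue (the other positions) so that the red pattern is in `A` and the blue pattern is in `B`. -/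
def Merge (A B : Set PermN) : Set PermN :=
  {ρ | ∃ S : Set (Fin ρ.1), (∃ α ∈ A, PatternOn ρ S α) ∧ ∃ β ∈ B, PatternOn ρ Sᶜ β}

/-- A set of permutations is unsplittable if it is not contained in `Av σ ⊙ Av τ` for any two
elements `σ, τ` of it. -/
def Unsplittable (C : Set PermN) : Prop :=
  ∀ σ ∈ C, ∀ τ ∈ C, (C \ Merge (Av {σ}) (Av {τ})).Nonempty

/-- A set of permutations is splittable if it is not unsplittable. -/
def Splittable (C : Set PermN) : Prop := ¬ Unsplittable C

/-- `S` is an interval of `π`: a set of consecutive positions whose values form a set of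
consecutive integers. -/
def IsInterval (π : PermN) (S : Set (Fin π.1)) : Prop :=
  S.OrdConnected ∧ (π.2 '' S).OrdConnected

/-- `π` is simple if each of its intervals has size `0`, `1` or the size of `π`. -/
def Simple (π : PermN) : Prop :=
  ∀ S : Set (Fin π.1), IsInterval π S → S.ncard = 0 ∨ S.ncard = 1 ∨ S.ncard = π.1

/-- The one-line word of a permutation, with values `1, …, n`. -/
def word (π : PermN) : List ℕ := List.ofFn fun i => ((π.2 i : Fin π.1) : ℕ) + 1

/-! ## Configurations -/

/-- A configuration: points with integer coordinates, no two of which share a coordinate. -/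
structure Cfg (V : Type) where
  x : V → ℤ
  y : V → ℤ
  hx : Function.Injective x
  hy : Function.Injective y

/-- `f` is a copy of `A` in `B`. -/
def Emb {V W : Type} (A : Cfg V) (B : Cfg W) (f : V → W) : Prop :=
  (∀ i j, A.x i < A.x j → B.x (f i) < B.x (f j)) ∧
  (∀ i j, A.y i < A.y j → B.y (f i) < B.y (f j))

/-- `B` avoids `A`. -/
def Avoids {W V : Type} (B : Cfg W) (A : Cfg V) : Prop := ∀ f : V → W, ¬ Emb A B f

/-- The configuration of a permutation. -/
def toCfg (π : PermN) : Cfg (Fin π.1) where
  x i := ((i : ℕ) : ℤ)
  y i := (((π.2 i : Fin π.1) : ℕ) : ℤ)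
  hx := fun i j h => Fin.ext (by simpa using h)
  hy := fun i j h => π.2.injective (Fin.ext (by simpa using h))

/-- The number of points with smaller image. -/
noncomputable def rk {V α : Type} [Fintype V] [LinearOrder α] (X : V → α) (v : V) : ℤ :=
  ((Finset.univ.filter fun w => X w < X v).card : ℤ)

theorem rk_lt_of_lt {V α : Type} [Fintype V] [LinearOrder α] (X : V → α) {v w : V}
    (hvw : X v < X w) : rk X v < rk X w := by
  unfold rk
  have : (Finset.univ.filter fun u => X u < X v) ⊂ (Finset.univ.filter fun u => X u < X w) := by
    rw [Finset.ssubset_iff_of_subset]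
    · exact ⟨v, by simpa using hvw, by simp⟩
    · intro u hu
      simp only [Finset.mem_filter, Finset.mem_univ, true_and] at hu ⊢
      exact hu.trans hvw
  exact_mod_cast Finset.card_lt_card this

theorem rk_lt {V α : Type} [Fintype V] [LinearOrder α] (X : V → α) {v w : V} :
    rk X v < rk X w ↔ X v < X w := by
  constructor
  · intro h
    rcases lt_trichotomy (X v) (X w) with h1 | h1 | h1
    · exact h1
    · have : rk X v = rk X w := by unfold rk; rw [h1]
      omega
    · have := rk_lt_of_lt X h1
      omega
  · exact rk_lt_of_lt X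

theorem rk_inj {V α : Type} [Fintype V] [LinearOrder α] {X : V → α}
    (hX : Function.Injective X) : Function.Injective (rk X) := by
  intro v w h
  rcases lt_trichotomy (X v) (X w) with h1 | h1 | h1
  · have := rk_lt_of_lt X h1
    omega
  · exact hX h1
  · have := rk_lt_of_lt X h1
    omega

/-- A configuration from two injective maps to linear orders (only the orders matter). -/
noncomputable def Cfg.of {V α β : Type} [Fintype V] [LinearOrder α] [LinearOrder β]
    (X : V → α) (Y : V → β) (hX : Function.Injective X) (hY : Function.Injective Y) : Cfg V where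
  x := rk X
  y := rk Y
  hx := rk_inj hX
  hy := rk_inj hY

@[simp] theorem Cfg.of_x_lt {V α β : Type} [Fintype V] [LinearOrder α] [LinearOrder β]
    (X : V → α) (Y : V → β) (hX : Function.Injective X) (hY : Function.Injective Y) (v w : V) :
    (Cfg.of X Y hX hY).x v < (Cfg.of X Y hX hY).x w ↔ X v < X w := rk_lt X

@[simp] theorem Cfg.of_y_lt {V α β : Type} [Fintype V] [LinearOrder α] [LinearOrder β]
    (X : V → α) (Y : V → β) (hX : Function.Injective X) (hY : Function.Injective Y) (v w : V) :
    (Cfg.of X Y hX hY).y v < (Cfg.of X Y hX hY).y w ↔ Y v < Y w := rk_lt Y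

end Helper43.Split
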