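import Pool.Agent.Helper43.Split.Basic

/-!
# Definitions for the division argument
-/

namespace Helper43.Split

variable {U V W : Type}

/-- `M` has `K × K` points, one in each cell of some `K × K` grid division. -/
def HasGrid (K : ℕ) (M : Finset (ℕ × ℕ)) : Prop :=
  ∃ P : Fin K → Fin K → ℕ × ℕ, (∀ i j, P i j ∈ M) ∧
    (∀ i i' j j', i < i' → (P i j).1 < (P i' j').1) ∧
    (∀ i i' j j', j < j' → (P i j).2 < (P i' j').2)

/-- The configuration contains a `K × K` grid of points. -/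
def CfgGrid (K : ℕ) (ρ : Cfg W) : Prop :=
  ∃ v : Fin K → Fin K → W,
    (∀ i i' j j', i < i' → ρ.x (v i j) < ρ.x (v i' j')) ∧
    (∀ i i' j j', j < j' → ρ.y (v i j) < ρ.y (v i' j'))

/-- A sequence of finer and finer divisions of a configuration into column strips (`c t`) and row
strips (`r t`), each strip having at most `d` nonempty cells. -/
structure DivSeq [Fintype W] (ρ : Cfg W) (d : ℕ) where
  /-- the last time -/
  T : ℕ
  /-- the column strip of a point at a given time -/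
  c : ℕ → W → ℕ
  /-- the row strip of a point at a given time -/
  r : ℕ → W → ℕ
  c_mono : ∀ t v w, ρ.x v < ρ.x w → c t v ≤ c t w
  r_mono : ∀ t v w, ρ.y v < ρ.y w → r t v ≤ r t w
  c_zero : ∀ v w, c 0 v = c 0 w
  r_zero : ∀ v w, r 0 v = r 0 w
  last : ∀ v w, c T v = c T w → r T v = r T w → v = w
  c_ref : ∀ t v w, c (t + 1) v = c (t + 1) w → c t v = c t w
  r_ref : ∀ t v w, r (t + 1) v = r (t + 1) w → r t v = r t w
  split2 : ∀ t u v w, (c t u, r t u) = (c t v, r t v) → (c t v, r t v) = (c t w, r t w) →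
    (c (t + 1) u, r (t + 1) u) = (c (t + 1) v, r (t + 1) v) ∨
    (c (t + 1) v, r (t + 1) v) = (c (t + 1) w, r (t + 1) w) ∨
    (c (t + 1) u, r (t + 1) u) = (c (t + 1) w, r (t + 1) w)
  col_light : ∀ t v,
    ((Finset.univ.filter fun w => c t w = c t v).image fun w => (c t w, r t w)).card ≤ d
  row_light : ∀ t v,
    ((Finset.univ.filter fun w => r t w = r t v).image fun w => (c t w, r t w)).card ≤ d

/-- The cell of a point at a time. -/
def DivSeq.cell [Fintype W] {ρ : Cfg W} {d : ℕ} (D : DivSeq ρ d) (t : ℕ) (v : W) : ℕ × ℕ :=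
  (D.c t v, D.r t v)

/-- The cell of `x` at time `t` contains a copy of `σ` in which `x` plays the role `u`. -/
def Rich [Fintype W] {ρ : Cfg W} {d : ℕ} (D : DivSeq ρ d) {S : Type} (σ : Cfg S) (u : S)
    (t : ℕ) (x : W) : Prop :=
  ∃ f : S → W, Emb σ ρ f ∧ f u = x ∧ ∀ s, D.cell t (f s) = D.cell t x

/-- `Z` cuts `G`: it contains some but not all points of `G`, the points of `G` outside `Z` are
homogeneous to `Z`, and every point of `G` in `Z` plays the marked role of a copy in `Z` of each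
of the patterns. -/
def IsCut {A S : Type} (ρ : Cfg W) (σ : A → Cfg S) (u : A → S) (G Z : Set W) : Prop :=
  (∃ x ∈ G, x ∈ Z) ∧ (∃ g ∈ G, g ∉ Z) ∧ (∀ g ∈ G, g ∉ Z → Hom ρ g Z) ∧
    ∀ x ∈ G, x ∈ Z → ∀ a, ∃ f : S → W, Emb (σ a) ρ f ∧ f (u a) = x ∧ ∀ s, f s ∈ Z

/-- The label `a` is good for `π`: there is a configuration `τ` avoiding `π` such that each copy
of it in a configuration avoiding `π` has a subset containing `σ a` that nothing cuts. -/
def GoodLabel {A S : Type} (π : Cfg V) (σ : A → Cfg S) (u : A → S) (a : A) : Prop :=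
  ∃ (T : Type) (_ : Fintype T) (τ : Cfg T), Avoids τ π ∧
    ∀ (W : Type) [Fintype W] (ρ : Cfg W), Avoids ρ π → ∀ θ : T → W, Emb τ ρ θ →
      ∃ G : Set W, G ⊆ Set.range θ ∧ (∃ f, Emb (σ a) ρ f ∧ ∀ s, f s ∈ G) ∧
        ∀ Z, ¬ IsCut ρ σ u G Z

/-- `b` is above and to the right of `a`. -/
def SW (ρ : Cfg W) (a b : W) : Prop := ρ.x a < ρ.x b ∧ ρ.y a < ρ.y b

/-- The pattern `1 ⊕ σ`. -/
noncomputable def addSW {S : Type} [Fintype S] (σ : Cfg S) : Cfg (Option S) :=
  Cfg.of (α := WithBot ℤ) (β := WithBot ℤ) (fun o => o.map σ.x) (fun o => o.map σ.y)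
    (Option.map_injective σ.hx) (Option.map_injective σ.hy)

/-- The pattern `σ ⊕ 1`. -/
noncomputable def addNE {S : Type} [Fintype S] (σ : Cfg S) : Cfg (Option S) :=
  (addSW σ.neg).neg

/-- The two patterns `1 ⊕ I`, `I ⊕ 1` of an interval. -/
noncomputable def pats (π : Cfg V) (I : Finset V) (b : Bool) : Cfg (Option I) :=
  if b then addNE (π.restrict I) else addSW (π.restrict I)

/-- `L` is contained in the cell, of a copy of the complement of `I`, in which `I` would lie. -/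
def Framed (π : Cfg V) (I : Finset V) (ρ : Cfg W) (L : Set W) : Prop :=
  ∃ ψ : V → W,
    (∀ v, v ∉ I → ∀ w, w ∉ I → (π.x v < π.x w → ρ.x (ψ v) < ρ.x (ψ w)) ∧
      (π.y v < π.y w → ρ.y (ψ v) < ρ.y (ψ w))) ∧
    ∀ g ∈ L, ∀ f, f ∉ I → ∀ i ∈ I,
      (π.x f < π.x i → ρ.x (ψ f) < ρ.x g) ∧ (π.x i < π.x f → ρ.x g < ρ.x (ψ f)) ∧
      (π.y f < π.y i → ρ.y (ψ f) < ρ.y g) ∧ (π.y i < π.y f → ρ.y g < ρ.y (ψ f))

/-- Some point of `L` is comparable with all other points of `L`. -/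
def HasHub (ρ : Cfg W) (L : Set W) : Prop := ∃ h ∈ L, ∀ g ∈ L, g ≠ h → SW ρ h g ∨ SW ρ g h

end Helper43.Split
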