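import Pool.Agent.Helper43.Split.Div

/-!
# The layers lemma
-/

namespace Helper43.Split

section LA

variable {W : Type} [Fintype W] {ρ : Cfg W} {d : ℕ}

theorem DivSeq.c_ref_le (D : DivSeq ρ d) {s t : ℕ} (hst : s ≤ t) {v w : W}
    (h : D.c t v = D.c t w) : D.c s v = D.c s w := by
  induction t, hst using Nat.le_induction with
  | base => exact h
  | succ n _ ih => exact ih (D.c_ref n v w h)

theorem DivSeq.r_ref_le (D : DivSeq ρ d) {s t : ℕ} (hst : s ≤ t) {v w : W}
    (h : D.r t v = D.r t w) : D.r s v = D.r s w := by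
  induction t, hst using Nat.le_induction with
  | base => exact h
  | succ n _ ih => exact ih (D.r_ref n v w h)

theorem DivSeq.cell_eq (D : DivSeq ρ d) {t : ℕ} {v w : W} :
    D.cell t v = D.cell t w ↔ D.c t v = D.c t w ∧ D.r t v = D.r t w := by
  simp [DivSeq.cell]

theorem DivSeq.cell_ref_le (D : DivSeq ρ d) {s t : ℕ} (hst : s ≤ t) {v w : W}
    (h : D.cell t v = D.cell t w) : D.cell s v = D.cell s w := by
  rw [DivSeq.cell_eq] at h ⊢
  exact ⟨D.c_ref_le hst h.1, D.r_ref_le hst h.2⟩

theorem DivSeq.x_lt_of_c_lt (D : DivSeq ρ d) {t : ℕ} {v w : W} (h : D.c t v < D.c t w) :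
    ρ.x v < ρ.x w := by
  rcases lt_trichotomy (ρ.x v) (ρ.x w) with h1 | h1 | h1
  · exact h1
  · rw [ρ.hx h1] at h; omega
  · have := D.c_mono t _ _ h1; omega

theorem DivSeq.y_lt_of_r_lt (D : DivSeq ρ d) {t : ℕ} {v w : W} (h : D.r t v < D.r t w) :
    ρ.y v < ρ.y w := by
  rcases lt_trichotomy (ρ.y v) (ρ.y w) with h1 | h1 | h1
  · exact h1
  · rw [ρ.hy h1] at h; omega
  · have := D.r_mono t _ _ h1; omega

open Classical in
/-- The cells in a strip of one of the cells of `X`. -/
noncomputable def nbStep (D : DivSeq ρ d) (t : ℕ) (X : Finset (ℕ × ℕ)) : Finset (ℕ × ℕ) :=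
  X.biUnion fun P => (Finset.univ.filter fun w => D.c t w = P.1 ∨ D.r t w = P.2).image (D.cell t)

open Classical in
theorem nbStep_card (D : DivSeq ρ d) (t : ℕ) (X : Finset (ℕ × ℕ))
    (hX : ∀ P ∈ X, ∃ v, D.cell t v = P) : (nbStep D t X).card ≤ X.card * (2 * d) := by
  unfold nbStep
  refine Finset.card_biUnion_le_card_mul _ _ _ fun P hP => ?_
  obtain ⟨v, rfl⟩ := hX P hP
  rw [Finset.filter_or, Finset.image_union]
  refine (Finset.card_union_le _ _).trans ?_
  have h1 := D.col_light t v
  have h2 := D.row_light t v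
  simp only [DivSeq.cell]
  refine (add_le_add (le_trans (le_of_eq ?_) h1) (le_trans (le_of_eq ?_) h2)).trans
    (le_of_eq (by ring))
  · congr!
  · congr!

theorem nbStep_cell (D : DivSeq ρ d) (t : ℕ) (X : Finset (ℕ × ℕ)) :
    ∀ P ∈ nbStep D t X, ∃ v, D.cell t v = P := by
  intro P hP
  simp only [nbStep, Finset.mem_biUnion, Finset.mem_image] at hP
  obtain ⟨Q, _, v, _, h⟩ := hP
  exact ⟨v, h⟩

theorem mem_nbStep (D : DivSeq ρ d) (t : ℕ) (X : Finset (ℕ × ℕ)) {v w : W}
    (hv : D.cell t v ∈ X) (h : D.c t w = D.c t v ∨ D.r t w = D.r t v) :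
    D.cell t w ∈ nbStep D t X := by
  classical
  simp only [nbStep, Finset.mem_biUnion, Finset.mem_image, Finset.mem_filter, Finset.mem_univ,
    true_and]
  exact ⟨_, hv, w, h, rfl⟩

/-- Cells at distance at most `k` from the cell of `y`. -/
noncomputable def nbhd (D : DivSeq ρ d) (t : ℕ) (y : W) : ℕ → Finset (ℕ × ℕ)
  | 0 => {D.cell t y}
  | k + 1 => nbStep D t (nbhd D t y k)

theorem nbhd_cell (D : DivSeq ρ d) (t : ℕ) (y : W) (k : ℕ) :
    ∀ P ∈ nbhd D t y k, ∃ v, D.cell t v = P := by
  cases k with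
  | zero => intro P hP; simp only [nbhd, Finset.mem_singleton] at hP; exact ⟨y, hP.symm⟩
  | succ k => exact nbStep_cell D t _

theorem nbhd_card (D : DivSeq ρ d) (t : ℕ) (y : W) (k : ℕ) :
    (nbhd D t y k).card ≤ (2 * d) ^ k := by
  induction k with
  | zero => simp [nbhd]
  | succ k ih =>
    refine (nbStep_card D t _ (nbhd_cell D t y k)).trans ?_
    rw [pow_succ]
    exact Nat.mul_le_mul_right _ ih

theorem nbhd_mono_succ (D : DivSeq ρ d) (t : ℕ) (y : W) (k : ℕ) :
    nbhd D t y k ⊆ nbhd D t y (k + 1) := by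
  intro P hP
  obtain ⟨v, rfl⟩ := nbhd_cell D t y k P hP
  exact mem_nbStep D t _ hP (Or.inl rfl)

theorem nbhd_mono (D : DivSeq ρ d) (t : ℕ) (y : W) {k l : ℕ} (h : k ≤ l) :
    nbhd D t y k ⊆ nbhd D t y l := by
  induction l, h using Nat.le_induction with
  | base => exact Finset.Subset.refl _
  | succ n _ ih => exact ih.trans (nbhd_mono_succ D t y n)

/-- Two roles are adjacent if their images lie in a common strip. -/
def roleGraph (D : DivSeq ρ d) (t : ℕ) {S : Type} (φ : S → W) : SimpleGraph S where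
  Adj i j := i ≠ j ∧ (D.c t (φ i) = D.c t (φ j) ∨ D.r t (φ i) = D.r t (φ j))
  symm := ⟨fun i j h => ⟨h.1.symm, h.2.imp Eq.symm Eq.symm⟩⟩
  loopless := ⟨fun i h => h.1 rfl⟩

theorem walk_nbhd (D : DivSeq ρ d) (t : ℕ) {S : Type} (φ : S → W) (y : W) {i j : S}
    (p : (roleGraph D t φ).Walk i j) :
    ∀ k, D.cell t (φ i) ∈ nbhd D t y k → D.cell t (φ j) ∈ nbhd D t y (k + p.length) := by
  induction p with
  | nil => intro k hk; simpa using hk
  | cons h p ih =>
    intro k hk
    have h1 := h.2
    have := ih (k + 1) (mem_nbStep D t _ hk (h1.imp Eq.symm Eq.symm))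
    rw [SimpleGraph.Walk.length_cons]
    rwa [show k + (p.length + 1) = k + 1 + p.length by ring]

theorem reachable_nbhd (D : DivSeq ρ d) (t : ℕ) {S : Type} [Fintype S] (φ : S → W) (y : W)
    {i j : S} (hi : D.cell t (φ i) = D.cell t y) (h : (roleGraph D t φ).Reachable i j) :
    D.cell t (φ j) ∈ nbhd D t y (Fintype.card S) := by
  classical
  obtain ⟨p⟩ := h
  have h1 : p.bypass.IsPath := p.bypass_isPath
  have h2 := h1.length_lt
  have h3 := walk_nbhd D t φ y p.bypass 0 (by simp [nbhd, hi])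
  exact nbhd_mono D t y (by omega) h3

end LA

/-- Module LA. -/
theorem layers (d p : ℕ) : ∃ L : ℕ, ∀ (S : Type) [Fintype S], Fintype.card S = p →
    ∀ (σ : Cfg S) (u : S) (W : Type) [Fintype W] (ρ : Cfg W) (D : DivSeq ρ d) (t : ℕ) (y : W)
      (N : Finset ℕ),
      (∀ s ∈ N, s ≤ t ∧ ∃ x, D.cell t x = D.cell t y ∧ (∀ s' < s, Rich D σ u s' x) ∧
        ¬ Rich D σ u s x) → N.card ≤ L := by
  classical
  refine ⟨((2 * d) ^ p + 1) ^ p + 1, ?_⟩
  intro S _ hS σ u W _ ρ D t y N hN
  have hex : ∀ s : ℕ, ∃ φ : S → W, s ∈ N.erase 0 → (1 ≤ s ∧ s ≤ t ∧ Emb σ ρ φ ∧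
      D.cell t (φ u) = D.cell t y ∧ (∀ i, D.cell (s - 1) (φ i) = D.cell (s - 1) y) ∧
      ¬ Rich D σ u s (φ u)) := by
    intro s
    by_cases hs : s ∈ N.erase 0
    · have hs0 := Finset.ne_of_mem_erase hs
      obtain ⟨h1, x, h2, h3, h4⟩ := hN s (Finset.mem_of_mem_erase hs)
      obtain ⟨f, hf1, hf2, hf3⟩ := h3 (s - 1) (by omega)
      refine ⟨f, fun _ => ⟨by omega, h1, hf1, by rw [hf2, h2], fun i => ?_, by rw [hf2]; exact h4⟩⟩
      rw [hf3 i]
      exact D.cell_ref_le (by omega) h2
    · exact ⟨fun _ => y, fun h => absurd h hs⟩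
  choose φ hφ using hex
  let K : ℕ → S → Prop := fun s i => (roleGraph D t (φ s)).Reachable u i
  let lab : ℕ → S → Option (ℕ × ℕ) := fun s i => if K s i then some (D.cell t (φ s i)) else none
  let tgt : Finset (S → Option (ℕ × ℕ)) :=
    Fintype.piFinset fun _ => Finset.insertNone (nbhd D t y (Fintype.card S))
  have hcard : tgt.card ≤ ((2 * d) ^ p + 1) ^ p := by
    simp only [tgt, Fintype.card_piFinset, Finset.prod_const, Finset.card_univ,
      Finset.card_insertNone]
    rw [hS]
    exact Nat.pow_le_pow_left (Nat.add_le_add_right (nbhd_card D t y p) 1) p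
  have hmap : ∀ s ∈ N.erase 0, lab s ∈ tgt := by
    intro s hs
    obtain ⟨_, _, _, h4, _, _⟩ := hφ s hs
    simp only [tgt, Fintype.mem_piFinset]
    intro i
    simp only [lab]
    split_ifs with h
    · exact Finset.some_mem_insertNone.2 (reachable_nbhd D t (φ s) y h4 h)
    · exact Finset.none_mem_insertNone
  have key : ∀ s ∈ N.erase 0, ∀ s' ∈ N.erase 0, s < s' → lab s = lab s' → False := by
    intro s hs s' hs' hlt hlab
    obtain ⟨a1, a2, a3, a4, a5, a6⟩ := hφ s hs
    obtain ⟨b1, b2, b3, b4, b5, b6⟩ := hφ s' hs'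
    have hK : ∀ i, K s i ↔ K s' i := by
      intro i
      have := congrFun hlab i
      simp only [lab] at this
      by_cases h1 : K s i <;> by_cases h2 : K s' i <;> simp [h1, h2] at this ⊢
    have hcell : ∀ i, K s i → D.cell t (φ s i) = D.cell t (φ s' i) := by
      intro i hi
      have := congrFun hlab i
      simp only [lab] at this
      rw [if_pos hi, if_pos ((hK i).1 hi)] at this
      exact Option.some_injective _ this
    have hsep : ∀ i j, K s i → ¬ K s j →
        D.c t (φ s' i) ≠ D.c t (φ s' j) ∧ D.r t (φ s' i) ≠ D.r t (φ s' j) := by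
      intro i j hi hj
      have hi' : K s' i := (hK i).1 hi
      have hj' : ¬ K s' j := fun h => hj ((hK j).2 h)
      have hne : i ≠ j := by rintro rfl; exact hj hi
      constructor
      · intro h
        exact hj' (hi'.trans (SimpleGraph.Adj.reachable
          (show (roleGraph D t (φ s')).Adj i j from ⟨hne, Or.inl h⟩)))
      · intro h
        exact hj' (hi'.trans (SimpleGraph.Adj.reachable
          (show (roleGraph D t (φ s')).Adj i j from ⟨hne, Or.inr h⟩)))
    have hcc : ∀ i, K s i → D.c t (φ s i) = D.c t (φ s' i) ∧ D.r t (φ s i) = D.r t (φ s' i) :=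
      fun i hi => D.cell_eq.1 (hcell i hi)
    have hu : K s u := SimpleGraph.Reachable.refl u
    refine a6 ⟨fun i => if K s i then φ s i else φ s' i, ⟨?_, ?_⟩, by simp only [if_pos hu], ?_⟩
    · intro i j hij
      by_cases hi : K s i <;> by_cases hj : K s j
      · simp only [if_pos hi, if_pos hj]; exact a3.1 i j hij
      · simp only [if_pos hi, if_neg hj]
        have h1 := b3.1 i j hij
        have h2 := D.c_mono t _ _ h1
        have h3 := (hsep i j hi hj).1
        have h4 := (hcc i hi).1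
        exact D.x_lt_of_c_lt (t := t) (by omega)
      · simp only [if_neg hi, if_pos hj]
        have h1 := b3.1 i j hij
        have h2 := D.c_mono t _ _ h1
        have h3 := (hsep j i hj hi).1
        have h4 := (hcc j hj).1
        exact D.x_lt_of_c_lt (t := t) (by omega)
      · simp only [if_neg hi, if_neg hj]; exact b3.1 i j hij
    · intro i j hij
      by_cases hi : K s i <;> by_cases hj : K s j
      · simp only [if_pos hi, if_pos hj]; exact a3.2 i j hij
      · simp only [if_pos hi, if_neg hj]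
        have h1 := b3.2 i j hij
        have h2 := D.r_mono t _ _ h1
        have h3 := (hsep i j hi hj).2
        have h4 := (hcc i hi).2
        exact D.y_lt_of_r_lt (t := t) (by omega)
      · simp only [if_neg hi, if_pos hj]
        have h1 := b3.2 i j hij
        have h2 := D.r_mono t _ _ h1
        have h3 := (hsep j i hj hi).2
        have h4 := (hcc j hj).2
        exact D.y_lt_of_r_lt (t := t) (by omega)
      · simp only [if_neg hi, if_neg hj]; exact b3.2 i j hij
    · intro i
      have hx : D.cell s (φ s u) = D.cell s y := D.cell_ref_le a2 a4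
      have hy : D.cell s (φ s' i) = D.cell s y := D.cell_ref_le (by omega) (b5 i)
      by_cases hi : K s i
      · simp only [if_pos hi]
        rw [hx, ← hy]
        exact D.cell_ref_le a2 (hcell i hi)
      · simp only [if_neg hi]
        rw [hx, hy]
  have hinj : Set.InjOn lab (N.erase 0 : Finset ℕ) := by
    intro s hs s' hs' h
    rcases lt_trichotomy s s' with h1 | h1 | h1
    · exact (key s hs s' hs' h1 h).elim
    · exact h1
    · exact (key s' hs' s hs h1 h.symm).elim
  have h1 : (N.erase 0).card ≤ tgt.card := Finset.card_le_card_of_injOn lab hmap hinj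
  have h2 : N.card ≤ (N.erase 0).card + 1 := by
    have := Finset.pred_card_le_card_erase (s := N) (a := 0)
    omega
  omega

end Helper43.Split
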