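import Pool.Agent.Helper43.Split.Div

/-!
# The Marcus–Tardos theorem in grid form
-/

namespace Helper43.Split

/-- The points of `M` in the block `b` of side `s`. -/
def mtBlk (s : ℕ) (M : Finset (ℕ × ℕ)) (b : ℕ × ℕ) : Finset (ℕ × ℕ) :=
  M.filter (fun p => (p.1 / s, p.2 / s) = b)

theorem mt_wide {K s : ℕ} (hs : 0 < s) {M : Finset (ℕ × ℕ)} (h : ¬ HasGrid K M) (a : ℕ)
    (B : Finset ℕ) (hB : ∀ b ∈ B, K ≤ ((mtBlk s M (a, b)).image (fun p => p.1 % s)).card) :
    B.card ≤ K * 2 ^ s := by
  by_contra hlt
  push Not at hlt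
  apply h
  set f : ℕ → Finset ℕ := fun b => (mtBlk s M (a, b)).image (fun p => p.1 % s) with hf
  have hmaps : ∀ b ∈ B, f b ∈ (Finset.range s).powerset := by
    intro b _
    rw [Finset.mem_powerset]
    intro x hx
    simp only [hf, Finset.mem_image] at hx
    obtain ⟨p, _, rfl⟩ := hx
    exact Finset.mem_range.mpr (Nat.mod_lt _ hs)
  have hcard : (Finset.range s).powerset.card * K < B.card := by
    rw [Finset.card_powerset, Finset.card_range, mul_comm]
    exact hlt
  obtain ⟨U, _, hU⟩ := Finset.exists_lt_card_fiber_of_mul_lt_card_of_maps_to hmaps hcard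
  set B' := B.filter (fun b => f b = U) with hB'
  have hKU : K ≤ U.card := by
    have : B'.Nonempty := Finset.card_pos.mp (by omega)
    obtain ⟨b, hb⟩ := this
    rw [hB', Finset.mem_filter] at hb
    rw [← hb.2]
    exact hB b hb.1
  obtain ⟨B1, hB1, hB1c⟩ := Finset.exists_subset_card_eq (s := B') (n := K) (by omega)
  obtain ⟨U1, hU1, hU1c⟩ := Finset.exists_subset_card_eq (s := U) (n := K) hKU
  set eb := B1.orderEmbOfFin hB1c with heb
  set eu := U1.orderEmbOfFin hU1c with heu
  have key : ∀ i j : Fin K, ∃ p ∈ M, p.1 % s = eu i ∧ p.1 / s = a ∧ p.2 / s = eb j := by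
    intro i j
    have h1 : eb j ∈ B' := hB1 (Finset.orderEmbOfFin_mem _ _ _)
    have h2 : eu i ∈ U := hU1 (Finset.orderEmbOfFin_mem _ _ _)
    rw [hB', Finset.mem_filter] at h1
    rw [← h1.2] at h2
    simp only [hf, Finset.mem_image, mtBlk, Finset.mem_filter, Prod.mk.injEq] at h2
    obtain ⟨p, ⟨hp, hp1, hp2⟩, hp3⟩ := h2
    exact ⟨p, hp, hp3, hp1, hp2⟩
  choose P hP h1 h2 h3 using key
  refine ⟨P, hP, ?_, ?_⟩
  · intro i i' j j' hii
    have e1 := Nat.div_add_mod (P i j).1 s
    have e2 := Nat.div_add_mod (P i' j').1 s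
    rw [h1, h2] at e1 e2
    have : eu i < eu i' := eu.strictMono hii
    omega
  · intro i i' j j' hjj
    have : eb j < eb j' := eb.strictMono hjj
    rw [← h3 i j, ← h3 i' j'] at this
    exact Nat.lt_of_div_lt_div this

theorem mt_tall {K s : ℕ} (hs : 0 < s) {M : Finset (ℕ × ℕ)} (h : ¬ HasGrid K M) (a : ℕ)
    (B : Finset ℕ) (hB : ∀ b ∈ B, K ≤ ((mtBlk s M (b, a)).image (fun p => p.2 % s)).card) :
    B.card ≤ K * 2 ^ s := by
  by_contra hlt
  push Not at hlt
  apply h
  set f : ℕ → Finset ℕ := fun b => (mtBlk s M (b, a)).image (fun p => p.2 % s) with hf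
  have hmaps : ∀ b ∈ B, f b ∈ (Finset.range s).powerset := by
    intro b _
    rw [Finset.mem_powerset]
    intro x hx
    simp only [hf, Finset.mem_image] at hx
    obtain ⟨p, _, rfl⟩ := hx
    exact Finset.mem_range.mpr (Nat.mod_lt _ hs)
  have hcard : (Finset.range s).powerset.card * K < B.card := by
    rw [Finset.card_powerset, Finset.card_range, mul_comm]
    exact hlt
  obtain ⟨U, _, hU⟩ := Finset.exists_lt_card_fiber_of_mul_lt_card_of_maps_to hmaps hcard
  set B' := B.filter (fun b => f b = U) with hB'
  have hKU : K ≤ U.card := by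
    have : B'.Nonempty := Finset.card_pos.mp (by omega)
    obtain ⟨b, hb⟩ := this
    rw [hB', Finset.mem_filter] at hb
    rw [← hb.2]
    exact hB b hb.1
  obtain ⟨B1, hB1, hB1c⟩ := Finset.exists_subset_card_eq (s := B') (n := K) (by omega)
  obtain ⟨U1, hU1, hU1c⟩ := Finset.exists_subset_card_eq (s := U) (n := K) hKU
  set eb := B1.orderEmbOfFin hB1c with heb
  set eu := U1.orderEmbOfFin hU1c with heu
  have key : ∀ i j : Fin K, ∃ p ∈ M, p.2 % s = eu j ∧ p.2 / s = a ∧ p.1 / s = eb i := by
    intro i j
    have h1 : eb i ∈ B' := hB1 (Finset.orderEmbOfFin_mem _ _ _)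
    have h2 : eu j ∈ U := hU1 (Finset.orderEmbOfFin_mem _ _ _)
    rw [hB', Finset.mem_filter] at h1
    rw [← h1.2] at h2
    simp only [hf, Finset.mem_image, mtBlk, Finset.mem_filter, Prod.mk.injEq] at h2
    obtain ⟨p, ⟨hp, hp1, hp2⟩, hp3⟩ := h2
    exact ⟨p, hp, hp3, hp2, hp1⟩
  choose P hP h1 h2 h3 using key
  refine ⟨P, hP, ?_, ?_⟩
  · intro i i' j j' hii
    have : eb i < eb i' := eb.strictMono hii
    rw [← h3 i j, ← h3 i' j'] at this
    exact Nat.lt_of_div_lt_div this
  · intro i i' j j' hjj
    have e1 := Nat.div_add_mod (P i j).2 s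
    have e2 := Nat.div_add_mod (P i' j').2 s
    rw [h1, h2] at e1 e2
    have : eu j < eu j' := eu.strictMono hjj
    omega

theorem mt_blk_le {s : ℕ} (hs : 0 < s) (M : Finset (ℕ × ℕ)) (b : ℕ × ℕ) :
    (mtBlk s M b).card ≤ ((mtBlk s M b).image (fun p => p.1 % s)).card *
      ((mtBlk s M b).image (fun p => p.2 % s)).card := by
  rw [← Finset.card_product]
  apply Finset.card_le_card_of_injOn (fun p => (p.1 % s, p.2 % s))
  · intro p hp
    simp only [Finset.coe_product, Set.mem_prod, Finset.mem_coe, Finset.mem_image]
    exact ⟨⟨p, hp, rfl⟩, ⟨p, hp, rfl⟩⟩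
  · intro p hp q hq hpq
    simp only [mtBlk, Finset.coe_filter, Set.mem_ofPred_eq] at hp hq
    simp only [Prod.mk.injEq] at hpq
    have hpq' := hp.2.trans hq.2.symm
    simp only [Prod.mk.injEq] at hpq'
    have e1 := Nat.div_add_mod p.1 s
    have e2 := Nat.div_add_mod p.2 s
    have e3 := Nat.div_add_mod q.1 s
    have e4 := Nat.div_add_mod q.2 s
    rw [hpq.1, hpq'.1] at e1
    rw [hpq.2, hpq'.2] at e2
    exact Prod.ext (by omega) (by omega)

theorem mt_image_le {s : ℕ} (hs : 0 < s) (M : Finset (ℕ × ℕ)) (b : ℕ × ℕ)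
    (g : ℕ × ℕ → ℕ) : ((mtBlk s M b).image (fun p => g p % s)).card ≤ s := by
  calc ((mtBlk s M b).image (fun p => g p % s)).card ≤ (Finset.range s).card := by
        apply Finset.card_le_card
        intro x hx
        rw [Finset.mem_image] at hx
        obtain ⟨p, _, rfl⟩ := hx
        exact Finset.mem_range.mpr (Nat.mod_lt _ hs)
    _ = s := Finset.card_range s

/-- Module MT. -/
theorem mt (K : ℕ) : ∃ c : ℕ, ∀ (n : ℕ) (M : Finset (ℕ × ℕ)), (∀ p ∈ M, p.1 < n ∧ p.2 < n) →
    ¬ HasGrid K M → M.card ≤ c * n := by
  rcases Nat.eq_zero_or_pos K with hK | hK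
  · subst hK
    refine ⟨0, fun n M _ h => absurd ?_ h⟩
    exact ⟨fun i => i.elim0, fun i => i.elim0, fun i => i.elim0, fun i => i.elim0⟩
  set s := 2 * K ^ 2 with hs
  have hK2 : 0 < K ^ 2 := by positivity
  have hs0 : 0 < s := by omega
  set c := 2 * s ^ 2 * (K * 2 ^ s) with hc
  have hsc : s ≤ c := by
    rw [hc]
    have h1 : 0 < K * 2 ^ s := by positivity
    calc s = s * 1 := (mul_one s).symm
      _ ≤ s * (2 * s * (K * 2 ^ s)) := Nat.mul_le_mul_left _ (by nlinarith [Nat.mul_le_mul hs0 h1])
      _ = 2 * s ^ 2 * (K * 2 ^ s) := by ring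
  refine ⟨c, ?_⟩
  intro n
  induction n using Nat.strong_induction_on with
  | _ n ih =>
    intro M hM hgrid
    by_cases hn : n < s
    · have h1 : M ⊆ Finset.range n ×ˢ Finset.range n := by
        intro p hp
        rw [Finset.mem_product, Finset.mem_range, Finset.mem_range]
        exact hM p hp
      calc M.card ≤ (Finset.range n ×ˢ Finset.range n).card := Finset.card_le_card h1
        _ = n * n := by rw [Finset.card_product, Finset.card_range]
        _ ≤ c * n := Nat.mul_le_mul_right _ (hn.le.trans hsc)
    · push Not at hn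
      have hn1 : 1 ≤ n := by omega
      set m := (n - 1) / s + 1 with hm
      have hms : m * s ≤ 2 * n - 1 := by
        have := Nat.div_mul_le_self (n - 1) s
        rw [hm, add_mul, one_mul]
        omega
      have hmn : m < n := by
        have h2s : 2 ≤ s := by omega
        have : m * 2 ≤ m * s := Nat.mul_le_mul_left _ h2s
        omega
      have hKm : K ^ 2 * m ≤ n := by
        have : m * s = 2 * (K ^ 2 * m) := by rw [hs]; ring
        omega
      set M' := M.image (fun p => (p.1 / s, p.2 / s)) with hM'
      have hM'm : ∀ p ∈ M', p.1 < m ∧ p.2 < m := by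
        intro p hp
        rw [hM', Finset.mem_image] at hp
        obtain ⟨q, hq, rfl⟩ := hp
        obtain ⟨h1, h2⟩ := hM q hq
        constructor
        · have : q.1 / s ≤ (n - 1) / s := Nat.div_le_div_right (by omega)
          simp only; omega
        · have : q.2 / s ≤ (n - 1) / s := Nat.div_le_div_right (by omega)
          simp only; omega
      have hgrid' : ¬ HasGrid K M' := by
        rintro ⟨P', h1, h2, h3⟩
        apply hgrid
        have key : ∀ i j, ∃ p ∈ M, (p.1 / s, p.2 / s) = P' i j := by
          intro i j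
          have := h1 i j
          rw [hM', Finset.mem_image] at this
          exact this
        choose P hP hPe using key
        refine ⟨P, hP, ?_, ?_⟩
        · intro i i' j j' hii
          have := h2 i i' j j' hii
          rw [← hPe, ← hPe] at this
          exact Nat.lt_of_div_lt_div this
        · intro i i' j j' hjj
          have := h3 i i' j j' hjj
          rw [← hPe, ← hPe] at this
          exact Nat.lt_of_div_lt_div this
      have hM'c : M'.card ≤ c * m := ih m hmn M' hM'm hgrid'
      -- wide and tall blocks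
      set Wd := M'.filter (fun b => K ≤ ((mtBlk s M b).image (fun p => p.1 % s)).card) with hWd
      set Tl := M'.filter (fun b => K ≤ ((mtBlk s M b).image (fun p => p.2 % s)).card) with hTl
      have hWc : Wd.card ≤ K * 2 ^ s * m := by
        have := Finset.card_le_mul_card_image_of_maps_to (s := Wd) (t := Finset.range m)
          (f := Prod.fst) (fun p hp => Finset.mem_range.mpr (hM'm p (Finset.mem_filter.mp hp).1).1)
          (K * 2 ^ s) (by
            intro a _
            have h1 : ((Wd.filter (fun p => p.1 = a)).image Prod.snd).card =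
                (Wd.filter (fun p => p.1 = a)).card := by
              apply Finset.card_image_of_injOn
              intro p hp q hq hpq
              simp only [Finset.coe_filter, Set.mem_ofPred_eq] at hp hq
              exact Prod.ext (hp.2.trans hq.2.symm) hpq
            rw [← h1]
            apply mt_wide hs0 hgrid a
            intro b hb
            rw [Finset.mem_image] at hb
            obtain ⟨p, hp, rfl⟩ := hb
            rw [Finset.mem_filter] at hp
            have h2 := (Finset.mem_filter.mp hp.1).2
            rw [← hp.2]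
            exact h2)
        rwa [Finset.card_range] at this
      have hTc : Tl.card ≤ K * 2 ^ s * m := by
        have := Finset.card_le_mul_card_image_of_maps_to (s := Tl) (t := Finset.range m)
          (f := Prod.snd) (fun p hp => Finset.mem_range.mpr (hM'm p (Finset.mem_filter.mp hp).1).2)
          (K * 2 ^ s) (by
            intro a _
            have h1 : ((Tl.filter (fun p => p.2 = a)).image Prod.fst).card =
                (Tl.filter (fun p => p.2 = a)).card := by
              apply Finset.card_image_of_injOn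
              intro p hp q hq hpq
              simp only [Finset.coe_filter, Set.mem_ofPred_eq] at hp hq
              exact Prod.ext hpq (hp.2.trans hq.2.symm)
            rw [← h1]
            apply mt_tall hs0 hgrid a
            intro b hb
            rw [Finset.mem_image] at hb
            obtain ⟨p, hp, rfl⟩ := hb
            rw [Finset.mem_filter] at hp
            have h2 := (Finset.mem_filter.mp hp.1).2
            rw [← hp.2]
            exact h2)
        rwa [Finset.card_range] at this
      -- the count
      have hcount : M.card ≤ s ^ 2 * Wd.card + s ^ 2 * Tl.card + (K - 1) ^ 2 * M'.card := by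
        rw [Finset.card_eq_sum_card_image (fun p => (p.1 / s, p.2 / s)) M]
        have h1 : ∀ b ∈ M', (M.filter (fun p => (p.1 / s, p.2 / s) = b)).card ≤
            ((if b ∈ Wd then s ^ 2 else 0) + (if b ∈ Tl then s ^ 2 else 0)) + (K - 1) ^ 2 := by
          intro b hb
          have h2 := mt_blk_le hs0 M b
          have h3 := mt_image_le hs0 M b Prod.fst
          have h4 := mt_image_le hs0 M b Prod.snd
          change (mtBlk s M b).card ≤ _
          by_cases hw : b ∈ Wd
          · rw [if_pos hw]
            have : (mtBlk s M b).card ≤ s * s := h2.trans (Nat.mul_le_mul h3 h4)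
            rw [sq]; omega
          · by_cases ht : b ∈ Tl
            · rw [if_pos ht]
              have : (mtBlk s M b).card ≤ s * s := h2.trans (Nat.mul_le_mul h3 h4)
              rw [sq s]; omega
            · rw [if_neg hw, if_neg ht]
              have h5 : ((mtBlk s M b).image (fun p => p.1 % s)).card ≤ K - 1 := by
                by_contra h6
                exact hw (Finset.mem_filter.mpr ⟨hb, by omega⟩)
              have h6 : ((mtBlk s M b).image (fun p => p.2 % s)).card ≤ K - 1 := by
                by_contra h6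
                exact ht (Finset.mem_filter.mpr ⟨hb, by omega⟩)
              have : (mtBlk s M b).card ≤ (K - 1) * (K - 1) := h2.trans (Nat.mul_le_mul h5 h6)
              rw [sq (K - 1)]; omega
        refine (Finset.sum_le_sum h1).trans (le_of_eq ?_)
        rw [Finset.sum_add_distrib, Finset.sum_add_distrib, Finset.sum_const, smul_eq_mul,
          ← Finset.sum_filter, ← Finset.sum_filter, Finset.sum_const, Finset.sum_const,
          smul_eq_mul, smul_eq_mul, Finset.filter_mem_eq_inter, Finset.filter_mem_eq_inter,
          Finset.inter_eq_right.mpr (Finset.filter_subset _ _),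
          Finset.inter_eq_right.mpr (Finset.filter_subset _ _)]
        ring
      have h5 : 1 + (K - 1) ^ 2 ≤ K ^ 2 := by
        obtain ⟨k, rfl⟩ : ∃ k, K = k + 1 := ⟨K - 1, by omega⟩
        simp only [Nat.add_sub_cancel]
        nlinarith
      calc M.card ≤ s ^ 2 * Wd.card + s ^ 2 * Tl.card + (K - 1) ^ 2 * M'.card := hcount
        _ ≤ s ^ 2 * (K * 2 ^ s * m) + s ^ 2 * (K * 2 ^ s * m) + (K - 1) ^ 2 * (c * m) := by
            gcongr
        _ = (1 + (K - 1) ^ 2) * (c * m) := by rw [hc]; ring
        _ ≤ K ^ 2 * (c * m) := Nat.mul_le_mul_right _ h5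
        _ = c * (K ^ 2 * m) := by ring
        _ ≤ c * n := Nat.mul_le_mul_left _ hKm

end Helper43.Split
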