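import Pool.Agent.Helper43.Split.Div

/-!
# Module SA: avoidance for the staggered arrangement
-/

namespace Helper43.Split

variable {U V W : Type}

/-- Module SA: avoidance for the staggered arrangement.
Blocks, from left to right: `0 = A₂`, `1 = L₂ᵃ`, `2 = A₁`, `3 = L₁ᵃ`, `4 = L₂ᵇ`, `5 = L₁ᵇ`,
`6 = B₁`, `7 = B₂`; the blocks `2, 3, 5, 6` lie below the blocks `0, 1, 4, 7`. -/
theorem stag_avoid [Fintype V] [Fintype W] (π : Cfg V) (I : Finset V) (hI : IsInt π I)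
    (hne : I.Nonempty) (hskew : SkewIndec π Finset.univ)
    (hNE : ∀ f, f ∉ I → ∀ i ∈ I, ¬ SW π i f) (hU : ∃ f, f ∉ I ∧ ∀ i ∈ I, π.y i < π.y f)
    (τ : Cfg W) (blk : W → ℕ) (hblk : ∀ w, blk w ≤ 7)
    (hx : ∀ w w', blk w < blk w' → τ.x w < τ.x w')
    (hy : ∀ w w', (blk w = 2 ∨ blk w = 3 ∨ blk w = 5 ∨ blk w = 6) →
      (blk w' = 0 ∨ blk w' = 1 ∨ blk w' = 4 ∨ blk w' = 7) → τ.y w < τ.y w')
    (hA2 : ∀ w, blk w = 0 → ∀ g : V → W, Set.InjOn g {f | f ∉ I ∧ ∀ i ∈ I, π.x f < π.x i} →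
      ¬ ∀ f, f ∉ I → (∀ i ∈ I, π.x f < π.x i) → τ.x (g f) < τ.x w)
    (hB2 : ∀ w, blk w = 7 → ∀ g : V → W, Set.InjOn g {f | f ∉ I ∧ ∀ i ∈ I, π.x i < π.x f} →
      ¬ ∀ f, f ∉ I → (∀ i ∈ I, π.x i < π.x f) → τ.x w < τ.x (g f))
    (hA1 : ∀ w, blk w = 2 → ∀ g : V → W, Set.InjOn g {f | f ∉ I ∧ ∀ i ∈ I, π.x f < π.x i} →
      ¬ ∀ f, f ∉ I → (∀ i ∈ I, π.x f < π.x i) → τ.x (g f) < τ.x w ∧
        (blk (g f) = 2 ∨ blk (g f) = 3 ∨ blk (g f) = 5 ∨ blk (g f) = 6))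
    (hB1 : ∀ w, blk w = 6 → ∀ g : V → W, Set.InjOn g {f | f ∉ I ∧ ∀ i ∈ I, π.x i < π.x f} →
      ¬ ∀ f, f ∉ I → (∀ i ∈ I, π.x i < π.x f) → τ.x w < τ.x (g f) ∧
        (blk (g f) = 2 ∨ blk (g f) = 3 ∨ blk (g f) = 5 ∨ blk (g f) = 6))
    (hL1 : ∀ g : V → W, EmbOn I π τ g → ¬ ∀ i ∈ I, blk (g i) = 3 ∨ blk (g i) = 5)
    (hL2 : ∀ g : V → W, EmbOn I π τ g → ¬ ∀ i ∈ I, blk (g i) = 1 ∨ blk (g i) = 4)
    (hH : (∀ w w', blk w = 4 → blk w' = 4 → w = w') ∨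
      ∀ g : V → W, EmbOn I π τ g → ¬ ∀ i ∈ I, blk (g i) = 4 ∨ blk (g i) = 5) :
    Avoids τ π := by
  intro φ hφ
  have hinj := hφ.injective
  have hon : EmbOn I π τ φ := fun i _ j _ => ⟨hφ.1 i j, hφ.2 i j⟩
  obtain ⟨i0, hi0⟩ := hne
  -- positions of the outer points
  have hxd : ∀ f, f ∉ I → (∀ i ∈ I, π.x f < π.x i) ∨ (∀ i ∈ I, π.x i < π.x f) :=
    fun f hf => (hI f hf).1
  have hyd : ∀ f, f ∉ I → (∀ i ∈ I, π.y f < π.y i) ∨ (∀ i ∈ I, π.y i < π.y f) :=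
    fun f hf => (hI f hf).2
  have hBD : ∀ f, f ∉ I → (∀ i ∈ I, π.x i < π.x f) → ∀ i ∈ I, π.y f < π.y i := by
    intro f hf h
    rcases hyd f hf with h' | h'
    · exact h'
    · exact absurd ⟨h i0 hi0, h' i0 hi0⟩ (hNE f hf i0 hi0)
  have hUA : ∀ f, f ∉ I → (∀ i ∈ I, π.y i < π.y f) → ∀ i ∈ I, π.x f < π.x i := by
    intro f hf h
    rcases hxd f hf with h' | h'
    · exact h'
    · exact absurd ⟨h' i0 hi0, h i0 hi0⟩ (hNE f hf i0 hi0)
  have hxlt : ∀ w w', τ.x w < τ.x w' → blk w ≤ blk w' := by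
    intro w w' h
    by_contra h'
    have := hx w' w (by omega)
    omega
  -- (1)
  have h1a : ∀ i ∈ I, blk (φ i) ≠ 0 := fun i hi h0 =>
    hA2 (φ i) h0 φ hinj.injOn fun f hf h => hφ.1 _ _ (h i hi)
  have h1b : ∀ i ∈ I, blk (φ i) ≠ 7 := fun i hi h0 =>
    hB2 (φ i) h0 φ hinj.injOn fun f hf h => hφ.1 _ _ (h i hi)
  -- (2)
  have h2 : ∃ i ∈ I, blk (φ i) = 2 ∨ blk (φ i) = 3 ∨ blk (φ i) = 5 ∨ blk (φ i) = 6 := by
    by_contra hcon
    push Not at hcon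
    refine hL2 φ hon fun i hi => ?_
    have := hcon i hi
    have := h1a i hi
    have := h1b i hi
    have := hblk (φ i)
    omega
  obtain ⟨i1, hi1, hb1⟩ := h2
  have hD1 : ∀ f, f ∉ I → (∀ i ∈ I, π.y f < π.y i) →
      (blk (φ f) = 2 ∨ blk (φ f) = 3 ∨ blk (φ f) = 5 ∨ blk (φ f) = 6) := by
    intro f hf h
    by_contra hcon
    have h3 := hblk (φ f)
    have h4 := hy (φ i1) (φ f) hb1 (by omega)
    have h5 := hφ.2 _ _ (h i1 hi1)
    omega
  have h6 : ∀ i ∈ I, blk (φ i) ≠ 6 := fun i hi h0 =>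
    hB1 (φ i) h0 φ hinj.injOn fun f hf h => ⟨hφ.1 _ _ (h i hi), hD1 f hf (hBD f hf h)⟩
  -- (3)
  have h3 : ∀ i ∈ I, blk (φ i) ≠ 1 := by
    intro i2 hi2 h0
    obtain ⟨u, hu, hu'⟩ := hU
    refine hskew {f | f ∉ I ∧ ∀ i ∈ I, π.x f < π.x i} ⟨u, Finset.mem_univ _, hu, hUA u hu hu'⟩
      ⟨i0, Finset.mem_univ _, fun h => h.1 hi0⟩ ?_
    rintro a - ⟨ha, ha'⟩ v - hv
    have haU : ∀ i ∈ I, π.y i < π.y a := by
      rcases hyd a ha with h | h
      · exfalso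
        have := hD1 a ha h
        have := hxlt _ _ (hφ.1 _ _ (ha' i2 hi2))
        omega
      · exact h
    by_cases hvI : v ∈ I
    · exact ⟨ha' v hvI, haU v hvI⟩
    · have hvB : ∀ i ∈ I, π.x i < π.x v := by
        rcases hxd v hvI with h | h
        · exact absurd ⟨hvI, h⟩ hv
        · exact h
      have := ha' i0 hi0
      have := haU i0 hi0
      have := hvB i0 hi0
      have := hBD v hvI hvB i0 hi0
      omega
  have h4 : ∀ i ∈ I, blk (φ i) ≠ 4 := by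
    intro i2 hi2 h0
    have hUb : ∀ f, f ∉ I → (∀ i ∈ I, π.y i < π.y f) → blk (φ f) = 0 ∨ blk (φ f) = 1 := by
      intro f hf h
      have hY2 : blk (φ f) = 0 ∨ blk (φ f) = 1 ∨ blk (φ f) = 4 ∨ blk (φ f) = 7 := by
        by_contra hcon
        have h3 := hblk (φ f)
        have h4 := hy (φ f) (φ i2) (by omega) (by omega)
        have h5 := hφ.2 _ _ (h i2 hi2)
        omega
      have hle := hxlt _ _ (hφ.1 _ _ (hUA f hf h i2 hi2))
      by_contra hcon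
      have h4' : blk (φ f) = 4 := by omega
      rcases hH with hH | hH
      · have : f = i2 := hinj (hH _ _ h4' h0)
        exact hf (this ▸ hi2)
      · refine hH φ hon fun i hi => ?_
        have := hxlt _ _ (hφ.1 _ _ (hUA f hf h i hi))
        have := h1b i hi
        have := h6 i hi
        have := hblk (φ i)
        omega
    obtain ⟨u, hu, hu'⟩ := hU
    refine hskew {f | f ∉ I ∧ ∀ i ∈ I, π.y i < π.y f} ⟨u, Finset.mem_univ _, hu, hu'⟩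
      ⟨i0, Finset.mem_univ _, fun h => h.1 hi0⟩ ?_
    rintro a - ⟨ha, ha'⟩ v - hv
    have haA := hUA a ha ha'
    by_cases hvI : v ∈ I
    · exact ⟨haA v hvI, ha' v hvI⟩
    · have hvD : ∀ i ∈ I, π.y v < π.y i := by
        rcases hyd v hvI with h | h
        · exact h
        · exact absurd ⟨hvI, h⟩ hv
      have h7 := ha' i0 hi0
      have h8 := hvD i0 hi0
      refine ⟨?_, by omega⟩
      rcases hxd v hvI with h | h
      · rw [hφ.x_lt]
        have h9 := hUb a ha ha'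
        have h10 := hD1 v hvI hvD
        exact hx _ _ (by omega)
      · have := haA i0 hi0
        have := h i0 hi0
        omega
  -- (4)
  have h5 : ∀ i ∈ I, blk (φ i) = 2 ∨ blk (φ i) = 3 ∨ blk (φ i) = 5 := by
    intro i hi
    have := h1a i hi
    have := h1b i hi
    have := h6 i hi
    have := h3 i hi
    have := h4 i hi
    have := hblk (φ i)
    omega
  have h7 : ∀ v, (blk (φ v) = 0 ∨ blk (φ v) = 1 ∨ blk (φ v) = 4 ∨ blk (φ v) = 7) →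
      blk (φ v) = 0 ∨ blk (φ v) = 1 := by
    intro v hv
    have hvI : v ∉ I := fun h => by have := h5 v h; omega
    have hvU : ∀ i ∈ I, π.y i < π.y v := by
      rcases hyd v hvI with h | h
      · have := hD1 v hvI h
        omega
      · exact h
    have hvA := hUA v hvI hvU
    by_contra hcon
    have hge : 4 ≤ blk (φ v) := by omega
    refine hL1 φ hon fun i hi => ?_
    have := hxlt _ _ (hφ.1 _ _ (hvA i hi))
    have := h5 i hi
    omega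
  have h8 : ∀ v, blk (φ v) = 2 ∨ blk (φ v) = 3 ∨ blk (φ v) = 5 ∨ blk (φ v) = 6 := by
    by_contra hcon
    push Not at hcon
    obtain ⟨v, hv⟩ := hcon
    have hv7 := hblk (φ v)
    refine hskew {v | blk (φ v) = 0 ∨ blk (φ v) = 1} ⟨v, Finset.mem_univ _, h7 v (by omega)⟩
      ⟨i0, Finset.mem_univ _, fun h => ?_⟩ ?_
    · have := h5 i0 hi0
      simp only [Set.mem_ofPred_eq] at h
      omega
    · rintro a - ha b - hb
      simp only [Set.mem_ofPred_eq] at ha hb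
      have hb7 := hblk (φ b)
      have hb' := h7 b
      rw [hφ.x_lt, hφ.y_lt]
      exact ⟨hx _ _ (by omega), hy _ _ (by omega) (by omega)⟩
  refine hL1 φ hon fun i hi => ?_
  have h9 : blk (φ i) ≠ 2 := fun h0 =>
    hA1 (φ i) h0 φ hinj.injOn fun f hf h => ⟨hφ.1 _ _ (h i hi), h8 f⟩
  have := h5 i hi
  omega

end Helper43.Split
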