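import Pool.Agent.Helper43.Split.SA
import Pool.Agent.Helper43.Split.FR
import Pool.Agent.Helper43.Split.SN

/-!
# Module SS: the staggered arrangement, pattern `1 ⊕ I`
-/

namespace Helper43.Split

variable {U V W : Type}

namespace SS

open SN (inj_absurd embOn_x embOn_y embOn_inj)

open scoped Classical in
/-- Blocks of the arrangement (`false`: first copy, `true`: second copy; `none`: the corner). -/
noncomputable def blk (π : Cfg V) (I : Finset V) (t : V) : Bool × Option V → ℕ
  | (false, none) => 3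
  | (true, none) => 1
  | (false, some v) => if v ∈ I then (if π.x v < π.x t then 3 else 5) else
      if π.x v < π.x t then 2 else 6
  | (true, some v) => if v ∈ I then 4 else if π.x v < π.x t then 0 else 7

/-- A coordinate in `π` with the corner point. -/
def zc (z : V → ℤ) (m : ℤ) : Option V → ℤ
  | some v => 2 * z v
  | none => 2 * m - 1

theorem zc_inj {z : V → ℤ} (hz : Function.Injective z) (m : ℤ) :
    Function.Injective (zc z m) := by
  rintro (_ | v) (_ | w) h
  · rfl
  · simp only [zc] at h; omega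
  · simp only [zc] at h; omega
  · simp only [zc] at h
    rw [hz (by omega : z v = z w)]

/-- The points of the arrangement. -/
def Pt (I : Finset V) (t : V) : Type :=
  {p : Bool × Option V // (p.1 = true → ∀ v, p.2 = some v → v ∈ I → v = t) ∧
    p ≠ (false, some t)}

noncomputable instance [Fintype V] (I : Finset V) (t : V) : Fintype (Pt I t) := by
  classical
  unfold Pt
  infer_instance

theorem blk_t_in {π : Cfg V} {I : Finset V} {t v : V} (h : v ∈ I) :
    blk π I t (true, some v) = 4 := by simp only [blk, if_pos h]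

theorem blk_t_l {π : Cfg V} {I : Finset V} {t v : V} (h : v ∉ I) (h' : π.x v < π.x t) :
    blk π I t (true, some v) = 0 := by simp only [blk, if_neg h, if_pos h']

theorem blk_t_r {π : Cfg V} {I : Finset V} {t v : V} (h : v ∉ I) (h' : ¬ π.x v < π.x t) :
    blk π I t (true, some v) = 7 := by simp only [blk, if_neg h, if_neg h']

theorem blk_f_il {π : Cfg V} {I : Finset V} {t v : V} (h : v ∈ I) (h' : π.x v < π.x t) :
    blk π I t (false, some v) = 3 := by simp only [blk, if_pos h, if_pos h']

theorem blk_f_ir {π : Cfg V} {I : Finset V} {t v : V} (h : v ∈ I) (h' : ¬ π.x v < π.x t) :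
    blk π I t (false, some v) = 5 := by simp only [blk, if_pos h, if_neg h']

theorem blk_f_l {π : Cfg V} {I : Finset V} {t v : V} (h : v ∉ I) (h' : π.x v < π.x t) :
    blk π I t (false, some v) = 2 := by simp only [blk, if_neg h, if_pos h']

theorem blk_f_r {π : Cfg V} {I : Finset V} {t v : V} (h : v ∉ I) (h' : ¬ π.x v < π.x t) :
    blk π I t (false, some v) = 6 := by simp only [blk, if_neg h, if_neg h']

theorem blk_cases (π : Cfg V) (I : Finset V) (t : V) (p : Bool × Option V) :
    (p = (false, none) ∧ blk π I t p = 3) ∨ (p = (true, none) ∧ blk π I t p = 1) ∨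
    (∃ v, p = (true, some v) ∧ v ∈ I ∧ blk π I t p = 4) ∨
    (∃ v, p = (true, some v) ∧ v ∉ I ∧ π.x v < π.x t ∧ blk π I t p = 0) ∨
    (∃ v, p = (true, some v) ∧ v ∉ I ∧ ¬ π.x v < π.x t ∧ blk π I t p = 7) ∨
    (∃ v, p = (false, some v) ∧ v ∈ I ∧ π.x v < π.x t ∧ blk π I t p = 3) ∨
    (∃ v, p = (false, some v) ∧ v ∈ I ∧ ¬ π.x v < π.x t ∧ blk π I t p = 5) ∨
    (∃ v, p = (false, some v) ∧ v ∉ I ∧ π.x v < π.x t ∧ blk π I t p = 2) ∨
    (∃ v, p = (false, some v) ∧ v ∉ I ∧ ¬ π.x v < π.x t ∧ blk π I t p = 6) := by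
  rcases p with ⟨_ | _, _ | v⟩
  · exact Or.inl ⟨rfl, rfl⟩
  · by_cases h : v ∈ I
    · by_cases h' : π.x v < π.x t
      · exact Or.inr (Or.inr (Or.inr (Or.inr (Or.inr (Or.inl ⟨v, rfl, h, h', blk_f_il h h'⟩)))))
      · exact Or.inr (Or.inr (Or.inr (Or.inr (Or.inr (Or.inr
          (Or.inl ⟨v, rfl, h, h', blk_f_ir h h'⟩))))))
    · by_cases h' : π.x v < π.x t
      · exact Or.inr (Or.inr (Or.inr (Or.inr (Or.inr (Or.inr (Or.inr
          (Or.inl ⟨v, rfl, h, h', blk_f_l h h'⟩)))))))
      · exact Or.inr (Or.inr (Or.inr (Or.inr (Or.inr (Or.inr (Or.inr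
          (Or.inr ⟨v, rfl, h, h', blk_f_r h h'⟩)))))))
  · exact Or.inr (Or.inl ⟨rfl, rfl⟩)
  · by_cases h : v ∈ I
    · exact Or.inr (Or.inr (Or.inl ⟨v, rfl, h, blk_t_in h⟩))
    · by_cases h' : π.x v < π.x t
      · exact Or.inr (Or.inr (Or.inr (Or.inl ⟨v, rfl, h, h', blk_t_l h h'⟩)))
      · exact Or.inr (Or.inr (Or.inr (Or.inr (Or.inl ⟨v, rfl, h, h', blk_t_r h h'⟩))))

theorem blk_fst (π : Cfg V) (I : Finset V) (t : V) (p : Bool × Option V) :
    p.1 = false ↔ (blk π I t p = 2 ∨ blk π I t p = 3 ∨ blk π I t p = 5 ∨ blk π I t p = 6) := by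
  rcases blk_cases π I t p with ⟨h, k⟩ | ⟨h, k⟩ | ⟨v, h, -, k⟩ | ⟨v, h, -, -, k⟩ |
    ⟨v, h, -, -, k⟩ | ⟨v, h, -, -, k⟩ | ⟨v, h, -, -, k⟩ | ⟨v, h, -, -, k⟩ | ⟨v, h, -, -, k⟩ <;>
  rw [k, h] <;> simp

theorem blk_fst' (π : Cfg V) (I : Finset V) (t : V) (p : Bool × Option V) :
    p.1 = true ↔ (blk π I t p = 0 ∨ blk π I t p = 1 ∨ blk π I t p = 4 ∨ blk π I t p = 7) := by
  rcases blk_cases π I t p with ⟨h, k⟩ | ⟨h, k⟩ | ⟨v, h, -, k⟩ | ⟨v, h, -, -, k⟩ |
    ⟨v, h, -, -, k⟩ | ⟨v, h, -, -, k⟩ | ⟨v, h, -, -, k⟩ | ⟨v, h, -, -, k⟩ | ⟨v, h, -, -, k⟩ <;>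
  rw [k, h] <;> simp

theorem blk_le (π : Cfg V) (I : Finset V) (t : V) (p : Bool × Option V) : blk π I t p ≤ 7 := by
  rcases blk_cases π I t p with ⟨h, k⟩ | ⟨h, k⟩ | ⟨v, h, -, k⟩ | ⟨v, h, -, -, k⟩ |
    ⟨v, h, -, -, k⟩ | ⟨v, h, -, -, k⟩ | ⟨v, h, -, -, k⟩ | ⟨v, h, -, -, k⟩ | ⟨v, h, -, -, k⟩ <;>
  omega

theorem fst_eq_of_blk_eq (π : Cfg V) (I : Finset V) (t : V) {p p' : Bool × Option V}
    (h : blk π I t p = blk π I t p') : p.1 = p'.1 := by
  cases h1 : p'.1 with
  | false => rw [blk_fst π I t] at h1 ⊢; rwa [h]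
  | true => rw [blk_fst' π I t] at h1 ⊢; rwa [h]

/-- The arrangement. -/
noncomputable def arr [Fintype V] (π : Cfg V) (I : Finset V) (t : V) (mx my : ℤ) :
    Cfg (Pt I t) :=
  Cfg.of (α := ℕ ×ₗ ℤ) (β := Bool ×ₗ ℤ) (fun s => toLex (blk π I t s.1, zc π.x mx s.1.2))
    (fun s => toLex (s.1.1, zc π.y my s.1.2))
    (by
      intro s s' h
      have h' := Prod.mk.inj (toLex_inj.1 h)
      exact Subtype.ext (Prod.ext (fst_eq_of_blk_eq π I t h'.1) (zc_inj π.hx mx h'.2)))
    (by
      intro s s' h
      have h' := Prod.mk.inj (toLex_inj.1 h)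
      exact Subtype.ext (Prod.ext h'.1 (zc_inj π.hy my h'.2)))

theorem arr_x [Fintype V] (π : Cfg V) (I : Finset V) (t : V) (mx my : ℤ) (s s' : Pt I t) :
    (arr π I t mx my).x s < (arr π I t mx my).x s' ↔ blk π I t s.1 < blk π I t s'.1 ∨
      (blk π I t s.1 = blk π I t s'.1 ∧ zc π.x mx s.1.2 < zc π.x mx s'.1.2) := by
  unfold arr
  rw [Cfg.of_x_lt, Prod.Lex.toLex_lt_toLex]

theorem arr_y [Fintype V] (π : Cfg V) (I : Finset V) (t : V) (mx my : ℤ) (s s' : Pt I t) :
    (arr π I t mx my).y s < (arr π I t mx my).y s' ↔ s.1.1 < s'.1.1 ∨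
      (s.1.1 = s'.1.1 ∧ zc π.y my s.1.2 < zc π.y my s'.1.2) := by
  unfold arr
  rw [Cfg.of_y_lt, Prod.Lex.toLex_lt_toLex]

/-- The underlying point of `π`, the corner being sent to `t`. -/
def pr {I : Finset V} {t : V} (s : Pt I t) : V := s.1.2.getD t

end SS

open SS in
open SN (inj_absurd embOn_x embOn_y embOn_inj) in
/-- Module SS. -/
theorem stag_SW [Fintype V] (π : Cfg V) (I : Finset V) (hI : IsInt π I) (h2 : 2 ≤ I.card)
    (hind : SumIndec π I) (hskew : SkewIndec π Finset.univ)
    (hNE : ∀ f, f ∉ I → ∀ i ∈ I, ¬ SW π i f) (hU : ∃ f, f ∉ I ∧ ∀ i ∈ I, π.y i < π.y f) :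
    GoodLabel π (pats π I) (fun _ => none) false := by
  classical
  have hIne : I.Nonempty := Finset.card_pos.1 (by omega)
  obtain ⟨t, ht, htop⟩ := Finset.exists_max_image I π.y hIne
  obtain ⟨mi, hmi, hmx⟩ := Finset.exists_min_image I π.x hIne
  obtain ⟨mj, hmj, hmy⟩ := Finset.exists_min_image I π.y hIne
  -- positions of outer points
  have hxL : ∀ f, f ∉ I → π.x f < π.x t → ∀ i ∈ I, π.x f < π.x i := by
    intro f hf h
    rcases (hI f hf).1 with h' | h'
    · exact h'
    · have := h' t ht; omega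
  have hxR : ∀ f, f ∉ I → ¬ π.x f < π.x t → ∀ i ∈ I, π.x i < π.x f := by
    intro f hf h
    rcases (hI f hf).1 with h' | h'
    · exact absurd (h' t ht) h
    · exact h'
  have hyL : ∀ f, f ∉ I → ∀ i ∈ I, π.y f < π.y i → ∀ j ∈ I, π.y f < π.y j := by
    intro f hf i hi h
    rcases (hI f hf).2 with h' | h'
    · exact h'
    · have := h' i hi; omega
  have hyR : ∀ f, f ∉ I → ∀ i ∈ I, π.y i < π.y f → ∀ j ∈ I, π.y j < π.y f := by
    intro f hf i hi h
    rcases (hI f hf).2 with h' | h'
    · have := h' i hi; omega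
    · exact h'
  -- some point of `I` is to the right of `t`
  have hright : ∃ r ∈ I, π.x t < π.x r := by
    by_contra hcon
    push Not at hcon
    obtain ⟨c, hc, hct⟩ := Finset.exists_mem_ne (by omega : 1 < I.card) t
    refine hind {v | v ≠ t} ⟨c, hc, hct⟩ ⟨t, ht, fun h => h rfl⟩ ?_
    intro i hi hit j hj hjt
    have hjt' : j = t := by
      by_contra h
      exact hjt h
    subst hjt'
    refine ⟨lt_of_le_of_ne (hcon i hi) fun e => hit (π.hx e),
      lt_of_le_of_ne (htop i hi) fun e => hit (π.hy e)⟩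
  obtain ⟨r, hr, hrt⟩ := hright
  have hrt' : r ≠ t := fun e => by rw [e] at hrt; omega
  set τ := arr π I t (π.x mi) (π.y mj) with hτdef
  have hτx := arr_x π I t (π.x mi) (π.y mj)
  have hτy := arr_y π I t (π.x mi) (π.y mj)
  -- the points of the arrangement
  let p1 : Pt I t := ⟨(false, none), by simp⟩
  let p2 : Pt I t := ⟨(true, none), by simp⟩
  let t2 : Pt I t := ⟨(true, some t), by simp⟩
  have hp2 : ∀ f, f ∉ I → ((true, some f) : Bool × Option V).1 = true →
      ∀ v, ((true, some f) : Bool × Option V).2 = some v → v ∈ I → v = t := by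
    intro f hf _ v hv hvI
    simp only [Option.some.injEq] at hv
    exact absurd (hv ▸ hvI) hf
  let f2 : V → Pt I t := fun f =>
    if h : f ∈ I then p2 else ⟨(true, some f), hp2 f h, by simp⟩
  let f1 : V → Pt I t := fun f =>
    if h : f = t then p1 else ⟨(false, some f), by simp, by simpa using h⟩
  have hf2 : ∀ f, f ∉ I → (f2 f).1 = (true, some f) := fun f hf => by
    simp only [f2, hf, dif_neg, not_false_eq_true]
  have hf1 : ∀ f, f ≠ t → (f1 f).1 = (false, some f) := fun f hf => by
    simp only [f1, hf, dif_neg, not_false_eq_true]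
  -- classification of the points of the blocks
  have hB0 : ∀ s : Pt I t, blk π I t s.1 = 0 → ∃ v, s.1 = (true, some v) ∧ v ∉ I ∧
      π.x v < π.x t := by
    intro s h
    rcases blk_cases π I t s.1 with ⟨e, k⟩ | ⟨e, k⟩ | ⟨v, e, c1, k⟩ | ⟨v, e, c1, c2, k⟩ |
      ⟨v, e, c1, c2, k⟩ | ⟨v, e, c1, c2, k⟩ | ⟨v, e, c1, c2, k⟩ | ⟨v, e, c1, c2, k⟩ |
      ⟨v, e, c1, c2, k⟩
    · omega
    · omega
    · omega
    · exact ⟨v, e, c1, c2⟩
    · omega
    · omega
    · omega
    · omega
    · omega
  have hB7 : ∀ s : Pt I t, blk π I t s.1 = 7 → ∃ v, s.1 = (true, some v) ∧ v ∉ I ∧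
      ¬ π.x v < π.x t := by
    intro s h
    rcases blk_cases π I t s.1 with ⟨e, k⟩ | ⟨e, k⟩ | ⟨v, e, c1, k⟩ | ⟨v, e, c1, c2, k⟩ |
      ⟨v, e, c1, c2, k⟩ | ⟨v, e, c1, c2, k⟩ | ⟨v, e, c1, c2, k⟩ | ⟨v, e, c1, c2, k⟩ |
      ⟨v, e, c1, c2, k⟩
    · omega
    · omega
    · omega
    · omega
    · exact ⟨v, e, c1, c2⟩
    · omega
    · omega
    · omega
    · omega
  have hB2 : ∀ s : Pt I t, blk π I t s.1 = 2 → ∃ v, s.1 = (false, some v) ∧ v ∉ I ∧
      π.x v < π.x t := by
    intro s h
    rcases blk_cases π I t s.1 with ⟨e, k⟩ | ⟨e, k⟩ | ⟨v, e, c1, k⟩ | ⟨v, e, c1, c2, k⟩ |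
      ⟨v, e, c1, c2, k⟩ | ⟨v, e, c1, c2, k⟩ | ⟨v, e, c1, c2, k⟩ | ⟨v, e, c1, c2, k⟩ |
      ⟨v, e, c1, c2, k⟩
    · omega
    · omega
    · omega
    · omega
    · omega
    · omega
    · omega
    · exact ⟨v, e, c1, c2⟩
    · omega
  have hB6 : ∀ s : Pt I t, blk π I t s.1 = 6 → ∃ v, s.1 = (false, some v) ∧ v ∉ I ∧
      ¬ π.x v < π.x t := by
    intro s h
    rcases blk_cases π I t s.1 with ⟨e, k⟩ | ⟨e, k⟩ | ⟨v, e, c1, k⟩ | ⟨v, e, c1, c2, k⟩ |
      ⟨v, e, c1, c2, k⟩ | ⟨v, e, c1, c2, k⟩ | ⟨v, e, c1, c2, k⟩ | ⟨v, e, c1, c2, k⟩ |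
      ⟨v, e, c1, c2, k⟩
    · omega
    · omega
    · omega
    · omega
    · omega
    · omega
    · omega
    · omega
    · exact ⟨v, e, c1, c2⟩
  have hB4 : ∀ s : Pt I t, blk π I t s.1 = 4 → s = t2 := by
    intro s h
    rcases blk_cases π I t s.1 with ⟨e, k⟩ | ⟨e, k⟩ | ⟨v, e, c1, k⟩ | ⟨v, e, c1, c2, k⟩ |
      ⟨v, e, c1, c2, k⟩ | ⟨v, e, c1, c2, k⟩ | ⟨v, e, c1, c2, k⟩ | ⟨v, e, c1, c2, k⟩ |
      ⟨v, e, c1, c2, k⟩
    · omega
    · omega
    · exact Subtype.ext (by rw [e, s.2.1 (by rw [e]) v (by rw [e]) c1])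
    · omega
    · omega
    · omega
    · omega
    · omega
    · omega
  have hB1 : ∀ s : Pt I t, blk π I t s.1 = 1 → s = p2 := by
    intro s h
    rcases blk_cases π I t s.1 with ⟨e, k⟩ | ⟨e, k⟩ | ⟨v, e, c1, k⟩ | ⟨v, e, c1, c2, k⟩ |
      ⟨v, e, c1, c2, k⟩ | ⟨v, e, c1, c2, k⟩ | ⟨v, e, c1, c2, k⟩ | ⟨v, e, c1, c2, k⟩ |
      ⟨v, e, c1, c2, k⟩
    · omega
    · exact Subtype.ext e
    · omega
    · omega
    · omega
    · omega
    · omega
    · omega
    · omega
  have hB3 : ∀ s : Pt I t, blk π I t s.1 = 3 → s = p1 ∨ ∃ v, s.1 = (false, some v) ∧ v ∈ I ∧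
      π.x v < π.x t := by
    intro s h
    rcases blk_cases π I t s.1 with ⟨e, k⟩ | ⟨e, k⟩ | ⟨v, e, c1, k⟩ | ⟨v, e, c1, c2, k⟩ |
      ⟨v, e, c1, c2, k⟩ | ⟨v, e, c1, c2, k⟩ | ⟨v, e, c1, c2, k⟩ | ⟨v, e, c1, c2, k⟩ |
      ⟨v, e, c1, c2, k⟩
    · exact Or.inl (Subtype.ext e)
    · omega
    · omega
    · omega
    · omega
    · exact Or.inr ⟨v, e, c1, c2⟩
    · omega
    · omega
    · omega
  have hB5 : ∀ s : Pt I t, blk π I t s.1 = 5 → ∃ v, s.1 = (false, some v) ∧ v ∈ I ∧
      π.x t < π.x v := by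
    intro s h
    rcases blk_cases π I t s.1 with ⟨e, k⟩ | ⟨e, k⟩ | ⟨v, e, c1, k⟩ | ⟨v, e, c1, c2, k⟩ |
      ⟨v, e, c1, c2, k⟩ | ⟨v, e, c1, c2, k⟩ | ⟨v, e, c1, c2, k⟩ | ⟨v, e, c1, c2, k⟩ |
      ⟨v, e, c1, c2, k⟩
    · omega
    · omega
    · omega
    · omega
    · omega
    · omega
    · refine ⟨v, e, c1, lt_of_le_of_ne (not_lt.1 c2) fun e' => ?_⟩
      have := π.hx e'
      subst this
      exact s.2.2 e
    · omega
    · omega
  have bp1 : blk π I t p1.1 = 3 := rfl
  have bp2 : blk π I t p2.1 = 1 := rfl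
  have bt2 : blk π I t t2.1 = 4 := blk_t_in ht
  -- avoidance
  have hav : Avoids τ π := by
    have hAset : ∀ (v : V), v ∉ I → π.x v < π.x t →
        (Finset.univ.filter fun f => f ∉ I ∧ ∀ i ∈ I, π.x f < π.x i).erase v ⊂
        Finset.univ.filter fun f => f ∉ I ∧ ∀ i ∈ I, π.x f < π.x i := fun v hv h =>
      Finset.erase_ssubset (by simpa using ⟨hv, hxL v hv h⟩)
    have hBset : ∀ (v : V), v ∉ I → ¬ π.x v < π.x t →
        (Finset.univ.filter fun f => f ∉ I ∧ ∀ i ∈ I, π.x i < π.x f).erase v ⊂
        Finset.univ.filter fun f => f ∉ I ∧ ∀ i ∈ I, π.x i < π.x f := fun v hv h =>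
      Finset.erase_ssubset (by simpa using ⟨hv, hxR v hv h⟩)
    refine stag_avoid π I hI hIne hskew hNE hU τ (fun s => blk π I t s.1) (fun s => blk_le π I t _)
      (fun s s' h => (hτx s s').2 (Or.inl h)) (fun s s' h h' => (hτy s s').2 (Or.inl ?_))
      ?_ ?_ ?_ ?_ ?_ ?_ ?_
    · rw [(blk_fst π I t s.1).2 h, (blk_fst' π I t s'.1).2 h']
      exact Bool.false_lt_true
    · -- block 0
      intro w hw g hg hcon
      obtain ⟨a, ha, haI, hab⟩ := hB0 w hw
      have key : ∀ f, f ∉ I → (∀ i ∈ I, π.x f < π.x i) → ∃ v, (g f).1 = (true, some v) ∧ v ∉ I ∧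
          π.x v < π.x t ∧ v ≠ a := by
        intro f hf hfx
        have h := (hτx _ _).1 (hcon f hf hfx)
        simp only [hw] at h
        obtain ⟨v, hv, hvI, hvb⟩ := hB0 (g f) (by omega)
        refine ⟨v, hv, hvI, hvb, fun e => ?_⟩
        have h4 := (h.resolve_left (by omega)).2
        rw [hv, ha, e] at h4
        exact lt_irrefl _ h4
      refine inj_absurd (hAset a haI hab) g ?_ pr ?_ ?_
      · simpa using hg
      · intro f hf
        simp only [Finset.mem_filter, Finset.mem_univ, true_and] at hf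
        obtain ⟨v, hv, hvI, hvb, hne⟩ := key f hf.1 hf.2
        simp only [pr, hv, Option.getD_some, Finset.mem_erase, Finset.mem_filter,
          Finset.mem_univ, true_and]
        exact ⟨hne, hvI, hxL v hvI hvb⟩
      · intro f hf f' hf' he
        simp only [Finset.mem_filter, Finset.mem_univ, true_and] at hf hf'
        obtain ⟨v, hv, -⟩ := key f hf.1 hf.2
        obtain ⟨v', hv', -⟩ := key f' hf'.1 hf'.2
        simp only [pr, hv, hv', Option.getD_some] at he
        exact Subtype.ext (by rw [hv, hv', he])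
    · -- block 7
      intro w hw g hg hcon
      obtain ⟨a, ha, haI, hab⟩ := hB7 w hw
      have key : ∀ f, f ∉ I → (∀ i ∈ I, π.x i < π.x f) → ∃ v, (g f).1 = (true, some v) ∧ v ∉ I ∧
          ¬ π.x v < π.x t ∧ v ≠ a := by
        intro f hf hfx
        have h := (hτx _ _).1 (hcon f hf hfx)
        have hle := blk_le π I t (g f).1
        simp only [hw] at h
        obtain ⟨v, hv, hvI, hvb⟩ := hB7 (g f) (by omega)
        refine ⟨v, hv, hvI, hvb, fun e => ?_⟩
        have h4 := (h.resolve_left (by omega)).2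
        rw [hv, ha, e] at h4
        exact lt_irrefl _ h4
      refine inj_absurd (hBset a haI hab) g ?_ pr ?_ ?_
      · simpa using hg
      · intro f hf
        simp only [Finset.mem_filter, Finset.mem_univ, true_and] at hf
        obtain ⟨v, hv, hvI, hvb, hne⟩ := key f hf.1 hf.2
        simp only [pr, hv, Option.getD_some, Finset.mem_erase, Finset.mem_filter,
          Finset.mem_univ, true_and]
        exact ⟨hne, hvI, hxR v hvI hvb⟩
      · intro f hf f' hf' he
        simp only [Finset.mem_filter, Finset.mem_univ, true_and] at hf hf'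
        obtain ⟨v, hv, -⟩ := key f hf.1 hf.2
        obtain ⟨v', hv', -⟩ := key f' hf'.1 hf'.2
        simp only [pr, hv, hv', Option.getD_some] at he
        exact Subtype.ext (by rw [hv, hv', he])
    · -- block 2
      intro w hw g hg hcon
      obtain ⟨a, ha, haI, hab⟩ := hB2 w hw
      have key : ∀ f, f ∉ I → (∀ i ∈ I, π.x f < π.x i) → ∃ v, (g f).1 = (false, some v) ∧ v ∉ I ∧
          π.x v < π.x t ∧ v ≠ a := by
        intro f hf hfx
        have h := (hτx _ _).1 (hcon f hf hfx).1
        have h' := (hcon f hf hfx).2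
        simp only [hw] at h h'
        obtain ⟨v, hv, hvI, hvb⟩ := hB2 (g f) (by omega)
        refine ⟨v, hv, hvI, hvb, fun e => ?_⟩
        have h4 := (h.resolve_left (by omega)).2
        rw [hv, ha, e] at h4
        exact lt_irrefl _ h4
      refine inj_absurd (hAset a haI hab) g ?_ pr ?_ ?_
      · simpa using hg
      · intro f hf
        simp only [Finset.mem_filter, Finset.mem_univ, true_and] at hf
        obtain ⟨v, hv, hvI, hvb, hne⟩ := key f hf.1 hf.2
        simp only [pr, hv, Option.getD_some, Finset.mem_erase, Finset.mem_filter,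
          Finset.mem_univ, true_and]
        exact ⟨hne, hvI, hxL v hvI hvb⟩
      · intro f hf f' hf' he
        simp only [Finset.mem_filter, Finset.mem_univ, true_and] at hf hf'
        obtain ⟨v, hv, -⟩ := key f hf.1 hf.2
        obtain ⟨v', hv', -⟩ := key f' hf'.1 hf'.2
        simp only [pr, hv, hv', Option.getD_some] at he
        exact Subtype.ext (by rw [hv, hv', he])
    · -- block 6
      intro w hw g hg hcon
      obtain ⟨a, ha, haI, hab⟩ := hB6 w hw
      have key : ∀ f, f ∉ I → (∀ i ∈ I, π.x i < π.x f) → ∃ v, (g f).1 = (false, some v) ∧ v ∉ I ∧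
          ¬ π.x v < π.x t ∧ v ≠ a := by
        intro f hf hfx
        have h := (hτx _ _).1 (hcon f hf hfx).1
        have h' := (hcon f hf hfx).2
        simp only [hw] at h h'
        obtain ⟨v, hv, hvI, hvb⟩ := hB6 (g f) (by omega)
        refine ⟨v, hv, hvI, hvb, fun e => ?_⟩
        have h4 := (h.resolve_left (by omega)).2
        rw [hv, ha, e] at h4
        exact lt_irrefl _ h4
      refine inj_absurd (hBset a haI hab) g ?_ pr ?_ ?_
      · simpa using hg
      · intro f hf
        simp only [Finset.mem_filter, Finset.mem_univ, true_and] at hf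
        obtain ⟨v, hv, hvI, hvb, hne⟩ := key f hf.1 hf.2
        simp only [pr, hv, Option.getD_some, Finset.mem_erase, Finset.mem_filter,
          Finset.mem_univ, true_and]
        exact ⟨hne, hvI, hxR v hvI hvb⟩
      · intro f hf f' hf' he
        simp only [Finset.mem_filter, Finset.mem_univ, true_and] at hf hf'
        obtain ⟨v, hv, -⟩ := key f hf.1 hf.2
        obtain ⟨v', hv', -⟩ := key f' hf'.1 hf'.2
        simp only [pr, hv, hv', Option.getD_some] at he
        exact Subtype.ext (by rw [hv, hv', he])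
    · -- `L₁`
      intro g hg hcon
      have hinj := embOn_inj hg
      have hcl : ∀ i ∈ I, g i = p1 ∨ ∃ v, (g i).1 = (false, some v) ∧ v ∈ I ∧ v ≠ t := by
        intro i hi
        rcases hcon i hi with h | h
        · rcases hB3 _ h with h | ⟨v, hv, hvI, hvt⟩
          · exact Or.inl h
          · exact Or.inr ⟨v, hv, hvI, fun e => by rw [e] at hvt; omega⟩
        · obtain ⟨v, hv, hvI, hvt⟩ := hB5 _ h
          exact Or.inr ⟨v, hv, hvI, fun e => by rw [e] at hvt; omega⟩
      have e1 : ∃ i ∈ I, g i = p1 := by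
        by_contra hc
        push Not at hc
        have key : ∀ i ∈ I, ∃ v, (g i).1 = (false, some v) ∧ v ∈ I ∧ v ≠ t := fun i hi =>
          (hcl i hi).resolve_left (hc i hi)
        refine inj_absurd (Finset.erase_ssubset ht) g hinj pr ?_ ?_
        · intro i hi
          obtain ⟨v, hv, hvI, hvt⟩ := key i hi
          simp only [pr, hv, Option.getD_some, Finset.mem_erase]
          exact ⟨hvt, hvI⟩
        · intro f hf f' hf' he
          obtain ⟨v, hv, -⟩ := key f hf
          obtain ⟨v', hv', -⟩ := key f' hf'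
          simp only [pr, hv, hv', Option.getD_some] at he
          exact Subtype.ext (by rw [hv, hv', he])
      have e2 : ∃ i ∈ I, g i ≠ p1 := by
        by_contra hc
        push Not at hc
        exact hrt' (hinj hr ht (by rw [hc r hr, hc t ht]))
      refine hind {v | g v = p1} e1 e2 ?_
      intro i hi hip j hj hjp
      have hip' : g i = p1 := hip
      obtain ⟨v, hv, hvI, hvt⟩ := (hcl j hj).resolve_left hjp
      refine ⟨embOn_x hg hi hj ?_, embOn_y hg hi hj ?_⟩
      · rw [hip', hτdef, hτx, bp1]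
        rcases hcon j hj with h | h
        · right
          refine ⟨h.symm, ?_⟩
          rw [hv]
          show 2 * π.x mi - 1 < 2 * π.x v
          have := hmx v hvI
          omega
        · simp only [h]; omega
      · rw [hip', hτdef, hτy, hv]
        right
        refine ⟨rfl, ?_⟩
        show 2 * π.y mj - 1 < 2 * π.y v
        have := hmy v hvI
        omega
    · -- `L₂`
      intro g hg hcon
      have hinj := embOn_inj hg
      have e1 : ∃ i ∈ I, g i = p2 := by
        by_contra hc
        push Not at hc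
        have hall : ∀ i ∈ I, g i = t2 := fun i hi =>
          (hcon i hi).elim (fun h => absurd (hB1 _ h) (hc i hi)) (fun h => hB4 _ h)
        exact hrt' (hinj hr ht (by rw [hall r hr, hall t ht]))
      have e2 : ∃ i ∈ I, g i ≠ p2 := by
        by_contra hc
        push Not at hc
        exact hrt' (hinj hr ht (by rw [hc r hr, hc t ht]))
      refine hind {v | g v = p2} e1 e2 ?_
      intro i hi hip j hj hjp
      have hjt : g j = t2 := (hcon j hj).elim (fun h => absurd (hB1 _ h) hjp) (fun h => hB4 _ h)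
      have hip' : g i = p2 := hip
      refine ⟨embOn_x hg hi hj ?_, embOn_y hg hi hj ?_⟩
      · rw [hip', hjt, hτdef, hτx, bp2, bt2]; omega
      · rw [hip', hjt, hτdef, hτy]
        right
        refine ⟨rfl, ?_⟩
        show 2 * π.y mj - 1 < 2 * π.y t
        have := htop mj hmj
        omega
    · -- block 4 is single
      left
      intro w w' h h'
      rw [hB4 _ h, hB4 _ h']
  -- the frames
  let L1 : Set (Pt I t) := {s | s = p1 ∨ ∃ v, s.1 = (false, some v) ∧ v ∈ I}
  let L2 : Set (Pt I t) := {s | s = p2 ∨ s = t2}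
  refine goodLabel_of_frames π I hIne false τ hav L1 L2 ?_ ?_ ?_ ?_ ?_ ?_ ?_
  · -- frame of `L1`
    refine ⟨f1, ?_, ?_⟩
    · intro v hv w hw
      have hvt : v ≠ t := fun e => hv (e ▸ ht)
      have hwt : w ≠ t := fun e => hw (e ▸ ht)
      refine ⟨fun h => ?_, fun h => ?_⟩
      · rw [hτdef, hτx, hf1 v hvt, hf1 w hwt]
        by_cases c1 : π.x v < π.x t <;> by_cases c2 : π.x w < π.x t
        · rw [blk_f_l hv c1, blk_f_l hw c2]
          right
          refine ⟨rfl, ?_⟩
          show 2 * π.x v < 2 * π.x w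
          omega
        · rw [blk_f_l hv c1, blk_f_r hw c2]
          left; omega
        · omega
        · rw [blk_f_r hv c1, blk_f_r hw c2]
          right
          refine ⟨rfl, ?_⟩
          show 2 * π.x v < 2 * π.x w
          omega
      · rw [hτdef, hτy, hf1 v hvt, hf1 w hwt]
        right
        refine ⟨rfl, ?_⟩
        show 2 * π.y v < 2 * π.y w
        omega
    · intro g hg f hf i hi
      have hft' : f ≠ t := fun e => hf (e ▸ ht)
      have hgb : blk π I t g.1 = 3 ∨ blk π I t g.1 = 5 := by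
        rcases hg with rfl | ⟨v, hv, hvI⟩
        · exact Or.inl bp1
        · rw [hv]
          by_cases c : π.x v < π.x t
          · exact Or.inl (blk_f_il hvI c)
          · exact Or.inr (blk_f_ir hvI c)
      have hg1 : g.1.1 = false := by
        rcases hg with rfl | ⟨v, hv, hvI⟩
        · rfl
        · rw [hv]
      refine ⟨fun h => ?_, fun h => ?_, fun h => ?_, fun h => ?_⟩
      · have hft : π.x f < π.x t := by
          by_contra hc
          have := hxR f hf hc i hi
          omega
        rw [hτdef, hτx, hf1 f hft', blk_f_l hf hft]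
        omega
      · have hft : ¬ π.x f < π.x t := by
          intro hc
          have := hxL f hf hc i hi
          omega
        rw [hτdef, hτx, hf1 f hft', blk_f_r hf hft]
        omega
      · rw [hτdef, hτy, hf1 f hft', hg1]
        right
        refine ⟨rfl, ?_⟩
        rcases hg with rfl | ⟨v, hv, hvI⟩
        · show 2 * π.y f < 2 * π.y mj - 1
          have := hyL f hf i hi h mj hmj
          omega
        · rw [hv]
          show 2 * π.y f < 2 * π.y v
          have := hyL f hf i hi h v hvI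
          omega
      · rw [hτdef, hτy, hf1 f hft', hg1]
        right
        refine ⟨rfl, ?_⟩
        rcases hg with rfl | ⟨v, hv, hvI⟩
        · show 2 * π.y mj - 1 < 2 * π.y f
          have := hyR f hf i hi h mj hmj
          omega
        · rw [hv]
          show 2 * π.y v < 2 * π.y f
          have := hyR f hf i hi h v hvI
          omega
  · -- frame of `L2`
    refine ⟨f2, ?_, ?_⟩
    · intro v hv w hw
      refine ⟨fun h => ?_, fun h => ?_⟩
      · rw [hτdef, hτx, hf2 v hv, hf2 w hw]
        by_cases c1 : π.x v < π.x t <;> by_cases c2 : π.x w < π.x t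
        · rw [blk_t_l hv c1, blk_t_l hw c2]
          right
          refine ⟨rfl, ?_⟩
          show 2 * π.x v < 2 * π.x w
          omega
        · rw [blk_t_l hv c1, blk_t_r hw c2]
          left; omega
        · omega
        · rw [blk_t_r hv c1, blk_t_r hw c2]
          right
          refine ⟨rfl, ?_⟩
          show 2 * π.x v < 2 * π.x w
          omega
      · rw [hτdef, hτy, hf2 v hv, hf2 w hw]
        right
        refine ⟨rfl, ?_⟩
        show 2 * π.y v < 2 * π.y w
        omega
    · intro g hg f hf i hi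
      have hgb : blk π I t g.1 = 1 ∨ blk π I t g.1 = 4 := by
        rcases hg with rfl | rfl
        · exact Or.inl bp2
        · exact Or.inr bt2
      have hg1 : g.1.1 = true := by
        rcases hg with rfl | rfl <;> rfl
      refine ⟨fun h => ?_, fun h => ?_, fun h => ?_, fun h => ?_⟩
      · have hft : π.x f < π.x t := by
          by_contra hc
          have := hxR f hf hc i hi
          omega
        rw [hτdef, hτx, hf2 f hf, blk_t_l hf hft]
        omega
      · have hft : ¬ π.x f < π.x t := by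
          intro hc
          have := hxL f hf hc i hi
          omega
        rw [hτdef, hτx, hf2 f hf, blk_t_r hf hft]
        omega
      · rw [hτdef, hτy, hf2 f hf, hg1]
        right
        refine ⟨rfl, ?_⟩
        rcases hg with rfl | rfl
        · show 2 * π.y f < 2 * π.y mj - 1
          have := hyL f hf i hi h mj hmj
          omega
        · show 2 * π.y f < 2 * π.y t
          have := hyL f hf i hi h t ht
          omega
      · rw [hτdef, hτy, hf2 f hf, hg1]
        right
        refine ⟨rfl, ?_⟩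
        rcases hg with rfl | rfl
        · show 2 * π.y mj - 1 < 2 * π.y f
          have := hyR f hf i hi h mj hmj
          omega
        · show 2 * π.y t < 2 * π.y f
          have := hyR f hf i hi h t ht
          omega
  · -- hub of `L1`
    refine ⟨p1, Or.inl rfl, ?_⟩
    rintro g (rfl | ⟨v, hv, hvI⟩) hg
    · exact absurd rfl hg
    · left
      refine ⟨?_, ?_⟩
      · rw [hτdef, hτx, bp1, hv]
        by_cases hvt : π.x v < π.x t
        · rw [blk_f_il hvI hvt]
          right
          refine ⟨rfl, ?_⟩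
          show 2 * π.x mi - 1 < 2 * π.x v
          have := hmx v hvI
          omega
        · rw [blk_f_ir hvI hvt]; omega
      · rw [hτdef, hτy, hv]
        right
        refine ⟨rfl, ?_⟩
        show 2 * π.y mj - 1 < 2 * π.y v
        have := hmy v hvI
        omega
  · -- hub of `L2`
    refine ⟨p2, Or.inl rfl, ?_⟩
    rintro g (rfl | rfl) hg
    · exact absurd rfl hg
    · left
      refine ⟨?_, ?_⟩
      · rw [hτdef, hτx, bp2, bt2]; omega
      · rw [hτdef, hτy]
        right
        refine ⟨rfl, ?_⟩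
        show 2 * π.y mj - 1 < 2 * π.y t
        have := htop mj hmj
        omega
  · -- sep1
    have hrr : (f1 r).1 = (false, some r) := hf1 r hrt'
    refine ⟨t2, Or.inr rfl, ?_⟩
    rintro ⟨h | h, -⟩
    · have h := h p1 (Or.inl rfl)
      rw [hτdef, hτx, bt2, bp1] at h
      omega
    · have h := h (f1 r) (Or.inr ⟨r, hrr, hr⟩)
      rw [hτdef, hτx, bt2, hrr, blk_f_ir hr (by omega)] at h
      omega
  · -- sep2
    refine ⟨p1, Or.inl rfl, ?_⟩
    rintro ⟨h | h, -⟩
    · have h := h p2 (Or.inl rfl)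
      rw [hτdef, hτx, bp1, bp2] at h
      omega
    · have h := h t2 (Or.inr rfl)
      rw [hτdef, hτx, bp1, bt2] at h
      omega
  · -- the copy of `1 ⊕ I`
    let e : Option I → Pt I t := fun o =>
      match o with
      | none => p1
      | some i => if (i : V) = t then t2 else f1 i
    have he_none : e none = p1 := rfl
    have he_t : ∀ i : I, (i : V) = t → e (some i) = t2 := fun i hi => by simp only [e, hi, if_true]
    have he_i : ∀ i : I, (i : V) ≠ t → (e (some i)).1 = (false, some (i : V)) := fun i hi => by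
      simp only [e, hi, if_false]; exact hf1 i hi
    refine ⟨e, ⟨?_, ?_⟩, ?_⟩
    · rintro (_ | i) (_ | j) hij
      · exact absurd hij (lt_irrefl _)
      · by_cases hi : (j : V) = t
        · rw [he_none, he_t j hi, hτdef, hτx, bp1, bt2]; omega
        · rw [he_none, hτdef, hτx, bp1, he_i j hi]
          by_cases hvt : π.x j < π.x t
          · rw [blk_f_il j.2 hvt]
            right
            refine ⟨rfl, ?_⟩
            show 2 * π.x mi - 1 < 2 * π.x j
            have := hmx j j.2
            omega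
          · rw [blk_f_ir j.2 hvt]; omega
      · have := FR.addSW_x_none (π.restrict I) i
        simp only [pats, Bool.false_eq_true, if_false] at hij
        omega
      · simp only [pats, Bool.false_eq_true, if_false] at hij
        have hij' : π.x i < π.x j := (FR.addSW_x (π.restrict I) i j).1 hij
        by_cases hi : (i : V) = t <;> by_cases hj : (j : V) = t
        · rw [hi, hj] at hij'; omega
        · rw [hi] at hij'
          rw [he_t i hi, hτdef, hτx, bt2, he_i j hj, blk_f_ir j.2 (by omega)]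
          omega
        · rw [hj] at hij'
          rw [he_t j hj, hτdef, hτx, bt2, he_i i hi, blk_f_il i.2 hij']
          omega
        · rw [hτdef, hτx, he_i i hi, he_i j hj]
          by_cases c1 : π.x i < π.x t <;> by_cases c2 : π.x j < π.x t
          · rw [blk_f_il i.2 c1, blk_f_il j.2 c2]
            right
            refine ⟨rfl, ?_⟩
            show 2 * π.x i < 2 * π.x j
            omega
          · rw [blk_f_il i.2 c1, blk_f_ir j.2 c2]
            left; omega
          · omega
          · rw [blk_f_ir i.2 c1, blk_f_ir j.2 c2]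
            right
            refine ⟨rfl, ?_⟩
            show 2 * π.x i < 2 * π.x j
            omega
    · rintro (_ | i) (_ | j) hij
      · exact absurd hij (lt_irrefl _)
      · by_cases hi : (j : V) = t
        · rw [he_none, he_t j hi, hτdef, hτy]
          left
          exact Bool.false_lt_true
        · rw [he_none, hτdef, hτy, he_i j hi]
          right
          refine ⟨rfl, ?_⟩
          show 2 * π.y mj - 1 < 2 * π.y j
          have := hmy j j.2
          omega
      · have := FR.addSW_y_none (π.restrict I) i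
        simp only [pats, Bool.false_eq_true, if_false] at hij
        omega
      · simp only [pats, Bool.false_eq_true, if_false] at hij
        have hij' : π.y i < π.y j := (FR.addSW_y (π.restrict I) i j).1 hij
        by_cases hi : (i : V) = t <;> by_cases hj : (j : V) = t
        · rw [hi, hj] at hij'; omega
        · rw [hi] at hij'
          have := htop j j.2
          omega
        · rw [he_t j hj, hτdef, hτy, he_i i hi]
          left
          exact Bool.false_lt_true
        · rw [hτdef, hτy, he_i i hi, he_i j hj]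
          right
          refine ⟨rfl, ?_⟩
          show 2 * π.y i < 2 * π.y j
          omega
    · rintro (_ | i)
      · exact Or.inl (Or.inl rfl)
      · by_cases hi : (i : V) = t
        · exact Or.inr (Or.inr (he_t i hi))
        · exact Or.inl (Or.inr ⟨i, he_i i hi, i.2⟩)

end Helper43.Split
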