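import Pool.Agent.Helper43.Split.T1core
import Pool.Agent.Helper43.Split.DS

/-!
# The colouring theorem
-/

namespace Helper43.Split

/-- Module T1. -/
theorem T1 (K : ℕ) {A S : Type} [Fintype A] [Nonempty A] [Fintype S] [Nontrivial S]
    (σ : A → Cfg S) (u : A → S) :
    ∃ N : ℕ, ∀ (W : Type) [Fintype W] (ρ : Cfg W), ¬ CfgGrid K ρ →
      ∃ (lab : W → A) (col : W → Fin (N + 1)), ∀ (a : A) (k : Fin (N + 1)) (G : Set W),
        (∀ g ∈ G, lab g = a ∧ col g = k) → (∃ f, Emb (σ a) ρ f ∧ ∀ s, f s ∈ G) →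
        ∃ Z, IsCut ρ σ u G Z := by
  obtain ⟨d, hd⟩ := exists_divSeq K
  obtain ⟨N, hN⟩ := T1_core d σ u
  exact ⟨N, fun W _ ρ hρ => hN W ρ (hd W ρ hρ).some⟩

end Helper43.Split
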