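import Pool.Agent.Helper43.Split.LA

/-!
# The greedy colouring lemma and the colouring theorem for a given division sequence
-/

namespace Helper43.Split

/-- Module GC. -/
theorem greedy (D : ℕ) {C : Type} [Fintype C] (E : C → C → Prop) (rank : C → ℕ)
    (h : ∀ (c : C) (s : Finset C),
      (∀ c' ∈ s, c' ≠ c ∧ rank c' ≤ rank c ∧ (E c c' ∨ E c' c)) → s.card ≤ D) :
    ∃ col : C → Fin (D + 1), ∀ c c', c ≠ c' → E c c' → col c ≠ col c' := by
  classical
  have main : ∀ s : Finset C, ∃ col : C → Fin (D + 1),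
      ∀ c ∈ s, ∀ c' ∈ s, c ≠ c' → E c c' → col c ≠ col c' := by
    intro s
    induction s using Finset.induction_on_max_value rank with
    | empty => exact ⟨fun _ => 0, fun c hc => absurd hc (Finset.notMem_empty c)⟩
    | insert a s ha hmax ih =>
      obtain ⟨col, hcol⟩ := ih
      set B : Finset C := s.filter fun c' => E a c' ∨ E c' a with hB
      have hBc : B.card ≤ D := by
        refine h a B fun c' hc' => ?_
        rw [hB, Finset.mem_filter] at hc'
        exact ⟨fun he => ha (he ▸ hc'.1), hmax c' hc'.1, hc'.2⟩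
      obtain ⟨k, hk⟩ : ∃ k : Fin (D + 1), k ∉ B.image col := by
        by_contra hcon
        push Not at hcon
        have h1 : (Finset.univ : Finset (Fin (D + 1))) ⊆ B.image col := fun k _ => hcon k
        have h2 := Finset.card_le_card h1
        rw [Finset.card_univ, Fintype.card_fin] at h2
        have h3 := Finset.card_image_le (s := B) (f := col)
        omega
      have hk' : ∀ c' ∈ s, (E a c' ∨ E c' a) → col c' ≠ k := by
        intro c' hc' hE heq
        exact hk (Finset.mem_image.2 ⟨c', by rw [hB, Finset.mem_filter]; exact ⟨hc', hE⟩, heq⟩)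
      refine ⟨Function.update col a k, ?_⟩
      intro c hc c' hc' hne hE
      rw [Finset.mem_insert] at hc hc'
      rcases hc with rfl | hc
      · rcases hc' with rfl | hc'
        · exact absurd rfl hne
        · rw [Function.update_self, Function.update_of_ne hne.symm]
          exact (hk' c' hc' (Or.inl hE)).symm
      · have hca : c ≠ a := fun he => ha (he ▸ hc)
        rcases hc' with rfl | hc'
        · rw [Function.update_self, Function.update_of_ne hca]
          exact hk' c hc (Or.inr hE)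
        · have hca' : c' ≠ a := fun he => ha (he ▸ hc')
          rw [Function.update_of_ne hca, Function.update_of_ne hca']
          exact hcol c hc c' hc' hne hE
  obtain ⟨col, hcol⟩ := main Finset.univ
  exact ⟨col, fun c c' => hcol c (Finset.mem_univ _) c' (Finset.mem_univ _)⟩

section T1

variable {W : Type} [Fintype W] {ρ : Cfg W} {d : ℕ} {A S : Type}

theorem exists_not_rich [Nontrivial S] (D : DivSeq ρ d) (σ : Cfg S) (u : S) (x : W) :
    ¬ Rich D σ u D.T x := by
  rintro ⟨f, hf1, _, hf3⟩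
  obtain ⟨i, j, hij⟩ := exists_pair_ne S
  have key : ∀ s, f s = x := by
    intro s
    have := D.cell_eq.1 (hf3 s)
    exact D.last _ _ this.1 this.2
  exact hij (hf1.injective (by rw [key i, key j]))

/-- The colouring theorem for a division sequence. -/
theorem T1_core (d : ℕ) [Fintype A] [Nonempty A] [Fintype S] [Nontrivial S]
    (σ : A → Cfg S) (u : A → S) :
    ∃ N : ℕ, ∀ (W : Type) [Fintype W] (ρ : Cfg W) (_ : DivSeq ρ d),
      ∃ (lab : W → A) (col : W → Fin (N + 1)), ∀ (a : A) (k : Fin (N + 1)) (G : Set W),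
        (∀ g ∈ G, lab g = a ∧ col g = k) → (∃ f, Emb (σ a) ρ f ∧ ∀ s, f s ∈ G) →
        ∃ Z, IsCut ρ σ u G Z := by
  classical
  obtain ⟨L, hL⟩ := layers d (Fintype.card S)
  refine ⟨2 * d * (L + 2), ?_⟩
  intro W _ ρ D
  have hex : ∀ x : W, ∃ t, ∃ a, ¬ Rich D (σ a) (u a) t x :=
    fun x => ⟨D.T, Classical.arbitrary A, exists_not_rich D _ _ x⟩
  let tau : W → ℕ := fun x => Nat.find (hex x)
  have htau : ∀ x, ∃ a, ¬ Rich D (σ a) (u a) (tau x) x := fun x => Nat.find_spec (hex x)
  have htau' : ∀ x, ∀ t < tau x, ∀ a, Rich D (σ a) (u a) t x := by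
    intro x t ht a
    by_contra hcon
    exact Nat.find_min (hex x) ht ⟨a, hcon⟩
  choose lab hlab using htau
  let κ : W → ℕ × (ℕ × ℕ) × A := fun x => (tau x, D.cell (tau x) x, lab x)
  have hκ : ∀ x y, κ x = κ y ↔
      tau x = tau y ∧ D.cell (tau x) x = D.cell (tau y) y ∧ lab x = lab y := by
    intro x y
    simp [κ]
  let C := {k : ℕ × (ℕ × ℕ) × A // ∃ x, κ x = k}
  haveI : Finite C := Set.finite_range κ
  haveI : Fintype C := Fintype.ofFinite C
  let E : C → C → Prop := fun k k' => k.1.2.2 = k'.1.2.2 ∧ k'.1.1 ≤ k.1.1 ∧ 1 ≤ k.1.1 ∧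
    ∃ x y, κ x = k.1 ∧ κ y = k'.1 ∧
      (D.c (k.1.1 - 1) x = D.c (k.1.1 - 1) y ∨ D.r (k.1.1 - 1) x = D.r (k.1.1 - 1) y)
  have hdeg : ∀ (c : C) (s : Finset C),
      (∀ c' ∈ s, c' ≠ c ∧ c'.1.1 ≤ c.1.1 ∧ (E c c' ∨ E c' c)) → s.card ≤ 2 * d * (L + 2) := by
    intro c s hs
    obtain ⟨⟨m, P0, a⟩, x0, hx0⟩ := c
    -- all of `s` is `E c`
    have hE : ∀ c' ∈ s, 1 ≤ m ∧ c'.1.1 ≤ m ∧ c'.1.2.2 = a ∧ ∃ y, κ y = c'.1 ∧
        (D.c (m - 1) y = D.c (m - 1) x0 ∨ D.r (m - 1) y = D.r (m - 1) x0) := by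
      intro c' hc'
      obtain ⟨_, h2, h3⟩ := hs c' hc'
      have hx0' : tau x0 = m ∧ D.cell (tau x0) x0 = P0 ∧ lab x0 = a := by
        simpa [κ] using hx0
      rcases h3 with ⟨e1, e2, e3, x, y, e4, e5, e6⟩ | ⟨e1, e2, e3, x, y, e4, e5, e6⟩
      · refine ⟨e3, e2, e1.symm, y, e5, ?_⟩
        have hx : κ x = κ x0 := e4.trans hx0.symm
        obtain ⟨f1, f2, _⟩ := (hκ x x0).1 hx
        rw [f1, hx0'.1] at f2
        have f3 := D.cell_eq.1 (D.cell_ref_le (Nat.sub_le m 1) f2)
        simp only at e6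
        rcases e6 with e6 | e6
        · left; rw [← e6, f3.1]
        · right; rw [← e6, f3.2]
      · -- `c'.1.1 = m`
        simp only at e1 e2 e3 e6 h2
        have hm : c'.1.1 = m := le_antisymm h2 e2
        refine ⟨by omega, h2, e1, x, e4, ?_⟩
        have hy : κ y = κ x0 := e5.trans hx0.symm
        obtain ⟨f1, f2, _⟩ := (hκ y x0).1 hy
        rw [f1, hx0'.1] at f2
        have f3 := D.cell_eq.1 (D.cell_ref_le (Nat.sub_le m 1) f2)
        rw [hm] at e6
        rcases e6 with e6 | e6
        · left; rw [e6, f3.1]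
        · right; rw [e6, f3.2]
    rcases s.eq_empty_or_nonempty with rfl | ⟨c0, hc0⟩
    · simp
    have hm1 : 1 ≤ m := (hE c0 hc0).1
    -- the neighbouring cells
    let Nb : Finset (ℕ × ℕ) := nbStep D (m - 1) {D.cell (m - 1) x0}
    have hNb : Nb.card ≤ 2 * d := by
      have := nbStep_card D (m - 1) {D.cell (m - 1) x0} (by
        intro P hP
        rw [Finset.mem_singleton] at hP
        exact ⟨x0, hP.symm⟩)
      simpa using this
    let sP : ℕ × ℕ → Finset C := fun P =>
      s.filter fun c' => ∃ y, κ y = c'.1 ∧ D.cell (m - 1) y = P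
    have hcover : s ⊆ Nb.biUnion sP := by
      intro c' hc'
      obtain ⟨_, _, _, y, h4, h5⟩ := hE c' hc'
      rw [Finset.mem_biUnion]
      exact ⟨D.cell (m - 1) y, mem_nbStep D (m - 1) _ (v := x0) (by simp) h5,
        Finset.mem_filter.2 ⟨hc', y, h4, rfl⟩⟩
    have hsP : ∀ P ∈ Nb, (sP P).card ≤ L + 2 := by
      intro P _
      have hsplit : (sP P) = (sP P).filter (fun c' => c'.1.1 < m) ∪
          (sP P).filter (fun c' => ¬ c'.1.1 < m) := by
        rw [Finset.filter_union_filter_not_eq]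
      rw [hsplit]
      refine (Finset.card_union_le _ _).trans (add_le_add ?_ ?_)
      · -- small taus
        rcases ((sP P).filter (fun c' => c'.1.1 < m)).eq_empty_or_nonempty with he | ⟨c1, hc1⟩
        · rw [he]; simp
        obtain ⟨y0, _, hy0⟩ := (Finset.mem_filter.1 (Finset.mem_filter.1 hc1).1).2
        have hinj : Set.InjOn (fun c' : C => c'.1.1)
            ((sP P).filter (fun c' => c'.1.1 < m) : Finset C) := by
          intro c' hc' c'' hc'' heq
          simp only [Finset.coe_filter, Set.mem_setOf_eq] at hc' hc''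
          obtain ⟨hc'1, hc'2⟩ := hc'
          obtain ⟨hc''1, hc''2⟩ := hc''
          have hs' := (Finset.mem_filter.1 hc'1)
          have hs'' := (Finset.mem_filter.1 hc''1)
          obtain ⟨y', g1, g2⟩ := hs'.2
          obtain ⟨y'', k1, k2⟩ := hs''.2
          obtain ⟨_, _, l1, _⟩ := hE c' hs'.1
          obtain ⟨_, _, l2, _⟩ := hE c'' hs''.1
          apply Subtype.ext
          rw [← g1, ← k1, hκ]
          have t1 : tau y' = c'.1.1 := by rw [← g1]
          have t2 : tau y'' = c''.1.1 := by rw [← k1]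
          have t3 : lab y' = c'.1.2.2 := by rw [← g1]
          have t4 : lab y'' = c''.1.2.2 := by rw [← k1]
          simp only at heq
          have t5 : tau y' = tau y'' := by rw [t1, t2, heq]
          refine ⟨t5, ?_, by rw [t3, t4, l1, l2]⟩
          rw [t5]
          exact D.cell_ref_le (t := m - 1) (by omega) (g2.trans k2.symm)
        rw [← Finset.card_image_of_injOn hinj]
        refine hL S rfl (σ a) (u a) W ρ D (m - 1) y0 _ ?_
        intro t ht
        rw [Finset.mem_image] at ht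
        obtain ⟨c', hc', rfl⟩ := ht
        rw [Finset.mem_filter] at hc'
        have hs' := (Finset.mem_filter.1 hc'.1)
        obtain ⟨y', g1, g2⟩ := hs'.2
        obtain ⟨_, _, l1, _⟩ := hE c' hs'.1
        have t1 : tau y' = c'.1.1 := by rw [← g1]
        have t3 : lab y' = c'.1.2.2 := by rw [← g1]
        refine ⟨by have := hc'.2; omega, y', g2.trans hy0.symm, ?_, ?_⟩
        · intro s' hs'
          exact htau' y' s' (by rw [t1]; exact hs') a
        · have := hlab y'
          rw [t3, l1, t1] at this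
          exact this
      · -- tau equal to m
        by_contra hcon
        obtain ⟨c1, c2, c3, h1, h2, h3, h12, h13, h23⟩ := Finset.two_lt_card_iff.1
          (lt_of_not_ge hcon)
        have hget : ∀ c' ∈ (sP P).filter (fun c' => ¬ c'.1.1 < m),
            ∃ y, κ y = c'.1 ∧ D.cell (m - 1) y = P ∧ tau y = m ∧ lab y = a := by
          intro c' hc'
          rw [Finset.mem_filter] at hc'
          have hs' := (Finset.mem_filter.1 hc'.1)
          obtain ⟨y', g1, g2⟩ := hs'.2
          obtain ⟨_, l0, l1, _⟩ := hE c' hs'.1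
          have t1 : tau y' = c'.1.1 := by rw [← g1]
          have t3 : lab y' = c'.1.2.2 := by rw [← g1]
          exact ⟨y', g1, g2, by have := hc'.2; omega, by rw [t3, l1]⟩
        obtain ⟨y1, p1, p2, p3, p4⟩ := hget c1 h1
        obtain ⟨y2, q1, q2, q3, q4⟩ := hget c2 h2
        obtain ⟨y3, r1, r2, r3, r4⟩ := hget c3 h3
        have hsp := D.split2 (m - 1) y1 y2 y3 (p2.trans q2.symm) (q2.trans r2.symm)
        rw [show m - 1 + 1 = m by omega] at hsp
        rcases hsp with hsp | hsp | hsp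
        · apply h12
          apply Subtype.ext
          rw [← p1, ← q1, hκ, p3, q3, p4, q4]
          exact ⟨rfl, hsp, rfl⟩
        · apply h23
          apply Subtype.ext
          rw [← q1, ← r1, hκ, q3, r3, q4, r4]
          exact ⟨rfl, hsp, rfl⟩
        · apply h13
          apply Subtype.ext
          rw [← p1, ← r1, hκ, p3, r3, p4, r4]
          exact ⟨rfl, hsp, rfl⟩
    calc s.card ≤ (Nb.biUnion sP).card := Finset.card_le_card hcover
      _ ≤ Nb.card * (L + 2) := Finset.card_biUnion_le_card_mul _ _ _ hsP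
      _ ≤ 2 * d * (L + 2) := Nat.mul_le_mul_right _ hNb
  obtain ⟨col, hcol⟩ := greedy (2 * d * (L + 2)) E (fun c => c.1.1) hdeg
  refine ⟨lab, fun x => col ⟨κ x, x, rfl⟩, ?_⟩
  intro a k G hG hcopy
  obtain ⟨f, hf, hfG⟩ := hcopy
  obtain ⟨x0, hx0G, hx0max⟩ := Set.exists_max_image G tau (Set.toFinite G) ⟨f (u a), hfG (u a)⟩
  obtain ⟨hx0l, hx0c⟩ := hG x0 hx0G
  -- `tau x0` is positive
  have hpos : 1 ≤ tau x0 := by
    by_contra hcon
    have h0 : tau x0 = 0 := by omega
    have h1 : tau (f (u a)) = 0 := by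
      have := hx0max _ (hfG (u a))
      omega
    have h2 := hlab (f (u a))
    rw [h1, (hG _ (hfG (u a))).1] at h2
    exact h2 ⟨f, hf, rfl, fun s => D.cell_eq.2 ⟨D.c_zero _ _, D.r_zero _ _⟩⟩
  -- a point of `G` in a strip of `x0` is in the class of `x0`
  have hclass : ∀ g ∈ G, (D.c (tau x0 - 1) g = D.c (tau x0 - 1) x0 ∨
      D.r (tau x0 - 1) g = D.r (tau x0 - 1) x0) → κ g = κ x0 := by
    intro g hg hstrip
    by_contra hne
    have := hcol ⟨κ x0, x0, rfl⟩ ⟨κ g, g, rfl⟩
      (fun he => hne (congrArg Subtype.val he).symm) ?_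
    · exact this (hx0c.trans (hG g hg).2.symm)
    · refine ⟨?_, hx0max g hg, hpos, x0, g, rfl, rfl, ?_⟩
      · change lab x0 = lab g
        rw [hx0l, (hG g hg).1]
      · change D.c (tau x0 - 1) x0 = D.c (tau x0 - 1) g ∨ D.r (tau x0 - 1) x0 = D.r (tau x0 - 1) g
        exact hstrip.imp Eq.symm Eq.symm
  have hclass' : ∀ g ∈ G, D.cell (tau x0 - 1) g = D.cell (tau x0 - 1) x0 →
      tau g = tau x0 ∧ D.cell (tau x0) g = D.cell (tau x0) x0 := by
    intro g hg hcell
    have h1 := (hκ g x0).1 (hclass g hg (Or.inl (D.cell_eq.1 hcell).1))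
    refine ⟨h1.1, ?_⟩
    have := h1.2.1
    rwa [h1.1] at this
  refine ⟨{y | D.cell (tau x0 - 1) y = D.cell (tau x0 - 1) x0}, ⟨x0, hx0G, rfl⟩, ?_, ?_, ?_⟩
  · by_contra hcon
    push Not at hcon
    have hall : ∀ g ∈ G, tau g = tau x0 ∧ D.cell (tau x0) g = D.cell (tau x0) x0 :=
      fun g hg => hclass' g hg (hcon g hg)
    have h2 := hlab (f (u a))
    rw [(hall _ (hfG (u a))).1, (hG _ (hfG (u a))).1] at h2
    exact h2 ⟨f, hf, rfl, fun s => by rw [(hall _ (hfG s)).2, (hall _ (hfG (u a))).2]⟩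
  · intro g hg hgZ
    have hnc : D.c (tau x0 - 1) g ≠ D.c (tau x0 - 1) x0 := by
      intro h
      have h1 := (hκ g x0).1 (hclass g hg (Or.inl h))
      have h2 := h1.2.1
      rw [h1.1] at h2
      exact hgZ (D.cell_ref_le (Nat.sub_le _ 1) h2)
    have hnr : D.r (tau x0 - 1) g ≠ D.r (tau x0 - 1) x0 := by
      intro h
      have h1 := (hκ g x0).1 (hclass g hg (Or.inr h))
      have h2 := h1.2.1
      rw [h1.1] at h2
      exact hgZ (D.cell_ref_le (Nat.sub_le _ 1) h2)
    constructor
    · rcases lt_or_gt_of_ne hnc with h | h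
      · left
        intro z hz
        have h1 := (D.cell_eq.1 (show D.cell (tau x0 - 1) z = D.cell (tau x0 - 1) x0 from hz)).1
        exact D.x_lt_of_c_lt (t := tau x0 - 1) (by rw [h1]; exact h)
      · right
        intro z hz
        have h1 := (D.cell_eq.1 (show D.cell (tau x0 - 1) z = D.cell (tau x0 - 1) x0 from hz)).1
        exact D.x_lt_of_c_lt (t := tau x0 - 1) (by rw [h1]; exact h)
    · rcases lt_or_gt_of_ne hnr with h | h
      · left
        intro z hz
        have h1 := (D.cell_eq.1 (show D.cell (tau x0 - 1) z = D.cell (tau x0 - 1) x0 from hz)).2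
        exact D.y_lt_of_r_lt (t := tau x0 - 1) (by rw [h1]; exact h)
      · right
        intro z hz
        have h1 := (D.cell_eq.1 (show D.cell (tau x0 - 1) z = D.cell (tau x0 - 1) x0 from hz)).2
        exact D.y_lt_of_r_lt (t := tau x0 - 1) (by rw [h1]; exact h)
  · intro x hxG hxZ b
    have h1 := hclass' x hxG hxZ
    obtain ⟨f', hf1, hf2, hf3⟩ := htau' x (tau x0 - 1) (by omega) b
    exact ⟨f', hf1, hf2, fun s => (hf3 s).trans hxZ⟩

end T1

end Helper43.Split
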